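import Pool.Agent.NEI.Defs
import Pool.Agent.NEK.Basic3

/-!
# Basic facts on `AtInv` (everything here is proved)

The automorphism `sg` of `ℚ(q,t)` with `sg q = t`, `sg t = q/t` maps the divisor `t = 1/q` to the divisor `q = 1`:
`AtInv x y ↔ AtOne (sg x) y` (`Inv.iff`), `LamAtInv F F1 ↔ LamAtOne (sL F) F1` (`Inv.lam_iff`), `sL = map sg`.
So all facts on `AtOne` (namespace `A1` in `Pool/Agent/NEK/Basic2.lean`) can be used.
-/

set_option autoImplicit false

namespace Pool.Agent.NEI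

open MvPolynomial Finset Pool.Agent.NEK

theorem qq_ne : (qq : K1) ≠ 0 := by
  have h : (Polynomial.X : Polynomial ℚ) ≠ 0 := Polynomial.X_ne_zero
  exact A1.iT_ne h

/-- `q ↦ q t`, `t ↦ q` on polynomials -/
noncomputable def psi : MvPolynomial (Fin 2) ℚ →ₐ[ℚ] MvPolynomial (Fin 2) ℚ :=
  aeval ![X 0 * X 1, X 0]

/-- `q ↦ t`, `t ↦ q / t` on polynomials -/
noncomputable def rho : MvPolynomial (Fin 2) ℚ →ₐ[ℚ] K := aeval ![t, q / t]

theorem psi_X0 : psi (X 0) = X 0 * X 1 := by rw [psi, aeval_X]; rfl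

theorem psi_X1 : psi (X 1) = X 0 := by rw [psi, aeval_X]; rfl

theorem rho_X0 : rho (X 0) = t := by rw [rho, aeval_X]; rfl

theorem rho_X1 : rho (X 1) = q / t := by rw [rho, aeval_X]; rfl

theorem t_ne : (t : K) ≠ 0 := A1.iK_ne (X_ne_zero _)

theorem q_ne : (q : K) ≠ 0 := A1.iK_ne (X_ne_zero _)

theorem rho_psi (p : MvPolynomial (Fin 2) ℚ) : rho (psi p) = A1.iK p := by
  have h : (rho.comp psi : MvPolynomial (Fin 2) ℚ →ₐ[ℚ] K) =
      (IsScalarTower.toAlgHom ℚ (MvPolynomial (Fin 2) ℚ) K) := by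
    apply MvPolynomial.algHom_ext
    intro i
    fin_cases i
    · change rho (psi (X 0)) = A1.iK (X 0)
      rw [psi_X0, map_mul, rho_X0, rho_X1]
      change t * (q / t) = q
      rw [mul_div_cancel₀ _ t_ne]
    · change rho (psi (X 1)) = A1.iK (X 1)
      rw [psi_X1, rho_X0]
      rfl
  exact congrArg (fun φ : MvPolynomial (Fin 2) ℚ →ₐ[ℚ] K => φ p) h

theorem psi_inj : Function.Injective psi := by
  intro a b h
  apply A1.iK_inj
  rw [← rho_psi, ← rho_psi, h]

/-- `q ↦ q t`, `t ↦ q` on `ℚ(q,t)` -/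
noncomputable def psiK : K →+* K :=
  IsFractionRing.lift (g := A1.iK.comp (psi : MvPolynomial (Fin 2) ℚ →+* MvPolynomial (Fin 2) ℚ))
    (A1.iK_inj.comp psi_inj)

theorem psiK_iK (p : MvPolynomial (Fin 2) ℚ) : psiK (A1.iK p) = A1.iK (psi p) :=
  IsFractionRing.lift_algebraMap _ p

theorem psiK_rho (p : MvPolynomial (Fin 2) ℚ) : psiK (rho p) = A1.iK p := by
  have h : ((psiK.toRatAlgHom).comp rho : MvPolynomial (Fin 2) ℚ →ₐ[ℚ] K) =
      (IsScalarTower.toAlgHom ℚ (MvPolynomial (Fin 2) ℚ) K) := by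
    apply MvPolynomial.algHom_ext
    intro i
    have ht : psiK t = q := by
      change psiK (A1.iK (X 1)) = A1.iK (X 0)
      rw [psiK_iK, psi_X1]
    have hq : psiK q = q * t := by
      change psiK (A1.iK (X 0)) = A1.iK (X 0) * A1.iK (X 1)
      rw [psiK_iK, psi_X0, map_mul]
    fin_cases i
    · change psiK (rho (X 0)) = A1.iK (X 0)
      rw [rho_X0, ht]
      rfl
    · change psiK (rho (X 1)) = A1.iK (X 1)
      rw [rho_X1, map_div₀, ht, hq, mul_div_cancel_left₀ _ q_ne]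
      rfl
  exact congrArg (fun φ : MvPolynomial (Fin 2) ℚ →ₐ[ℚ] K => φ p) h

theorem rho_inj : Function.Injective rho := by
  intro a b h
  apply A1.iK_inj
  rw [← psiK_rho, ← psiK_rho, h]

/-- `q ↦ t`, `t ↦ q / t` on `ℚ(q,t)` -/
noncomputable def sg : K →+* K :=
  IsFractionRing.lift (g := (rho : MvPolynomial (Fin 2) ℚ →+* K)) rho_inj

theorem sg_iK (p : MvPolynomial (Fin 2) ℚ) : sg (A1.iK p) = rho p :=
  IsFractionRing.lift_algebraMap _ p

theorem sg_q : sg q = t := (sg_iK (X 0)).trans rho_X0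

theorem sg_t : sg t = q / t := (sg_iK (X 1)).trans rho_X1

theorem psiK_sg (x : K) : psiK (sg x) = x := by
  obtain ⟨a, b, hb, rfl⟩ := IsFractionRing.div_surjective (A := MvPolynomial (Fin 2) ℚ) x
  have h1 : ∀ p, psiK (sg (algebraMap (MvPolynomial (Fin 2) ℚ) K p)) =
      algebraMap (MvPolynomial (Fin 2) ℚ) K p := by
    intro p
    have h2 : sg (algebraMap (MvPolynomial (Fin 2) ℚ) K p) = rho p := sg_iK p
    rw [h2, psiK_rho]
  rw [map_div₀, map_div₀, h1, h1]

theorem sg_psiK (x : K) : sg (psiK x) = x := by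
  obtain ⟨a, b, hb, rfl⟩ := IsFractionRing.div_surjective (A := MvPolynomial (Fin 2) ℚ) x
  have h1 : ∀ p, sg (psiK (algebraMap (MvPolynomial (Fin 2) ℚ) K p)) =
      algebraMap (MvPolynomial (Fin 2) ℚ) K p := by
    intro p
    have h2 : psiK (algebraMap (MvPolynomial (Fin 2) ℚ) K p) = A1.iK (psi p) := psiK_iK p
    rw [h2, sg_iK, rho_psi]
  rw [map_div₀, map_div₀, h1, h1]

theorem sg_inj : Function.Injective sg := fun a b h => by
  rw [← psiK_sg a, ← psiK_sg b, h]

theorem spI_psi (p : MvPolynomial (Fin 2) ℚ) : spI (psi p) = A1.iT (sp p) := by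
  have h : (spI.comp psi : MvPolynomial (Fin 2) ℚ →ₐ[ℚ] K1) =
      (IsScalarTower.toAlgHom ℚ (Polynomial ℚ) K1).comp sp := by
    apply MvPolynomial.algHom_ext
    intro i
    fin_cases i
    · change spI (psi (X 0)) = A1.iT (sp (X 0))
      have h1 : sp (X 0) = 1 := by rw [sp, aeval_X]; rfl
      have h2 : spI (X 0) = qq := by rw [spI, aeval_X]; rfl
      have h3 : spI (X 1) = qq⁻¹ := by rw [spI, aeval_X]; rfl
      rw [psi_X0, map_mul, h1, h2, h3, map_one, mul_inv_cancel₀ qq_ne]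
    · change spI (psi (X 1)) = A1.iT (sp (X 1))
      have h1 : sp (X 1) = Polynomial.X := by rw [sp, aeval_X]; rfl
      have h2 : spI (X 0) = qq := by rw [spI, aeval_X]; rfl
      rw [psi_X1, h1, h2]
      rfl
  exact congrArg (fun φ : MvPolynomial (Fin 2) ℚ →ₐ[ℚ] K1 => φ p) h

theorem hom_exists (p : MvPolynomial (Fin 2) ℚ) : ∃ N : ℕ, ∀ M, N ≤ M → ∃ p', psi p' = X 0 ^ M * p := by
  induction p using MvPolynomial.induction_on with
  | C c =>
    refine ⟨0, fun M _ => ⟨X 1 ^ M * C c, ?_⟩⟩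
    rw [map_mul, map_pow, psi_X1]
    congr 1
    exact psi.commutes c
  | add a b ha hb =>
    obtain ⟨N, hN⟩ := ha
    obtain ⟨N', hN'⟩ := hb
    refine ⟨max N N', fun M hM => ?_⟩
    obtain ⟨a', ha'⟩ := hN M ((le_max_left _ _).trans hM)
    obtain ⟨b', hb'⟩ := hN' M ((le_max_right _ _).trans hM)
    exact ⟨a' + b', by rw [map_add, ha', hb', mul_add]⟩
  | mul_X a i ha =>
    obtain ⟨N, hN⟩ := ha
    refine ⟨N + 1, fun M hM => ?_⟩
    fin_cases i
    · obtain ⟨a', ha'⟩ := hN M (by omega)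
      refine ⟨a' * X 1, ?_⟩
      rw [map_mul, ha', psi_X1, mul_assoc]
      rfl
    · obtain ⟨M', rfl⟩ : ∃ M', M = M' + 1 := ⟨M - 1, by omega⟩
      obtain ⟨a', ha'⟩ := hN M' (by omega)
      refine ⟨a' * X 0, ?_⟩
      rw [map_mul, ha', psi_X0]
      change X 0 ^ M' * a * (X 0 * X 1) = X 0 ^ (M' + 1) * (a * X 1)
      ring

namespace Inv

/-- regularity at `t = 1/q` and at `q = 1` -/
theorem iff {x : K} {y : K1} : AtInv x y ↔ AtOne (sg x) y := by
  constructor
  · rintro ⟨a, b, hb, h1, h2⟩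
    obtain ⟨N, hN⟩ := hom_exists a
    obtain ⟨N', hN'⟩ := hom_exists b
    obtain ⟨a', ha'⟩ := hN (max N N') (le_max_left _ _)
    obtain ⟨b', hb'⟩ := hN' (max N N') (le_max_right _ _)
    have k1 : ∀ p p' : MvPolynomial (Fin 2) ℚ, psi p' = X 0 ^ (max N N') * p →
        A1.iK p' = t ^ (max N N') * sg (A1.iK p) := by
      intro p p' h
      rw [← rho_psi, h, map_mul, map_pow, rho_X0, sg_iK]
    have k2 : ∀ p p' : MvPolynomial (Fin 2) ℚ, psi p' = X 0 ^ (max N N') * p →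
        A1.iT (sp p') = qq ^ (max N N') * spI p := by
      intro p p' h
      have h2 : spI (X 0) = qq := by rw [spI, aeval_X]; rfl
      rw [← spI_psi, h, map_mul, map_pow, h2]
    refine ⟨a', b', ?_, ?_, ?_⟩
    · intro h0
      have h3 := k2 b b' hb'
      rw [h0, map_zero] at h3
      exact mul_ne_zero (pow_ne_zero _ qq_ne) hb h3.symm
    · have h3 := congrArg sg h1
      rw [map_mul] at h3
      have h4 : A1.iK b' = _ := k1 b b' hb'
      have h5 : A1.iK a' = _ := k1 a a' ha'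
      change sg x * A1.iK b' = A1.iK a'
      rw [h4, h5]
      have h6 : sg x * sg (A1.iK b) = sg (A1.iK a) := h3
      rw [← h6]
      ring
    · change y * A1.iT (sp b') = A1.iT (sp a')
      rw [k2 b b' hb', k2 a a' ha', ← h2]
      ring
  · rintro ⟨a', b', hb', h1, h2⟩
    refine ⟨psi a', psi b', ?_, ?_, ?_⟩
    · rw [spI_psi]
      exact A1.iT_ne hb'
    · have h3 := congrArg psiK h1
      rw [map_mul, psiK_sg] at h3
      have h4 : psiK (algebraMap (MvPolynomial (Fin 2) ℚ) K b') = A1.iK (psi b') := psiK_iK b'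
      have h5 : psiK (algebraMap (MvPolynomial (Fin 2) ℚ) K a') = A1.iK (psi a') := psiK_iK a'
      rw [h4, h5] at h3
      exact h3
    · rw [spI_psi, spI_psi]
      exact h2

/-- the automorphism `sg` on the coefficients of symmetric functions -/
noncomputable def sL : Lam →+* Lam := MvPolynomial.map sg

theorem lam_iff {F : Lam} {F1 : Lam1} : LamAtInv F F1 ↔ LamAtOne (sL F) F1 := by
  refine forall_congr' fun d => ?_
  rw [iff, sL, coeff_map]

theorem unique {x : K} {y y' : K1} (h : AtInv x y) (h' : AtInv x y') : y = y' :=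
  A1.unique (iff.1 h) (iff.1 h')

theorem add {x x' : K} {y y' : K1} (h : AtInv x y) (h' : AtInv x' y') :
    AtInv (x + x') (y + y') := by
  rw [iff, map_add]; exact A1.add (iff.1 h) (iff.1 h')

theorem mul {x x' : K} {y y' : K1} (h : AtInv x y) (h' : AtInv x' y') :
    AtInv (x * x') (y * y') := by
  rw [iff, map_mul]; exact A1.mul (iff.1 h) (iff.1 h')

theorem zero : AtInv 0 0 := by rw [iff, map_zero]; exact A1.zero

theorem one : AtInv 1 1 := by rw [iff, map_one]; exact A1.one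

theorem neg {x : K} {y : K1} (h : AtInv x y) : AtInv (-x) (-y) := by
  rw [iff, map_neg]; exact A1.neg (iff.1 h)

theorem sub {x x' : K} {y y' : K1} (h : AtInv x y) (h' : AtInv x' y') :
    AtInv (x - x') (y - y') := by
  rw [iff, map_sub]; exact A1.sub (iff.1 h) (iff.1 h')

theorem rat (r : ℚ) : AtInv (algebraMap ℚ K r) (algebraMap ℚ K1 r) := by
  rw [iff]
  have h : sg (algebraMap ℚ K r) = algebraMap ℚ K r :=
    congrArg (fun φ : ℚ →+* K => φ r) (Subsingleton.elim (sg.comp (algebraMap ℚ K)) (algebraMap ℚ K))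
  rw [h]
  exact A1.rat r

theorem natCast (n : ℕ) : AtInv (n : K) (n : K1) := by
  rw [iff, map_natCast]; exact A1.natCast n

theorem inv {x : K} {y : K1} (h : AtInv x y) (hy : y ≠ 0) : AtInv x⁻¹ y⁻¹ := by
  rw [iff, map_inv₀]; exact A1.inv (iff.1 h) hy

theorem div {x x' : K} {y y' : K1} (h : AtInv x y) (h' : AtInv x' y') (hy : y' ≠ 0) :
    AtInv (x / x') (y / y') := by
  rw [iff, map_div₀]; exact A1.div (iff.1 h) (iff.1 h') hy

theorem pow {x : K} {y : K1} (h : AtInv x y) (n : ℕ) : AtInv (x ^ n) (y ^ n) := by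
  rw [iff, map_pow]; exact A1.pow (iff.1 h) n

theorem sum {α : Type*} (s : Finset α) {f : α → K} {g : α → K1} (h : ∀ i ∈ s, AtInv (f i) (g i)) :
    AtInv (∑ i ∈ s, f i) (∑ i ∈ s, g i) := by
  rw [iff, map_sum]; exact A1.sum s fun i hi => iff.1 (h i hi)

theorem prod {α : Type*} (s : Finset α) {f : α → K} {g : α → K1}
    (h : ∀ i ∈ s, AtInv (f i) (g i)) : AtInv (∏ i ∈ s, f i) (∏ i ∈ s, g i) := by
  rw [iff, map_prod]; exact A1.prod s fun i hi => iff.1 (h i hi)

theorem q_qq : AtInv q qq := by rw [iff, sg_q]; exact A1.t_t1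

theorem t_inv : AtInv t qq⁻¹ := by
  rw [iff, sg_t]
  have h := A1.div A1.q_one A1.t_t1 qq_ne
  rwa [one_div] at h

theorem lam_add {F G : Lam} {F1 G1 : Lam1} (h : LamAtInv F F1) (h' : LamAtInv G G1) :
    LamAtInv (F + G) (F1 + G1) := by
  rw [lam_iff, map_add]; exact A1.lam_add (lam_iff.1 h) (lam_iff.1 h')

theorem lam_sub {F G : Lam} {F1 G1 : Lam1} (h : LamAtInv F F1) (h' : LamAtInv G G1) :
    LamAtInv (F - G) (F1 - G1) := by
  rw [lam_iff, map_sub]; exact A1.lam_sub (lam_iff.1 h) (lam_iff.1 h')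

theorem lam_mul {F G : Lam} {F1 G1 : Lam1} (h : LamAtInv F F1) (h' : LamAtInv G G1) :
    LamAtInv (F * G) (F1 * G1) := by
  rw [lam_iff, map_mul]; exact A1.lam_mul (lam_iff.1 h) (lam_iff.1 h')

theorem sL_smul (x : K) (F : Lam) : sL (x • F) = sg x • sL F := by
  rw [MvPolynomial.smul_eq_C_mul, MvPolynomial.smul_eq_C_mul, map_mul, sL, map_C]

theorem lam_smul {x : K} {y : K1} (hx : AtInv x y) {F : Lam} {F1 : Lam1} (h : LamAtInv F F1) :
    LamAtInv (x • F) (y • F1) := by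
  rw [lam_iff, sL_smul]; exact A1.lam_smul (iff.1 hx) (lam_iff.1 h)

theorem lam_C {x : K} {y : K1} (hx : AtInv x y) : LamAtInv (C x) (C y) := by
  rw [lam_iff, sL, map_C]; exact A1.lam_C (iff.1 hx)

theorem lam_X (i : ℕ) : LamAtInv (X i) (X i) := by
  rw [lam_iff, sL, map_X]; exact A1.lam_X i

theorem lam_zero : LamAtInv 0 0 := by rw [lam_iff, map_zero]; exact A1.lam_zero

theorem lam_one : LamAtInv 1 1 := by rw [lam_iff, map_one]; exact A1.lam_one

theorem lam_sum {α : Type*} (s : Finset α) {f : α → Lam} {g : α → Lam1}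
    (h : ∀ i ∈ s, LamAtInv (f i) (g i)) : LamAtInv (∑ i ∈ s, f i) (∑ i ∈ s, g i) := by
  rw [lam_iff, map_sum]; exact A1.lam_sum s fun i hi => lam_iff.1 (h i hi)

theorem lam_unique {F : Lam} {F1 F1' : Lam1} (h : LamAtInv F F1) (h' : LamAtInv F F1') :
    F1 = F1' := A1.lam_unique (lam_iff.1 h) (lam_iff.1 h')

theorem lam_hN {P : ℕ → Lam} {P1 : ℕ → Lam1} (h : ∀ k, LamAtInv (P k) (P1 k)) (n : ℕ) :
    LamAtInv (hN P n) (hN P1 n) := by
  rw [lam_iff, (HNB.hm _ _ sL P).1 n]; exact A1.lam_hN (fun k => lam_iff.1 (h k)) n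

theorem lam_eN {P : ℕ → Lam} {P1 : ℕ → Lam1} (h : ∀ k, LamAtInv (P k) (P1 k)) (n : ℕ) :
    LamAtInv (eN P n) (eN P1 n) := by
  rw [lam_iff, (HNB.hm _ _ sL P).2.1 n]; exact A1.lam_eN (fun k => lam_iff.1 (h k)) n

theorem lam_sN {P : ℕ → Lam} {P1 : ℕ → Lam1} (h : ∀ k, LamAtInv (P k) (P1 k)) (l : List ℕ) :
    LamAtInv (sN P l) (sN P1 l) := by
  rw [lam_iff, (HNB.hm _ _ sL P).2.2 l]; exact A1.lam_sN (fun k => lam_iff.1 (h k)) l

theorem sN_atInv {P : ℕ → K} {P1 : ℕ → K1} (h : ∀ k, AtInv (P k) (P1 k)) (l : List ℕ) :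
    AtInv (sN P l) (sN P1 l) := by
  rw [iff, (HNB.hm _ _ sg P).2.2 l]; exact A1.sN_atOne (fun k => iff.1 (h k)) l

theorem sL_sch (l : List ℕ) : sL (sch l) = sch l := by
  rw [sch, (HNB.hm _ _ sL _).2.2 l]
  congr 1
  funext i
  rw [sL, map_X]

theorem sL_plX (a : ℕ → K) (F : Lam) : sL (plX a F) = plX (fun i => sg (a i)) (sL F) := by
  rw [plX_eq, plX_eq]
  ext d
  rw [sL, coeff_map, coeff_plG, coeff_plG, map_mul, coeff_map]
  congr 1
  rw [Finsupp.prod, Finsupp.prod, map_prod]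
  exact Finset.prod_congr rfl fun i _ => map_pow _ _ _

theorem sL_span (S : List ℕ → Prop) {F : Lam} (h : F ∈ Submodule.span K {f | ∃ l, S l ∧ f = sch l}) :
    sL F ∈ Submodule.span K {f | ∃ l, S l ∧ f = sch l} := by
  refine Submodule.span_induction (p := fun x _ =>
    sL x ∈ Submodule.span K {f | ∃ l, S l ∧ f = sch l}) ?_ ?_ ?_ ?_ h
  · rintro x ⟨l, hl, rfl⟩
    rw [sL_sch]
    exact Submodule.subset_span ⟨l, hl, rfl⟩
  · rw [map_zero]; exact Submodule.zero_mem _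
  · intro x y _ _ hx hy
    rw [map_add]; exact Submodule.add_mem _ hx hy
  · intro a x _ hx
    rw [sL_smul]; exact Submodule.smul_mem _ _ hx

theorem sL_ne {F : Lam} (h : F ≠ 0) : sL F ≠ 0 := by
  intro h0
  apply h
  apply MvPolynomial.map_injective sg sg_inj
  rw [map_zero]
  exact h0

theorem sL_hom {F : Lam} {n : ℕ} (h : IsWeightedHomogeneous wt F n) :
    IsWeightedHomogeneous wt (sL F) n := by
  intro d hd
  apply h
  intro h0
  apply hd
  rw [sL, coeff_map, h0, map_zero]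

/-- evaluation with regular values -/
theorem ev_atInv {a : ℕ → K} {b : ℕ → K1} (h : ∀ k, AtInv (a k) (b k)) {F : Lam}
    {F1 : Lam1} (hF : LamAtInv F F1) : AtInv (aeval a F) (aeval b F1) := by
  rw [iff]
  have e : sg (aeval a F) = aeval (fun k => sg (a k)) (sL F) := by
    have : sg.comp ((aeval a : Lam →ₐ[K] K) : Lam →+* K) =
        ((aeval (fun k => sg (a k)) : Lam →ₐ[K] K) : Lam →+* K).comp sL := by
      apply MvPolynomial.ringHom_ext
      · intro r
        simp [sL]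
      · intro i
        simp [sL]
    exact congrArg (fun φ => φ F) this
  rw [e]
  exact A1.ev_atOne (fun k => iff.1 (h k)) (lam_iff.1 hF)

end Inv

end Pool.Agent.NEI
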