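import Pool.Agent.NEI.Stmts

/-!
# Two identities for words (module CCS)
-/

set_option autoImplicit false

namespace Pool.Agent.NEI

open Finset MvPolynomial Pool.Agent.NEK

namespace CCSAux

variable {N : ℕ}

/-- the last term of the recursion of `cc` -/
noncomputable def cp (M : ℕ) (r : Fin N) (w : List (Fin N)) : K1 :=
  if des (r :: w) ≤ M then qq ^ mjh w * gB (M - des (r :: w)) w.length else 0

theorem cc_succ (M : ℕ) (r : Fin N) (w : List (Fin N)) :
    cc (M + 1) (r :: w) = cc M (r :: w) + qq ^ M * cp M r w := by
  have hm : mjh (r :: w) = mjh w + des (r :: w) := rfl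
  simp only [cc, cp, hm]
  rcases lt_trichotomy (des (r :: w)) M with h | h | h
  · obtain ⟨a, ha⟩ : ∃ a, M = des (r :: w) + (a + 1) := ⟨M - 1 - des (r :: w), by omega⟩
    rw [if_pos (by omega), if_pos h, if_pos h.le]
    have e1 : M + 1 - 1 - des (r :: w) = a + 1 := by omega
    have e2 : M - 1 - des (r :: w) = a := by omega
    have e3 : M - des (r :: w) = a + 1 := by omega
    rw [e1, e2, e3, gB_ss]
    have e4 : qq ^ M = qq ^ des (r :: w) * qq ^ (a + 1) := by
      conv_lhs => rw [ha]
      rw [pow_add]
    rw [e4, pow_add]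
    ring
  · rw [if_pos (by omega), if_neg (by omega), if_pos h.le]
    have e1 : M + 1 - 1 - des (r :: w) = 0 := by omega
    have e3 : M - des (r :: w) = 0 := by omega
    rw [e1, e3, gB_0r, gB_0r, h, pow_add]
    ring
  · rw [if_neg (by omega), if_neg (by omega), if_neg (by omega)]
    ring

theorem cp_nil (M : ℕ) (r : Fin N) : cp M r [] = 1 := by
  simp [cp, des, mjh, gB_r0]

theorem cp_desc (M : ℕ) {r r' : Fin N} (w : List (Fin N)) (h : r' < r) :
    cp M r (r' :: w) = cc M (r' :: w) := by
  have hd : des (r :: r' :: w) = des (r' :: w) + 1 := by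
    simp [des, h]
  simp only [cp, cc, hd]
  by_cases h1 : des (r' :: w) < M
  · rw [if_pos (by omega), if_pos h1, List.length_cons]
    have : M - (des (r' :: w) + 1) = M - 1 - des (r' :: w) := by omega
    rw [this]
  · rw [if_neg (by omega), if_neg h1]

theorem cp_asc (M : ℕ) {r r' : Fin N} (w : List (Fin N)) (h : r ≤ r') :
    cp M r (r' :: w) = cc (M + 1) (r' :: w) := by
  have hd : des (r :: r' :: w) = des (r' :: w) := by
    simp [des, not_lt.mpr h]
  simp only [cp, cc, hd]
  by_cases h1 : des (r' :: w) ≤ M
  · rw [if_pos h1, if_pos (by omega), List.length_cons]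
    have : M + 1 - 1 - des (r' :: w) = M - des (r' :: w) := by omega
    rw [this]
  · rw [if_neg h1, if_neg (by omega)]

theorem tm_cp (M : ℕ) (r : Fin N) (w : List (Fin N)) :
    tm 0 (M + 1) (r :: w) = qq ^ w.length * cp M r w := by
  simp only [tm, cp]
  by_cases h1 : des (r :: w) ≤ M
  · rw [if_pos ⟨by omega, Nat.zero_le _⟩, if_pos h1]
    have : M + 1 - 1 - des (r :: w) = M - des (r :: w) := by omega
    rw [this, zero_mul, add_zero, Nat.sub_zero, pow_add]
    ring
  · rw [if_neg (by omega), if_neg h1, mul_zero]

/-- weakly increasing initial segments, no descent at the head -/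
theorem pw_asc {r r' : Fin N} (w : List (Fin N)) (h : r ≤ r') (b : ℕ) :
    (r :: (r' :: w).take b).Pairwise (· ≤ ·) ↔ ((r' :: w).take b).Pairwise (· ≤ ·) := by
  cases b with
  | zero => simp
  | succ b =>
    rw [List.take_succ_cons, List.pairwise_cons]
    constructor
    · exact fun hh => hh.2
    · intro hh
      refine ⟨?_, hh⟩
      intro a ha
      rw [List.pairwise_cons] at hh
      rcases List.mem_cons.mp ha with rfl | ha'
      · exact h
      · exact h.trans (hh.1 a ha')

/-- weakly increasing initial segments, descent at the head -/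
theorem pw_desc {r r' : Fin N} (w : List (Fin N)) (h : r' < r) (b : ℕ) :
    ¬ (r :: (r' :: w).take (b + 1)).Pairwise (· ≤ ·) := by
  rw [List.take_succ_cons, List.pairwise_cons]
  intro hh
  exact absurd (hh.1 r' List.mem_cons_self) (not_le.mpr h)

open Classical in
theorem first (M : ℕ) (v : List (Fin N)) :
    cc (M + 1) v = ∑ b ∈ range (v.length + 1),
    (if (v.take b).Pairwise (· ≤ ·) then qq ^ (M * b) * cc M (v.drop b) else 0) := by
  induction v with
  | nil => simp [cc]
  | cons r w ih =>
    rw [List.length_cons, sum_range_succ', cc_succ, add_comm]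
    congr 1
    · simp only [List.take_succ_cons, List.drop_succ_cons]
      cases w with
      | nil => simp [cp_nil, cc]
      | cons r' w =>
        rcases lt_or_ge r' r with h | h
        · rw [cp_desc M w h, sum_range_succ']
          have h0 : ∀ b ∈ range (r' :: w).length,
              (if (r :: (r' :: w).take (b + 1)).Pairwise (· ≤ ·) then
                qq ^ (M * (b + 1 + 1)) * cc M ((r' :: w).drop (b + 1)) else 0) = (0 : K1) :=
            fun b _ => if_neg (pw_desc w h b)
          rw [sum_eq_zero h0]
          simp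
        · rw [cp_asc M w h, ih, mul_sum]
          refine sum_congr rfl (fun b _ => ?_)
          by_cases hb : ((r' :: w).take b).Pairwise (· ≤ ·)
          · rw [if_pos hb, if_pos ((pw_asc w h b).mpr hb), mul_add, mul_one, pow_add]
            ring
          · rw [if_neg hb, if_neg (fun hh => hb ((pw_asc w h b).mp hh)), mul_zero]
    · simp

open Classical in
/-- the second sum, with the term `b = 0` -/
theorem icc_range (M : ℕ) (v : List (Fin N)) :
    ∑ b ∈ Icc 1 v.length, (if (v.take b).Pairwise (· ≤ ·) then
      (1 - qq ^ ((M + 1) * b)) * qq ^ (v.length - b) * cc M (v.drop b) else 0) =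
    ∑ b ∈ range (v.length + 1), (if (v.take b).Pairwise (· ≤ ·) then
      (1 - qq ^ ((M + 1) * b)) * qq ^ (v.length - b) * cc M (v.drop b) else 0) := by
  apply sum_subset
  · intro b hb
    rw [mem_Icc] at hb
    rw [mem_range]
    omega
  · intro b hb hb'
    rw [mem_Icc] at hb'
    rw [mem_range] at hb
    have : b = 0 := by omega
    subst this
    simp

open Classical in
theorem second (M : ℕ) (v : List (Fin N)) (hv : v ≠ []) :
    ∑ b ∈ Icc 1 v.length, (if (v.take b).Pairwise (· ≤ ·) then
      (1 - qq ^ ((M + 1) * b)) * qq ^ (v.length - b) * cc M (v.drop b) else 0) =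
    (1 - qq ^ (M + 1)) * kap 0 (M + 1) v := by
  induction v with
  | nil => exact absurd rfl hv
  | cons r w ih =>
    rw [icc_range, List.length_cons, sum_range_succ']
    have h00 : (if ((r :: w).take 0).Pairwise (· ≤ ·) then
        (1 - qq ^ ((M + 1) * 0)) * qq ^ (w.length + 1 - 0) * cc M ((r :: w).drop 0) else 0) =
        (0 : K1) := by
      simp
    rw [h00, add_zero]
    simp only [List.take_succ_cons, List.drop_succ_cons, Nat.add_sub_add_right]
    cases w with
    | nil =>
      have h1 : kap 0 (M + 1) [r] = 1 := by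
        show tm 0 (M + 1) [r] = 1
        rw [tm_cp, cp_nil]
        simp
      rw [h1]
      simp [cc]
    | cons r' w =>
      rcases lt_or_ge r' r with h | h
      · have h1 : kap 0 (M + 1) (r :: r' :: w) = qq ^ (r' :: w).length * cc M (r' :: w) := by
          show tm 0 (M + 1) (r :: r' :: w) + (if r ≤ r' then kap 0 (M + 1) (r' :: w) else 0) = _
          rw [if_neg (not_le.mpr h), add_zero, tm_cp, cp_desc M w h]
        rw [h1, sum_range_succ']
        have h0 : ∀ b ∈ range (r' :: w).length,
            (if (r :: (r' :: w).take (b + 1)).Pairwise (· ≤ ·) then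
              (1 - qq ^ ((M + 1) * (b + 1 + 1))) * qq ^ ((r' :: w).length - (b + 1)) *
                cc M ((r' :: w).drop (b + 1)) else 0) = (0 : K1) :=
          fun b _ => if_neg (pw_desc w h b)
        rw [sum_eq_zero h0]
        simp
        ring
      · have h1 : kap 0 (M + 1) (r :: r' :: w) =
            qq ^ (r' :: w).length * cc (M + 1) (r' :: w) + kap 0 (M + 1) (r' :: w) := by
          show tm 0 (M + 1) (r :: r' :: w) + (if r ≤ r' then kap 0 (M + 1) (r' :: w) else 0) = _
          rw [if_pos h, tm_cp, cp_asc M w h]
        have ih' := ih (List.cons_ne_nil r' w)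
        rw [icc_range] at ih'
        rw [h1, mul_add, ← ih', first M (r' :: w), mul_sum, mul_sum, ← sum_add_distrib]
        refine sum_congr rfl (fun b hb => ?_)
        rw [mem_range] at hb
        by_cases hbb : ((r' :: w).take b).Pairwise (· ≤ ·)
        · rw [if_pos hbb, if_pos hbb, if_pos ((pw_asc w h b).mpr hbb)]
          obtain ⟨c, hc⟩ : ∃ c, (r' :: w).length = b + c := ⟨(r' :: w).length - b, by omega⟩
          rw [hc]
          have e1 : b + c - b = c := by omega
          rw [e1]
          have e2 : (M + 1) * (b + 1) = (M + 1) * b + (M + 1) := by ring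
          have e3 : qq ^ ((M + 1) * b) = qq ^ (M * b) * qq ^ b := by
            rw [← pow_add]
            congr 1
            ring
          rw [e2, pow_add, pow_add qq b c, e3]
          ring
        · rw [if_neg hbb, if_neg hbb, if_neg (fun hh => hbb ((pw_asc w h b).mp hh))]
          ring

end CCSAux

theorem t_CCS : I_CCS := by
  intro N M v
  refine ⟨?_, ?_⟩
  · rw [CCSAux.first M v]
  · intro hv
    exact CCSAux.second M v hv

end Pool.Agent.NEI
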