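import Pool.Agent.NEI.Stmts

/-!
# The coefficients of `s_λ(1, X, …, X^{n-1})`
-/

set_option autoImplicit false

namespace Pool.Agent.NEI

open Finset MvPolynomial Pool.Agent.NEK

namespace CFMAux

/-- complete functions of finitely many elements -/
theorem hN_sum {R : Type} [CommRing R] [Algebra ℚ R] {ι : Type} [DecidableEq ι] (y : ι → R)
    (s : Finset ι) : ∀ m : ℕ, hN (fun k => ∑ b ∈ s, y b ^ (k + 1)) m =
      ∑ c ∈ s.piAntidiag m, ∏ b ∈ s, y b ^ c b := by
  induction s using Finset.cons_induction with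
  | empty =>
    intro m
    simp only [sum_empty, prod_empty]
    rw [(HNB.hs R (fun _ => 0) 0 m).2.2.1]
    rcases Nat.eq_zero_or_pos m with h | h
    · subst h
      simp
    · rw [if_neg h.ne', Finset.piAntidiag_empty_of_ne_zero h.ne', sum_empty]
  | cons i s hi ih =>
    intro m
    have h1 : (fun k => ∑ b ∈ cons i s hi, y b ^ (k + 1)) =
        fun k => y i ^ (k + 1) + ∑ b ∈ s, y b ^ (k + 1) := by
      funext k
      rw [sum_cons]
    rw [h1, HNB.ha R, piAntidiag_cons, sum_disjiUnion]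
    refine sum_congr rfl fun p _ => ?_
    rw [(HNB.hs R (fun _ => 0) (y i) p.1).2.1, ih, sum_map, mul_sum]
    refine sum_congr rfl fun t ht => ?_
    rw [prod_cons]
    rw [mem_piAntidiag] at ht
    have hti : t i = 0 := by
      by_contra h
      exact hi (ht.2 i h)
    congr 1
    · simp [hti]
    · refine prod_congr rfl fun b hb => ?_
      have hbi : b ≠ i := by
        rintro rfl
        exact hi hb
      simp [hbi]

/-- complete functions of `1, X, …, X^{n-1}` -/
theorem hN_PX (n m : ℕ) : hN (PX n) m =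
    ∑ c ∈ (univ : Finset (Fin n)).piAntidiag m,
      (Polynomial.X : Polynomial ℚ) ^ (∑ b : Fin n, (b : ℕ) * c b) := by
  have h1 : PX n = fun k => ∑ b : Fin n, ((Polynomial.X : Polynomial ℚ) ^ (b : ℕ)) ^ (k + 1) := by
    funext k
    unfold PX
    rw [Finset.sum_range]
  rw [h1, hN_sum]
  refine sum_congr rfl fun c _ => ?_
  rw [← prod_pow_eq_pow_sum]
  refine prod_congr rfl fun b _ => ?_
  rw [pow_mul]

theorem coeff_prod_hN (n r : ℕ) (α : Fin r → ℕ) (i : ℕ) :
    (∏ a, hN (PX n) (α a)).coeff i =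
      ((((Fintype.piFinset fun a => (univ : Finset (Fin n)).piAntidiag (α a)).filter
        (fun N => ∑ b : Fin n, (b : ℕ) * ∑ a, N a b = i)).card : ℕ) : ℚ) := by
  simp only [hN_PX]
  rw [prod_univ_sum, Polynomial.finsetSum_coeff, card_filter, Nat.cast_sum]
  refine sum_congr rfl fun N _ => ?_
  rw [prod_pow_eq_pow_sum, Polynomial.coeff_X_pow]
  have h1 : ∑ a : Fin r, ∑ b : Fin n, (b : ℕ) * N a b = ∑ b : Fin n, (b : ℕ) * ∑ a, N a b := by
    rw [sum_comm]
    refine sum_congr rfl fun b _ => ?_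
    rw [mul_sum]
  rw [h1]
  by_cases h : ∑ b : Fin n, (b : ℕ) * ∑ a, N a b = i
  · rw [if_pos h.symm, if_pos h, Nat.cast_one]
  · rw [if_neg (fun h' => h h'.symm), if_neg h, Nat.cast_zero]

theorem sum_alpha {r : ℕ} (lam : Fin r → ℕ) (w : Equiv.Perm (Fin r)) (α : Fin r → ℕ)
    (h : pw lam w α) : ∑ a, α a = ∑ a, lam a := by
  have h1 : ((∑ a, α a : ℕ) : ℤ) = ((∑ a, lam a : ℕ) : ℤ) := by
    push_cast
    have h2 : ∑ a, (α a : ℤ) = ∑ a, ((lam a : ℤ) - ((a : ℕ) : ℤ) + ((w a : ℕ) : ℤ)) :=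
      sum_congr rfl fun a _ => h a
    rw [h2, sum_add_distrib, sum_sub_distrib, Equiv.sum_comp w (fun a => ((a : ℕ) : ℤ))]
    ring
  exact_mod_cast h1

theorem NC_eq {r : ℕ} (n m : ℕ) (lam : Fin r → ℕ) (hm : ∑ a, lam a = m) (w : Equiv.Perm (Fin r))
    (α : Fin r → ℕ) (h : pw lam w α) (i : ℕ) :
    NC m (Fin r) (Fin n) (pw lam w) (wp n i) =
      ((Fintype.piFinset fun a => (univ : Finset (Fin n)).piAntidiag (α a)).filter
        (fun N => ∑ b : Fin n, (b : ℕ) * ∑ a, N a b = i)).card := by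
  unfold NC
  refine Nat.subtype_card _ ?_
  intro N
  rw [mem_filter, Fintype.mem_piFinset]
  constructor
  · rintro ⟨h1, h2⟩
    have h3 : ∀ a, ∑ b, N a b = α a := fun a => (mem_piAntidiag.mp (h1 a)).1
    refine ⟨?_, ?_, h2⟩
    · simp only [h3]
      rw [sum_alpha lam w α h, hm]
    · simp only [h3]
      exact h
  · rintro ⟨_, h2, h3⟩
    refine ⟨?_, h3⟩
    intro a
    rw [mem_piAntidiag]
    refine ⟨?_, fun _ _ => mem_univ _⟩
    have h4 := h2 a
    have h5 := h a
    have h6 : ((∑ b, N a b : ℕ) : ℤ) = (α a : ℤ) := by rw [h4, h5]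
    exact_mod_cast h6

end CFMAux

theorem t_CFM : I_CFM := by
  intro n m lam hlam i
  have hm : ∑ a : Fin lam.length, lam.get a = m := by
    rw [← hlam.2.2, ← List.sum_ofFn, List.ofFn_get]
  unfold sN
  rw [← Matrix.det_transpose, Matrix.det_apply', Polynomial.finsetSum_coeff]
  refine sum_congr rfl fun w _ => ?_
  rw [Polynomial.coeff_intCast_mul]
  congr 1
  have h0 : ∀ a : Fin lam.length, (Matrix.of fun i j : Fin lam.length =>
      hZ (PX n) ((lam.get i : ℤ) - (i : ℤ) + (j : ℤ))).transpose (w a) a =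
      hZ (PX n) ((lam.get a : ℤ) - ((a : ℕ) : ℤ) + ((w a : ℕ) : ℤ)) := fun a => rfl
  simp only [h0]
  by_cases hneg : ∀ a : Fin lam.length,
      0 ≤ (lam.get a : ℤ) - ((a : ℕ) : ℤ) + ((w a : ℕ) : ℤ)
  · have h1 : pw lam.get w
        (fun a => ((lam.get a : ℤ) - ((a : ℕ) : ℤ) + ((w a : ℕ) : ℤ)).toNat) := by
      intro a
      exact Int.toNat_of_nonneg (hneg a)
    rw [CFMAux.NC_eq n m lam.get hm w _ h1 i, ← CFMAux.coeff_prod_hN]
    congr 1
    refine prod_congr rfl fun a _ => ?_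
    unfold hZ
    rw [if_pos (hneg a)]
  · push Not at hneg
    obtain ⟨a, ha⟩ := hneg
    rw [prod_eq_zero (mem_univ a) (by unfold hZ; rw [if_neg (not_le.mpr ha)]),
      Polynomial.coeff_zero]
    unfold NC
    have h2 : IsEmpty {N : Fin lam.length → Fin n → ℕ // (∑ x, ∑ y, N x y = m) ∧
        pw lam.get w (fun x => ∑ y, N x y) ∧ wp n i (fun y => ∑ x, N x y)} := by
      refine ⟨?_⟩
      rintro ⟨N, _, h3, _⟩
      have h4 := h3 a
      rw [← h4] at ha
      omega
    rw [Nat.card_of_isEmpty, Nat.cast_zero]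

end Pool.Agent.NEI
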