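import Pool.Agent.NEI.Stmts

/-!
# Conjugation of functions and strips (module DJ1)
-/

set_option autoImplicit false

namespace Pool.Agent.NEI

open MvPolynomial Finset Pool.Agent.NEK

namespace DJ1Aux

variable {N : ℕ}

theorem lt_cj {lam : Fin N → ℕ} (h : Antitone lam) (i j : Fin N) :
    (i : ℕ) < cj lam j ↔ (j : ℕ) < lam i := by
  unfold cj
  constructor
  · intro hi
    by_contra hj
    have hsub : (univ.filter fun i' => (j : ℕ) < lam i') ⊆ Iio i := by
      intro i' hi'
      rw [mem_filter] at hi'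
      rw [mem_Iio]
      by_contra hc
      exact hj (lt_of_lt_of_le hi'.2 (h (not_lt.1 hc)))
    have := card_le_card hsub
    rw [Fin.card_Iio] at this
    omega
  · intro hj
    have hsub : Iic i ⊆ (univ.filter fun i' => (j : ℕ) < lam i') := by
      intro i' hi'
      rw [mem_Iic] at hi'
      rw [mem_filter]
      exact ⟨mem_univ _, lt_of_lt_of_le hj (h hi')⟩
    have := card_le_card hsub
    rw [Fin.card_Iic] at this
    omega

theorem cj_anti (lam : Fin N → ℕ) : Antitone (cj lam) := by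
  intro j j' hjj
  unfold cj
  apply card_le_card
  intro i hi
  rw [mem_filter] at hi ⊢
  have h1 : (j : ℕ) ≤ j' := hjj
  exact ⟨hi.1, lt_of_le_of_lt h1 hi.2⟩

theorem card_lt {m : ℕ} (hm : m ≤ N) : (univ.filter fun j : Fin N => (j : ℕ) < m).card = m := by
  have h1 : (univ.filter fun j : Fin N => (j : ℕ) < m).map Fin.valEmbedding = range m := by
    ext x
    simp only [mem_map, mem_filter, mem_univ, true_and, Fin.valEmbedding_apply, mem_range]
    constructor
    · rintro ⟨a, ha, rfl⟩
      exact ha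
    · intro hx
      exact ⟨⟨x, by omega⟩, hx, rfl⟩
  rw [← card_map Fin.valEmbedding, h1, card_range]

theorem le_N {lam : Fin N → ℕ} (hs : ∑ i, lam i ≤ N) (i : Fin N) : lam i ≤ N :=
  (single_le_sum (f := lam) (fun _ _ => Nat.zero_le _) (mem_univ i)).trans hs

theorem sum_cj {lam : Fin N → ℕ} (hs : ∑ i, lam i ≤ N) : ∑ j, cj lam j = ∑ i, lam i := by
  unfold cj
  simp only [card_filter]
  rw [sum_comm]
  apply sum_congr rfl
  intro i _
  rw [← card_filter]
  exact card_lt (le_N hs i)

theorem cj_cj {lam : Fin N → ℕ} (h : Antitone lam) (hs : ∑ i, lam i ≤ N) : cj (cj lam) = lam := by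
  funext i
  have h1 : cj (cj lam) i = (univ.filter fun j : Fin N => (j : ℕ) < lam i).card := by
    show (univ.filter fun j : Fin N => (i : ℕ) < cj lam j).card = _
    congr 1
    ext j
    simp only [mem_filter, mem_univ, true_and]
    exact lt_cj h i j
  rw [h1, card_lt (le_N hs i)]

theorem cj_mono {lam κ : Fin N → ℕ} (h : ∀ i, lam i ≤ κ i) (j : Fin N) : cj lam j ≤ cj κ j := by
  unfold cj
  apply card_le_card
  intro i hi
  rw [mem_filter] at hi ⊢
  exact ⟨hi.1, lt_of_lt_of_le hi.2 (h i)⟩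

end DJ1Aux

open DJ1Aux in
theorem t_DJ1 : I_DJ1 := by
  intro N lam κ hl hk sl sk
  refine ⟨cj_anti lam, sum_cj sl, cj_cj hl sl, ?_, ?_⟩
  · intro h
    refine ⟨cj_mono fun i => (h i).1, ?_⟩
    intro i j hij
    unfold cj
    apply card_le_card
    intro a ha
    rw [mem_filter] at ha ⊢
    have h1 := (h a).2
    exact ⟨ha.1, by omega⟩
  · rintro ⟨h1, h2⟩ i
    have e1 := cj_cj hl sl
    have e2 := cj_cj hk sk
    have h3 : lam i ≤ κ i := by
      rw [← e1, ← e2]
      exact cj_mono h1 i
    refine ⟨h3, ?_⟩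
    by_contra hc
    have hN := le_N sk i
    have hj : lam i + 1 < N := by omega
    have h4 := h2 ⟨lam i, by omega⟩ ⟨lam i + 1, hj⟩ rfl
    have h5 : (i : ℕ) < cj κ ⟨lam i + 1, hj⟩ := (lt_cj hk i _).2 (by show lam i + 1 < κ i; omega)
    have h6 : ¬ (i : ℕ) < cj lam ⟨lam i, by omega⟩ := by
      rw [lt_cj hl]
      show ¬ lam i < lam i
      exact lt_irrefl _
    omega

end Pool.Agent.NEI
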