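import Pool.Agent.NEI.Stmts

/-!
# The involution `ω` on Schur functions of functions
-/

set_option autoImplicit false

namespace Pool.Agent.NEI

open Finset MvPolynomial Pool.Agent.NEK

namespace DJ2Aux

theorem om_X1 (k : ℕ) : om (X1 k) = (-1 : Lam1) ^ k * X1 k := by
  rw [om, plG, X1, aeval_X, map_pow, map_neg, map_one]

theorem npk {R : Type} [CommRing R] (k : ℕ) : ((-1 : R) ^ k) * (-1) ^ k = 1 := by
  rw [← mul_pow, neg_mul_neg, one_mul, one_pow]

/-- `ω e_m = h_m` -/
theorem om_eN (m : ℕ) : om (eN X1 m) = hN X1 m := by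
  have h1 := (HNB.hm Lam1 Lam1 (om : Lam1 →+* Lam1) X1).2.1 m
  have h2 : (om : Lam1 →+* Lam1) (eN X1 m) = om (eN X1 m) := rfl
  rw [← h2, h1]
  refine HNB.eu Lam1 _ (hN X1) (by rw [hN]) ?_ m
  intro n
  rw [HNB.hr]
  refine Finset.sum_congr rfl fun k _ => ?_
  have h3 : (om : Lam1 →+* Lam1) (X1 k) = (-1 : Lam1) ^ k * X1 k := om_X1 k
  have h4 : ((-1 : Lam1) ^ k) * ((-1 : Lam1) ^ k) = 1 := npk k
  rw [h3, ← mul_assoc ((-1 : Lam1) ^ k), h4, one_mul]

/-- the strips: `κ` antitone, `κ / lam` a horizontal strip with `m` cells -/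
noncomputable def HS (n m : ℕ) (lam : Fin (n + 1) → ℕ) : Finset (Fin (n + 1) → ℕ) :=
  @Finset.filter _ (fun κ => Antitone κ ∧ (∀ i, lam i ≤ κ i) ∧ ∑ i, κ i = (∑ i, lam i) + m ∧
    ∀ i : Fin n, κ i.succ ≤ lam i.castSucc) (Classical.decPred _)
    (Fintype.piFinset fun _ : Fin (n + 1) => range (n + 1))

theorem mem_HS {n m : ℕ} {lam κ : Fin (n + 1) → ℕ} (h : (∑ i, lam i) + m ≤ n) :
    κ ∈ HS n m lam ↔ Antitone κ ∧ (∀ i, lam i ≤ κ i) ∧ ∑ i, κ i = (∑ i, lam i) + m ∧
      ∀ i : Fin n, κ i.succ ≤ lam i.castSucc := by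
  simp only [HS, Finset.mem_filter, Fintype.mem_piFinset, mem_range]
  constructor
  · exact fun h => h.2
  · intro h'
    refine ⟨fun i => ?_, h'⟩
    have h1 : κ i ≤ ∑ j, κ j :=
      Finset.single_le_sum (f := κ) (fun j _ => Nat.zero_le _) (mem_univ i)
    have h2 := h'.2.2.1
    omega

theorem anti_iff {n : ℕ} {f : Fin (n + 1) → ℕ} :
    Antitone f ↔ ∀ i : Fin n, f i.succ ≤ f i.castSucc := Fin.antitone_iff_succ_le

theorem last_zero {n : ℕ} {f : Fin (n + 1) → ℕ} (hf : Antitone f) (h : ∑ i, f i ≤ n) :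
    f (Fin.last n) = 0 := by
  by_contra h0
  have h1 : ∀ i, 1 ≤ f i := fun i => by
    have := hf (Fin.le_last i)
    omega
  have h2 : n + 1 ≤ ∑ i, f i := by
    simpa using Finset.card_nsmul_le_sum univ f 1 (fun i _ => h1 i)
  omega

/-- (2) -/
theorem pieS {n m : ℕ} {lam : Fin (n + 1) → ℕ} (ha : Antitone lam) (h : (∑ i, lam i) + m ≤ n) :
    hN X1 m * SD X1 lam = ∑ κ ∈ HS n m lam, SD X1 κ := by
  rw [o_PIE Lam1 X1 n lam ha (last_zero ha (by omega)) m]
  refine Finset.sum_nbij' (fun r i => lam i + r i) (fun κ i => κ i - lam i) ?_ ?_ ?_ ?_ ?_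
  · intro r hr
    rw [Finset.mem_filter] at hr
    rw [mem_HS h]
    refine ⟨anti_iff.2 fun i => ?_, fun i => Nat.le_add_right _ _, ?_, hr.2.2⟩
    · exact (hr.2.2 i).trans (Nat.le_add_right _ _)
    · rw [Finset.sum_add_distrib, hr.2.1]
  · intro κ hκ
    rw [mem_HS h] at hκ
    obtain ⟨h1, h2, h3, h4⟩ := hκ
    have hs : ∑ i, (κ i - lam i) = m := by
      have : ∑ i, κ i = ∑ i, lam i + ∑ i, (κ i - lam i) := by
        rw [← Finset.sum_add_distrib]
        refine Finset.sum_congr rfl fun i _ => ?_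
        have := h2 i
        omega
      omega
    rw [Finset.mem_filter, Fintype.mem_piFinset]
    refine ⟨fun i => ?_, hs, fun i => ?_⟩
    · have h5 : κ i - lam i ≤ ∑ i, (κ i - lam i) :=
        Finset.single_le_sum (f := fun i => κ i - lam i) (fun j _ => Nat.zero_le _) (mem_univ i)
      rw [mem_range]
      show κ i - lam i < m + 1
      omega
    · have := h2 i.succ
      have := h4 i
      show lam i.succ + (κ i.succ - lam i.succ) ≤ lam i.castSucc
      omega
  · intro r _
    funext i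
    simp
  · intro κ hκ
    rw [mem_HS h] at hκ
    funext i
    have := hκ.2.1 i
    show lam i + (κ i - lam i) = κ i
    omega
  · intro r _
    rfl

/-- (3) -/
theorem pieT (hD : I_DJ1) {n m : ℕ} {lam : Fin (n + 1) → ℕ} (ha : Antitone lam)
    (h : (∑ i, lam i) + m ≤ n) :
    hN X1 m * om (SD X1 (cj lam)) = ∑ κ ∈ HS n m lam, om (SD X1 (cj κ)) := by
  have hl := hD (n + 1) lam lam ha ha (by omega) (by omega)
  obtain ⟨hc1, hc2, hc3, -⟩ := hl
  have hV := congrArg om (o_VPI (n + 1) m (cj lam) hc1 (by omega))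
  rw [map_mul, om_eN, map_sum] at hV
  rw [hV]
  -- the strips of `cj lam`
  have hstrip : ∀ κ' : Fin (n + 1) → ℕ, Antitone κ' → ∑ i, κ' i ≤ n + 1 →
      ((∀ i, cj lam i ≤ κ' i ∧ κ' i ≤ cj lam i + 1) ↔
        ((∀ i, lam i ≤ cj κ' i) ∧ ∀ i j : Fin (n + 1), (j : ℕ) = i + 1 → cj κ' j ≤ lam i)) := by
    intro κ' h1 h2
    have := (hD (n + 1) (cj lam) κ' hc1 h1 (by omega) h2).2.2.2
    rwa [hc3] at this
  refine Finset.sum_nbij' (fun r => cj (fun i => cj lam i + r i)) (fun κ i => cj κ i - cj lam i)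
    ?_ ?_ ?_ ?_ ?_
  · intro r hr
    rw [Finset.mem_filter, Fintype.mem_piFinset] at hr
    obtain ⟨hr1, hr2, hr3⟩ := hr
    have hs : ∑ i, (cj lam i + r i) = (∑ i, lam i) + m := by
      rw [Finset.sum_add_distrib, hr2, hc2]
    have hD' := hD (n + 1) _ _ hr3 hr3 (by omega) (by omega)
    rw [mem_HS h]
    have hst := (hstrip _ hr3 (by omega)).1 (fun i => by
      have := mem_range.1 (hr1 i)
      omega)
    refine ⟨hD'.1, hst.1, ?_, fun i => hst.2 i.castSucc i.succ (by simp)⟩
    rw [hD'.2.1, hs]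
  · intro κ hκ
    rw [mem_HS h] at hκ
    obtain ⟨h1, h2, h3, h4⟩ := hκ
    have hD' := hD (n + 1) κ κ h1 h1 (by omega) (by omega)
    obtain ⟨hk1, hk2, hk3, -⟩ := hD'
    have hst := (hstrip (cj κ) hk1 (by omega)).2 (by
      rw [hk3]
      refine ⟨h2, fun i j hij => ?_⟩
      have hi : (i : ℕ) < n := by
        have := j.2
        omega
      have e1 : i = (⟨(i : ℕ), hi⟩ : Fin n).castSucc := rfl
      have e2 : j = (⟨(i : ℕ), hi⟩ : Fin n).succ := Fin.ext (by simpa using hij)
      rw [e1, e2]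
      exact h4 _)
    have e : (fun i => cj lam i + (cj κ i - cj lam i)) = cj κ := by
      funext i
      have := (hst i).1
      omega
    have hs : ∑ i, (cj κ i - cj lam i) = m := by
      have h5 : ∑ i, cj κ i = ∑ i, cj lam i + ∑ i, (cj κ i - cj lam i) := by
        rw [← Finset.sum_add_distrib, e]
      omega
    rw [Finset.mem_filter, Fintype.mem_piFinset]
    refine ⟨fun i => ?_, hs, ?_⟩
    · rw [mem_range]
      have := hst i
      omega
    · rw [e]
      exact hk1
  · intro r hr
    rw [Finset.mem_filter, Fintype.mem_piFinset] at hr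
    obtain ⟨hr1, hr2, hr3⟩ := hr
    have hs : ∑ i, (cj lam i + r i) = (∑ i, lam i) + m := by
      rw [Finset.sum_add_distrib, hr2, hc2]
    have hD' := hD (n + 1) _ _ hr3 hr3 (by omega) (by omega)
    funext i
    show cj (cj (fun i => cj lam i + r i)) i - cj lam i = r i
    rw [hD'.2.2.1]
    exact Nat.add_sub_cancel_left _ _
  · intro κ hκ
    rw [mem_HS h] at hκ
    obtain ⟨h1, h2, h3, h4⟩ := hκ
    have hD' := hD (n + 1) κ κ h1 h1 (by omega) (by omega)
    obtain ⟨hk1, hk2, hk3, -⟩ := hD'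
    have hst := (hstrip (cj κ) hk1 (by omega)).2 (by
      rw [hk3]
      refine ⟨h2, fun i j hij => ?_⟩
      have hi : (i : ℕ) < n := by
        have := j.2
        omega
      have e1 : i = (⟨(i : ℕ), hi⟩ : Fin n).castSucc := rfl
      have e2 : j = (⟨(i : ℕ), hi⟩ : Fin n).succ := Fin.ext (by simpa using hij)
      rw [e1, e2]
      exact h4 _)
    have e : (fun i => cj lam i + (cj κ i - cj lam i)) = cj κ := by
      funext i
      have := (hst i).1
      omega
    show cj (fun i => cj lam i + (cj κ i - cj lam i)) = κ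
    rw [e, hk3]
  · intro r hr
    rw [Finset.mem_filter, Fintype.mem_piFinset] at hr
    obtain ⟨hr1, hr2, hr3⟩ := hr
    have hs : ∑ i, (cj lam i + r i) = (∑ i, lam i) + m := by
      rw [Finset.sum_add_distrib, hr2, hc2]
    have hD' := hD (n + 1) _ _ hr3 hr3 (by omega) (by omega)
    show om (SD X1 (fun i => cj lam i + r i)) = om (SD X1 (cj (cj (fun i => cj lam i + r i))))
    rw [hD'.2.2.1]

/-- remove the first row -/
def tl {n : ℕ} (lam : Fin (n + 1) → ℕ) : Fin (n + 1) → ℕ := fun i =>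
  if h : (i : ℕ) < n then lam ⟨i + 1, by omega⟩ else 0

theorem tl_castSucc {n : ℕ} (lam : Fin (n + 1) → ℕ) (i : Fin n) :
    tl lam i.castSucc = lam i.succ := by
  rw [tl, dif_pos (show ((i.castSucc : Fin (n + 1)) : ℕ) < n from i.2)]
  rfl

theorem tl_last {n : ℕ} (lam : Fin (n + 1) → ℕ) : tl lam (Fin.last n) = 0 := by
  rw [tl, dif_neg (by simp)]

theorem tl_sum {n : ℕ} (lam : Fin (n + 1) → ℕ) : lam 0 + ∑ i, tl lam i = ∑ i, lam i := by
  rw [Fin.sum_univ_castSucc, Fin.sum_univ_succ lam, tl_last, add_zero]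
  simp only [tl_castSucc]

theorem tl_anti {n : ℕ} {lam : Fin (n + 1) → ℕ} (h : Antitone lam) : Antitone (tl lam) := by
  intro i j hij
  rw [tl, tl]
  split_ifs with h1 h2 h2
  · exact h (by rw [Fin.mk_le_mk]; exact Nat.succ_le_succ hij)
  · exfalso
    have : (i : ℕ) ≤ j := hij
    omega
  · exact Nat.zero_le _
  · exact le_rfl

/-- (4) -/
theorem claim (hD : I_DJ1) (n : ℕ) : ∀ s, s ≤ n → ∀ d, ∀ lam : Fin (n + 1) → ℕ, Antitone lam →
    ∑ i, lam i = s → s - lam 0 = d → om (SD X1 (cj lam)) = SD X1 lam := by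
  intro s
  induction s using Nat.strong_induction_on with
  | _ s ih =>
    intro hs d
    induction d using Nat.strong_induction_on with
    | _ d ihd =>
      intro lam ha hsum hd
      have h0s : lam 0 ≤ s := by
        rw [← hsum]
        exact Finset.single_le_sum (f := lam) (fun j _ => Nat.zero_le _) (mem_univ 0)
      rcases Nat.eq_zero_or_pos (lam 0) with h0 | h0
      · -- all parts are zero
        have hz : lam = cont ([] : List (Fin (n + 1))) := by
          funext i
          have h1 := ha (Fin.zero_le i)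
          rw [h0] at h1
          rw [Nat.le_zero.1 h1]
          simp [cont]
        have hc : cj lam = cont ([] : List (Fin (n + 1))) := by
          funext j
          rw [hz, cj]
          simp [cont]
        rw [hc, WNC.SD_zero, map_one, hz, WNC.SD_zero]
      · have htl := tl_sum lam
        have hta := tl_anti ha
        have hts : (∑ i, tl lam i) + lam 0 ≤ n := by omega
        have e1 := pieS hta hts
        have e2 := pieT hD hta hts
        rw [ih (∑ i, tl lam i) (by omega) (by omega) _ (tl lam) hta rfl rfl, e1] at e2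
        have hmem : lam ∈ HS n (lam 0) (tl lam) := by
          rw [mem_HS hts]
          refine ⟨ha, fun i => ?_, by omega, fun i => by rw [tl_castSucc]⟩
          rw [tl]
          split_ifs with h1
          · exact ha (by rw [Fin.le_def]; exact Nat.le_succ _)
          · exact Nat.zero_le _
        rw [← Finset.add_sum_erase _ _ hmem, ← Finset.add_sum_erase _ (fun κ => om (SD X1 (cj κ)))
          hmem] at e2
        have hrest : ∑ κ ∈ (HS n (lam 0) (tl lam)).erase lam, SD X1 κ =
            ∑ κ ∈ (HS n (lam 0) (tl lam)).erase lam, om (SD X1 (cj κ)) := by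
          refine Finset.sum_congr rfl fun κ hκ => ?_
          rw [Finset.mem_erase, mem_HS hts] at hκ
          obtain ⟨hne, k1, k2, k3, k4⟩ := hκ
          have hk0 : κ 0 ≤ s := by
            have := Finset.single_le_sum (f := κ) (fun j _ => Nat.zero_le _) (mem_univ 0)
            omega
          have hgt : lam 0 < κ 0 := by
            by_contra hcon
            apply hne
            have h5 : κ 0 + ∑ i : Fin n, κ i.succ = ∑ i, κ i := (Fin.sum_univ_succ κ).symm
            have h6 : ∑ i : Fin n, κ i.succ ≤ ∑ i : Fin n, tl lam i.castSucc :=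
              Finset.sum_le_sum fun i _ => k4 i
            have h7 : ∑ i, tl lam i = ∑ i : Fin n, tl lam i.castSucc := by
              rw [Fin.sum_univ_castSucc, tl_last, add_zero]
            have h8 : ∑ i : Fin n, κ i.succ = ∑ i : Fin n, tl lam i.castSucc := by omega
            have h9 := (Finset.sum_eq_sum_iff_of_le (fun i _ => k4 i)).1 h8
            funext i
            refine Fin.cases ?_ (fun j => ?_) i
            · omega
            · rw [h9 j (mem_univ j), tl_castSucc]
          exact (ihd (s - κ 0) (by omega) κ k1 (by omega) rfl).symm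
        rw [hrest] at e2
        exact (add_right_cancel e2).symm

end DJ2Aux

open DJ2Aux in
theorem t_DJ2 : I_DJ1 → I_DJ2 := by
  intro hD n lam ha hs
  obtain ⟨h1, h2, h3, -⟩ := hD (n + 1) lam lam ha ha (by omega) (by omega)
  have h := claim hD n (∑ i, cj lam i) (by omega) _ (cj lam) h1 rfl rfl
  rwa [h3] at h

end Pool.Agent.NEI
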