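import Pool.Agent.NEI.Stmts

set_option autoImplicit false

namespace Pool.Agent.NEI

open Finset MvPolynomial Pool.Agent.NEK

theorem t_DJT : I_DJ2 → I_LFN → I_DJT := by
  intro hD hL n l hl
  have hc : IsPart n (conj l) := (o_DOM n l l hl hl).1
  obtain ⟨h1, h2, h3, h4, _⟩ := (hL n).1 l hl
  obtain ⟨_, _, g3, _, _⟩ := (hL n).1 (conj l) hc
  rw [← h3, hD n (fn n l) h1 h2.le, ← h4, g3]

end Pool.Agent.NEI
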