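import Pool.Agent.NEI.Stmts

/-!
# `[n]` divides `[m] s_λ([n])`
-/

set_option autoImplicit false

namespace Pool.Agent.NEI

open Finset MvPolynomial Pool.Agent.NEK

namespace DVSAux

theorem px1 (n : ℕ) : PX (n + 1) = fun k => PX n k + ((Polynomial.X : Polynomial ℚ) ^ n) ^ (k + 1) := by
  funext k
  rw [PX, PX, sum_range_succ]

theorem px2 (n : ℕ) : PX (n + 1) = fun k => (1 : Polynomial ℚ) ^ (k + 1) +
    (Polynomial.X : Polynomial ℚ) ^ (k + 1) * PX n k := by
  funext k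
  rw [PX, PX, sum_range_succ', mul_sum, pow_zero, add_comm]
  congr 1
  refine sum_congr rfl fun a _ => ?_
  rw [pow_succ (Polynomial.X : Polynomial ℚ) a, mul_pow, mul_comm]

theorem rec1 (n k : ℕ) : hN (PX (n + 1)) (k + 1) =
    hN (PX n) (k + 1) + (Polynomial.X : Polynomial ℚ) ^ n * hN (PX (n + 1)) k := by
  have e : ∀ j, hN (PX (n + 1)) j = ∑ ij ∈ antidiagonal j,
      hN (PX n) ij.1 * ((Polynomial.X : Polynomial ℚ) ^ n) ^ ij.2 := by
    intro j
    rw [px1, HNB.ha]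
    refine sum_congr rfl fun ij _ => ?_
    rw [(HNB.hs (Polynomial ℚ) (PX n) ((Polynomial.X : Polynomial ℚ) ^ n) ij.2).2.1]
  rw [e, e, Finset.Nat.sum_antidiagonal_succ', pow_zero, mul_one, mul_sum]
  congr 1
  refine sum_congr rfl fun ij _ => ?_
  rw [pow_succ]
  ring

theorem rec2 (n k : ℕ) : hN (PX (n + 1)) (k + 1) =
    (Polynomial.X : Polynomial ℚ) ^ (k + 1) * hN (PX n) (k + 1) + hN (PX (n + 1)) k := by
  have e : ∀ j, hN (PX (n + 1)) j = ∑ ij ∈ antidiagonal j,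
      (Polynomial.X : Polynomial ℚ) ^ ij.2 * hN (PX n) ij.2 := by
    intro j
    rw [px2, HNB.ha]
    refine sum_congr rfl fun ij _ => ?_
    rw [(HNB.hs (Polynomial ℚ) (PX n) (1 : Polynomial ℚ) ij.1).2.1,
      (HNB.hs (Polynomial ℚ) (PX n) (Polynomial.X : Polynomial ℚ) ij.2).1, one_pow, one_mul]
  rw [e, e, Finset.Nat.sum_antidiagonal_succ]

/-- `1 - X^n` divides `(1 - X^k) H_k` -/
theorem dvd1 (n k : ℕ) : (1 - (Polynomial.X : Polynomial ℚ) ^ n) ∣
    (1 - (Polynomial.X : Polynomial ℚ) ^ k) * hN (PX n) k := by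
  cases k with
  | zero => rw [pow_zero, sub_self, zero_mul]; exact dvd_zero _
  | succ k =>
    refine ⟨hN (PX (n + 1)) k, ?_⟩
    have h1 := rec1 n k
    have h2 := rec2 n k
    linear_combination h2 - h1

/-- `1 - X^n` divides `(1 - X^m) ∏ H_{μ_i}` -/
theorem dvd2 {ι : Type} (n : ℕ) (s : Finset ι) (μ : ι → ℕ) :
    (1 - (Polynomial.X : Polynomial ℚ) ^ n) ∣
      (1 - (Polynomial.X : Polynomial ℚ) ^ (∑ i ∈ s, μ i)) * ∏ i ∈ s, hN (PX n) (μ i) := by
  classical
  induction s using Finset.induction_on with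
  | empty => rw [sum_empty, pow_zero, sub_self, zero_mul]; exact dvd_zero _
  | insert a s ha ih =>
    rw [sum_insert ha, prod_insert ha]
    have e : (1 - (Polynomial.X : Polynomial ℚ) ^ (μ a + ∑ i ∈ s, μ i)) *
        (hN (PX n) (μ a) * ∏ i ∈ s, hN (PX n) (μ i)) =
        (1 - (Polynomial.X : Polynomial ℚ) ^ (μ a)) * hN (PX n) (μ a) * (∏ i ∈ s, hN (PX n) (μ i)) +
        (Polynomial.X : Polynomial ℚ) ^ (μ a) * hN (PX n) (μ a) *
          ((1 - (Polynomial.X : Polynomial ℚ) ^ (∑ i ∈ s, μ i)) * ∏ i ∈ s, hN (PX n) (μ i)) := by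
      rw [pow_add]
      ring
    rw [e]
    exact dvd_add (Dvd.dvd.mul_right (dvd1 n (μ a)) _) (Dvd.dvd.mul_left ih _)

/-- the same for integer indices -/
theorem dvd3 {ι : Type} [Fintype ι] (n m : ℕ) (α : ι → ℤ) (hα : ∑ i, α i = (m : ℤ)) :
    (1 - (Polynomial.X : Polynomial ℚ) ^ n) ∣
      (1 - (Polynomial.X : Polynomial ℚ) ^ m) * ∏ i, hZ (PX n) (α i) := by
  classical
  by_cases h : ∀ i, 0 ≤ α i
  · have e : ∏ i, hZ (PX n) (α i) = ∏ i, hN (PX n) ((α i).toNat) := by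
      refine prod_congr rfl fun i _ => ?_
      rw [hZ, if_pos (h i)]
    have e2 : m = ∑ i, (α i).toNat := by
      have : (m : ℤ) = ((∑ i, (α i).toNat : ℕ) : ℤ) := by
        rw [← hα]
        push_cast
        refine sum_congr rfl fun i _ => ?_
        exact (Int.toNat_of_nonneg (h i)).symm
      exact_mod_cast this
    rw [e, e2]
    exact dvd2 n univ _
  · push Not at h
    obtain ⟨i, hi⟩ := h
    have e : ∏ i, hZ (PX n) (α i) = 0 := by
      refine prod_eq_zero (mem_univ i) ?_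
      rw [hZ, if_neg (not_le.2 hi)]
    rw [e, mul_zero]
    exact dvd_zero _

/-- `1 - X^n` divides `(1 - X^m) s_λ` -/
theorem dvd4 (n m : ℕ) (lam : List ℕ) (h : lam.sum = m) :
    (1 - (Polynomial.X : Polynomial ℚ) ^ n) ∣
      (1 - (Polynomial.X : Polynomial ℚ) ^ m) * sN (PX n) lam := by
  rw [sN, Matrix.det_apply, mul_sum]
  refine dvd_sum fun σ _ => ?_
  have e : ∑ i : Fin lam.length, ((lam.get (σ i) : ℤ) - ((σ i : Fin lam.length) : ℤ) + (i : ℤ)) = (m : ℤ) := by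
    rw [sum_add_distrib, sum_sub_distrib,
      Equiv.sum_comp σ (fun i : Fin lam.length => (lam.get i : ℤ)),
      Equiv.sum_comp σ (fun i : Fin lam.length => (i : ℤ))]
    have h1 : ∑ i : Fin lam.length, lam.get i = m := by
      rw [← h]
      exact Fin.sum_univ_getElem lam
    rw [sub_add_cancel, ← h1]
    push_cast
    rfl
  have h2 := dvd3 n m _ e
  rw [mul_smul_comm]
  rcases Int.units_eq_one_or (Equiv.Perm.sign σ) with h3 | h3
  · rw [h3, one_smul]
    exact h2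
  · rw [h3, Units.neg_smul, one_smul]
    exact (dvd_neg.2 h2)

end DVSAux

/-- `[n]` divides `[m] s_λ([n])`. -/
theorem t_DVS : I_DVS := by
  intro n m lam _ hlam
  obtain ⟨s, hs⟩ := DVSAux.dvd4 n m lam hlam.2.2
  refine ⟨s, ?_⟩
  have hX : (1 - (Polynomial.X : Polynomial ℚ)) ≠ 0 := by
    intro h
    have h1 := congrArg (Polynomial.eval 0) h
    rw [Polynomial.eval_sub, Polynomial.eval_one, Polynomial.eval_X, Polynomial.eval_zero, sub_zero] at h1
    exact one_ne_zero h1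
  apply mul_left_cancel₀ hX
  rw [← mul_assoc, ← mul_assoc, mul_neg_geom_sum, mul_neg_geom_sum]
  exact hs

end Pool.Agent.NEI
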