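import Pool.Agent.NEK.Defs2

/-!
# Specialisation at `t = 1/q`

Definitions for the theorem on the specialisation of `Δ_{s_λ} ∇ E_{n,k}` at `t = 1/q` (MP_44957e_co).
The field `K1` (rational functions in one variable) of `Pool/Agent/NEK/Defs2.lean` is used here for the
field `ℚ(q)`; its variable is called `qq`.
-/

set_option autoImplicit false

namespace Pool.Agent.NEI

open MvPolynomial Finset Pool.Agent.NEK

/-- The variable `q` of the field `ℚ(q)`. -/
noncomputable abbrev qq : K1 := t1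

/-- The specialisation `q ↦ q`, `t ↦ 1/q`, from `ℚ[q,t]` to `ℚ(q)`. -/
noncomputable def spI : MvPolynomial (Fin 2) ℚ →ₐ[ℚ] K1 := aeval ![qq, qq⁻¹]

/-- `AtInv x y`: the rational function `x ∈ ℚ(q,t)` is regular at `t = 1/q` and `y ∈ ℚ(q)` is its
value there: `x = a/b`, `y = a(q,1/q)/b(q,1/q)` with polynomials `a, b` and `b(q,1/q) ≠ 0`. -/
def AtInv (x : K) (y : K1) : Prop :=
  ∃ a b : MvPolynomial (Fin 2) ℚ, spI b ≠ 0 ∧
    x * algebraMap (MvPolynomial (Fin 2) ℚ) K b = algebraMap (MvPolynomial (Fin 2) ℚ) K a ∧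
    y * spI b = spI a

/-- `LamAtInv F F1`: all coefficients of the symmetric function `F` over `ℚ(q,t)` (in the power sum
basis) are regular at `t = 1/q`, and `F1` is the specialisation of `F` at `t = 1/q`. -/
def LamAtInv (F : Lam) (F1 : Lam1) : Prop := ∀ d : ℕ →₀ ℕ, AtInv (coeff d F) (coeff d F1)

/-- Final statement: if `λ` is a nonempty partition and `gcd (n, |λ|)` divides `k`, then
`Δ_{s_λ} ∇ E_{n,k}` is regular at `t = 1/q`, and its value there is a power of `1/q` times a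
combination of Schur functions with coefficients in `ℕ[q]`. -/
def Stmt_final3 : Prop :=
  ∀ (n : ℕ), 1 ≤ n → ∀ (H : List ℕ → Lam), IsMac n H →
  ∀ (lam : List ℕ) (m : ℕ), IsPart m lam → 1 ≤ m →
  ∀ (nabla delta : Lam →ₗ[K] Lam),
    (∀ μ, IsPart n μ → nabla (H μ) = Tm μ • H μ) →
    (∀ μ, IsPart n μ → delta (H μ) = ev (Bp μ) (sch lam) • H μ) →
  ∀ (E : ℕ → Lam), IsE n E →
  ∀ k, 1 ≤ k → k ≤ n → Nat.gcd n m ∣ k →
  ∃ (F1 : Lam1) (a : ℕ), LamAtInv (delta (nabla (E k))) F1 ∧ qq ^ a • F1 ∈ SPos1 n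

end Pool.Agent.NEI
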