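import Mathlib

/-!
# Counting words, permutation modules, unimodality: definitions and statements (only Mathlib)

Part of the proof of `Stmt_final3` (specialisation of `Δ_{s_λ} ∇ E_{n,k}` at `t = 1/q`).  Complete
proofs are in the doc-strings.  The definitions and the small lemmas in this file are proved.
-/

set_option autoImplicit false

namespace Pool.Agent.NEI

open Finset

/-! ## Words and fixed points -/

/-- the content of a word: `ct w x` is the number of letters equal to `x` -/
def ct {m : ℕ} {X : Type} [DecidableEq X] (w : Fin m → X) (x : X) : ℕ :=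
  (univ.filter fun i => w i = x).card

theorem ct_perm {m : ℕ} {X : Type} [DecidableEq X] (w : Fin m → X) (g : Equiv.Perm (Fin m)) :
    ct (fun i => w (g i)) = ct w := by
  funext x
  unfold ct
  refine Finset.card_bij (fun i _ => g i) ?_ ?_ ?_
  · intro i hi
    rw [mem_filter] at hi ⊢
    exact ⟨mem_univ _, hi.2⟩
  · intro i _ j _ h
    exact g.injective h
  · intro j hj
    rw [mem_filter] at hj
    refine ⟨g.symm j, ?_, g.apply_symm_apply j⟩
    rw [mem_filter]
    refine ⟨mem_univ _, ?_⟩
    change w (g (g.symm j)) = x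
    rw [g.apply_symm_apply]
    exact hj.2

/-- words of length `m` in the alphabet `X` whose content satisfies `p` -/
def WS (m : ℕ) (X : Type) [DecidableEq X] (p : (X → ℕ) → Prop) : Type := {w : Fin m → X // p (ct w)}

instance {m : ℕ} {X : Type} [DecidableEq X] [Finite X] {p : (X → ℕ) → Prop} : Finite (WS m X p) :=
  Subtype.finite

/-- permutations of the positions act on words -/
instance {m : ℕ} {X : Type} [DecidableEq X] {p : (X → ℕ) → Prop} :
    MulAction (Equiv.Perm (Fin m)) (WS m X p) where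
  smul g w := ⟨fun i => w.1 (g⁻¹ i), by rw [ct_perm]; exact w.2⟩
  one_smul w := rfl
  mul_smul g h w := Subtype.ext (funext fun i => by
    change w.1 ((g * h)⁻¹ i) = w.1 (h⁻¹ (g⁻¹ i))
    rw [mul_inv_rev, Equiv.Perm.mul_apply])

theorem WS_smul {m : ℕ} {X : Type} [DecidableEq X] {p : (X → ℕ) → Prop} (g : Equiv.Perm (Fin m))
    (w : WS m X p) (i : Fin m) : (g • w).1 i = w.1 (g⁻¹ i) := rfl

/-- number of fixed points, as a rational number -/
noncomputable def fx {G : Type} (A : Type) [Group G] [MulAction G A] (g : G) : ℚ :=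
  (Nat.card {a : A // g • a = a} : ℚ)

/-- the permutation module of a `G`-set -/
abbrev PM (G A : Type) [Group G] [MulAction G A] : Type := (Representation.ofMulAction ℚ G A).asModule

/-- the number of matrices of natural numbers with sum `m` whose row sums satisfy `p` and whose
column sums satisfy `p'` -/
noncomputable def NC (m : ℕ) (X Y : Type) [Fintype X] [Fintype Y] (p : (X → ℕ) → Prop)
    (p' : (Y → ℕ) → Prop) : ℕ :=
  Nat.card {N : X → Y → ℕ // (∑ x, ∑ y, N x y = m) ∧ p (fun x => ∑ y, N x y) ∧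
    p' (fun y => ∑ x, N x y)}

/-- the content `α` is `λ_a - a + w(a)` -/
def pw {r : ℕ} (lam : Fin r → ℕ) (w : Equiv.Perm (Fin r)) (α : Fin r → ℕ) : Prop :=
  ∀ a, (α a : ℤ) = (lam a : ℤ) - ((a : ℕ) : ℤ) + ((w a : ℕ) : ℤ)

/-- the weight of the content `α` of a word in the letters `0, …, n-1` is `i` -/
def wp (n i : ℕ) (α : Fin n → ℕ) : Prop := ∑ b : Fin n, (b : ℕ) * α b = i

/-- number of nonnegative integer matrices with row sums `α` and column sums given by a list -/
def cnt {r : ℕ} : List ℕ → (Fin r → ℤ) → ℤ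
  | [], α => if α = 0 then 1 else 0
  | b :: β, α => ∑ c ∈ (Fintype.piFinset fun _ : Fin r => range (b + 1)).filter
      (fun c => ∑ i, c i = b), cnt β (fun i => α i - (c i : ℤ))

/-- Kostka numbers as alternating sums: `∑_w sgn(w) #{matrices with row sums κ_a + w(a), column sums β}` -/
def kd {r : ℕ} (β : List ℕ) (κ : Fin r → ℤ) : ℤ :=
  ∑ w : Equiv.Perm (Fin r), (Equiv.Perm.sign w : ℤ) * cnt β (fun i => κ i + ((w i : ℕ) : ℤ))

/-! ## Representation theory -/

/-- (module PHM) homomorphisms of permutation modules.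

Proof.  With `Representation.card_inv_mul_sum_char_mul_char_eq_finrank` (file
`Mathlib/RepresentationTheory/Character.lean`): the left side divided by `|G|` is the dimension of the space of
intertwining maps, if `(Representation.ofMulAction ℚ G A).character g = fx A g` (the trace of a permutation matrix: use
`LinearMap.trace_eq_matrix_trace` with the basis `Finsupp.basisSingleOne` / `MonoidAlgebra`-basis; the diagonal entry at
`a` is `1` if `g • a = a` and `0` otherwise); `A →ₗ[k[G]]`-maps and intertwining maps are the same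
(`Representation.IntertwiningMap` and `asModule`; there are equivalences in
`Mathlib/RepresentationTheory/Intertwining.lean`, `Equiv.lean`).  `fx Ω g⁻¹ = fx Ω g`, so the order of the arguments does not
matter (substitute `g ↦ g⁻¹`).
Or directly: the left side is `∑_g` of the number of fixed points of `g` on `A × Ω`, which is
`|G|` times the number of orbits (`MulAction.sum_card_fixedBy_eq_card_orbits_mul_card_group`), and
`φ ↦ ((a, ω) ↦ coefficient of ω in φ(a))` is a linear isomorphism from the homomorphisms onto the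
functions on `A × Ω` which are constant on orbits. -/
def I_PHM : Prop := ∀ (G A Ω : Type) [Group G] [Fintype G] [Finite A] [Finite Ω] [MulAction G A]
  [MulAction G Ω],
  ∑ g : G, fx A g * fx Ω g⁻¹ =
    (Fintype.card G : ℚ) * (Module.finrank ℚ (PM G A →ₗ[MonoidAlgebra ℚ G] PM G Ω) : ℚ)

/-- (module VIS) a virtual module of norm `1`.  Notation `h(M,N) = finrank ℚ (M →ₗ[R] N)`.

Proof.  `h` is finite and biadditive: `h(M × P, N) = h(M,N) + h(P,N)` (`LinearMap.coprodEquiv`),
`h(N, M × P) = h(N,M) + h(N,P)` (`LinearMap.prodEquiv`), and invariant under isomorphisms (`LinearEquiv.congrLeft`, …).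
(1) There are finite-dimensional `R`-modules `A', B', P` with `A ≃ A' × P`, `B ≃ B' × P` and `Hom_R(A', B') = 0`:
induction on `finrank ℚ A` for the claim (for all `A, B`): if there is a nonzero `φ : A → B`, let `A_1 = ker φ`; by semisimplicity
(`IsSemisimpleRing`; all modules are semisimple, `exists_isCompl`) `A = A_1 ⊕ Q` with `Q ≃ range φ` (`Q ≠ 0`) and
`B = range φ ⊕ B_1`; apply the induction hypothesis to `A_1, B_1` (as submodules) and add `Q` to `P`.
(2) `Hom_R(B', A') = 0` as well: a nonzero `ψ : B' → A'` gives, with a complement `Q` of `ker ψ` (`Q ≃ range ψ`) and a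
projection `A' → range ψ`, a nonzero map `A' → range ψ ≃ Q ⊆ B'`.
(3) By additivity `h(A,A) - h(A,B) - h(B,A) + h(B,B) = h(A',A') - h(A',B') - h(B',A') + h(B',B') = h(A',A') + h(B',B')`, so this
is `1`.  A nonzero module `M` has `h(M,M) ≥ 1` (the identity).  So `A'` or `B'` is zero.  If `A'` is zero, then
`h(A,C) - h(B,C) = h(A',C) - h(B',C) = -h(B',C) ≤ 0`, a contradiction.  So `B'` is zero and
`h(A,Ω) - h(B,Ω) = h(A',Ω) ≤ h(A',Ω') = h(A,Ω') - h(B,Ω')`, because composition with the injective map `f` is an injective linear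
map `Hom_R(A',Ω) → Hom_R(A',Ω')` (`LinearMap.finrank_le_finrank_of_injective`). -/
def I_VIS : Prop := ∀ (R A B C Ω Ω' : Type) [Ring R] [Algebra ℚ R] [IsSemisimpleRing R]
  [AddCommGroup A] [Module R A] [Module ℚ A] [IsScalarTower ℚ R A] [FiniteDimensional ℚ A]
  [AddCommGroup B] [Module R B] [Module ℚ B] [IsScalarTower ℚ R B] [FiniteDimensional ℚ B]
  [AddCommGroup C] [Module R C] [Module ℚ C] [IsScalarTower ℚ R C] [FiniteDimensional ℚ C]
  [AddCommGroup Ω] [Module R Ω] [Module ℚ Ω] [IsScalarTower ℚ R Ω] [FiniteDimensional ℚ Ω]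
  [AddCommGroup Ω'] [Module R Ω'] [Module ℚ Ω'] [IsScalarTower ℚ R Ω'] [FiniteDimensional ℚ Ω'],
  (Module.finrank ℚ (A →ₗ[R] A) : ℤ) - (Module.finrank ℚ (A →ₗ[R] B) : ℤ)
    - (Module.finrank ℚ (B →ₗ[R] A) : ℤ) + (Module.finrank ℚ (B →ₗ[R] B) : ℤ) = 1 →
  0 < (Module.finrank ℚ (A →ₗ[R] C) : ℤ) - (Module.finrank ℚ (B →ₗ[R] C) : ℤ) →
  ∀ f : Ω →ₗ[R] Ω', Function.Injective f →
    (Module.finrank ℚ (A →ₗ[R] Ω) : ℤ) - (Module.finrank ℚ (B →ₗ[R] Ω) : ℤ) ≤
      (Module.finrank ℚ (A →ₗ[R] Ω') : ℤ) - (Module.finrank ℚ (B →ₗ[R] Ω') : ℤ)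

/-- (module VIR) a virtual permutation character of norm `1` which is positive somewhere is
monotone.

Proof (uses `I_PHM`, `I_VIS`).  `R = MonoidAlgebra ℚ G` is semisimple (Maschke, instance).  By `I_PHM` the hypotheses are those
of `I_VIS` for the permutation modules `PM G A`, … (multiply out; divide by `|G| > 0`; for
`∑_g fx B g * fx A g⁻¹ = |G| h(B,A)`).  The map `f` on functions gives the `R`-linear injective map
`PM G Ω → PM G Ω'`: `Ω →₀ ℚ` is the same as `Ω → ℚ` (`Finsupp.linearEquivFunOnFinite`), and the action of `g` on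
`x : Ω →₀ ℚ` is `(g x)(ω) = x (g⁻¹ ω)` (`Finsupp.mapDomain`), so `f` commutes with the action (use the hypothesis for
`g⁻¹`); an additive map commuting with all `g ∈ G` and with `ℚ` is linear over the group algebra
(`MonoidAlgebra.equivariantOfLinearOfComm`, or `Representation.IntertwiningMap`). -/
def I_VIR : Prop := ∀ (G A B C Ω Ω' : Type) [Group G] [Fintype G] [Finite A] [Finite B] [Finite C]
  [Finite Ω] [Finite Ω'] [MulAction G A] [MulAction G B] [MulAction G C] [MulAction G Ω]
  [MulAction G Ω'],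
  ∑ g : G, (fx A g - fx B g) * (fx A g⁻¹ - fx B g⁻¹) = (Fintype.card G : ℚ) →
  0 < ∑ g : G, (fx A g - fx B g) * fx C g⁻¹ →
  ∀ f : (Ω → ℚ) →ₗ[ℚ] (Ω' → ℚ), Function.Injective f →
    (∀ (g : G) (x : Ω → ℚ), f (fun ω => x (g • ω)) = fun ω' => f x (g • ω')) →
  ∑ g : G, (fx A g - fx B g) * fx Ω g⁻¹ ≤ ∑ g : G, (fx A g - fx B g) * fx Ω' g⁻¹

/-! ## Counting -/

/-- (module ORB) pairs of words up to simultaneous permutation of the positions.

Proof.  `fx B g⁻¹ = fx B g` and `fx A g * fx B g = fx (A × B) g`, so by Burnside's lemma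
(`MulAction.sum_card_fixedBy_eq_card_orbits_mul_card_group`) the left side is `m!` times the number of
orbits of `Perm (Fin m)` on `WS m X p × WS m Y p'`.  Map the orbit of `(w, w')` to the matrix
`N x y = #{i | w i = x ∧ w' i = y}`; its row sums are `ct w`, its column sums `ct w'`, its total is `m`.
This is well defined and injective on orbits: if `(w, w')` and `(v, v')` have the same matrix, there is a permutation `g`
with `(v, v') = (w ∘ g⁻¹, w' ∘ g⁻¹)` (the fibres of `i ↦ (w i, w' i)` and `i ↦ (v i, v' i)` have the same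
cardinalities; `Equiv.ofFiberEquiv` or `Fintype.card`-arguments).  It is surjective: if `∑ N = m`, there is a map
`Fin m → X × Y` whose fibres have the cardinalities `N x y` (`Fin m ≃ Σ (x, y), Fin (N x y)`), its two components are
words with contents the row and the column sums. -/
def I_ORB : Prop := ∀ (m : ℕ) (X Y : Type) [Fintype X] [DecidableEq X] [Fintype Y] [DecidableEq Y]
  (p : (X → ℕ) → Prop) (p' : (Y → ℕ) → Prop),
  ∑ g : Equiv.Perm (Fin m), fx (WS m X p) g * fx (WS m Y p') g⁻¹ =
    (m.factorial : ℚ) * (NC m X Y p p' : ℚ)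

/-- (module SPL) decomposition of a disjoint union.
Proof: for given `α` at most one `w` satisfies `pw lam w α` (`w a = α a - lam a + a` determines `w`).  So the fixed
points of `g` on the words with content in `⋃_{w, sgn w = 1} pw lam w` are the disjoint union over these `w` of the fixed
points on the words with content `pw lam w` (an equivalence with a sigma type, `Nat.card_sigma`), and similarly for
`sgn w = -1`; subtract. -/
def I_SPL : Prop := ∀ (m r : ℕ) (lam : Fin r → ℕ) (g : Equiv.Perm (Fin m)),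
  fx (WS m (Fin r) (fun α => ∃ w, Equiv.Perm.sign w = 1 ∧ pw lam w α)) g -
    fx (WS m (Fin r) (fun α => ∃ w, Equiv.Perm.sign w = -1 ∧ pw lam w α)) g =
  ∑ w : Equiv.Perm (Fin r), (((Equiv.Perm.sign w : ℤˣ) : ℤ) : ℚ) * fx (WS m (Fin r) (pw lam w)) g

/-- (module KOC) `cnt` counts matrices.
Proof: induction on `k` (`List.ofFn` of a function on `Fin (k+1)` is `β 0 :: List.ofFn (β ∘ succ)`).  `k = 0`: there is one matrix
with no columns, its row sums are `0`.  `k + 1`: sort the matrices by the first column `c a = N a 0`, `∑ c = β 0`, so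
all `c a ≤ β 0`; the rest is a matrix with row sums `α - c` and column sums `β ∘ succ`.  (All sets are finite:
the entries are bounded by the column sums; `Nat.card` of a sigma type over the finite set of the `c`.) -/
def I_KOC : Prop := ∀ (r k : ℕ) (β : Fin k → ℕ) (α : Fin r → ℤ),
  (Nat.card {N : Fin r → Fin k → ℕ // (∀ a, ((∑ b, N a b : ℕ) : ℤ) = α a) ∧ ∀ b, ∑ a, N a b = β b} : ℤ)
    = cnt (List.ofFn β) α

/-- (module KOA) recursion for the Kostka numbers.

Proof.  First part: `cnt [] (κ + w) ≠ 0` iff `κ a = - w a` for all `a`; since `κ` is strictly decreasing, `w` is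
strictly increasing, so `w = 1`.  Second part.  By definition and exchange of the sums,
`kd (b :: β) κ = ∑_c kd β (κ - c)`, the sum over all `c : Fin r → ℕ`, `∑ c = b`.
(i) `cnt β (α ∘ σ) = cnt β α` (induction on `β`), so `kd β (κ' ∘ σ) = sgn(σ) kd β κ'`:
`∑_w sgn(w) cnt β (κ' ∘ σ + w) = ∑_w sgn(w) cnt β (κ' + w ∘ σ⁻¹)`.
(ii) The sum over the `c` for which some `j = i + 1` has `κ j ≥ κ i - c i` vanishes: for such `c` let `i` be
the smallest index with this property (`j = i+1`) and let `c'` be given by `κ - c' = (κ - c) ∘ (i j)`, i.e.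
`c' i = κ i - κ j + c j ≥ 0`, `c' j = c i - (κ i - κ j) ≥ 0`, `c' a = c a` for the other `a`; then `∑ c' = b`,
`κ i - c' i = κ j - c j ≤ κ j`, so `c'` has the property at `i`, and not at smaller indices (for `i' + 1 = i` the condition
`κ i < κ i' - c i'` does not change); `c'' = c` and `kd β (κ - c') = - kd β (κ - c)` by (i) (`Finset.sum_involution`; if
`c' = c`, then `kd β (κ - c) = 0`). -/
def I_KOA : Prop := ∀ (r : ℕ) (κ : Fin r → ℤ), StrictAnti κ →
  kd [] κ = (if ∀ a, κ a = -((a : ℕ) : ℤ) then 1 else 0) ∧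
  ∀ (b : ℕ) (β : List ℕ), kd (b :: β) κ =
    ∑ c ∈ (Fintype.piFinset fun _ : Fin r => range (b + 1)).filter
      (fun c => ∑ i, c i = b ∧ ∀ i j : Fin r, (j : ℕ) = i + 1 → κ j < κ i - (c i : ℤ)),
      kd β (fun i => κ i - (c i : ℤ))

/-- (module KOB) triangularity of the Kostka numbers.

Proof (uses `I_KOA`).  If `c` satisfies the condition in `I_KOA`, then `κ - c` is strictly decreasing
(`κ j - c j ≤ κ j < κ i - c i`).
(*) If `κ` is strictly decreasing and `kd β κ ≠ 0`, then with `L = β.length`: `κ a = -a` for all `a ≥ L`, `κ a + a ≥ 0` for all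
`a`, and `β.sum = ∑_{a < L} (κ a + a)`.  Induction on `β`; `β = []`: `κ a = -a` for all `a`.  `b :: β`: some `c` has `kd β (κ - c) ≠ 0`;
for `a ≥ L`: `κ a - c a = -a`; for `a = i+1 ≥ L+1`, `κ a < κ i - c i = -i`, so `κ a ≤ -a`, and `κ a ≥ κ a - c a = -a`; also
`κ a + a ≥ κ a - c a + a ≥ 0`; and `∑_{a<L+1} (κ a + a) = ∑_a (κ a + a) = ∑_a (κ a - c a + a) + b = β.sum + b` (all other terms
of these sums are `0`).
(**) hence for every suffix `β'` of `β`: `β'.sum ≤ ∑_{a < β'.length} (κ a + a)`: induction; for `β' = β` it is (*), for a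
proper suffix use the induction hypothesis for `κ - c`.
First claim: (**) for `κ a = lam a - a` and the suffix `β.drop (r - k)`, which has length `k`.
Second claim: for `k ≤ r` let `lam_k a = lam a` for `a < k` and `0` for `a ≥ k`, and let `β_k` be the list
`lam (k-1), …, lam 0`.  Show `kd β_k (lam_k a - a) = 1` by induction on `k`.  `k = 0`: `I_KOA`.  `k + 1`: `β_{k+1} = lam k :: β_k`; if
`kd β_k (κ - c) ≠ 0` for `κ a = lam_{k+1} a - a`, then by (*) `κ a - c a = -a` for `a ≥ k`, so `c k = lam k` and `c a = 0` for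
`a > k`, and `∑ c = lam k` gives `c a = 0` for `a < k`; this `c` satisfies the condition of `I_KOA` and
`κ - c = lam_k - a`.  So the sum has only one term, `kd β_k (lam_k a - a) = 1`. -/
def I_KOB : Prop := ∀ (r : ℕ) (lam : Fin r → ℕ), Antitone lam →
  (∀ β : List ℕ, β.length = r → kd β (fun a => (lam a : ℤ) - ((a : ℕ) : ℤ)) ≠ 0 →
    ∀ k ≤ r, (β.drop (r - k)).sum ≤ ∑ a ∈ univ.filter (fun a : Fin r => (a : ℕ) < k), lam a) ∧
  kd (List.ofFn lam).reverse (fun a => (lam a : ℤ) - ((a : ℕ) : ℤ)) = 1

/-- (module KOS) two scalar products.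

Proof (uses `I_KOC`, `I_KOB`).  If the row sums satisfy `pw lam w`, the total is `∑ lam` (`∑_a w a = ∑_a a`), so the
condition on the total in `NC` can be dropped.  For `β : Fin r → ℕ`, reversing the order of the columns and `I_KOC` give
`NC m (Fin r) (Fin r) (pw lam w) (fun β' => β' = β) = cnt (List.ofFn β).reverse (fun a => lam a - a + w a)`
(`List.ofFn (β ∘ Fin.rev) = (List.ofFn β).reverse`), so `∑_w sgn(w) NC … = kd (List.ofFn β).reverse (lam a - a)`.
Second claim: `β = lam`, `I_KOB`.  First claim: fix `w'`.  If `lam b - b + w' b < 0` for some `b`, all `NC` are `0`.  Otherwise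
`pw lam w' β' ↔ β' = β` with `β b = lam b - b + w' b`, and `∑_w sgn(w) NC … = kd (List.ofFn β).reverse (lam a - a)`; if this
is not `0`, then by `I_KOB` (`((List.ofFn β).reverse).drop (r-k)` is the reverse of the list of the first `k` entries)
`∑_{b<k} (lam b - b + w' b) ≤ ∑_{b<k} lam b`, i.e. `∑_{b<k} w' b ≤ ∑_{b<k} b` for all `k ≤ r`, so `w' = 1` (by induction
`w' b = b`: `w' 0 ≤ 0`; if `w' b' = b'` for `b' < b` then `w' b ≤ b` and `w' b ∉ {0, …, b-1}`), and then `β = lam` and the value
is `1`. -/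
def I_KOS : Prop := ∀ (r m : ℕ) (lam : Fin r → ℕ), Antitone lam → ∑ a, lam a = m →
  (∑ w : Equiv.Perm (Fin r), ∑ w' : Equiv.Perm (Fin r),
    (Equiv.Perm.sign w : ℤ) * (Equiv.Perm.sign w' : ℤ) *
      (NC m (Fin r) (Fin r) (pw lam w) (pw lam w') : ℤ) = 1) ∧
  (∑ w : Equiv.Perm (Fin r), (Equiv.Perm.sign w : ℤ) *
      (NC m (Fin r) (Fin r) (pw lam w) (fun β => β = lam) : ℤ) = 1)

/-- (module SL2) the raising operator is injective below the middle.

Proof.  Let `V` be the space of all functions `x : (Fin m → Fin n) → ℚ`, and (`w ± ε_k` = change the `k`-th letter by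
`±1`) `(U x)(w) = ∑_{k, w_k ≥ 1} x(w - ε_k)`, `(D x)(w) = ∑_{k, w_k + 1 < n} (w_k+1)(n-1-w_k) x(w + ε_k)`.
(1) `((D U - U D) x)(w) = (m(n-1) - 2 |w|) x(w)`, `|w| = ∑ w_k`: for `k ≠ l` the operators at `k` and `l` commute,
and at one position `k`, with `a = w_k`: `(D_k U_k x)(w) = (a+1)(n-1-a) x(w)` (also for `a = n-1`, both are `0`) and
`(U_k D_k x)(w) = a (n-a) x(w)` (also for `a = 0`); the difference is `n-1-2a`.
(2) `U` maps functions supported on `|w| = i` to functions supported on `|w| = i+1`, `D` to `|w| = i-1` (zero if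
`i = 0`).
(3) Let `x` be supported on `|w| = i`, `U x = 0`, `h = m(n-1) - 2i > 0`.  For `j ≥ 1`:
`U D^j x = -j (h+j-1) D^{j-1} x`, by induction: `U D^j x = D U D^{j-1} x - (m(n-1) - 2(i-j+1)) D^{j-1} x
= -(j-1)(h+j-2) D^{j-1} x - (h+2j-2) D^{j-1} x`.  As `D^{i+1} x = 0` and `j(h+j-1) ≠ 0`, going down from `j = i+1`:
`D^{j-1} x = 0` for `j = i+1, …, 1`, so `x = 0`.
(4) `U` commutes with permutations of the positions.  Functions on `WS m (Fin n) (wp n i)` are the functions
supported on `|w| = i`: `∑_b b * ct w b = ∑_k w_k`. -/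
def I_SL2 : Prop := ∀ (m n i : ℕ), 2 * i < m * (n - 1) →
  ∃ f : (WS m (Fin n) (wp n i) → ℚ) →ₗ[ℚ] (WS m (Fin n) (wp n (i + 1)) → ℚ),
    Function.Injective f ∧ ∀ (g : Equiv.Perm (Fin m)) (x : WS m (Fin n) (wp n i) → ℚ),
      f (fun ω => x (g • ω)) = fun ω' => f x (g • ω')

/-! ## Unimodal polynomials -/

/-- the coefficients of `p` are symmetric and unimodal with centre `L/2` -/
def IsSU (L : ℕ) (p : Polynomial ℚ) : Prop :=
  (∀ i, L < i → p.coeff i = 0) ∧ (∀ i ≤ L, p.coeff i = p.coeff (L - i)) ∧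
    ∀ i, 2 * i < L → p.coeff i ≤ p.coeff (i + 1)

/-- all coefficients are natural numbers -/
def NatC (p : Polynomial ℚ) : Prop := ∀ i, ∃ c : ℕ, p.coeff i = (c : ℚ)

/-- (module LMA) division of a unimodal polynomial by `1 + X^g + … + X^{g(b-1)}`.

Proof.  Write `p_i` for the coefficients, `p_i = 0` for `i < 0` and for `i > L`.
(1) `p_{i-g} ≤ p_i` if `2i ≤ L + g`, and `p_{i-g} ≥ p_i` if `2i ≥ L + g` (`g ≤ i`; `p` is weakly increasing up to the
middle, symmetric, and nonnegative; if `i ≤ L/2` the first claim is monotonicity, if `i > L/2` then `p_i = p_{L-i}` with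
`i - g ≤ L - i ≤ L/2`; the second claim follows from the first for `L - i + g` by symmetry; the cases `i > L` and `i < g`
from `p ≥ 0`).
(2) `(1 - X^{gb}) r = (1 - X^g) p`, i.e. `r_i - r_{i-gb} = p_i - p_{i-g}` for all `i` (with zero for negative indices).
(3) If `2i ≤ L + g`: `r_i = r_{i-gb} + (p_i - p_{i-g})`; by strong induction on `i` (`i - gb < i` satisfies the same inequality)
`r_i` is an integer `≥ 0`.
(4) All `r_i` are integers by the same recursion.  If `2i > L + g`: `r_i = r_{i+gb} + (p_{i+gb-g} - p_{i+gb})` by (2) for `i + gb`,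
and `p_{i+gb-g} ≥ p_{i+gb}` by (1); `r_i = 0` for large `i`, so by downward induction `r_i ≥ 0`. -/
def I_LMA : Prop := ∀ (L g b : ℕ) (p r : Polynomial ℚ), IsSU L p → NatC p → 1 ≤ g → 1 ≤ b →
  p = (∑ i ∈ range b, Polynomial.X ^ (g * i)) * r → NatC r

end Pool.Agent.NEI
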