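import Pool.Agent.NEI.Old
import Pool.Agent.NEI.U

/-!
# Auxiliary definitions for `Stmt_final3`
-/

set_option autoImplicit false

namespace Pool.Agent.NEI

open MvPolynomial Finset Pool.Agent.NEK

/-- `[n] = 1 + q + … + q^{n-1}` -/
noncomputable def qi (n : ℕ) : K1 := ∑ i ∈ range n, qq ^ i

/-- `gB a b` is the `q`-binomial coefficient `[a+b choose b]` -/
noncomputable def gB : ℕ → ℕ → K1
  | _, 0 => 1
  | 0, _ + 1 => 1
  | a + 1, b + 1 => gB a (b + 1) + qq ^ (a + 1) * gB (a + 1) b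
termination_by a b => a + b

/-- `(z;q)_k = ∏_{i<k} (1 - z q^i)` -/
noncomputable def po (z : K1) (k : ℕ) : K1 := ∏ i ∈ range k, (1 - z * qq ^ i)

/-- `pM M i = p_{i+1}[1 + q + … + q^{M-1}]` -/
noncomputable def pM (M i : ℕ) : K1 := ∑ a ∈ range M, (qq ^ a) ^ (i + 1)

/-- `h_n[X (1 + q + … + q^{M-1})]` -/
noncomputable def hM (n M : ℕ) : Lam1 := hb (pM M) n

/-- Schur functions in `Lam1` -/
noncomputable def sc (l : List ℕ) : Lam1 := sN X1 l

/-- the involution `ω`: `p_k ↦ (-1)^{k-1} p_k` -/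
noncomputable def om : Lam1 →ₐ[K1] Lam1 := plG (fun i => (-1 : K1) ^ i)

/-- the hook `(j, 1^{n-j})` -/
def hk (n j : ℕ) : List ℕ := j :: List.replicate (n - j) 1

/-- the rows of a list as a function on `Fin (n+1)` -/
def fn (n : ℕ) (l : List ℕ) : Fin (n + 1) → ℕ := fun i => l.getD (i : ℕ) 0

/-- the conjugate of a function -/
def cj {N : ℕ} (lam : Fin N → ℕ) : Fin N → ℕ := fun j => (univ.filter fun i => (j : ℕ) < lam i).card

/-- number of descents of a word (newest letter first): places where the next (older) letter is smaller -/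
def des {N : ℕ} : List (Fin N) → ℕ
  | [] => 0
  | [_] => 0
  | r :: r' :: w => des (r' :: w) + (if r' < r then 1 else 0)

/-- sum of the positions of the descents, counted from the head -/
def mjh {N : ℕ} : List (Fin N) → ℕ
  | [] => 0
  | r :: w => mjh w + des (r :: w)

/-- coefficient of a word in `h_n[X (1 + q + … + q^{M-1})]` -/
noncomputable def cc {N : ℕ} (M : ℕ) : List (Fin N) → K1
  | [] => 1
  | r :: w => if des (r :: w) < M then
      qq ^ mjh (r :: w) * gB (M - 1 - des (r :: w)) (w.length + 1) else 0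

/-- the contribution of the head of a word -/
noncomputable def tm {N : ℕ} (l M : ℕ) : List (Fin N) → K1
  | [] => 0
  | r :: w => if des (r :: w) < M ∧ l ≤ w.length then
      qq ^ (w.length + mjh w + l * (M - 1 - des (r :: w))) *
        gB (M - 1 - des (r :: w)) (w.length - l) else 0

/-- coefficient of a word -/
noncomputable def kap {N : ℕ} (l M : ℕ) : List (Fin N) → K1
  | [] => 0
  | [r] => tm l M [r]
  | r :: r' :: w => tm l M (r :: r' :: w) + (if r ≤ r' then kap l M (r' :: w) else 0)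

/-- `W_{n,k}`, up to the factor the image under `ω` of the value at `t = 1/q` (`N = n + m`) -/
noncomputable def Wd (n N k : ℕ) : Lam1 :=
  sw n (fun v : List (Fin n) => C (qq ^ (k - 1) * kap (k - 1) (N - 1) v) * valw X1 v)

/-- the value at `t = 1/q` of the eigenvalue at the hook `(j, 1^{n-j})` -/
noncomputable def eps (n m : ℕ) (lam : List ℕ) (j : ℕ) : K1 :=
  qq ^ ((n.choose 2 : ℤ) - (((n - j) * (n + m) : ℕ) : ℤ)) * sN (pM n) lam

/-- power sums of `1, X, …, X^{n-1}` -/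
noncomputable def PX (n k : ℕ) : Polynomial ℚ := ∑ a ∈ range n, ((Polynomial.X : Polynomial ℚ) ^ a) ^ (k + 1)

/-! ## Small lemmas (proved) -/

theorem gB_r0 (a : ℕ) : gB a 0 = 1 := by rw [gB]

theorem gB_0r (b : ℕ) : gB 0 b = 1 := by
  cases b with
  | zero => rw [gB]
  | succ b => rw [gB]

theorem gB_ss (a b : ℕ) : gB (a + 1) (b + 1) = gB a (b + 1) + qq ^ (a + 1) * gB (a + 1) b := by
  rw [gB]

/-- `1 - q^{i+1} ≠ 0` -/
theorem one_sub_ne (i : ℕ) : (1 : K1) - qq ^ (i + 1) ≠ 0 := o_EVT.1 i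

theorem one_sub_qq_ne : (1 : K1) - qq ≠ 0 := by
  have h := one_sub_ne 0
  rwa [zero_add, pow_one] at h

theorem qi_mul (n : ℕ) : (1 - qq) * qi n = 1 - qq ^ n := by
  induction n with
  | zero => rw [qi, range_zero, sum_empty, mul_zero, pow_zero, sub_self]
  | succ n ih =>
    have h : qi (n + 1) = qi n + qq ^ n := by rw [qi, sum_range_succ]; rfl
    rw [h, mul_add, ih]
    ring

theorem qi_ne {n : ℕ} (h : 1 ≤ n) : qi n ≠ 0 := by
  obtain ⟨m, rfl⟩ : ∃ m, n = m + 1 := ⟨n - 1, by omega⟩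
  intro h0
  have h1 := qi_mul (m + 1)
  rw [h0, mul_zero] at h1
  exact one_sub_ne m h1.symm

theorem po_zero (z : K1) : po z 0 = 1 := by rw [po, range_zero, prod_empty]

theorem po_succ (z : K1) (k : ℕ) : po z (k + 1) = po z k * (1 - z * qq ^ k) := by
  rw [po, prod_range_succ]
  rfl

theorem po_qq_ne (k : ℕ) : po qq k ≠ 0 := by
  rw [po, prod_ne_zero_iff]
  intro i _
  rw [← pow_succ']
  exact one_sub_ne i

/-- `(q^{-j};q)_k = 0` for `k > j` -/
theorem po_inv_zero {j k : ℕ} (h : j < k) : po ((qq ^ j)⁻¹) k = 0 := by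
  rw [po]
  apply prod_eq_zero (mem_range.2 h)
  rw [inv_mul_cancel₀ (pow_ne_zero _ qq_ne), sub_self]

/-- `(q^{-j};q)_k ≠ 0` for `k ≤ j` -/
theorem po_inv_ne {j k : ℕ} (h : k ≤ j) : po ((qq ^ j)⁻¹) k ≠ 0 := by
  rw [po, prod_ne_zero_iff]
  intro i hi h0
  rw [mem_range] at hi
  obtain ⟨d, rfl⟩ : ∃ d, j = i + (d + 1) := ⟨j - i - 1, by omega⟩
  have h1 : (qq ^ (i + (d + 1)))⁻¹ * qq ^ i = (qq ^ (d + 1))⁻¹ := by
    rw [pow_add, mul_inv, mul_assoc, mul_comm (qq ^ (d + 1))⁻¹, ← mul_assoc,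
      inv_mul_cancel₀ (pow_ne_zero _ qq_ne), one_mul]
  rw [h1] at h0
  have h2 : qq ^ (d + 1) = (1 : K1) := by
    rw [← inv_inv (qq ^ (d + 1)), ← sub_eq_zero.1 h0, inv_one]
  apply one_sub_ne d
  rw [h2, sub_self]

theorem qq_mem : qq ∈ N1 := Subsemiring.subset_closure rfl

theorem qi_mem (n : ℕ) : qi n ∈ N1 := sum_mem fun _ _ => pow_mem qq_mem _

end Pool.Agent.NEI
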