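import Pool.Agent.NEI.Stmts

/-!
# Module EGI: the eigenvalues at `t = 1/q`
-/

set_option autoImplicit false

namespace Pool.Agent.NEI

open Finset MvPolynomial Pool.Agent.NEK

namespace EGIAux

/-- the value at `t = 1/q` of the power sums of the cell weights -/
noncomputable def B1 (l : List ℕ) (k : ℕ) : K1 :=
  ∑ i : Fin l.length, ∑ j ∈ range (l.get i), ((qq⁻¹) ^ (i : ℕ) * qq ^ j) ^ (k + 1)

theorem atInv_Bp (l : List ℕ) (k : ℕ) : AtInv (Bp l k) (B1 l k) := by
  refine Inv.sum _ fun i _ => Inv.sum _ fun j _ => Inv.pow (Inv.mul ?_ ?_) _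
  · exact Inv.pow Inv.t_inv _
  · exact Inv.pow Inv.q_qq _

theorem ev_sch (a : ℕ → K) (l : List ℕ) : ev a (sch l) = sN a l := by
  have h := (HNB.hm Lam K ((ev a : Lam →ₐ[K] K) : Lam →+* K) (fun i => X i)).2.2 l
  have h2 : (fun k => ((ev a : Lam →ₐ[K] K) : Lam →+* K) (X k)) = a := by
    funext k
    exact aeval_X a k
  rw [h2] at h
  exact h

/-- sums over the rows of a list -/
theorem sum_rows {M : Type*} [AddCommMonoid M] (l : List ℕ) (F : ℕ → ℕ → M) :
    ∑ i : Fin l.length, F i (l.get i) = ∑ i ∈ range l.length, F i (l.getD i 0) := by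
  rw [← Fin.sum_univ_eq_sum_range (fun i => F i (l.getD i 0)) l.length]
  refine sum_congr rfl fun i _ => ?_
  have h : l.getD (i : ℕ) 0 = l.get i := by
    simp
  rw [h]

theorem sum_hk {M : Type*} [AddCommMonoid M] (n j : ℕ) (F : ℕ → ℕ → M) :
    ∑ i : Fin (hk n j).length, F i ((hk n j).get i) =
      ∑ i ∈ range (n - j), F (i + 1) 1 + F 0 j := by
  rw [sum_rows]
  have hl : (hk n j).length = (n - j) + 1 := by simp [hk]
  rw [hl, sum_range_succ']
  congr 1
  refine sum_congr rfl fun i hi => ?_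
  have hi' := mem_range.1 hi
  have : (hk n j).getD (i + 1) 0 = 1 := by
    simp [hk, hi']
  rw [this]

theorem B1_hk (n j : ℕ) (hj : 1 ≤ j) (hjn : j ≤ n) (k : ℕ) :
    B1 (hk n j) k = ((qq ^ (n - j))⁻¹) ^ (k + 1) * pM n k := by
  have h1 := sum_hk n j (fun i b => ∑ c ∈ range b, ((qq⁻¹ : K1) ^ i * qq ^ c) ^ (k + 1))
  rw [B1]
  refine h1.trans ?_
  obtain ⟨a, rfl⟩ : ∃ a, n = a + j := ⟨n - j, by omega⟩
  rw [Nat.add_sub_cancel]
  rw [pM, sum_range_add, mul_add, mul_sum, mul_sum]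
  congr 1
  · rw [← sum_range_reflect (fun i => ((qq ^ a)⁻¹) ^ (k + 1) * (qq ^ i : K1) ^ (k + 1))]
    refine sum_congr rfl fun i hi => ?_
    have hi' := mem_range.1 hi
    rw [range_one, sum_singleton, ← mul_pow]
    congr 1
    have h2 : a = (a - 1 - i) + (i + 1) := by omega
    have h3 : (qq : K1) ^ a = qq ^ (a - 1 - i) * qq ^ (i + 1) := by rw [← pow_add, ← h2]
    rw [h3, pow_zero, mul_one, inv_pow, mul_inv, mul_comm, ← mul_assoc,
      mul_inv_cancel₀ (pow_ne_zero _ qq_ne), one_mul]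
  · refine sum_congr rfl fun c _ => ?_
    rw [← mul_pow, pow_zero, one_mul, pow_add (qq : K1) a c, ← mul_assoc,
      inv_mul_cancel₀ (pow_ne_zero _ qq_ne), one_mul]

theorem hZ_scale (P : ℕ → K1) (y : K1) (c : ℤ) :
    hZ (fun k => y ^ (k + 1) * P k) c = y ^ c * hZ P c := by
  rw [hZ, hZ]
  split_ifs with h
  · rw [(HNB.hs K1 P y c.toNat).1]
    congr 1
    conv_rhs => rw [← Int.toNat_of_nonneg h]
    rw [zpow_natCast]
  · rw [mul_zero]

theorem sN_scale (P : ℕ → K1) (y : K1) (hy : y ≠ 0) (l : List ℕ) :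
    sN (fun k => y ^ (k + 1) * P k) l = y ^ l.sum * sN P l := by
  rw [sN, sN]
  have h1 : (Matrix.of fun i j : Fin l.length =>
      hZ (fun k => y ^ (k + 1) * P k) ((l.get i : ℤ) - (i : ℤ) + (j : ℤ))) =
      Matrix.of fun i j : Fin l.length => (fun i : Fin l.length => y ^ ((l.get i : ℤ) - (i : ℤ))) i *
        (Matrix.of fun i j : Fin l.length => (fun j : Fin l.length => y ^ ((j : ℕ) : ℤ)) j *
          (Matrix.of fun i j : Fin l.length => hZ P ((l.get i : ℤ) - (i : ℤ) + (j : ℤ))) i j) i j := by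
    ext i j
    rw [Matrix.of_apply, Matrix.of_apply, Matrix.of_apply, Matrix.of_apply, hZ_scale,
      zpow_add₀ hy, mul_assoc]
  rw [h1, Matrix.det_mul_column, Matrix.det_mul_row, ← mul_assoc]
  congr 1
  rw [← prod_mul_distrib]
  have h2 : ∀ i : Fin l.length, y ^ ((l.get i : ℤ) - (i : ℤ)) * y ^ ((i : ℕ) : ℤ) =
      y ^ (l.get i) := by
    intro i
    rw [← zpow_add₀ hy, sub_add_cancel, zpow_natCast]
  rw [prod_congr rfl fun i _ => h2 i, prod_pow_eq_pow_sum]
  congr 1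
  have h3 := Fin.sum_univ_getElem l
  exact h3

theorem nn_hk (n j : ℕ) : nn (hk n j) = (n - j + 1).choose 2 := by
  rw [nn]
  have h := sum_hk n j (fun i b => i * b)
  refine h.trans ?_
  rw [zero_mul, add_zero, Nat.choose_two_right, ← sum_range_id, sum_range_succ', add_zero]
  exact sum_congr rfl fun i _ => mul_one _

theorem conj_hk_getD (n j i : ℕ) (hi : i < j) (h1 : 1 ≤ i) : (conj (hk n j)).getD i 0 = 1 := by
  have h2 : (hk n j).headD 0 = j := rfl
  rw [conj, h2]
  have h3 : ((List.range j).map fun c => ((hk n j).filter fun a => decide (c < a)).length).getD i 0 =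
      ((hk n j).filter fun a => decide (i < a)).length := by
    simp [List.getD_eq_getElem?_getD, hi]
  rw [h3, hk, List.filter_cons]
  have h4 : decide (i < j) = true := decide_eq_true hi
  have h5 : ¬ (decide (i < 1) = true) := by simp; omega
  rw [if_pos h4, List.filter_replicate, if_neg h5]
  rfl

theorem nn_conj_hk (n j : ℕ) : nn (conj (hk n j)) = j.choose 2 := by
  rw [nn]
  refine (sum_rows (conj (hk n j)) (fun i b => i * b)).trans ?_
  have hl : (conj (hk n j)).length = j := by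
    rw [conj, List.length_map, List.length_range]
    rfl
  rw [hl, Nat.choose_two_right, ← sum_range_id]
  refine sum_congr rfl fun i hi => ?_
  rcases Nat.eq_zero_or_pos i with h0 | h0
  · rw [h0, zero_mul]
  · rw [conj_hk_getD n j i (mem_range.1 hi) h0, mul_one]

theorem two_choose (n : ℕ) : ((n.choose 2 : ℕ) : ℤ) * 2 = n * (n - 1) := by
  induction n with
  | zero => simp
  | succ n ih =>
    rw [Nat.choose_succ_succ' n 1, Nat.choose_one_right]
    push_cast
    linarith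

end EGIAux

theorem t_EGI : I_EGI := by
  intro n m lam hn hlam
  refine ⟨fun μ => sN (EGIAux.B1 μ) lam * ((qq⁻¹) ^ nn μ * qq ^ nn (conj μ)), ?_, ?_⟩
  · intro μ _
    rw [EGIAux.ev_sch, Tm]
    exact Inv.mul (Inv.sN_atInv (EGIAux.atInv_Bp μ) lam)
      (Inv.mul (Inv.pow Inv.t_inv _) (Inv.pow Inv.q_qq _))
  · intro j hj
    obtain ⟨hj1, hjn⟩ := mem_Icc.1 hj
    show sN (EGIAux.B1 (hk n j)) lam * ((qq⁻¹) ^ nn (hk n j) * qq ^ nn (conj (hk n j))) = _
    have h1 : EGIAux.B1 (hk n j) = fun k => ((qq ^ (n - j))⁻¹) ^ (k + 1) * pM n k := by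
      funext k
      exact EGIAux.B1_hk n j hj1 hjn k
    rw [h1, EGIAux.sN_scale _ _ (inv_ne_zero (pow_ne_zero _ qq_ne)), hlam.2.2, EGIAux.nn_hk,
      EGIAux.nn_conj_hk, eps]
    rw [mul_comm (((qq ^ (n - j))⁻¹) ^ m) _, mul_assoc, mul_comm (sN (pM n) lam)]
    congr 1
    rw [← zpow_natCast, ← zpow_natCast, ← zpow_natCast, ← zpow_natCast, ← zpow_neg, ← zpow_mul,
      inv_zpow', ← zpow_add₀ qq_ne, ← zpow_add₀ qq_ne]
    congr 1
    obtain ⟨a, rfl⟩ : ∃ a, n = a + j := ⟨n - j, by omega⟩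
    rw [Nat.add_sub_cancel]
    have e1 := EGIAux.two_choose (a + 1)
    have e2 := EGIAux.two_choose j
    have e3 := EGIAux.two_choose (a + j)
    push_cast at e1 e2 e3 ⊢
    nlinarith [e1, e2, e3]

end Pool.Agent.NEI
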