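import Pool.Agent.NEI.Stmts

/-!
# Module EKI: `E_{n,k}` at `t = 1/q`
-/

set_option autoImplicit false

namespace Pool.Agent.NEI

open Finset MvPolynomial Pool.Agent.NEK

namespace EKIAux

theorem qm (m : ℕ) : AtInv ((q ^ m)⁻¹) ((qq ^ m)⁻¹) :=
  Inv.inv (Inv.pow Inv.q_qq m) (pow_ne_zero _ qq_ne)

theorem poch_inv {z : K} {z1 : K1} (h : AtInv z z1) (k : ℕ) : AtInv (poch z k) (po z1 k) :=
  Inv.prod _ fun i _ => Inv.sub Inv.one (Inv.mul h (Inv.pow Inv.q_qq i))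

theorem u_inv (m k : ℕ) : AtInv (EKR.u m k) (po ((qq ^ m)⁻¹) k / po qq k) :=
  Inv.div (poch_inv (qm m) k) (poch_inv Inv.q_qq k) (po_qq_ne k)

theorem u_ne (m : ℕ) : po ((qq ^ m)⁻¹) m / po qq m ≠ 0 :=
  div_ne_zero (po_inv_ne le_rfl) (po_qq_ne m)

theorem lhs_inv (n m : ℕ) : LamAtInv (EKR.lhs n m)
    (eN (fun i => C ((1 - ((qq ^ m)⁻¹) ^ (i + 1)) / (1 - qq ^ (i + 1))) * X1 i) n) :=
  Inv.lam_eN (fun k => Inv.lam_mul (Inv.lam_C (Inv.div (Inv.sub Inv.one (Inv.pow (qm m) _))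
    (Inv.sub Inv.one (Inv.pow Inv.q_qq _)) (one_sub_ne k))) (Inv.lam_X k)) n

theorem main {n : ℕ} {E : ℕ → Lam} (hE : IsE n E) : ∀ m, 1 ≤ m → m ≤ n →
    IsWeightedHomogeneous wt (E m) n ∧ ∃ F1 : Lam1, LamAtInv (E m) F1 := by
  intro m
  induction m using Nat.strong_induction_on with
  | _ m ih =>
    intro h1 h2
    constructor
    · rw [← mem_weightedHomogeneousSubmodule, EKR.rec_E hE h1 h2]
      refine Submodule.smul_mem _ _ (Submodule.sub_mem _ ?_ (Submodule.sum_mem _ ?_))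
      · rw [mem_weightedHomogeneousSubmodule]
        exact (o_PHO K (fun i => (1 - ((q ^ m)⁻¹) ^ (i + 1)) / (1 - q ^ (i + 1)))).2.1 n
      · intro k hk
        rw [mem_Ico] at hk
        refine Submodule.smul_mem _ _ ?_
        rw [mem_weightedHomogeneousSubmodule]
        exact (ih k hk.2 hk.1 (by omega)).1
    · have h3 : ∀ k : ℕ, ∃ F1 : Lam1, k ∈ Ico 1 m → LamAtInv (E k) F1 := by
        intro k
        by_cases hk : k ∈ Ico 1 m
        · rw [mem_Ico] at hk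
          obtain ⟨F1, hF1⟩ := (ih k hk.2 hk.1 (by omega)).2
          exact ⟨F1, fun _ => hF1⟩
        · exact ⟨0, fun h => absurd h hk⟩
      choose G hG using h3
      rw [EKR.rec_E hE h1 h2]
      exact ⟨_, Inv.lam_smul (Inv.inv (u_inv m m) (u_ne m)) (Inv.lam_sub (lhs_inv n m)
        (Inv.lam_sum _ fun k hk => Inv.lam_smul (u_inv m k) (hG k hk)))⟩

end EKIAux

theorem t_EKI : I_EKI := by
  intro n E _ hE
  have h3 : ∀ k : ℕ, ∃ F1 : Lam1, k ∈ Icc 1 n → LamAtInv (E k) F1 := by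
    intro k
    by_cases hk : k ∈ Icc 1 n
    · have hk' := mem_Icc.1 hk
      obtain ⟨F1, hF1⟩ := (EKIAux.main hE k hk'.1 hk'.2).2
      exact ⟨F1, fun _ => hF1⟩
    · exact ⟨0, fun h => absurd h hk⟩
  choose E1 hE1 using h3
  refine ⟨E1, fun k hk => ⟨?_, hE1 k hk⟩, fun j _ => ?_⟩
  · have hk' := mem_Icc.1 hk
    exact (EKIAux.main hE k hk'.1 hk'.2).1
  · have h := hE ((q ^ j)⁻¹)
    rw [EKR.lhs_eq] at h
    have h4 : LamAtInv (EKR.lhs n j)
        (∑ k ∈ Icc 1 n, (po ((qq ^ j)⁻¹) k / po qq k) • E1 k) := by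
      rw [h]
      exact Inv.lam_sum _ fun k hk => Inv.lam_smul (EKIAux.u_inv j k) (hE1 k hk)
    exact Inv.lam_unique (EKIAux.lhs_inv n j) h4

end Pool.Agent.NEI
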