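import Pool.Agent.NEI.Stmts

/-!
# Assembly (module FIN)
-/

set_option autoImplicit false

namespace Pool.Agent.NEI

open Finset MvPolynomial Pool.Agent.NEK

namespace FINAux

theorem smul_mem {n : ℕ} {c : K1} (hc : c ∈ N1) {f : Lam1} (hf : f ∈ SPos1 n) :
    c • f ∈ SPos1 n := by
  refine AddSubmonoid.closure_induction (motive := fun f _ => c • f ∈ SPos1 n) ?_ ?_ ?_ hf
  · rintro _ ⟨d, hd, β, hβ, rfl⟩
    exact AddSubmonoid.subset_closure ⟨c * d, mul_mem hc hd, β, hβ, by rw [smul_smul]⟩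
  · rw [smul_zero]
    exact zero_mem _
  · intro x y _ _ hx hy
    rw [smul_add]
    exact add_mem hx hy

theorem sw_mem {M : Type} [AddCommMonoid M] (S : AddSubmonoid M) {N : ℕ} :
    ∀ (n : ℕ) (F : List (Fin N) → M), (∀ w, w.length = n → F w ∈ S) → sw n F ∈ S
  | 0, _, h => h [] rfl
  | n + 1, _, h => AddSubmonoid.sum_mem S fun r _ =>
      sw_mem S n _ fun w hw => h (r :: w) (by rw [List.length_cons, hw])

theorem sw_om {N : ℕ} : ∀ (n : ℕ) (F : List (Fin N) → Lam1),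
    om (sw n F) = sw n (fun w => om (F w))
  | 0, _ => rfl
  | n + 1, F => by
      change om (∑ r : Fin N, sw n (fun w => F (r :: w))) =
        ∑ r : Fin N, sw n (fun w => om (F (r :: w)))
      rw [map_sum]
      exact Finset.sum_congr rfl fun r _ => sw_om n fun w => F (r :: w)

theorem om_Wd (hKAP : I_KAP) (hOMG : I_OMG) (n N k : ℕ) : om (Wd n N k) ∈ SPos1 n := by
  unfold Wd
  rw [sw_om]
  apply sw_mem
  intro v hv
  have hC : ∀ c : K1, om (C c) = C c := by
    intro c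
    rw [← MvPolynomial.algebraMap_eq]
    exact om.commutes c
  rw [map_mul, hC, ← MvPolynomial.smul_eq_C_mul]
  rcases hOMG.2 n v hv with h | ⟨l, hl, h⟩
  · rw [h, smul_zero]
    exact zero_mem _
  · rw [h]
    exact AddSubmonoid.subset_closure ⟨_, mul_mem (pow_mem qq_mem _) (hKAP n (k - 1) (N - 1) v).1,
      l, hl, rfl⟩

theorem aeval_sum (n : ℕ) :
    Polynomial.aeval qq (∑ i ∈ range n, (Polynomial.X : Polynomial ℚ) ^ i) = qi n := by
  rw [map_sum, qi]
  refine sum_congr rfl fun i _ => ?_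
  rw [map_pow, Polynomial.aeval_X]

theorem aeval_sN (n : ℕ) (lam : List ℕ) :
    Polynomial.aeval qq (sN (PX n) lam) = sN (pM n) lam := by
  have h := (HNB.hm _ _ ((Polynomial.aeval qq : Polynomial ℚ →ₐ[ℚ] K1) : Polynomial ℚ →+* K1)
    (PX n)).2.2 lam
  have h1 : (fun k => ((Polynomial.aeval qq : Polynomial ℚ →ₐ[ℚ] K1) : Polynomial ℚ →+* K1)
      (PX n k)) = pM n := by
    funext k
    change Polynomial.aeval qq (PX n k) = pM n k
    rw [PX, map_sum, pM]
    refine sum_congr rfl fun i _ => ?_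
    rw [map_pow, map_pow, Polynomial.aeval_X]
  rw [h1] at h
  exact h

theorem aeval_mem {P : Polynomial ℚ} (hP : NatC P) : Polynomial.aeval qq P ∈ N1 := by
  rw [Polynomial.aeval_eq_sum_range]
  refine sum_mem fun i _ => ?_
  obtain ⟨c, hc⟩ := hP i
  rw [hc, Algebra.smul_def, map_natCast]
  exact mul_mem (natCast_mem _ c) (pow_mem qq_mem _)

theorem qi_mul_sum (g k' : ℕ) : qi (g * k') = qi g * ∑ i ∈ range k', qq ^ (g * i) := by
  induction k' with
  | zero => rw [Nat.mul_zero, qi, range_zero, sum_empty, sum_empty, mul_zero]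
  | succ k' ih =>
    have h : qi (g * (k' + 1)) = qi (g * k') + qq ^ (g * k') * qi g := by
      rw [Nat.mul_succ, qi, qi, qi, sum_range_add, mul_sum]
      congr 1
      exact sum_congr rfl fun i _ => pow_add _ _ _
    rw [h, ih, sum_range_succ]
    ring

theorem scalar_mem (hPQ : I_PQ) {n m k : ℕ} {lam : List ℕ} (hn : 1 ≤ n) (hm : 1 ≤ m)
    (hlam : IsPart m lam) (hg : Nat.gcd n m ∣ k) :
    sN (pM n) lam * (qi k / qi n) ∈ N1 := by
  obtain ⟨P, hP, h⟩ := hPQ n m lam hn hm hlam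
  have h1 := congrArg (Polynomial.aeval qq) h
  rw [map_mul, map_mul, aeval_sum, aeval_sum, aeval_sN] at h1
  obtain ⟨k', rfl⟩ := hg
  have h2 : sN (pM n) lam * (qi (Nat.gcd n m * k') / qi n) =
      Polynomial.aeval qq P * ∑ i ∈ range k', qq ^ (Nat.gcd n m * i) := by
    rw [qi_mul_sum, ← mul_div_assoc, ← mul_assoc, ← h1]
    field_simp [qi_ne hn]
  rw [h2]
  exact mul_mem (aeval_mem hP) (sum_mem fun i _ => pow_mem qq_mem _)

end FINAux

open FINAux in
theorem t_FIN : I_OPI → I_EKI → I_FML → I_PQ → I_KAP → I_OMG → Stmt_final3 := by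
  intro hOPI hEKI hFML hPQ hKAP hOMG n hn H hH lam m hlam hm nabla delta hnabla hdelta E hE k hk1 hk2 hg
  obtain ⟨Lm, hLm, hLm2⟩ := hOPI n hn H hH lam m hlam nabla delta hnabla hdelta
  obtain ⟨E1, hE1, hE1'⟩ := hEKI n E hn hE
  have hk : k ∈ Icc 1 n := mem_Icc.2 ⟨hk1, hk2⟩
  obtain ⟨hhom, hat⟩ := hE1 k hk
  have hF := hFML n m lam hn hm hlam Lm hLm E1 hE1' k hk
  refine ⟨Lm (E1 k), (n - 1) * (n + m) - n.choose 2, hLm2 _ _ hhom hat, ?_⟩
  have hle : n.choose 2 ≤ (n - 1) * (n + m) := by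
    calc n.choose 2 = n * (n - 1) / 2 := Nat.choose_two_right n
      _ ≤ n * (n - 1) := Nat.div_le_self _ _
      _ ≤ (n - 1) * (n + m) := by
        rw [mul_comm]
        exact Nat.mul_le_mul_left _ (by omega)
  have hs : qq ^ ((n - 1) * (n + m) - n.choose 2) *
      (qq ^ ((n.choose 2 : ℤ) - (((n - 1) * (n + m) : ℕ) : ℤ)) * sN (pM n) lam * (qi k / qi n)) =
      sN (pM n) lam * (qi k / qi n) := by
    rw [← zpow_natCast, ← mul_assoc, ← mul_assoc, ← zpow_add₀ qq_ne, Nat.cast_sub hle]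
    have h0 : (((n - 1) * (n + m) : ℕ) : ℤ) - (n.choose 2 : ℤ) +
        ((n.choose 2 : ℤ) - (((n - 1) * (n + m) : ℕ) : ℤ)) = 0 := by ring
    rw [h0, zpow_zero, one_mul]
  rw [hF, smul_smul, hs]
  exact smul_mem (scalar_mem hPQ hn hm hlam hg) (om_Wd hKAP hOMG n (n + m) k)

end Pool.Agent.NEI
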