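import Pool.Agent.NEI.Stmts

/-!
# The value at `t = 1/q`   (helper96)
-/

set_option autoImplicit false

namespace Pool.Agent.NEI

open Finset MvPolynomial Pool.Agent.NEK

namespace FMLAux

/-- plethysms of elementary functions -/
theorem plG_eN (b a : ℕ → K1) (n : ℕ) :
    plG b (eN (fun i => C (a i) * X1 i) n) = eN (fun i => C (a i * b i) * X1 i) n := by
  have h := (HNB.hm _ _ ((plG b : Lam1 →ₐ[K1] Lam1) : Lam1 →+* Lam1)
    (fun i => C (a i) * X1 i)).2.1 n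
  have h' : plG b (eN (fun i => C (a i) * X1 i) n) =
      eN (fun i => plG b (C (a i) * X1 i)) n := h
  rw [h']
  congr 1
  funext i
  have h1 : plG b (C (a i)) = C (a i) := by
    rw [← algebraMap_eq, AlgHom.commutes]
  rw [map_mul, h1, X1, plG, aeval_X, C_mul, mul_assoc]

/-- `e_n[X (1 - z)/(1 - q)]` -/
noncomputable def A (n : ℕ) (z : K1) : Lam1 := plG bt (eN (fun i => C (1 - z ^ (i + 1)) * X1 i) n)

theorem A_eq (n : ℕ) (z : K1) :
    A n z = eN (fun i => C ((1 - z ^ (i + 1)) / (1 - qq ^ (i + 1))) * X1 i) n := by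
  rw [A, plG_eN]
  rfl

theorem A_hook (hoo : I_HOO) {n : ℕ} (hn : 1 ≤ n) (z : K1) :
    A n z = ∑ j ∈ Icc 1 n, ((1 - z) * (-z) ^ (j - 1)) • plG bt (sc (hk n j)) := by
  rw [A, hoo n z hn, map_sum]
  refine sum_congr rfl fun j _ => ?_
  rw [map_smul]

theorem pM_mul (M i : ℕ) : (1 - qq ^ (i + 1)) * pM M i = 1 - (qq ^ M) ^ (i + 1) := by
  induction M with
  | zero => rw [pM, range_zero, sum_empty, mul_zero, pow_zero, one_pow, sub_self]
  | succ M ih =>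
    have h : pM (M + 1) i = pM M i + (qq ^ M) ^ (i + 1) := by rw [pM, sum_range_succ]; rfl
    rw [h, mul_add, ih, pow_succ qq M, mul_pow]
    ring

theorem A_pow (omg : I_OMG) (n M : ℕ) : A n (qq ^ M) = om (hM n M) := by
  rw [A_eq, omg.1]
  congr 1
  funext i
  congr 2
  rw [div_eq_iff (one_sub_ne i), mul_comm, pM_mul]

theorem eps_eq {n m : ℕ} (lam : List ℕ) {j : ℕ} (h1 : 1 ≤ j) (h2 : j ≤ n) :
    eps n m lam j = eps n m lam 1 * (qq ^ (n + m)) ^ (j - 1) := by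
  have e : (n.choose 2 : ℤ) - (((n - j) * (n + m) : ℕ) : ℤ) =
      ((n.choose 2 : ℤ) - (((n - 1) * (n + m) : ℕ) : ℤ)) + (((n + m) * (j - 1) : ℕ) : ℤ) := by
    obtain ⟨a, rfl⟩ := Nat.exists_eq_add_of_le h1
    obtain ⟨b, rfl⟩ := Nat.exists_eq_add_of_le h2
    have e1 : 1 + a + b - (1 + a) = b := by omega
    have e2 : 1 + a + b - 1 = a + b := by omega
    have e3 : 1 + a - 1 = a := by omega
    rw [e1, e2, e3]
    push_cast
    ring
  rw [eps, eps, e, zpow_add₀ qq_ne, zpow_natCast, pow_mul]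
  ring

theorem Lm_A (hoo : I_HOO) {n m : ℕ} (hn : 1 ≤ n) (lam : List ℕ) (Lm : Lam1 →ₗ[K1] Lam1)
    (hL : ∀ j ∈ Icc 1 n, Lm (plG bt (sc (hk n j))) = eps n m lam j • plG bt (sc (hk n j)))
    {z w : K1} (hw : w = z * qq ^ (n + m)) (hw1 : 1 - w ≠ 0) :
    Lm (A n z) = (eps n m lam 1 * ((1 - z) / (1 - w))) • A n w := by
  rw [A_hook hoo hn, A_hook hoo hn, map_sum, smul_sum]
  refine sum_congr rfl fun j hj => ?_
  rw [map_smul, hL j hj, smul_smul, smul_smul]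
  congr 1
  rw [mem_Icc] at hj
  rw [eps_eq lam hj.1 hj.2]
  have e : (-w) ^ (j - 1) = (-z) ^ (j - 1) * (qq ^ (n + m)) ^ (j - 1) := by
    rw [← mul_pow, hw, neg_mul]
  rw [e]
  field_simp

end FMLAux

open FMLAux in
/-- the value at `t = 1/q` -/
theorem t_FML : I_HOO → I_UNQ → I_WSY → I_OMG → I_FML := by
  intro hoo unq wsy omg n m lam hn hm _ Lm hL E1 hE
  refine unq n (fun k => Lm (E1 k)) (fun k => (qq ^ ((n.choose 2 : ℤ) -
    (((n - 1) * (n + m) : ℕ) : ℤ)) * sN (pM n) lam * (qi k / qi n)) • om (Wd n (n + m) k)) ?_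
  intro j hj
  have hj' := mem_Icc.1 hj
  have h1 := congrArg Lm (hE j hj)
  rw [← A_eq, map_sum] at h1
  have h2 : ∑ k ∈ Icc 1 n, (po ((qq ^ j)⁻¹) k / po qq k) • Lm (E1 k) = Lm (A n (qq ^ j)⁻¹) := by
    rw [h1]
    exact sum_congr rfl fun k _ => (map_smul Lm _ _).symm
  have hw : qq ^ (n + m - j) = (qq ^ j)⁻¹ * qq ^ (n + m) := by
    have e : qq ^ (n + m) = qq ^ j * qq ^ (n + m - j) := by
      rw [← pow_add]
      congr 1
      omega
    rw [e, ← mul_assoc, inv_mul_cancel₀ (pow_ne_zero _ qq_ne), one_mul]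
  have hw1 : 1 - qq ^ (n + m - j) ≠ 0 := by
    obtain ⟨d, hd⟩ : ∃ d, n + m - j = d + 1 := ⟨n + m - j - 1, by omega⟩
    rw [hd]
    exact one_sub_ne d
  change ∑ k ∈ Icc 1 n, (po ((qq ^ j)⁻¹) k / po qq k) • Lm (E1 k) = _
  rw [h2, Lm_A hoo hn lam Lm hL hw hw1, A_pow omg]
  have h3 := congrArg om (wsy n (n + m) hn (by omega) j hj)
  rw [map_sum, map_smul] at h3
  rw [mul_smul, ← h3, smul_sum]
  refine sum_congr rfl fun k _ => ?_
  rw [map_smul, smul_smul, smul_smul]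
  congr 1
  rw [eps]
  ring

end Pool.Agent.NEI
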