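import Pool.Agent.NEI.Stmts

/-!
# The words for `k = 1` (module GMF)
-/

set_option autoImplicit false

namespace Pool.Agent.NEI

open Finset MvPolynomial Pool.Agent.NEK

namespace GMFAux

/-- Pieri's rule for the value of a word over `K1`. -/
theorem pieri {N m : ℕ} (w : List (Fin N)) (h : w.length + m ≤ N) :
    hN X1 m * valw X1 w =
      sw m (fun x : List (Fin N) =>
        (if x.Pairwise (· ≤ ·) then valw X1 (x ++ w) else 0)) := by
  by_cases hw : Bal w
  · exact o_PIW Lam1 X1 N m w hw h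
  · have h0 : valw X1 w = 0 := by
      unfold valw
      rw [if_neg hw]
    rw [h0, mul_zero]
    have h1 : sw m (fun x : List (Fin N) =>
        (if x.Pairwise (· ≤ ·) then valw X1 (x ++ w) else 0)) =
        sw m (fun _ : List (Fin N) => (0 : Lam1) * 0) := by
      apply WNC.sw_congr
      intro x _
      have h2 : valw X1 (x ++ w) = 0 := by
        unfold valw
        rw [if_neg fun h => hw (WNC.bal_of_append x w h)]
      rw [h2, mul_zero, ite_self]
    rw [h1, WNC.sw_mul, zero_mul]

/-- one term of the sum over `b` -/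
theorem term {N n M b : ℕ} (hb : b ≤ n) (hn : n ≤ N)
    (ih : hM (n - b) M = sw (n - b) (fun v : List (Fin N) => C (cc M v) * valw X1 v))
    (c : K1) :
    C c * (hN X1 b * hM (n - b) M) = sw n (fun v : List (Fin N) =>
      C (if (v.take b).Pairwise (· ≤ ·) then c * cc M (v.drop b) else 0) * valw X1 v) := by
  classical
  rw [ih]
  have e5 : C c * (hN X1 b * sw (n - b) (fun v : List (Fin N) => C (cc M v) * valw X1 v)) =
      sw (n - b) (fun w : List (Fin N) => sw b (fun x : List (Fin N) =>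
        C (c * cc M w) * (if x.Pairwise (· ≤ ·) then valw X1 (x ++ w) else 0))) := by
    rw [← WNC.sw_mul, ← WNC.sw_mul]
    apply WNC.sw_congr
    intro w hlw
    rw [WNC.sw_mul, ← pieri w (by omega), C_mul]
    ring
  rw [e5, ← WNC.sw_comm, WNC.sw_append (n - b) b n (by omega)]
  apply WNC.sw_congr
  intro x hx
  apply WNC.sw_congr
  intro w _
  rw [List.take_left' hx, List.drop_left' hx]
  by_cases hxx : x.Pairwise (· ≤ ·)
  · rw [if_pos hxx, if_pos hxx]
  · rw [if_neg hxx, if_neg hxx, mul_zero, C_0, zero_mul]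

end GMFAux

open GMFAux in
theorem t_GMF : I_CCS → I_HMI → I_LEV → I_GMF := by
  classical
  intro hC hH hL N n M h1 hn hM1
  obtain ⟨M, rfl⟩ : ∃ M', M = M' + 1 := ⟨M - 1, by omega⟩
  have key : C (1 - qq ^ n) * hM n (M + 1) =
      C (1 - qq ^ (M + 1)) * sw n (fun v : List (Fin N) => C (kap 0 (M + 1) v) * valw X1 v) := by
    rw [(hH n M).2]
    have e1 : ∀ b ∈ Icc 1 n, C ((1 - qq ^ ((M + 1) * b)) * qq ^ (n - b)) *
        (hN X1 b * hM (n - b) M) =
        sw n (fun v : List (Fin N) =>
          C (if (v.take b).Pairwise (· ≤ ·) then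
            ((1 - qq ^ ((M + 1) * b)) * qq ^ (n - b)) * cc M (v.drop b) else 0) *
            valw X1 v) := by
      intro b hb
      rw [mem_Icc] at hb
      exact term hb.2 hn (hL N (n - b) M (by omega)) _
    rw [sum_congr rfl e1, ← WNC.sw_sum, ← WNC.sw_mul]
    apply WNC.sw_congr
    intro v hv
    have hv0 : v ≠ [] := by
      rintro rfl
      simp at hv
      omega
    rw [← sum_mul, ← map_sum C, ← mul_assoc, ← C_mul, ← (hC N M v).2 hv0, hv]
  have h2 : (1 - qq : K1) ≠ 0 := one_sub_qq_ne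
  have h3 : C (1 - qq) * (C (qi (M + 1)) * sw n (fun v : List (Fin N) =>
      C (kap 0 (M + 1) v) * valw X1 v)) = C (1 - qq) * (C (qi n) * hM n (M + 1)) := by
    rw [← mul_assoc, ← C_mul, ← mul_assoc, ← C_mul, qi_mul, qi_mul, ← key]
  have h4 : (C (1 - qq) : Lam1) ≠ 0 := by
    rw [Ne, C_eq_zero]
    exact h2
  exact mul_left_cancel₀ h4 h3

end Pool.Agent.NEI
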