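import Pool.Agent.NEI.Stmts

/-!
# Two recursions for `h_n[X (1 + … + q^{M-1})]`
-/

set_option autoImplicit false

namespace Pool.Agent.NEI

open Finset MvPolynomial Pool.Agent.NEK

namespace HMIAux

theorem pM_succ (M i : ℕ) : pM (M + 1) i = (qq ^ M) ^ (i + 1) + pM M i := by
  unfold pM
  rw [sum_range_succ, add_comm]

theorem pM_succ' (M i : ℕ) : pM (M + 1) i = 1 + qq ^ (i + 1) * pM M i := by
  unfold pM
  rw [sum_range_succ', mul_sum, pow_zero, one_pow, add_comm]
  congr 1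
  refine sum_congr rfl fun a _ => ?_
  rw [pow_succ qq a, mul_pow, mul_comm]

/-- addition formula with a scaled variable -/
theorem add_form (y : K1) (P : ℕ → Lam1) (n : ℕ) :
    hN (fun i => (C y : Lam1) ^ (i + 1) * X1 i + P i) n =
      ∑ b ∈ range (n + 1), C (y ^ b) * (hN X1 b * hN P (n - b)) := by
  rw [HNB.ha Lam1 (fun i => (C y : Lam1) ^ (i + 1) * X1 i) P n,
    Finset.Nat.sum_antidiagonal_eq_sum_range_succ
      (fun i j => hN (fun i => (C y : Lam1) ^ (i + 1) * X1 i) i * hN P j)]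
  refine sum_congr rfl fun b _ => ?_
  rw [(HNB.hs Lam1 X1 (C y) b).1, C_pow, mul_assoc]

theorem first (n M : ℕ) : hM n (M + 1) =
    ∑ b ∈ range (n + 1), C (qq ^ (M * b)) * (hN X1 b * hM (n - b) M) := by
  have h : hM n (M + 1) = hN (fun i => (C (qq ^ M) : Lam1) ^ (i + 1) * X1 i +
      (C (pM M i) * X i)) n := by
    unfold hM hb
    congr 1
    funext i
    rw [pM_succ, C_add, C_pow, C_pow, add_mul]
    rfl
  rw [h, add_form]
  refine sum_congr rfl fun b _ => ?_
  rw [← pow_mul]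
  rfl

theorem second (n M : ℕ) : hM n (M + 1) =
    ∑ b ∈ range (n + 1), C (qq ^ (n - b)) * (hN X1 b * hM (n - b) M) := by
  have h : hM n (M + 1) = hN (fun i => (C (1 : K1) : Lam1) ^ (i + 1) * X1 i +
      (C qq : Lam1) ^ (i + 1) * (C (pM M i) * X i)) n := by
    unfold hM hb
    congr 1
    funext i
    rw [pM_succ', C_add, C_mul, C_pow, C_1, one_pow, one_mul, add_mul, one_mul, mul_assoc]
    rfl
  rw [h, add_form]
  refine sum_congr rfl fun b _ => ?_
  rw [(HNB.hs Lam1 (fun i => C (pM M i) * X i) (C qq) (n - b)).1, one_pow, C_1, one_mul, C_pow]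
  have e : hN (fun i => (C (pM M i) : Lam1) * X i) (n - b) = hM (n - b) M := rfl
  rw [e]
  ring

theorem third (n M : ℕ) : C (qq ^ n) * hM n (M + 1) =
    ∑ b ∈ range (n + 1), C (qq ^ ((M + 1) * b) * qq ^ (n - b)) *
      (hN X1 b * hM (n - b) M) := by
  have h : C (qq ^ n) * hM n (M + 1) = hN (fun i => (C (qq ^ (M + 1)) : Lam1) ^ (i + 1) * X1 i +
      (C qq : Lam1) ^ (i + 1) * (C (pM M i) * X i)) n := by
    have h1 := (HNB.hs Lam1 (fun i => C (pM (M + 1) i) * X i) (C qq) n).1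
    have e : hN (fun i => (C (pM (M + 1) i) : Lam1) * X i) n = hM n (M + 1) := rfl
    rw [e] at h1
    rw [C_pow, ← h1]
    congr 1
    funext i
    rw [pM_succ, C_add, C_pow (qq ^ M)]
    have e2 : (C (qq ^ (M + 1)) : Lam1) ^ (i + 1) =
        (C qq : Lam1) ^ (i + 1) * (C (qq ^ M) : Lam1) ^ (i + 1) := by
      rw [← mul_pow, ← C_mul, ← pow_succ']
    rw [e2]
    change _ = _ * X i + _
    ring
  rw [h, add_form]
  refine sum_congr rfl fun b _ => ?_
  rw [(HNB.hs Lam1 (fun i => C (pM M i) * X i) (C qq) (n - b)).1]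
  have e : hN (fun i => (C (pM M i) : Lam1) * X i) (n - b) = hM (n - b) M := rfl
  rw [e, ← pow_mul, C_mul, C_pow qq (n - b)]
  ring

end HMIAux

open HMIAux in
/-- two recursions for `h_n[X (1 + … + q^{M-1})]` -/
theorem t_HMI : I_HMI := by
  intro n M
  refine ⟨first n M, ?_⟩
  rw [C_sub, C_1, sub_mul, one_mul, third n M]
  conv_lhs => rw [second n M]
  rw [← sum_sub_distrib, Finset.range_eq_Ico, Finset.sum_eq_sum_Ico_succ_bot (Nat.succ_pos n)]
  have h0 : C (qq ^ (n - 0)) * (hN X1 0 * hM (n - 0) M) -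
      C (qq ^ ((M + 1) * 0) * qq ^ (n - 0)) * (hN X1 0 * hM (n - 0) M) = 0 := by
    rw [Nat.mul_zero, pow_zero, one_mul, sub_self]
  rw [h0, zero_add]
  have e : Ico (0 + 1) (n + 1) = Icc 1 n := by
    ext x
    rw [mem_Ico, mem_Icc]
    omega
  rw [e]
  refine sum_congr rfl fun b _ => ?_
  rw [← sub_mul, ← C_sub]
  congr 2
  ring

end Pool.Agent.NEI
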