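import Pool.Agent.NEI.Stmts

/-!
# Module HOO: the hook expansion of `e_n[X(1-z)]`
-/

set_option autoImplicit false

namespace Pool.Agent.NEI

open MvPolynomial Finset Pool.Agent.NEK

namespace HOOAux

/-- `(1^c, 0, …)` -/
def G (M c : ℕ) : Fin M → ℕ := fun i => if (i : ℕ) < c then 1 else 0

/-- `(a, 1^c, 0, …)` -/
def F (M a c : ℕ) : Fin (M + 1) → ℕ := Fin.cons a (G M c)

theorem F_zero (M a c : ℕ) : F M a c 0 = a := rfl

theorem F_succ (M a c : ℕ) (i : Fin M) : F M a c i.succ = G M c i := rfl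

theorem G_le (M c : ℕ) (i : Fin M) : G M c i ≤ 1 := by
  unfold G
  split_ifs <;> omega

theorem G_anti (M c : ℕ) : Antitone (G M c) := by
  intro i j hij
  have h : (i : ℕ) ≤ j := hij
  unfold G
  split_ifs <;> omega

theorem G_sum (M c : ℕ) (h : c ≤ M) : ∑ i, G M c i = c := by
  unfold G
  rw [Finset.sum_ite, Finset.sum_const_zero, add_zero, Finset.sum_const, smul_eq_mul, mul_one,
    Fin.card_filter_val_lt, min_eq_right h]

theorem F_anti (M a c : ℕ) (ha : 1 ≤ a) : Antitone (F M a c) := by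
  intro i j hij
  refine Fin.cases ?_ (fun j => ?_) j (motive := fun j => i ≤ j → F M a c j ≤ F M a c i) hij
  · intro h
    have : i = 0 := le_antisymm h (Fin.zero_le _)
    rw [this]
  · intro h
    refine Fin.cases ?_ (fun i => ?_) i (motive := fun i => i ≤ j.succ → F M a c j.succ ≤ F M a c i) h
    · intro _
      rw [F_succ, F_zero]
      exact (G_le M c j).trans ha
    · intro h
      rw [F_succ, F_succ]
      exact G_anti M c (Fin.succ_le_succ_iff.1 h)

theorem F_sum (M a c : ℕ) (h : c ≤ M) : ∑ i, F M a c i = a + c := by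
  rw [Fin.sum_univ_succ, F_zero]
  simp only [F_succ]
  rw [G_sum M c h]

theorem F_add (M a b c : ℕ) : (fun i => F M a 0 i + F M b c i) = F M (a + b) c := by
  funext i
  refine Fin.cases ?_ (fun i => ?_) i
  · rw [F_zero, F_zero, F_zero]
  · rw [F_succ, F_succ, F_succ]
    unfold G
    rw [if_neg (Nat.not_lt_zero _), zero_add]

theorem ofFn_G (M c : ℕ) (h : c ≤ M) :
    List.ofFn (G M c) = List.replicate c 1 ++ List.replicate (M - c) 0 := by
  apply List.ext_getElem
  · rw [List.length_ofFn, List.length_append, List.length_replicate, List.length_replicate]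
    omega
  · intro i h1 h2
    rw [List.getElem_ofFn]
    by_cases hi : i < c
    · rw [List.getElem_append_left (by rw [List.length_replicate]; exact hi),
        List.getElem_replicate]
      unfold G
      rw [if_pos hi]
    · rw [List.getElem_append_right (by rw [List.length_replicate]; omega),
        List.getElem_replicate]
      unfold G
      rw [if_neg hi]

theorem filter_F (M a c : ℕ) (ha : 1 ≤ a) (h : c ≤ M) :
    ((List.ofFn (F M a c)).filter fun a => decide (0 < a)) = a :: List.replicate c 1 := by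
  rw [List.ofFn_succ]
  change (a :: List.ofFn (G M c)).filter _ = _
  have h1 : decide (0 < a) = true := decide_eq_true ha
  rw [ofFn_G M c h, List.filter_cons_of_pos (p := fun a => decide (0 < a)) h1, List.filter_append,
    List.filter_replicate, List.filter_replicate]
  simp

theorem SD_F (M a c : ℕ) (ha : 1 ≤ a) (h : c ≤ M) :
    SD X1 (F M a c) = sc (a :: List.replicate c 1) := by
  rw [o_PAD Lam1 X1 _ _ (F_anti M a c ha), filter_F M a c ha h]
  rfl

theorem sc_single (a : ℕ) : sc [a] = hN X1 a := by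
  unfold sc sN
  have h : Matrix.det (Matrix.of fun i j : Fin ([a] : List ℕ).length =>
      hZ X1 ((([a] : List ℕ).get i : ℤ) - (i : ℤ) + (j : ℤ))) =
      hZ X1 ((([a] : List ℕ).get (0 : Fin 1) : ℤ) - ((0 : Fin 1) : ℕ) + ((0 : Fin 1) : ℕ)) :=
    Matrix.det_fin_one _
  rw [h]
  change hZ X1 ((a : ℤ) - ((0 : ℕ) : ℤ) + ((0 : ℕ) : ℤ)) = _
  rw [Nat.cast_zero, sub_zero, add_zero, hZ, if_pos (Int.natCast_nonneg a), Int.toNat_natCast]

/-- an antitone function with values `0`, `1` -/
theorem tail (M : ℕ) (g : Fin M → ℕ) (hg : Antitone g) (h2 : ∀ i, g i < 2) :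
    g = G M (∑ i, g i) := by
  induction M with
  | zero => funext i; exact i.elim0
  | succ M ih =>
    have h3 := ih (fun i : Fin M => g i.succ) (fun i j hij => hg (Fin.succ_le_succ_iff.2 hij))
      (fun i => h2 _)
    rw [Fin.sum_univ_succ]
    by_cases h0 : g 0 = 0
    · have h4 : ∀ i, g i = 0 := fun i => by
        have := hg (Fin.zero_le i)
        omega
      funext i
      unfold G
      simp [h4]
    · have h5 : g 0 = 1 := by
        have := h2 0
        omega
      funext i
      refine Fin.cases ?_ (fun i => ?_) i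
      · rw [h5]
        unfold G
        rw [if_pos (by simp)]
      · have h6 := congrFun h3 i
        rw [h5]
        change g i.succ = _
        change g i.succ = G M (∑ i : Fin M, g i.succ) i at h6
        rw [h6]
        unfold G
        have h7 : ((i.succ : Fin (M + 1)) : ℕ) = i + 1 := Fin.val_succ i
        rw [h7]
        have h8 : ((i : ℕ) < ∑ i : Fin M, g i.succ) ↔ ((i : ℕ) + 1 < 1 + ∑ i : Fin M, g i.succ) := by omega
        by_cases h9 : (i : ℕ) < ∑ i : Fin M, g i.succ
        · rw [if_pos h9, if_pos (h8.1 h9)]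
        · rw [if_neg h9, if_neg (fun h => h9 (h8.2 h))]

theorem form (M b : ℕ) (r : Fin (M + 1) → ℕ) (h2 : ∀ i, r i < 2)
    (ha : Antitone fun i => F M b 0 i + r i) : ∃ c, c ≤ M ∧ r = F M (r 0) c := by
  refine ⟨∑ i : Fin M, r i.succ, ?_, ?_⟩
  · calc ∑ i : Fin M, r i.succ ≤ ∑ _i : Fin M, 1 := by
          refine Finset.sum_le_sum fun i _ => ?_
          have := h2 i.succ
          omega
      _ = M := by simp
  · have h3 : Antitone fun i : Fin M => r i.succ := by
      intro i j hij
      have h4 := ha (Fin.succ_le_succ_iff.2 hij)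
      have h5 : ∀ i : Fin M, F M b 0 i.succ = 0 := fun i => by
        rw [F_succ]
        unfold G
        rw [if_neg (Nat.not_lt_zero _)]
      change F M b 0 j.succ + r j.succ ≤ F M b 0 i.succ + r i.succ at h4
      rw [h5, h5] at h4
      change r j.succ ≤ r i.succ
      omega
    have h4 := tail M (fun i => r i.succ) h3 (fun i => h2 _)
    funext i
    refine Fin.cases ?_ (fun i => ?_) i
    · rw [F_zero]
    · rw [F_succ]
      exact congrFun h4 i

theorem mem_pi (M : ℕ) (r : Fin (M + 1) → ℕ) :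
    r ∈ (Fintype.piFinset fun _ : Fin (M + 1) => range 2) ↔ ∀ i, r i < 2 := by
  rw [Fintype.mem_piFinset]
  simp only [mem_range]

theorem F_lt (M a c : ℕ) (ha : a < 2) (i : Fin (M + 1)) : F M a c i < 2 := by
  refine Fin.cases ?_ (fun i => ?_) i
  · rw [F_zero]; exact ha
  · rw [F_succ]; have := G_le M c i; omega

/-- `e_n = s_{1^n}` -/
theorem e_full (M : ℕ) : eN X1 (M + 1) = sc (hk (M + 1) 1) := by
  have hz : F M 0 0 = fun _ => 0 := by
    funext i
    refine Fin.cases ?_ (fun i => ?_) i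
    · rfl
    · rw [F_succ]
      unfold G
      rw [if_neg (Nat.not_lt_zero _)]
  have h0 : Antitone (F M 0 0) := by
    rw [hz]
    exact fun _ _ _ => le_rfl
  have h1 : SD X1 (F M 0 0) = 1 := by
    rw [o_PAD Lam1 X1 _ _ h0, hz]
    have h : ((List.ofFn fun _ : Fin (M + 1) => 0).filter fun a => decide (0 < a)) = [] := by
      rw [List.filter_eq_nil_iff]
      intro a ha
      rw [List.mem_ofFn] at ha
      obtain ⟨i, rfl⟩ := ha
      simp
    rw [h]
    simp [sN]
  have h2 := o_VPI (M + 1) (M + 1) (F M 0 0) h0 (by rw [F_sum M 0 0 (Nat.zero_le _)]; omega)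
  rw [h1, mul_one] at h2
  rw [h2]
  have h3 : (Fintype.piFinset fun _ : Fin (M + 1) => range 2).filter
      (fun r => ∑ i, r i = M + 1 ∧ Antitone (fun i => F M 0 0 i + r i)) = {F M 1 M} := by
    ext r
    rw [mem_filter, mem_pi, mem_singleton]
    constructor
    · rintro ⟨h4, h5, h6⟩
      obtain ⟨c, hc, h7⟩ := form M 0 r h4 h6
      have h8 : ∑ i, r i = r 0 + c := by
        conv_lhs => rw [h7]
        exact F_sum M _ c hc
      have h9 := h4 0
      have h10 : r 0 = 1 := by omega
      have h11 : c = M := by omega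
      rw [h7, h10, h11]
    · rintro rfl
      refine ⟨fun i => F_lt M 1 M (by omega) i, ?_, ?_⟩
      · rw [F_sum M 1 M le_rfl]; omega
      · rw [F_add]
        exact F_anti M _ M (by omega)
  rw [h3, sum_singleton, F_add, SD_F M _ M (by omega) le_rfl, zero_add]
  rfl

/-- `h_b e_{n-b}` for `1 ≤ b ≤ n-1` -/
theorem mid (M b : ℕ) (h1 : 1 ≤ b) (h2 : b ≤ M) :
    hN X1 b * eN X1 (M + 1 - b) = sc (hk (M + 1) b) + sc (hk (M + 1) (b + 1)) := by
  have hb : SD X1 (F M b 0) = hN X1 b := by
    rw [SD_F M b 0 h1 (Nat.zero_le _)]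
    exact sc_single b
  have h3 := o_VPI (M + 1) (M + 1 - b) (F M b 0) (F_anti M b 0 h1)
    (by rw [F_sum M b 0 (Nat.zero_le _)]; omega)
  rw [hb, mul_comm] at h3
  rw [h3]
  have h4 : (Fintype.piFinset fun _ : Fin (M + 1) => range 2).filter
      (fun r => ∑ i, r i = M + 1 - b ∧ Antitone (fun i => F M b 0 i + r i)) =
      {F M 0 (M + 1 - b), F M 1 (M - b)} := by
    ext r
    rw [mem_filter, mem_pi, mem_insert, mem_singleton]
    constructor
    · rintro ⟨h4, h5, h6⟩
      obtain ⟨c, hc, h7⟩ := form M b r h4 h6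
      have h8 : ∑ i, r i = r 0 + c := by
        conv_lhs => rw [h7]
        exact F_sum M _ c hc
      have h9 := h4 0
      by_cases h10 : r 0 = 0
      · left
        have h11 : c = M + 1 - b := by omega
        rw [h7, h10, h11]
      · right
        have h12 : r 0 = 1 := by omega
        have h11 : c = M - b := by omega
        rw [h7, h12, h11]
    · rintro (rfl | rfl)
      · refine ⟨fun i => F_lt M 0 _ (by omega) i, ?_, ?_⟩
        · rw [F_sum M 0 _ (by omega)]; omega
        · rw [F_add]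
          exact F_anti M _ _ (by omega)
      · refine ⟨fun i => F_lt M 1 _ (by omega) i, ?_, ?_⟩
        · rw [F_sum M 1 _ (by omega)]; omega
        · rw [F_add]
          exact F_anti M _ _ (by omega)
  have h5 : F M 0 (M + 1 - b) ≠ F M 1 (M - b) := by
    intro h
    have := congrFun h 0
    rw [F_zero, F_zero] at this
    omega
  rw [h4, sum_pair h5, F_add, F_add, SD_F M _ _ (by omega) (by omega),
    SD_F M _ _ (by omega) (by omega), add_zero]
  unfold hk
  rw [show M + 1 - (b + 1) = M - b by omega]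

/-- the hook Schur functions, `0` outside of `1 ≤ j ≤ n` -/
noncomputable def Sj (n j : ℕ) : Lam1 := if 1 ≤ j ∧ j ≤ n then sc (hk n j) else 0

theorem all (M b : ℕ) (h2 : b ≤ M + 1) :
    hN X1 b * eN X1 (M + 1 - b) = Sj (M + 1) b + Sj (M + 1) (b + 1) := by
  unfold Sj
  by_cases h0 : b = 0
  · subst h0
    rw [if_neg (by omega), if_pos (by omega), zero_add, zero_add, Nat.sub_zero, e_full]
    rw [hN, one_mul]
  by_cases h1 : b ≤ M
  · rw [if_pos (by omega), if_pos (by omega), mid M b (by omega) h1]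
  · have h3 : b = M + 1 := by omega
    subst h3
    rw [if_pos (by omega), if_neg (by omega), add_zero, Nat.sub_self, eN, mul_one]
    unfold hk
    rw [Nat.sub_self, List.replicate_zero, sc_single]

/-- `e_n[X(1-z)] = ∑_b (-z)^b h_b e_{n-b}` -/
theorem exp (n : ℕ) (z : K1) : eN (fun i => C (1 - z ^ (i + 1)) * X1 i) n =
    ∑ b ∈ range (n + 1), C ((-z) ^ b) * (hN X1 b * eN X1 (n - b)) := by
  rw [VPI.eN_eq]
  have h1 : (fun k => -(C (1 - z ^ (k + 1)) * X1 k : Lam1)) =
      fun k => (C z ^ (k + 1) * X1 k) + (- X1 k) := by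
    funext k
    rw [map_sub, map_pow, map_one]
    ring
  rw [h1]
  have h2 := HNB.ha Lam1 (fun k => C z ^ (k + 1) * X1 k) (fun k => - X1 k) n
  rw [h2, Finset.Nat.sum_antidiagonal_eq_sum_range_succ_mk, mul_sum]
  refine sum_congr rfl fun b hb => ?_
  rw [mem_range] at hb
  have h3 := (HNB.hs Lam1 X1 (C z) b).1
  have h4 := VPI.eN_eq X1 (n - b)
  change (-1) ^ n * (hN (fun k => C z ^ (k + 1) * X1 k) b * hN (fun k => - X1 k) (n - b)) = _
  rw [h3, h4, map_pow, map_neg, neg_pow (C z)]
  have h5 : (-1 : Lam1) ^ n = (-1) ^ b * (-1) ^ (n - b) := by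
    rw [← pow_add]
    congr 1
    omega
  rw [h5]
  ring

end HOOAux

open HOOAux in
theorem t_HOO : I_HOO := by
  intro n z hn
  obtain ⟨M, rfl⟩ : ∃ M, n = M + 1 := ⟨n - 1, by omega⟩
  rw [exp]
  have h1 : ∑ b ∈ range (M + 1 + 1), C ((-z) ^ b) * (hN X1 b * eN X1 (M + 1 - b)) =
      ∑ b ∈ range (M + 1 + 1), (C ((-z) ^ b) * Sj (M + 1) b + C ((-z) ^ b) * Sj (M + 1) (b + 1)) := by
    refine sum_congr rfl fun b hb => ?_
    rw [mem_range] at hb
    rw [all M b (by omega), mul_add]
  rw [h1, sum_add_distrib, sum_range_succ', sum_range_succ (fun b => C ((-z) ^ b) * Sj (M + 1) (b + 1))]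
  have h2 : Sj (M + 1) 0 = 0 := by
    unfold Sj
    rw [if_neg (by omega)]
  have h3 : Sj (M + 1) (M + 1 + 1) = 0 := by
    unfold Sj
    rw [if_neg (by omega)]
  rw [h2, h3, mul_zero, mul_zero, add_zero, add_zero, ← sum_add_distrib]
  have h4 : ∑ j ∈ Icc 1 (M + 1), ((1 - z) * (-z) ^ (j - 1)) • sc (hk (M + 1) j) =
      ∑ j ∈ range (M + 1), ((1 - z) * (-z) ^ j) • sc (hk (M + 1) (j + 1)) := by
    have h5 : Icc 1 (M + 1) = Ico (0 + 1) (M + 1 + 1) := by
      ext x
      rw [mem_Icc, mem_Ico]
      omega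
    rw [h5, ← Finset.sum_Ico_add' (fun j => ((1 - z) * (-z) ^ (j - 1)) • sc (hk (M + 1) j)) 0
      (M + 1) 1, Finset.range_eq_Ico]
    rfl
  rw [h4]
  refine sum_congr rfl fun j hj => ?_
  rw [mem_range] at hj
  have h6 : Sj (M + 1) (j + 1) = sc (hk (M + 1) (j + 1)) := by
    unfold Sj
    rw [if_pos (by omega)]
  rw [h6, MvPolynomial.smul_eq_C_mul, ← add_mul, ← map_add]
  congr 2
  ring

end Pool.Agent.NEI
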