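import Pool.Agent.NEI.Stmts

/-!
# `h_m` is a combination of `s_l`, `l ≥ m`
-/

set_option autoImplicit false

namespace Pool.Agent.NEI

open MvPolynomial Finset Pool.Agent.NEK

namespace HSFAux

theorem hb_one (a : ℕ) : hb (fun _ => (1 : K1)) a = hN X1 a := by
  unfold hb
  congr 1
  funext i
  rw [C_1, one_mul]
  rfl

theorem hbp_cons (a : ℕ) (m : List ℕ) :
    hbp (fun _ => (1 : K1)) (a :: m) = hN X1 a * hbp (fun _ => (1 : K1)) m := by
  unfold hbp
  rw [List.map_cons, List.prod_cons, hb_one]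

theorem last_zero {n : ℕ} {lam : Fin (n + 1) → ℕ} (h : Antitone lam) (hs : ∑ i, lam i ≤ n) :
    lam (Fin.last n) = 0 := by
  by_contra h0
  have h1 : ∀ i, 1 ≤ lam i := fun i => (Nat.one_le_iff_ne_zero.2 h0).trans (h (Fin.le_last i))
  have h2 : ∑ _i : Fin (n + 1), 1 ≤ ∑ i, lam i := sum_le_sum fun i _ => h1 i
  simp at h2
  omega

/-- the sums of the first `k + 1` rows after adding a horizontal strip -/
theorem dom {n a k : ℕ} {lam κ : Fin (n + 1) → ℕ} (h0 : lam (Fin.last n) = 0)
    (hs : ∑ i, κ i = a + ∑ i, lam i) (hκ : ∀ i : Fin n, κ i.succ ≤ lam i.castSucc) :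
    a + ∑ i ∈ univ.filter (fun i : Fin (n + 1) => (i : ℕ) < k), lam i ≤
      ∑ i ∈ univ.filter (fun i : Fin (n + 1) => (i : ℕ) < k + 1), κ i := by
  have e1 : ∑ i ∈ univ.filter (fun i : Fin (n + 1) => (i : ℕ) < k), lam i =
      ∑ i ∈ univ.filter (fun i : Fin n => (i : ℕ) < k), lam i.castSucc := by
    rw [sum_filter, sum_filter, Fin.sum_univ_castSucc, h0]
    simp
  have e2 : ∑ i ∈ univ.filter (fun i : Fin (n + 1) => (i : ℕ) < k + 1), κ i =
      κ 0 + ∑ i ∈ univ.filter (fun i : Fin n => (i : ℕ) < k), κ i.succ := by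
    rw [sum_filter, sum_filter, Fin.sum_univ_succ]
    simp
  have e3 : ∑ i, κ i = κ 0 + ∑ i : Fin n, κ i.succ := Fin.sum_univ_succ _
  have e4 : ∑ i, lam i = ∑ i : Fin n, lam i.castSucc := by
    rw [Fin.sum_univ_castSucc, h0, add_zero]
  have e5 := sum_filter_add_sum_filter_not (univ : Finset (Fin n)) (fun i => (i : ℕ) < k)
    (fun i => κ i.succ)
  have e6 := sum_filter_add_sum_filter_not (univ : Finset (Fin n)) (fun i => (i : ℕ) < k)
    (fun i => lam i.castSucc)
  have e7 : ∑ i ∈ univ.filter (fun i : Fin n => ¬ (i : ℕ) < k), κ i.succ ≤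
      ∑ i ∈ univ.filter (fun i : Fin n => ¬ (i : ℕ) < k), lam i.castSucc :=
    sum_le_sum fun i _ => hκ i
  rw [e1, e2]
  omega

/-- the spanning set of `I_HSF` -/
def S (n : ℕ) (m : List ℕ) : Set Lam1 := {f | ∃ lam : Fin (n + 1) → ℕ, Antitone lam ∧
    ∑ i, lam i = m.sum ∧
    (∀ k, (m.take k).sum ≤ ∑ i ∈ univ.filter (fun i : Fin (n + 1) => (i : ℕ) < k), lam i) ∧
    f = SD X1 lam}

theorem step {n a : ℕ} {m : List ℕ} (hm : (a :: m).sum ≤ n) {f : Lam1} (hf : f ∈ S n m) :
    hN X1 a * f ∈ Submodule.span K1 (S n (a :: m)) := by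
  obtain ⟨lam, h1, h2, h3, rfl⟩ := hf
  rw [List.sum_cons] at hm
  have h0 : lam (Fin.last n) = 0 := last_zero h1 (by omega)
  rw [o_PIE Lam1 X1 n lam h1 h0 a]
  refine Submodule.sum_mem _ fun r hr => Submodule.subset_span ?_
  rw [mem_filter] at hr
  obtain ⟨-, hr1, hr2⟩ := hr
  have hs : ∑ i, (lam i + r i) = a + ∑ i, lam i := by
    rw [sum_add_distrib, hr1, add_comm]
  refine ⟨fun i => lam i + r i, ?_, ?_, ?_, rfl⟩
  · refine Fin.antitone_iff_succ_le.2 fun i => ?_
    have := hr2 i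
    show lam i.succ + r i.succ ≤ lam i.castSucc + r i.castSucc
    omega
  · rw [hs, h2, List.sum_cons]
  · intro k
    cases k with
    | zero => simp
    | succ k =>
      rw [List.take_succ_cons, List.sum_cons]
      refine le_trans ?_ (dom (a := a) (k := k) (κ := fun i => lam i + r i) h0 hs hr2)
      exact Nat.add_le_add_left (h3 k) a

end HSFAux

open HSFAux in
theorem t_HSF : I_HSF := by
  intro n m
  change m.sum ≤ n → hbp (fun _ => (1 : K1)) m ∈ Submodule.span K1 (S n m)
  induction m with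
  | nil =>
    intro _
    refine Submodule.subset_span ⟨cont ([] : List (Fin (n + 1))), ?_, ?_, ?_, ?_⟩
    · intro i j _
      simp [cont]
    · simp [cont]
    · intro k
      simp
    · rw [WNC.SD_zero]
      simp [hbp]
  | cons a m ih =>
    intro hm
    have hm' : m.sum ≤ n := by
      rw [List.sum_cons] at hm
      omega
    rw [hbp_cons]
    refine Submodule.span_induction (p := fun x _ =>
      hN X1 a * x ∈ Submodule.span K1 (S n (a :: m))) ?_ ?_ ?_ ?_ (ih hm')
    · intro x hx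
      exact step hm hx
    · rw [mul_zero]
      exact Submodule.zero_mem _
    · intro x y _ _ hx hy
      rw [mul_add]
      exact Submodule.add_mem _ hx hy
    · intro c x _ hx
      rw [mul_smul_comm]
      exact Submodule.smul_mem _ _ hx

end Pool.Agent.NEI
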