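import Pool.Agent.NEI.Stmts

/-!
# Span and independence of the Schur functions
-/

set_option autoImplicit false

namespace Pool.Agent.NEI

open Finset MvPolynomial Pool.Agent.NEK

namespace HSPAux

theorem first (hL : I_LFN) (hF : I_HSF) (n : ℕ) (m : List ℕ) (hm : IsPart n m) :
    hbp (fun _ => (1 : K1)) m ∈ Submodule.span K1 {f | ∃ l, IsPart n l ∧ Dom l m ∧ f = sc l} := by
  refine Submodule.span_mono ?_ (hF n m hm.2.2.le)
  rintro f ⟨lam, h1, h2, h3, rfl⟩
  obtain ⟨l, hl, rfl⟩ := (hL n).2 lam h1 (h2.trans hm.2.2)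
  obtain ⟨-, -, h4, -, h5⟩ := (hL n).1 l hl
  refine ⟨l, hl, fun k => ?_, h4⟩
  rw [h5 k]
  exact h3 k

theorem lin_h (n : ℕ) : LinearIndependent K1
    (fun l : {l // l ∈ PS n} => (hbp (fun _ => (1 : K1)) (l : List ℕ) : Lam1)) := by
  rw [Fintype.linearIndependent_iff]
  intro g hg
  classical
  have h := o_LIN K1 (fun _ => (1 : K1)) (fun _ => one_ne_zero) n
    (fun l => if h : l ∈ PS n then g ⟨l, h⟩ else 0) (by
      rw [← Finset.sum_coe_sort]
      refine Eq.trans (Finset.sum_congr rfl fun l _ => ?_) hg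
      rw [dif_pos l.2])
  intro l
  have h1 := h l l.2
  rwa [dif_pos l.2] at h1

theorem lin_s (hL : I_LFN) (hF : I_HSF) (n : ℕ) : LinearIndependent K1
    (fun l : {l // l ∈ PS n} => sc (l : List ℕ)) := by
  rw [linearIndependent_iff_card_le_finrank_span]
  have h1 := finrank_span_eq_card (lin_h n)
  rw [← h1]
  have : FiniteDimensional K1
      (Submodule.span K1 (Set.range (fun l : {l // l ∈ PS n} => sc (l : List ℕ)))) :=
    FiniteDimensional.span_of_finite K1 (Set.finite_range _)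
  refine Submodule.finrank_mono (Submodule.span_le.2 ?_)
  rintro f ⟨l, rfl⟩
  refine Submodule.span_mono ?_ (first hL hF n l (mem_PS.1 l.2))
  rintro f ⟨l', h2, -, rfl⟩
  exact ⟨⟨l', mem_PS.2 h2⟩, rfl⟩

end HSPAux

open HSPAux in
theorem t_HSP : I_LFN → I_HSF → I_HSP := by
  intro hL hF
  refine ⟨fun n m hm => first hL hF n m hm, fun n c hc l hl => ?_⟩
  have h := Fintype.linearIndependent_iff.1 (lin_s hL hF n) (fun l => c l) (by
    rw [Finset.sum_coe_sort (PS n) (fun l => c l • sc l)]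
    exact hc)
  exact h ⟨l, hl⟩

end Pool.Agent.NEI
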