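import Pool.Agent.NEI.Stmts

/-!
# Module KAP: the coefficients `kap` are in `ℕ[q]`, and their recursion
-/

set_option autoImplicit false

namespace Pool.Agent.NEI

open Finset MvPolynomial Pool.Agent.NEK

namespace KAPAux

theorem gB_mem (a : ℕ) : ∀ b : ℕ, gB a b ∈ N1 := by
  induction a with
  | zero => intro b; rw [gB_0r]; exact one_mem _
  | succ a ih =>
    intro b
    induction b with
    | zero => rw [gB_r0]; exact one_mem _
    | succ b ihb =>
      rw [gB_ss]
      exact add_mem (ih _) (mul_mem (pow_mem qq_mem _) ihb)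

theorem tm_mem {N : ℕ} (l M : ℕ) (v : List (Fin N)) : tm l M v ∈ N1 := by
  cases v with
  | nil => exact zero_mem _
  | cons r w =>
    rw [tm]
    split_ifs
    · exact mul_mem (pow_mem qq_mem _) (gB_mem _ _)
    · exact zero_mem _

theorem des_le {N : ℕ} (w : List (Fin N)) : ∀ r : Fin N, des (r :: w) ≤ w.length := by
  induction w with
  | nil => intro r; rw [des]; exact le_refl _
  | cons r' w ih =>
    intro r
    rw [des, List.length_cons]
    have h := ih r'
    split_ifs <;> omega

theorem tm_cons {N : ℕ} (l M : ℕ) (r : Fin N) (w : List (Fin N)) :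
    tm l M (r :: w) = if des (r :: w) < M ∧ l ≤ w.length then
      qq ^ (w.length + mjh w + l * (M - 1 - des (r :: w))) *
        gB (M - 1 - des (r :: w)) (w.length - l) else 0 := by
  rw [tm]

theorem core (E D L l M : ℕ) (hD : D ≤ L) (hM : l + 2 ≤ M) :
    (if D < M ∧ l + 1 ≤ L then qq ^ (E + (l + 1) * (M - 1 - D)) * gB (M - 1 - D) (L - (l + 1)) else 0) =
      (if D < M ∧ l ≤ L then qq ^ (E + l * (M - 1 - D)) * gB (M - 1 - D) (L - l) else 0) -
        qq ^ l * (if D < M - 1 ∧ l ≤ L then
          qq ^ (E + l * (M - 1 - 1 - D)) * gB (M - 1 - 1 - D) (L - l) else 0) := by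
  by_cases h1 : D + 2 ≤ M
  · obtain ⟨a, rfl⟩ : ∃ a, M = D + a + 2 := ⟨M - (D + 2), by omega⟩
    have e1 : D + a + 2 - 1 - D = a + 1 := by omega
    have e2 : D + a + 2 - 1 - 1 - D = a := by omega
    have c1 : D < D + a + 2 := by omega
    have c2 : D < D + a + 2 - 1 := by omega
    rw [e1, e2]
    by_cases h2 : l + 1 ≤ L
    · obtain ⟨b, rfl⟩ : ∃ b, L = l + b + 1 := ⟨L - (l + 1), by omega⟩
      have e3 : l + b + 1 - (l + 1) = b := by omega
      have e4 : l + b + 1 - l = b + 1 := by omega
      rw [if_pos ⟨c1, h2⟩, if_pos ⟨c1, by omega⟩, if_pos ⟨c2, by omega⟩, e3, e4, gB_ss]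
      ring
    · by_cases h3 : l = L
      · subst h3
        rw [if_neg (by omega), if_pos ⟨c1, le_refl _⟩, if_pos ⟨c2, le_refl _⟩, Nat.sub_self, gB_r0, gB_r0]
        ring
      · rw [if_neg (by omega), if_neg (by omega), if_neg (by omega)]
        ring
  · by_cases h2 : D + 1 = M
    · subst h2
      have e1 : D + 1 - 1 - D = 0 := by omega
      rw [e1, if_pos ⟨by omega, by omega⟩, if_pos ⟨by omega, by omega⟩, if_neg (by omega), gB_0r, gB_0r]
      ring
    · rw [if_neg (by omega), if_neg (by omega), if_neg (by omega)]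
      ring

theorem tm_rec {N : ℕ} (l M : ℕ) (v : List (Fin N)) (hM : l + 2 ≤ M) :
    tm (l + 1) M v = tm l M v - qq ^ l * tm l (M - 1) v := by
  cases v with
  | nil =>
    rw [tm, tm, tm]
    ring
  | cons r w =>
    rw [tm_cons, tm_cons, tm_cons]
    exact core (w.length + mjh w) (des (r :: w)) w.length l M (des_le w r) hM

theorem kap_nil {N : ℕ} (l M : ℕ) : kap l M ([] : List (Fin N)) = 0 := by rw [kap]

theorem kap_one {N : ℕ} (l M : ℕ) (r : Fin N) : kap l M [r] = tm l M [r] := by rw [kap]

theorem kap_cons {N : ℕ} (l M : ℕ) (r r' : Fin N) (w : List (Fin N)) :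
    kap l M (r :: r' :: w) = tm l M (r :: r' :: w) + (if r ≤ r' then kap l M (r' :: w) else 0) := by
  rw [kap]

end KAPAux

theorem t_KAP : I_KAP := by
  intro N l M v
  refine ⟨?_, fun hM => ?_⟩
  · induction v with
    | nil => rw [KAPAux.kap_nil]; exact zero_mem _
    | cons r v ih =>
      cases v with
      | nil => rw [KAPAux.kap_one]; exact KAPAux.tm_mem _ _ _
      | cons r' w =>
        rw [KAPAux.kap_cons]
        refine add_mem (KAPAux.tm_mem _ _ _) ?_
        split_ifs
        · exact ih
        · exact zero_mem _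
  · induction v with
    | nil =>
      rw [KAPAux.kap_nil, KAPAux.kap_nil, KAPAux.kap_nil]
      ring
    | cons r v ih =>
      cases v with
      | nil =>
        rw [KAPAux.kap_one, KAPAux.kap_one, KAPAux.kap_one]
        exact KAPAux.tm_rec _ _ _ hM
      | cons r' w =>
        rw [KAPAux.kap_cons, KAPAux.kap_cons, KAPAux.kap_cons, KAPAux.tm_rec _ _ _ hM]
        split_ifs
        · rw [ih]
          ring
        · ring

end Pool.Agent.NEI
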