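import Pool.Agent.NEI.Stmts

/-!
# Module KEI: the Macdonald polynomials at `t = 1/q`
-/

set_option autoImplicit false

namespace Pool.Agent.NEI

open Finset MvPolynomial Pool.Agent.NEK

namespace KEIAux

/-- scaling of a homogeneous function -/
theorem plG_pow (y : K1) {G : Lam1} {n : ℕ} (h : IsWeightedHomogeneous wt G n) :
    plG (fun i => y ^ (i + 1)) G = y ^ n • G := by
  ext d
  rw [coeff_plG, coeff_smul, smul_eq_mul]
  by_cases h0 : coeff d G = 0
  · rw [h0, zero_mul, mul_zero]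
  · have h1 : Finsupp.weight wt d = n := h h0
    have h2 : (d.prod fun i e => (y ^ (i + 1)) ^ e) = y ^ n := by
      rw [← h1, Finsupp.weight_apply, Finsupp.prod, Finsupp.sum, ← Finset.prod_pow_eq_pow_sum]
      refine Finset.prod_congr rfl fun i _ => ?_
      rw [smul_eq_mul, wt, ← pow_mul, mul_comm]
    rw [h2, mul_comm]

/-- coefficients of an element of the span of the `sc l`, `Dom l ρ` -/
theorem ex_coeff (n : ℕ) (ρ : List ℕ) {x : Lam1}
    (hx : x ∈ Submodule.span K1 {f | ∃ l, IsPart n l ∧ Dom l ρ ∧ f = sc l}) :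
    ∃ a : List ℕ → K1, (∀ l ∈ PS n, ¬ Dom l ρ → a l = 0) ∧ x = ∑ l ∈ PS n, a l • sc l := by
  classical
  refine Submodule.span_induction (p := fun x _ => ∃ a : List ℕ → K1,
    (∀ l ∈ PS n, ¬ Dom l ρ → a l = 0) ∧ x = ∑ l ∈ PS n, a l • sc l) ?_ ?_ ?_ ?_ hx
  · rintro x ⟨m, hm, hd, rfl⟩
    refine ⟨fun l => if l = m then 1 else 0, ?_, ?_⟩
    · intro l _ hnd
      have hlm : l ≠ m := by
        rintro rfl
        exact hnd hd
      exact if_neg hlm
    · simp only [ite_smul, one_smul, zero_smul]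
      rw [Finset.sum_ite_eq' (PS n) m, if_pos (mem_PS.2 hm)]
  · exact ⟨fun _ => 0, fun _ _ _ => rfl, by simp⟩
  · rintro x y - - ⟨a, ha, hx⟩ ⟨b, hb', hy⟩
    refine ⟨fun l => a l + b l, fun l hl hnd => by
      change a l + b l = 0
      rw [ha l hl hnd, hb' l hl hnd, add_zero], ?_⟩
    rw [hx, hy, ← Finset.sum_add_distrib]
    exact Finset.sum_congr rfl fun l _ => (add_smul _ _ _).symm
  · rintro r x - ⟨a, ha, hx⟩
    refine ⟨fun l => r * a l, fun l hl hnd => by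
      change r * a l = 0
      rw [ha l hl hnd, mul_zero], ?_⟩
    rw [hx, Finset.smul_sum]
    exact Finset.sum_congr rfl fun l _ => smul_smul _ _ _

/-- from the span of the `h_m` to the span of the `s_l` -/
theorem h_to_s (hHSP : I_HSP) (n : ℕ) (ρ : List ℕ) {x : Lam1}
    (hx : x ∈ Submodule.span K1 {f | ∃ m, IsPart n m ∧ Dom m ρ ∧ f = hbp (fun _ => (1 : K1)) m}) :
    x ∈ Submodule.span K1 {f | ∃ l, IsPart n l ∧ Dom l ρ ∧ f = sc l} := by
  have hle : Submodule.span K1 {f | ∃ m, IsPart n m ∧ Dom m ρ ∧ f = hbp (fun _ => (1 : K1)) m} ≤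
      Submodule.span K1 {f | ∃ l, IsPart n l ∧ Dom l ρ ∧ f = sc l} := by
    rw [Submodule.span_le]
    rintro f ⟨m, hm, hd, rfl⟩
    refine Submodule.span_mono ?_ (hHSP.1 n m hm)
    rintro g ⟨l, hl, hdl, rfl⟩
    exact ⟨l, hl, fun k => (hd k).trans (hdl k), rfl⟩
  exact hle hx

/-- homogeneity of the span of the `h_m` -/
theorem hom_h (n : ℕ) (ρ : List ℕ) {x : Lam1}
    (hx : x ∈ Submodule.span K1 {f | ∃ m, IsPart n m ∧ Dom m ρ ∧ f = hbp (fun _ => (1 : K1)) m}) :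
    IsWeightedHomogeneous wt x n := by
  have hle : Submodule.span K1 {f | ∃ m, IsPart n m ∧ Dom m ρ ∧ f = hbp (fun _ => (1 : K1)) m} ≤
      weightedHomogeneousSubmodule K1 wt n := by
    rw [Submodule.span_le]
    rintro f ⟨m, hm, -, rfl⟩
    have h1 := (o_PHO K1 (fun _ => (1 : K1))).2.2.1 m
    rw [hm.2.2] at h1
    exact (mem_weightedHomogeneousSubmodule K1 wt n _).2 h1
  exact (mem_weightedHomogeneousSubmodule K1 wt n _).1 (hle hx)

/-- a symmetric function which is triangular from both sides is a multiple of `s_μ` -/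
theorem single (hHSP : I_HSP) (hDJT : I_DJT) {n : ℕ} {μ : List ℕ} (hμ : IsPart n μ) {G : Lam1}
    (h1 : G ∈ Submodule.span K1 {f | ∃ l, IsPart n l ∧ Dom l μ ∧ f = sc l})
    (h2 : om G ∈ Submodule.span K1 {f | ∃ l, IsPart n l ∧ Dom l (conj μ) ∧ f = sc l}) :
    ∃ c : K1, G = c • sc μ := by
  obtain ⟨g, hg, hG⟩ := ex_coeff n μ h1
  obtain ⟨g', hg', hG'⟩ := ex_coeff n (conj μ) h2
  have hconj : ∀ l ∈ PS n, conj l ∈ PS n := fun l hl =>
    mem_PS.2 (o_DOM n l l (mem_PS.1 hl) (mem_PS.1 hl)).1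
  have hcc : ∀ l ∈ PS n, conj (conj l) = l := fun l hl =>
    (o_DOM n l l (mem_PS.1 hl) (mem_PS.1 hl)).2.1
  have h3 : om G = ∑ l ∈ PS n, g (conj l) • sc l := by
    rw [hG, map_sum]
    refine Finset.sum_nbij' conj conj hconj hconj hcc hcc ?_
    intro l hl
    rw [map_smul, hDJT n l (mem_PS.1 hl), hcc l hl]
  have h4 : ∀ l ∈ PS n, g' l = g (conj l) := by
    intro l hl
    have h5 : ∑ l ∈ PS n, (g' l - g (conj l)) • sc l = 0 := by
      simp only [sub_smul]
      rw [Finset.sum_sub_distrib, ← hG', ← h3, sub_self]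
    exact sub_eq_zero.1 (hHSP.2 n (fun l => g' l - g (conj l)) h5 l hl)
  refine ⟨g μ, ?_⟩
  rw [hG]
  refine Finset.sum_eq_single μ ?_ ?_
  · intro l hl hne
    have h6 : g l = 0 := by
      by_contra h0
      have h7 : Dom l μ := by
        by_contra h8
        exact h0 (hg l hl h8)
      have h9 : g' (conj l) ≠ 0 := by
        rw [h4 (conj l) (hconj l hl), hcc l hl]
        exact h0
      have h10 : Dom (conj l) (conj μ) := by
        by_contra h8
        exact h9 (hg' (conj l) (hconj l hl) h8)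
      have h11 := (o_DOM n μ (conj l) hμ (mem_PS.1 (hconj l hl))).2.2.1 (fun k => by
        rw [DOM.map_min_conj (mem_PS.1 hl).1]
        exact h7 k) h10
      apply hne
      rw [← hcc l hl, h11, hcc μ (mem_PS.2 hμ)]
    rw [h6, zero_smul]
  · intro h
    exact absurd (mem_PS.2 hμ) h

end KEIAux

open KEIAux in
/-- the Macdonald polynomials at `t = 1/q` -/
theorem t_KEI : I_TRI → I_HSP → I_DJT → I_KEI := by
  intro hTRI hHSP hDJT n H hn hH μ hμ
  have hhom : IsWeightedHomogeneous wt (H μ) n := (o_KEY n H hn hH μ hμ).1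
  refine ⟨hhom, ?_⟩
  have hev := KEY.ev_H o_EVS n hn hH hμ
  have hne : H μ ≠ 0 := by
    intro h0
    rw [h0, map_zero] at hev
    exact zero_ne_one hev
  have hFne : Inv.sL (H μ) ≠ 0 := Inv.sL_ne hne
  obtain ⟨r, F1, hF1, hF⟩ := o_VAL (Inv.sL (H μ)) hFne
  have hset : ∀ ρ : List ℕ, {f : Lam | ∃ l, (IsPart n l ∧ Dom l ρ) ∧ f = sch l} =
      {f : Lam | ∃ l, IsPart n l ∧ Dom l ρ ∧ f = sch l} := by
    intro ρ
    ext f
    simp only [Set.mem_ofPred_eq, and_assoc]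
  have hspan : ∀ (ρ : List ℕ) (a b : ℕ → K), (∀ i, sg (a i) = b i) →
      plX a (H μ) ∈ Submodule.span K {f | ∃ l, IsPart n l ∧ Dom l ρ ∧ f = sch l} →
      plX b (((1 - q) ^ r : K) • Inv.sL (H μ)) ∈
        Submodule.span K {f | ∃ l, IsPart n l ∧ Dom l ρ ∧ f = sch l} := by
    intro ρ a b hab h
    rw [map_smul]
    apply Submodule.smul_mem
    rw [← hset ρ] at h
    have h1 := Inv.sL_span (fun l => IsPart n l ∧ Dom l ρ) h
    rw [hset ρ, Inv.sL_plX] at h1
    have h2 : (fun i => sg (a i)) = b := funext hab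
    rw [h2] at h1
    exact h1
  have h1 := hTRI n μ (fun i => 1 - t ^ (i + 1)) (fun i => 1 - qq ^ (i + 1))
    (fun i => A1.sub A1.one (A1.pow A1.t_t1 _)) _ F1 hF
    (hspan μ (fun i => 1 - q ^ (i + 1)) _ (fun i => by
      rw [map_sub, map_one, map_pow, sg_q]) (hH.triq μ hμ))
  have h2 := hTRI n (conj μ) (fun i => 1 - (q / t) ^ (i + 1)) (fun i => 1 - (qq⁻¹) ^ (i + 1))
    (fun i => A1.sub A1.one (A1.pow (by
      have h := A1.div A1.q_one A1.t_t1 qq_ne
      rwa [one_div] at h) _)) _ F1 hF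
    (hspan (conj μ) (fun i => 1 - t ^ (i + 1)) _ (fun i => by
      rw [map_sub, map_one, map_pow, sg_t]) (hH.trit μ hμ))
  have hG := hom_h n μ h1
  have hy : (-qq⁻¹ : K1) ^ n ≠ 0 := pow_ne_zero _ (neg_ne_zero.2 (inv_ne_zero qq_ne))
  have h3 : plG (fun i => 1 - (qq⁻¹) ^ (i + 1)) F1 =
      (-qq⁻¹ : K1) ^ n • om (plG (fun i => 1 - qq ^ (i + 1)) F1) := by
    rw [← map_smul, ← plG_pow (-qq⁻¹) hG, om, plG_plG, plG_plG]
    congr 2
    funext i
    have h5 : (qq⁻¹ : K1) ^ (i + 1) * qq ^ (i + 1) = 1 := by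
      rw [← mul_pow, inv_mul_cancel₀ qq_ne, one_pow]
    have h6 : (-1 : K1) ^ i * (-qq⁻¹) ^ (i + 1) = -(qq⁻¹) ^ (i + 1) := by
      rw [neg_pow (qq⁻¹) (i + 1), ← mul_assoc, ← pow_add]
      have h7 : (-1 : K1) ^ (i + (i + 1)) = -1 := by
        have h8 : Odd (i + (i + 1)) := ⟨i, by omega⟩
        exact h8.neg_one_pow
      rw [h7, neg_one_mul]
    calc (1 : K1) - (qq⁻¹) ^ (i + 1) = -(qq⁻¹) ^ (i + 1) * (1 - qq ^ (i + 1)) := by
          rw [mul_sub, mul_one, neg_mul, h5]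
          ring
      _ = ((-1 : K1) ^ i * (-qq⁻¹) ^ (i + 1)) * (1 - qq ^ (i + 1)) := by rw [h6]
      _ = _ := by ring
  have h4 : om (plG (fun i => 1 - qq ^ (i + 1)) F1) ∈
      Submodule.span K1 {f | ∃ l, IsPart n l ∧ Dom l (conj μ) ∧ f = sc l} := by
    have h5 := h_to_s hHSP n (conj μ) h2
    rw [h3] at h5
    have h6 := Submodule.smul_mem _ (((-qq⁻¹ : K1) ^ n)⁻¹) h5
    rwa [smul_smul, inv_mul_cancel₀ hy, one_smul] at h6
  obtain ⟨c, hc⟩ := single hHSP hDJT hμ (h_to_s hHSP n μ h1) h4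
  have h7 : F1 = c • plG bt (sc μ) := by
    have h8 : plG bt (plG (fun i => 1 - qq ^ (i + 1)) F1) = F1 := by
      rw [plG_plG]
      have h9 : (fun i => bt i * (1 - qq ^ (i + 1))) = fun _ => (1 : K1) := by
        funext i
        rw [bt]
        exact inv_mul_cancel₀ (one_sub_ne i)
      rw [h9, plG_one]
    rw [← h8, hc, map_smul]
  refine ⟨r, c, ?_, ?_⟩
  · rintro rfl
    apply hF1
    rw [h7, zero_smul]
  · rw [Inv.lam_iff, Inv.sL_smul, ← h7]
    have h8 : sg ((1 - q * t) ^ r) = (1 - q) ^ r := by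
      rw [map_zpow₀, map_sub, map_one, map_mul, sg_q, sg_t, mul_div_cancel₀ _ t_ne]
    rw [h8]
    exact hF

end Pool.Agent.NEI
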