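import Pool.Agent.NEI.U

/-!
# Recursion for the Kostka numbers (module KOA)
-/

set_option autoImplicit false

namespace Pool.Agent.NEI

open Finset

namespace KOAAux

/-- the columns with sum `b` -/
def CC (r b : ℕ) : Finset (Fin r → ℕ) :=
  (Fintype.piFinset fun _ : Fin r => range (b + 1)).filter (fun c => ∑ i, c i = b)

theorem mem_CC {r b : ℕ} {c : Fin r → ℕ} : c ∈ CC r b ↔ ∑ i, c i = b := by
  unfold CC
  rw [mem_filter, Fintype.mem_piFinset]
  constructor
  · exact fun h => h.2
  · intro h
    refine ⟨fun i => ?_, h⟩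
    rw [mem_range]
    have : c i ≤ ∑ i, c i := Finset.single_le_sum (fun _ _ => Nat.zero_le _) (mem_univ i)
    omega

theorem cnt_cons {r : ℕ} (b : ℕ) (β : List ℕ) (α : Fin r → ℤ) :
    cnt (b :: β) α = ∑ c ∈ CC r b, cnt β (fun i => α i - (c i : ℤ)) := rfl

theorem cnt_comp {r : ℕ} (σ : Equiv.Perm (Fin r)) : ∀ (β : List ℕ) (α : Fin r → ℤ),
    cnt β (fun i => α (σ i)) = cnt β α := by
  intro β
  induction β with
  | nil =>
    intro α
    have h : (fun i => α (σ i)) = 0 ↔ α = 0 := by
      constructor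
      · intro h
        funext i
        have := congrFun h (σ.symm i)
        simpa using this
      · intro h
        funext i
        simp [h]
    unfold cnt
    by_cases ha : α = 0
    · rw [if_pos ha, if_pos (h.2 ha)]
    · rw [if_neg ha, if_neg (fun h' => ha (h.1 h'))]
  | cons b β ih =>
    intro α
    rw [cnt_cons, cnt_cons]
    symm
    refine Finset.sum_bij' (fun c _ => fun i => c (σ i)) (fun c _ => fun i => c (σ.symm i))
      ?_ ?_ ?_ ?_ ?_
    · intro c hc
      rw [mem_CC] at hc ⊢
      rw [← hc]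
      exact Equiv.sum_comp σ c
    · intro c hc
      rw [mem_CC] at hc ⊢
      rw [← hc]
      exact Equiv.sum_comp σ.symm c
    · intro c _
      funext i
      simp
    · intro c _
      funext i
      simp
    · intro c _
      exact (ih (fun i => α i - (c i : ℤ))).symm

theorem kd_comp {r : ℕ} (σ : Equiv.Perm (Fin r)) (β : List ℕ) (κ : Fin r → ℤ) :
    kd β (fun i => κ (σ i)) = (Equiv.Perm.sign σ : ℤ) * kd β κ := by
  unfold kd
  rw [Finset.mul_sum]
  symm
  refine Fintype.sum_equiv (Equiv.mulRight σ) _ _ ?_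
  intro w
  rw [Equiv.coe_mulRight, Equiv.Perm.sign_mul]
  have h := cnt_comp σ β (fun i => κ i + ((w i : ℕ) : ℤ))
  have h2 : (fun i => κ (σ i) + (((w * σ) i : ℕ) : ℤ)) = fun i => κ (σ i) + ((w (σ i) : ℕ) : ℤ) := by
    funext i
    rw [Equiv.Perm.mul_apply]
  rw [h2, h]
  push_cast
  ring

theorem kd_cons {r : ℕ} (b : ℕ) (β : List ℕ) (κ : Fin r → ℤ) :
    kd (b :: β) κ = ∑ c ∈ CC r b, kd β (fun i => κ i - (c i : ℤ)) := by
  unfold kd
  rw [Finset.sum_comm]
  refine Finset.sum_congr rfl (fun w _ => ?_)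
  rw [cnt_cons, Finset.mul_sum]
  refine Finset.sum_congr rfl (fun c _ => ?_)
  congr 2
  funext i
  ring

/-- the set of the bad indices -/
def bad {r : ℕ} (κ : Fin r → ℤ) (c : Fin r → ℕ) : Set ℕ :=
  {i | ∃ hi : i + 1 < r, κ ⟨i, by omega⟩ - (c ⟨i, by omega⟩ : ℤ) ≤ κ ⟨i + 1, hi⟩}

/-- the first bad index -/
noncomputable def ix {r : ℕ} (κ : Fin r → ℤ) (c : Fin r → ℕ) : ℕ := sInf (bad κ c)

/-- the transposition -/
noncomputable def tr {r : ℕ} (κ : Fin r → ℤ) (c : Fin r → ℕ) : Equiv.Perm (Fin r) :=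
  if h : ix κ c + 1 < r then Equiv.swap ⟨ix κ c, by omega⟩ ⟨ix κ c + 1, h⟩ else 1

/-- the involution -/
noncomputable def inv {r : ℕ} (κ : Fin r → ℤ) (c : Fin r → ℕ) : Fin r → ℕ :=
  fun a => (κ a - κ (tr κ c a) + (c (tr κ c a) : ℤ)).toNat

theorem tr_tr {r : ℕ} (κ : Fin r → ℤ) (c : Fin r → ℕ) (a : Fin r) : tr κ c (tr κ c a) = a := by
  unfold tr
  split_ifs with h
  · exact Equiv.swap_apply_self _ _ _
  · rfl

theorem main {r : ℕ} {κ : Fin r → ℤ} (hκ : StrictAnti κ) {c : Fin r → ℕ} (hb : (bad κ c).Nonempty) :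
    Equiv.Perm.sign (tr κ c) = -1 ∧ (∀ a, ((inv κ c a : ℕ) : ℤ) = κ a - κ (tr κ c a) + (c (tr κ c a) : ℤ)) ∧
      tr κ (inv κ c) = tr κ c ∧ (bad κ (inv κ c)).Nonempty := by
  obtain ⟨hi, hle⟩ : ix κ c ∈ bad κ c := Nat.sInf_mem hb
  set m : ℕ := ix κ c with hm
  set i : Fin r := ⟨m, by omega⟩ with hidef
  set j : Fin r := ⟨m + 1, hi⟩ with hjdef
  have hij : i < j := by
    rw [hidef, hjdef, Fin.mk_lt_mk]; omega
  have hκij : κ j < κ i := hκ hij
  have htr : tr κ c = Equiv.swap i j := by
    unfold tr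
    rw [dif_pos (show ix κ c + 1 < r from hi)]
  have hval : ∀ a, ((inv κ c a : ℕ) : ℤ) = κ a - κ (tr κ c a) + (c (tr κ c a) : ℤ) := by
    intro a
    unfold inv
    rw [Int.toNat_of_nonneg]
    rw [htr]
    by_cases hai : a = i
    · subst hai
      rw [Equiv.swap_apply_left]
      have : (0 : ℤ) ≤ (c j : ℤ) := Int.natCast_nonneg _
      linarith
    · by_cases haj : a = j
      · subst haj
        rw [Equiv.swap_apply_right]
        linarith
      · rw [Equiv.swap_apply_of_ne_of_ne hai haj]
        have : (0 : ℤ) ≤ (c a : ℤ) := Int.natCast_nonneg _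
        linarith
  have hi_bad : m ∈ bad κ (inv κ c) := by
    refine ⟨hi, ?_⟩
    have h1 := hval i
    rw [htr, Equiv.swap_apply_left] at h1
    have h2 : (0 : ℤ) ≤ (c j : ℤ) := Int.natCast_nonneg _
    show κ i - ((inv κ c i : ℕ) : ℤ) ≤ κ j
    rw [h1]
    linarith
  have hne : (bad κ (inv κ c)).Nonempty := ⟨m, hi_bad⟩
  have hix : ix κ (inv κ c) = m := by
    apply le_antisymm
    · exact Nat.sInf_le hi_bad
    · by_contra hlt
      push Not at hlt
      obtain ⟨hi', hle'⟩ : ix κ (inv κ c) ∈ bad κ (inv κ c) := Nat.sInf_mem hne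
      set m' : ℕ := ix κ (inv κ c) with hm'
      have h3 : m' ∉ bad κ c := Nat.notMem_of_lt_sInf hlt
      apply h3
      refine ⟨hi', ?_⟩
      have h1 := hval ⟨m', by omega⟩
      have n1 : (⟨m', by omega⟩ : Fin r) ≠ i := by
        rw [hidef]; intro h; rw [Fin.mk.injEq] at h; omega
      have n2 : (⟨m', by omega⟩ : Fin r) ≠ j := by
        rw [hjdef]; intro h; rw [Fin.mk.injEq] at h; omega
      rw [htr, Equiv.swap_apply_of_ne_of_ne n1 n2] at h1
      rw [h1] at hle'
      linarith
  refine ⟨?_, hval, ?_, hne⟩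
  · rw [htr, Equiv.Perm.sign_swap hij.ne]
  · have : tr κ (inv κ c) = Equiv.swap i j := by
      unfold tr
      rw [dif_pos (show ix κ (inv κ c) + 1 < r by rw [hix]; exact hi)]
      congr 1
      · rw [hidef, Fin.mk.injEq]; exact hix
      · rw [hjdef, Fin.mk.injEq, hix]
    rw [this, htr]

end KOAAux

open KOAAux in
theorem t_KOA : I_KOA := by
  classical
  intro r κ hκ
  constructor
  · unfold kd
    rw [Finset.sum_eq_single (1 : Equiv.Perm (Fin r))]
    · rw [Equiv.Perm.sign_one]
      unfold cnt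
      have h : ((fun i : Fin r => κ i + ((((1 : Equiv.Perm (Fin r)) i : Fin r) : ℕ) : ℤ)) = 0) ↔
          ∀ a, κ a = -((a : ℕ) : ℤ) := by
        constructor
        · intro h a
          have := congrFun h a
          simp only [Equiv.Perm.coe_one, id_eq, Pi.zero_apply] at this
          linarith
        · intro h
          funext a
          simp only [Equiv.Perm.coe_one, id_eq, Pi.zero_apply]
          rw [h a]; ring
      by_cases hc : ∀ a, κ a = -((a : ℕ) : ℤ)
      · rw [if_pos hc, if_pos (h.2 hc)]; norm_num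
      · rw [if_neg hc, if_neg (fun h' => hc (h.1 h'))]; norm_num
    · intro w _ hw
      have hne : ¬ ((fun i : Fin r => κ i + ((w i : ℕ) : ℤ)) = 0) := by
        intro h
        apply hw
        have hmono : StrictMono w := by
          intro a a' haa
          have h1 := congrFun h a
          have h2 := congrFun h a'
          simp only [Pi.zero_apply] at h1 h2
          have h3 := hκ haa
          rw [Fin.lt_def]
          omega
        have e1 : hmono.orderIsoOfSurjective w w.surjective = OrderIso.refl (Fin r) :=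
          Subsingleton.elim _ _
        ext a
        have := congrArg (fun f : Fin r ≃o Fin r => f a) e1
        have h5 : w a = a := by simpa using this
        rw [h5]; rfl
      unfold cnt
      rw [if_neg hne, mul_zero]
    · intro h
      exact absurd (mem_univ _) h
  · intro b β
    rw [kd_cons]
    have hsplit := Finset.sum_filter_add_sum_filter_not (CC r b)
      (fun c => ∀ i j : Fin r, (j : ℕ) = i + 1 → κ j < κ i - (c i : ℤ))
      (fun c => kd β (fun i => κ i - (c i : ℤ)))
    rw [← hsplit]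
    have hfil : (CC r b).filter (fun c => ∀ i j : Fin r, (j : ℕ) = i + 1 → κ j < κ i - (c i : ℤ)) =
        (Fintype.piFinset fun _ : Fin r => range (b + 1)).filter
          (fun c => ∑ i, c i = b ∧ ∀ i j : Fin r, (j : ℕ) = i + 1 → κ j < κ i - (c i : ℤ)) := by
      unfold CC
      rw [Finset.filter_filter]
    have hzero : ∑ c ∈ (CC r b).filter
        (fun c => ¬ ∀ i j : Fin r, (j : ℕ) = i + 1 → κ j < κ i - (c i : ℤ)),
        kd β (fun i => κ i - (c i : ℤ)) = 0 := by
      have hbad : ∀ c : Fin r → ℕ, (¬ ∀ i j : Fin r, (j : ℕ) = i + 1 → κ j < κ i - (c i : ℤ)) ↔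
          (bad κ c).Nonempty := by
        intro c
        constructor
        · intro h
          push Not at h
          obtain ⟨i, j, hij, hle⟩ := h
          have hi : (i : ℕ) + 1 < r := hij ▸ j.2
          refine ⟨(i : ℕ), hi, ?_⟩
          have ej : j = ⟨(i : ℕ) + 1, hi⟩ := Fin.ext hij
          rw [← ej]
          exact hle
        · rintro ⟨i, hi, hle⟩ h
          have := h ⟨i, by omega⟩ ⟨i + 1, hi⟩ rfl
          linarith
      have hcomp : ∀ c : Fin r → ℕ, (bad κ c).Nonempty →
          kd β (fun i => κ i - ((inv κ c i : ℕ) : ℤ)) = - kd β (fun i => κ i - (c i : ℤ)) := by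
        intro c hc
        obtain ⟨hs, hv, -, -⟩ := main hκ hc
        have e1 : (fun i => κ i - ((inv κ c i : ℕ) : ℤ)) =
            fun i => (fun a => κ a - (c a : ℤ)) (tr κ c i) := by
          funext i
          rw [hv i]
          ring
        have e2 := kd_comp (tr κ c) β (fun a => κ a - (c a : ℤ))
        rw [e1, e2, hs]
        push_cast
        ring
      refine Finset.sum_involution (fun c _ => inv κ c) ?_ ?_ ?_ ?_
      · intro c hc
        rw [mem_filter, hbad] at hc
        rw [hcomp c hc.2]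
        ring
      · intro c hc h0 heq
        rw [mem_filter, hbad] at hc
        have h1 := hcomp c hc.2
        rw [heq] at h1
        apply h0
        linarith
      · intro c hc
        rw [mem_filter, hbad] at hc ⊢
        obtain ⟨-, hv, -, hb'⟩ := main hκ hc.2
        refine ⟨?_, hb'⟩
        have hcs := hc.1
        rw [mem_CC] at hcs ⊢
        have h1 : ((∑ i, inv κ c i : ℕ) : ℤ) = ((∑ i, c i : ℕ) : ℤ) := by
          push_cast
          rw [Finset.sum_congr rfl (fun i _ => hv i), Finset.sum_add_distrib,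
            Finset.sum_sub_distrib, Equiv.sum_comp (tr κ c) κ,
            Equiv.sum_comp (tr κ c) (fun a => (c a : ℤ))]
          ring
        rw [← hcs]
        exact_mod_cast h1
      · intro c hc
        rw [mem_filter, hbad] at hc
        obtain ⟨-, hv, ht, hb'⟩ := main hκ hc.2
        obtain ⟨-, hv', -, -⟩ := main hκ hb'
        funext a
        have h1 := hv' a
        rw [ht, hv, tr_tr] at h1
        have h2 : ((inv κ (inv κ c) a : ℕ) : ℤ) = (c a : ℤ) := by
          rw [h1]; ring
        exact_mod_cast h2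
    rw [hzero, add_zero, hfil]

end Pool.Agent.NEI
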