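import Pool.Agent.NEI.U

/-!
# Triangularity of the Kostka numbers
-/

set_option autoImplicit false

namespace Pool.Agent.NEI

open Finset

namespace KOBAux

variable {r : ℕ}

theorem strictAnti_sub {κ : Fin r → ℤ} (hκ : StrictAnti κ) {c : Fin r → ℕ}
    (hc : ∀ i j : Fin r, (j : ℕ) = i + 1 → κ j < κ i - (c i : ℤ)) :
    StrictAnti fun i => κ i - (c i : ℤ) := by
  intro i j hij
  have hlt : (i : ℕ) < (j : ℕ) := hij
  have hr : (i : ℕ) + 1 < r := lt_of_le_of_lt hlt j.2
  have h1 := hc i ⟨(i : ℕ) + 1, hr⟩ rfl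
  have h2 : κ j ≤ κ ⟨(i : ℕ) + 1, hr⟩ := hκ.antitone (show (⟨(i : ℕ) + 1, hr⟩ : Fin r) ≤ j from hlt)
  have h3 : (0 : ℤ) ≤ (c j : ℤ) := Int.natCast_nonneg _
  change κ j - (c j : ℤ) < κ i - (c i : ℤ)
  linarith

theorem step (hA : I_KOA) {κ : Fin r → ℤ} (hκ : StrictAnti κ) {b : ℕ} {β : List ℕ}
    (h : kd (b :: β) κ ≠ 0) : ∃ c : Fin r → ℕ, ∑ i, c i = b ∧
      (∀ i j : Fin r, (j : ℕ) = i + 1 → κ j < κ i - (c i : ℤ)) ∧
      kd β (fun i => κ i - (c i : ℤ)) ≠ 0 := by
  rw [(hA r κ hκ).2 b β] at h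
  obtain ⟨c, hc, hne⟩ := Finset.exists_ne_zero_of_sum_ne_zero h
  rw [mem_filter] at hc
  exact ⟨c, hc.2.1, hc.2.2, hne⟩

theorem star (hA : I_KOA) : ∀ (β : List ℕ) (κ : Fin r → ℤ), StrictAnti κ → kd β κ ≠ 0 →
    (∀ a : Fin r, β.length ≤ (a : ℕ) → κ a = -((a : ℕ) : ℤ)) ∧
    (∀ a : Fin r, 0 ≤ κ a + ((a : ℕ) : ℤ)) ∧ ((β.sum : ℕ) : ℤ) = ∑ a, (κ a + ((a : ℕ) : ℤ)) := by
  intro β
  induction β with
  | nil =>
    intro κ hκ h
    rw [(hA r κ hκ).1] at h
    have h1 : ∀ a, κ a = -((a : ℕ) : ℤ) := by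
      by_contra hn
      exact h (if_neg hn)
    refine ⟨fun a _ => h1 a, fun a => ?_, ?_⟩
    · rw [h1 a]
      simp
    · rw [List.sum_nil]
      symm
      apply Finset.sum_eq_zero
      intro a _
      rw [h1 a]
      ring
  | cons b β ih =>
    intro κ hκ h
    obtain ⟨c, hsum, hcon, hne⟩ := step hA hκ h
    obtain ⟨h1, h2, h3⟩ := ih _ (strictAnti_sub hκ hcon) hne
    refine ⟨?_, ?_, ?_⟩
    · intro a ha
      rw [List.length_cons] at ha
      have e1 := h1 a (by omega)
      have hlt : (a : ℕ) - 1 < r := lt_of_le_of_lt (Nat.sub_le _ _) a.2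
      have e2 := h1 ⟨(a : ℕ) - 1, hlt⟩ (by
        change β.length ≤ (a : ℕ) - 1
        omega)
      have hc0 : (0 : ℤ) ≤ (c a : ℤ) := Int.natCast_nonneg _
      have h5 := hcon ⟨(a : ℕ) - 1, hlt⟩ a (by
        change (a : ℕ) = (a : ℕ) - 1 + 1
        omega)
      rw [e2] at h5
      have h6 : (((⟨(a : ℕ) - 1, hlt⟩ : Fin r) : ℕ) : ℤ) = ((a : ℕ) : ℤ) - 1 := by
        change (((a : ℕ) - 1 : ℕ) : ℤ) = _
        push_cast [Nat.cast_sub (show 1 ≤ (a : ℕ) by omega)]
        ring
      rw [h6] at h5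
      linarith
    · intro a
      have := h2 a
      have hc0 : (0 : ℤ) ≤ (c a : ℤ) := Int.natCast_nonneg _
      linarith
    · rw [List.sum_cons, Nat.cast_add, h3, ← hsum, Nat.cast_sum, ← Finset.sum_add_distrib]
      refine Finset.sum_congr rfl fun a _ => ?_
      ring

theorem suffix (hA : I_KOA) : ∀ (β : List ℕ) (κ : Fin r → ℤ), StrictAnti κ → kd β κ ≠ 0 →
    ∀ d : ℕ, (((β.drop d).sum : ℕ) : ℤ) ≤
      ∑ a ∈ univ.filter (fun a : Fin r => (a : ℕ) < (β.drop d).length), (κ a + ((a : ℕ) : ℤ)) := by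
  have base : ∀ (β : List ℕ) (κ : Fin r → ℤ), StrictAnti κ → kd β κ ≠ 0 →
      ((β.sum : ℕ) : ℤ) ≤
      ∑ a ∈ univ.filter (fun a : Fin r => (a : ℕ) < β.length), (κ a + ((a : ℕ) : ℤ)) := by
    intro β κ hκ h
    obtain ⟨h1, -, h3⟩ := star hA β κ hκ h
    rw [h3, Finset.sum_filter]
    refine le_of_eq (Finset.sum_congr rfl fun a _ => ?_)
    split_ifs with h5
    · rfl
    · rw [h1 a (not_lt.mp h5)]
      ring
  intro β
  induction β with
  | nil =>
    intro κ hκ h d
    rw [List.drop_nil]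
    exact base [] κ hκ h
  | cons b β ih =>
    intro κ hκ h d
    cases d with
    | zero =>
      rw [List.drop_zero]
      exact base _ κ hκ h
    | succ d =>
      obtain ⟨c, -, hcon, hne⟩ := step hA hκ h
      rw [List.drop_succ_cons]
      refine (ih _ (strictAnti_sub hκ hcon) hne d).trans (Finset.sum_le_sum fun a _ => ?_)
      have hc0 : (0 : ℤ) ≤ (c a : ℤ) := Int.natCast_nonneg _
      linarith

theorem strictAnti_lam {lam : Fin r → ℕ} (hl : Antitone lam) :
    StrictAnti fun a : Fin r => (lam a : ℤ) - ((a : ℕ) : ℤ) := by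
  intro i j hij
  have h1 : lam j ≤ lam i := hl hij.le
  have h2 : (i : ℕ) < (j : ℕ) := hij
  change (lam j : ℤ) - ((j : ℕ) : ℤ) < (lam i : ℤ) - ((i : ℕ) : ℤ)
  omega

/-- the first `k` parts -/
def lk (lam : Fin r → ℕ) (k : ℕ) (a : Fin r) : ℕ := if (a : ℕ) < k then lam a else 0

theorem lk_antitone {lam : Fin r → ℕ} (hl : Antitone lam) (k : ℕ) : Antitone (lk lam k) := by
  intro i j hij
  have h1 : (i : ℕ) ≤ (j : ℕ) := hij
  unfold lk
  split_ifs with h2 h3
  · exact hl hij
  · omega
  · exact Nat.zero_le _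
  · exact le_refl _

theorem one (hA : I_KOA) {lam : Fin r → ℕ} (hl : Antitone lam) : ∀ k ≤ r,
    kd ((List.ofFn lam).take k).reverse (fun a => (lk lam k a : ℤ) - ((a : ℕ) : ℤ)) = 1 := by
  intro k
  induction k with
  | zero =>
    intro _
    rw [List.take_zero, List.reverse_nil, (hA r _ (strictAnti_lam (lk_antitone hl 0))).1, if_pos]
    intro a
    simp [lk]
  | succ k ih =>
    intro hk
    have hkr : k < r := hk
    have hlen : ((List.ofFn lam).take k).reverse.length = k := by
      rw [List.length_reverse, List.length_take, List.length_ofFn]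
      omega
    have hlist : ((List.ofFn lam).take (k + 1)).reverse =
        lam ⟨k, hkr⟩ :: ((List.ofFn lam).take k).reverse := by
      rw [List.take_add_one, List.reverse_append, List.getElem?_ofFn]
      simp [hkr]
    have hSA := strictAnti_lam (lk_antitone hl (k + 1))
    rw [hlist, (hA r _ hSA).2, Finset.sum_eq_single (Pi.single ⟨k, hkr⟩ (lam ⟨k, hkr⟩))]
    · rw [← ih hkr.le]
      congr 1
      funext a
      by_cases h : a = ⟨k, hkr⟩
      · subst h
        rw [Pi.single_eq_same]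
        simp [lk]
      · rw [Pi.single_eq_of_ne h]
        have h2 : (a : ℕ) ≠ k := fun h3 => h (Fin.ext h3)
        have h4 : lk lam (k + 1) a = lk lam k a := by
          unfold lk
          by_cases h5 : (a : ℕ) < k
          · rw [if_pos h5, if_pos (by omega)]
          · rw [if_neg h5, if_neg (by omega)]
        rw [h4]
        simp
    · intro c hc hne
      by_contra hkd
      apply hne
      rw [mem_filter] at hc
      obtain ⟨-, hsum, hcon⟩ := hc
      obtain ⟨h1, -, -⟩ := star hA _ _ (strictAnti_sub hSA hcon) hkd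
      rw [hlen] at h1
      have hck : c ⟨k, hkr⟩ = lam ⟨k, hkr⟩ := by
        have h2 := h1 ⟨k, hkr⟩ (le_refl k)
        have h3 : lk lam (k + 1) ⟨k, hkr⟩ = lam ⟨k, hkr⟩ := by simp [lk]
        rw [h3] at h2
        have : (c ⟨k, hkr⟩ : ℤ) = (lam ⟨k, hkr⟩ : ℤ) := by linarith
        exact_mod_cast this
      have hrest : ∑ i ∈ univ.erase (⟨k, hkr⟩ : Fin r), c i = 0 := by
        have h4 := Finset.add_sum_erase univ c (mem_univ (⟨k, hkr⟩ : Fin r))
        rw [hsum, hck] at h4
        omega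
      rw [Finset.sum_eq_zero_iff] at hrest
      funext a
      by_cases h : a = ⟨k, hkr⟩
      · subst h
        rw [Pi.single_eq_same, hck]
      · rw [Pi.single_eq_of_ne h]
        exact hrest a (mem_erase.mpr ⟨h, mem_univ a⟩)
    · intro hn
      exfalso
      apply hn
      rw [mem_filter, Fintype.mem_piFinset]
      refine ⟨?_, ?_, ?_⟩
      · intro a
        rw [mem_range]
        by_cases h : a = ⟨k, hkr⟩
        · subst h
          rw [Pi.single_eq_same]
          omega
        · rw [Pi.single_eq_of_ne h]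
          omega
      · rw [Finset.sum_pi_single']
        simp
      · intro i j hij
        by_cases h : i = ⟨k, hkr⟩
        · subst h
          rw [Pi.single_eq_same]
          have hj : (j : ℕ) = k + 1 := hij
          have h3 : lk lam (k + 1) ⟨k, hkr⟩ = lam ⟨k, hkr⟩ := by simp [lk]
          have h4 : lk lam (k + 1) j = 0 := by
            unfold lk
            rw [if_neg (by omega)]
          rw [h3, h4, hj]
          push_cast
          linarith
        · rw [Pi.single_eq_of_ne h]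
          have h5 : i < j := by
            change (i : ℕ) < (j : ℕ)
            omega
          have h6 := hSA h5
          simp only [Nat.cast_zero, sub_zero]
          exact h6

end KOBAux

open KOBAux

theorem t_KOB : I_KOA → I_KOB := by
  intro hA r lam hl
  refine ⟨?_, ?_⟩
  · intro β hβ h k hk
    have h1 := suffix hA β _ (strictAnti_lam hl) h (r - k)
    have hlen : (β.drop (r - k)).length = k := by
      rw [List.length_drop, hβ]
      omega
    rw [hlen] at h1
    have h2 : ∑ a ∈ univ.filter (fun a : Fin r => (a : ℕ) < k),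
        ((lam a : ℤ) - ((a : ℕ) : ℤ) + ((a : ℕ) : ℤ)) =
        ((∑ a ∈ univ.filter (fun a : Fin r => (a : ℕ) < k), lam a : ℕ) : ℤ) := by
      push_cast
      exact Finset.sum_congr rfl fun a _ => by ring
    rw [h2] at h1
    exact_mod_cast h1
  · have h := one hA hl r (le_refl r)
    have h1 : (List.ofFn lam).take r = List.ofFn lam := by
      apply List.take_of_length_le
      rw [List.length_ofFn]
    have h2 : (fun a : Fin r => (lk lam r a : ℤ) - ((a : ℕ) : ℤ)) =
        fun a => (lam a : ℤ) - ((a : ℕ) : ℤ) := by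
      funext a
      unfold lk
      rw [if_pos a.2]
    rw [h1, h2] at h
    exact h

end Pool.Agent.NEI
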