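import Pool.Agent.NEI.U

/-!
# `cnt` counts matrices
-/

set_option autoImplicit false

namespace Pool.Agent.NEI

open Finset

namespace KOCAux

/-- the matrices with given row and column sums -/
abbrev MS (r k : ℕ) (β : Fin k → ℕ) (α : Fin r → ℤ) : Type :=
  {N : Fin r → Fin k → ℕ // (∀ a, ((∑ b, N a b : ℕ) : ℤ) = α a) ∧ ∀ b, ∑ a, N a b = β b}

theorem MS_finite (r k : ℕ) (β : Fin k → ℕ) (α : Fin r → ℤ) : Finite (MS r k β α) := by
  have h : ∀ (N : MS r k β α) (a : Fin r) (b : Fin k), N.1 a b < β b + 1 := by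
    intro N a b
    have h0 := N.2.2 b
    have h1 : N.1 a b ≤ ∑ a, N.1 a b :=
      Finset.single_le_sum (f := fun a => N.1 a b) (fun _ _ => Nat.zero_le _) (mem_univ a)
    omega
  exact Finite.of_injective (β := Fin r → (b : Fin k) → Fin (β b + 1))
    (fun N a b => ⟨N.1 a b, h N a b⟩) (by
      intro N N' hN
      apply Subtype.ext
      funext a b
      have h1 := congrFun (congrFun hN a) b
      exact congrArg Fin.val h1)

/-- the possible first columns -/
abbrev CS (r b : ℕ) : Finset (Fin r → ℕ) :=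
  (Fintype.piFinset fun _ : Fin r => range (b + 1)).filter (fun c => ∑ i, c i = b)

theorem mem_CS {r b : ℕ} {c : Fin r → ℕ} : c ∈ CS r b ↔ ∑ i, c i = b := by
  rw [mem_filter, Fintype.mem_piFinset]
  constructor
  · exact fun h => h.2
  · intro h
    refine ⟨fun a => ?_, h⟩
    have h1 : c a ≤ ∑ i, c i :=
      Finset.single_le_sum (f := c) (fun _ _ => Nat.zero_le _) (mem_univ a)
    rw [mem_range]
    omega

/-- splitting off the first column -/
def eqv (r k : ℕ) (β : Fin (k + 1) → ℕ) (α : Fin r → ℤ) :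
    MS r (k + 1) β α ≃ Σ c : {c // c ∈ CS r (β 0)},
      MS r k (fun b => β b.succ) (fun i => α i - (c.1 i : ℤ)) where
  toFun N := ⟨⟨fun a => N.1 a 0, mem_CS.2 (N.2.2 0)⟩, ⟨fun a b => N.1 a b.succ, by
    refine ⟨fun a => ?_, fun b => N.2.2 b.succ⟩
    have h := N.2.1 a
    rw [Fin.sum_univ_succ] at h
    push_cast at h ⊢
    linarith⟩⟩
  invFun p := ⟨fun a => Fin.cons (p.1.1 a) (p.2.1 a), by
    refine ⟨fun a => ?_, fun b => ?_⟩
    · have h := p.2.2.1 a
      rw [Fin.sum_univ_succ]
      simp only [Fin.cons_zero, Fin.cons_succ]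
      push_cast at h ⊢
      linarith
    · refine Fin.cases ?_ (fun b => ?_) b
      · simp only [Fin.cons_zero]
        exact mem_CS.1 p.1.2
      · simp only [Fin.cons_succ]
        exact p.2.2.2 b⟩
  left_inv N := by
    apply Subtype.ext
    funext a b
    refine Fin.cases ?_ (fun b => ?_) b
    · rfl
    · rfl
  right_inv p := by
    obtain ⟨⟨c, hc⟩, ⟨N, hN⟩⟩ := p
    rfl

end KOCAux

open KOCAux in
theorem t_KOC : I_KOC := by
  intro r k
  induction k with
  | zero =>
    intro β α
    rw [List.ofFn_zero, cnt]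
    split_ifs with h
    · subst h
      have h1 : Nat.card (MS r 0 β 0) = 1 := by
        rw [Nat.card_eq_one_iff_unique]
        refine ⟨⟨fun N N' => ?_⟩, ⟨⟨fun _ b => b.elim0, fun a => by simp, fun b => b.elim0⟩⟩⟩
        apply Subtype.ext
        funext a b
        exact b.elim0
      exact_mod_cast h1
    · have h1 : IsEmpty (MS r 0 β α) := by
        refine ⟨fun N => h ?_⟩
        funext a
        have h2 := N.2.1 a
        simp only [univ_eq_empty, sum_empty, Nat.cast_zero] at h2
        exact h2.symm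
      have h2 : Nat.card (MS r 0 β α) = 0 := Nat.card_of_isEmpty
      exact_mod_cast h2
  | succ k ih =>
    intro β α
    rw [List.ofFn_succ, cnt]
    have h1 : Nat.card (MS r (k + 1) β α) = ∑ c : {c // c ∈ CS r (β 0)},
        Nat.card (MS r k (fun b => β b.succ) (fun i => α i - (c.1 i : ℤ))) := by
      rw [Nat.card_congr (eqv r k β α)]
      have : ∀ c : {c // c ∈ CS r (β 0)},
          Finite (MS r k (fun b => β b.succ) (fun i => α i - (c.1 i : ℤ))) :=
        fun c => MS_finite _ _ _ _
      rw [Nat.card_sigma]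
    have h2 : ((Nat.card (MS r (k + 1) β α) : ℕ) : ℤ) = ∑ c : {c // c ∈ CS r (β 0)},
        cnt (List.ofFn (fun b => β b.succ)) (fun i => α i - (c.1 i : ℤ)) := by
      rw [h1]
      push_cast
      apply Finset.sum_congr rfl
      intro c _
      exact ih _ _
    rw [Finset.sum_coe_sort (CS r (β 0)) (fun c => cnt (List.ofFn (fun b => β b.succ))
      (fun i => α i - (c i : ℤ)))] at h2
    exact h2

end Pool.Agent.NEI
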