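import Pool.Agent.NEI.U

set_option autoImplicit false

namespace Pool.Agent.NEI

open Finset

namespace KOSAux

theorem perm_eq_one (r : ℕ) (w : Equiv.Perm (Fin r))
    (h : ∀ k ≤ r, ∑ a ∈ univ.filter (fun a : Fin r => (a : ℕ) < k), ((w a : ℕ) : ℤ) ≤
      ∑ a ∈ univ.filter (fun a : Fin r => (a : ℕ) < k), ((a : ℕ) : ℤ)) : w = 1 := by
  have key : ∀ n : ℕ, ∀ b : Fin r, (b : ℕ) = n → w b = b := by
    intro n
    induction n using Nat.strong_induction_on with
    | _ n ih =>
      intro b hb
      have hk := h (b + 1) b.2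
      have hset : univ.filter (fun a : Fin r => (a : ℕ) < (b : ℕ) + 1) =
          insert b (univ.filter (fun a : Fin r => (a : ℕ) < (b : ℕ))) := by
        ext a
        simp only [mem_filter, mem_univ, true_and, mem_insert]
        constructor
        · intro ha
          rcases Nat.lt_succ_iff_lt_or_eq.1 ha with h1 | h1
          · exact Or.inr h1
          · exact Or.inl (Fin.ext h1)
        · rintro (rfl | h1)
          · omega
          · omega
      have hnot : b ∉ univ.filter (fun a : Fin r => (a : ℕ) < (b : ℕ)) := by simp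
      rw [hset, sum_insert hnot, sum_insert hnot] at hk
      have heq : ∑ a ∈ univ.filter (fun a : Fin r => (a : ℕ) < (b : ℕ)), ((w a : ℕ) : ℤ) =
          ∑ a ∈ univ.filter (fun a : Fin r => (a : ℕ) < (b : ℕ)), ((a : ℕ) : ℤ) := by
        apply sum_congr rfl
        intro a ha
        rw [mem_filter] at ha
        rw [ih a (by omega) a rfl]
      rw [heq] at hk
      have hle : (w b : ℕ) ≤ b := by
        have : ((w b : ℕ) : ℤ) ≤ ((b : ℕ) : ℤ) := by linarith
        exact_mod_cast this
      rcases Nat.lt_or_eq_of_le hle with h1 | h1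
      · have h2 := ih (w b : ℕ) (by omega) (w b) rfl
        have h3 : w b = b := w.injective h2
        exact h3
      · exact Fin.ext h1
  exact Equiv.ext (fun b => key b b rfl)

theorem ofFn_reverse {r : ℕ} (β : Fin r → ℕ) :
    (List.ofFn β).reverse = List.ofFn (fun b => β (Fin.rev b)) := by
  apply List.ext_getElem
  · simp
  · intro i h1 h2
    rw [List.getElem_reverse, List.getElem_ofFn, List.getElem_ofFn]
    congr 1
    apply Fin.ext
    simp only [List.length_ofFn, Fin.val_rev]
    omega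

theorem sum_drop_reverse {r : ℕ} (β : Fin r → ℕ) (k : ℕ) (hk : k ≤ r) :
    ((List.ofFn β).reverse.drop (r - k)).sum =
      ∑ a ∈ univ.filter (fun a : Fin r => (a : ℕ) < k), β a := by
  rw [List.drop_reverse, List.sum_reverse, List.length_ofFn,
    show r - (r - k) = k by omega, List.sum_take_ofFn]

theorem sum_row {r m : ℕ} (lam : Fin r → ℕ) (hm : ∑ a, lam a = m) (w : Equiv.Perm (Fin r))
    (α : Fin r → ℕ) (h : pw lam w α) : ∑ a, α a = m := by
  have h1 : ∑ a, (α a : ℤ) = ∑ a, ((lam a : ℤ) - ((a : ℕ) : ℤ) + ((w a : ℕ) : ℤ)) :=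
    sum_congr rfl (fun a _ => h a)
  have h2 : ∑ a, ((w a : ℕ) : ℤ) = ∑ a : Fin r, ((a : ℕ) : ℤ) :=
    Equiv.sum_comp w (fun a => ((a : ℕ) : ℤ))
  rw [sum_add_distrib, sum_sub_distrib, h2, sub_add_cancel] at h1
  have h3 : ((∑ a, α a : ℕ) : ℤ) = ((∑ a, lam a : ℕ) : ℤ) := by
    push_cast
    exact h1
  rw [← hm]
  exact_mod_cast h3

theorem sum_rev {r : ℕ} (f : Fin r → ℕ) : ∑ b, f (Fin.rev b) = ∑ b, f b :=
  Equiv.sum_comp Fin.revPerm f

theorem NC_eq (hKOC : I_KOC) (r m : ℕ) (lam : Fin r → ℕ) (hm : ∑ a, lam a = m)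
    (w : Equiv.Perm (Fin r)) (β : Fin r → ℕ) :
    (NC m (Fin r) (Fin r) (pw lam w) (fun β' => β' = β) : ℤ) =
      cnt (List.ofFn β).reverse
        (fun a => ((lam a : ℤ) - ((a : ℕ) : ℤ)) + ((w a : ℕ) : ℤ)) := by
  rw [ofFn_reverse, ← hKOC]
  unfold NC
  congr 1
  refine Nat.card_congr ⟨fun N => ⟨fun a b => N.1 a (Fin.rev b), ?_, ?_⟩,
    fun N => ⟨fun a b => N.1 a (Fin.rev b), ?_, ?_, ?_⟩, ?_, ?_⟩
  · intro a
    rw [sum_rev (fun b => N.1 a b)]
    exact N.2.2.1 a
  · intro b
    have h := N.2.2.2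
    exact congrFun h (Fin.rev b)
  · have hp : pw lam w (fun x => ∑ y, N.1 x (Fin.rev y)) := by
      intro a
      have h := N.2.1 a
      change ((∑ y, N.1 a (Fin.rev y) : ℕ) : ℤ) = _
      rw [sum_rev (fun b => N.1 a b)]
      exact h
    exact sum_row lam hm w _ hp
  · intro a
    have h := N.2.1 a
    change ((∑ y, N.1 a (Fin.rev y) : ℕ) : ℤ) = _
    rw [sum_rev (fun b => N.1 a b)]
    exact h
  · funext b
    have h := N.2.2 (Fin.rev b)
    rw [Fin.rev_rev] at h
    exact h
  · intro N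
    apply Subtype.ext
    funext a b
    change N.1 a (Fin.rev (Fin.rev b)) = N.1 a b
    rw [Fin.rev_rev]
  · intro N
    apply Subtype.ext
    funext a b
    change N.1 a (Fin.rev (Fin.rev b)) = N.1 a b
    rw [Fin.rev_rev]

theorem inner_eq (hKOC : I_KOC) (r m : ℕ) (lam : Fin r → ℕ) (hm : ∑ a, lam a = m)
    (β : Fin r → ℕ) :
    ∑ w : Equiv.Perm (Fin r), (Equiv.Perm.sign w : ℤ) *
      (NC m (Fin r) (Fin r) (pw lam w) (fun β' => β' = β) : ℤ) =
      kd (List.ofFn β).reverse (fun a => (lam a : ℤ) - ((a : ℕ) : ℤ)) := by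
  unfold kd
  apply sum_congr rfl
  intro w _
  rw [NC_eq hKOC r m lam hm w β]

end KOSAux

open KOSAux in
theorem t_KOS : I_KOC → I_KOB → I_KOS := by
  intro hKOC hKOB r m lam hanti hm
  obtain ⟨hB1, hB2⟩ := hKOB r lam hanti
  have hsecond : ∑ w : Equiv.Perm (Fin r), (Equiv.Perm.sign w : ℤ) *
      (NC m (Fin r) (Fin r) (pw lam w) (fun β => β = lam) : ℤ) = 1 := by
    rw [inner_eq hKOC r m lam hm lam]
    exact hB2
  refine ⟨?_, hsecond⟩
  rw [sum_comm]
  have hinner : ∀ w' : Equiv.Perm (Fin r), ∑ w : Equiv.Perm (Fin r),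
      (Equiv.Perm.sign w : ℤ) * (Equiv.Perm.sign w' : ℤ) *
      (NC m (Fin r) (Fin r) (pw lam w) (pw lam w') : ℤ) = if w' = 1 then 1 else 0 := by
    intro w'
    by_cases hneg : ∃ b, (lam b : ℤ) - ((b : ℕ) : ℤ) + ((w' b : ℕ) : ℤ) < 0
    · obtain ⟨b, hb⟩ := hneg
      have hne : w' ≠ 1 := by
        rintro rfl
        rw [Equiv.Perm.one_apply] at hb
        have : (0 : ℤ) ≤ (lam b : ℤ) := Int.natCast_nonneg _
        linarith
      rw [if_neg hne]
      apply sum_eq_zero
      intro w _
      have h0 : NC m (Fin r) (Fin r) (pw lam w) (pw lam w') = 0 := by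
        unfold NC
        have : IsEmpty {N : Fin r → Fin r → ℕ // (∑ x, ∑ y, N x y = m) ∧
            pw lam w (fun x => ∑ y, N x y) ∧ pw lam w' (fun y => ∑ x, N x y)} := by
          refine ⟨fun N => ?_⟩
          have h1 := N.2.2.2 b
          have h2 : (0 : ℤ) ≤ ((∑ x, N.1 x b : ℕ) : ℤ) := Int.natCast_nonneg _
          have h3 : ((∑ x, N.1 x b : ℕ) : ℤ) =
              (lam b : ℤ) - ((b : ℕ) : ℤ) + ((w' b : ℕ) : ℤ) := h1
          linarith
        exact Nat.card_of_isEmpty
      rw [h0]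
      simp
    · push Not at hneg
      set β : Fin r → ℕ := fun b => ((lam b : ℤ) - ((b : ℕ) : ℤ) + ((w' b : ℕ) : ℤ)).toNat with hβ
      have hβ' : ∀ b, (β b : ℤ) = (lam b : ℤ) - ((b : ℕ) : ℤ) + ((w' b : ℕ) : ℤ) :=
        fun b => Int.toNat_of_nonneg (hneg b)
      have hpw : (pw lam w') = (fun β' => β' = β) := by
        funext β'
        apply propext
        constructor
        · intro h
          funext b
          have h1 : (β' b : ℤ) = (β b : ℤ) := by rw [h b, hβ' b]
          exact_mod_cast h1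
        · rintro rfl b
          exact hβ' b
      have hin : ∑ w : Equiv.Perm (Fin r),
          (Equiv.Perm.sign w : ℤ) * (Equiv.Perm.sign w' : ℤ) *
          (NC m (Fin r) (Fin r) (pw lam w) (pw lam w') : ℤ) =
          (Equiv.Perm.sign w' : ℤ) *
            kd (List.ofFn β).reverse (fun a => (lam a : ℤ) - ((a : ℕ) : ℤ)) := by
        rw [← inner_eq hKOC r m lam hm β, mul_sum, hpw]
        apply sum_congr rfl
        intro w _
        ring
      rw [hin]
      by_cases h1 : w' = 1
      · rw [if_pos h1]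
        have hβlam : β = lam := by
          funext b
          have h2 := hβ' b
          rw [h1, Equiv.Perm.one_apply] at h2
          have h3 : (β b : ℤ) = (lam b : ℤ) := by linarith
          exact_mod_cast h3
        rw [hβlam, hB2, h1]
        simp
      · rw [if_neg h1]
        by_contra hne
        apply h1
        have hkd : kd (List.ofFn β).reverse (fun a => (lam a : ℤ) - ((a : ℕ) : ℤ)) ≠ 0 :=
          fun h => hne (by rw [h, mul_zero])
        have hlen : (List.ofFn β).reverse.length = r := by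
          rw [List.length_reverse, List.length_ofFn]
        have h2 := hB1 (List.ofFn β).reverse hlen hkd
        apply perm_eq_one r w'
        intro k hk
        have h3 := h2 k hk
        rw [sum_drop_reverse β k hk] at h3
        have h4 : ∑ a ∈ univ.filter (fun a : Fin r => (a : ℕ) < k), (β a : ℤ) ≤
            ∑ a ∈ univ.filter (fun a : Fin r => (a : ℕ) < k), (lam a : ℤ) := by
          exact_mod_cast h3
        rw [sum_congr rfl (fun a _ => hβ' a), sum_add_distrib, sum_sub_distrib] at h4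
        linarith
  rw [sum_congr rfl (fun w' _ => hinner w')]
  simp

end Pool.Agent.NEI
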