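import Pool.Agent.NEI.Stmts

/-!
# Expansion of `h_n[X (1 + … + q^{M-1})]` in words (module LEV)
-/

set_option autoImplicit false

namespace Pool.Agent.NEI

open Finset MvPolynomial Pool.Agent.NEK

namespace LEVAux

/-- Pieri's rule for the value of a word over `K1`. -/
theorem pieri {N m : ℕ} (w : List (Fin N)) (h : w.length + m ≤ N) :
    hN X1 m * valw X1 w =
      sw m (fun x : List (Fin N) =>
        (if x.Pairwise (· ≤ ·) then valw X1 (x ++ w) else 0)) := by
  by_cases hw : Bal w
  · exact o_PIW Lam1 X1 N m w hw h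
  · have h0 : valw X1 w = 0 := by
      unfold valw
      rw [if_neg hw]
    rw [h0, mul_zero]
    have h1 : sw m (fun x : List (Fin N) =>
        (if x.Pairwise (· ≤ ·) then valw X1 (x ++ w) else 0)) =
        sw m (fun _ : List (Fin N) => (0 : Lam1) * 0) := by
      apply WNC.sw_congr
      intro x _
      have h2 : valw X1 (x ++ w) = 0 := by
        unfold valw
        rw [if_neg fun h => hw (WNC.bal_of_append x w h)]
      rw [h2, mul_zero, ite_self]
    rw [h1, WNC.sw_mul, zero_mul]

/-- the case `M = 0` -/
theorem base (N n : ℕ) : hM n 0 = sw n (fun v : List (Fin N) => C (cc 0 v) * valw X1 v) := by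
  have h1 : hM n 0 = if n = 0 then 1 else 0 := by
    rw [← (HNB.hs Lam1 X1 0 n).2.2.1]
    unfold hM hb
    congr 1
    funext i
    rw [pM, range_zero, sum_empty, C_0, zero_mul]
  rw [h1]
  cases n with
  | zero =>
    rw [if_pos rfl]
    change (1 : Lam1) = C (cc 0 ([] : List (Fin N))) * valw X1 ([] : List (Fin N))
    have hv : valw X1 ([] : List (Fin N)) = 1 := by
      unfold valw
      rw [if_pos (show Bal ([] : List (Fin N)) from trivial)]
      exact WNC.SD_zero _ N
    rw [hv, cc, C_1, one_mul]
  | succ n =>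
    rw [if_neg (Nat.succ_ne_zero n)]
    have h2 : sw (n + 1) (fun v : List (Fin N) => C (cc 0 v) * valw X1 v) =
        sw (n + 1) (fun _ : List (Fin N) => (0 : Lam1) * 0) := by
      apply WNC.sw_congr
      intro v hv
      cases v with
      | nil => simp at hv
      | cons r w =>
        rw [cc, if_neg (Nat.not_lt_zero _), C_0, zero_mul, mul_zero]
    rw [h2, WNC.sw_mul, zero_mul]

/-- one term of the sum over `b` -/
theorem term {N n M b : ℕ} (hb : b ≤ n) (hn : n ≤ N)
    (ih : hM (n - b) M = sw (n - b) (fun v : List (Fin N) => C (cc M v) * valw X1 v))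
    (c : K1) :
    C c * (hN X1 b * hM (n - b) M) = sw n (fun v : List (Fin N) =>
      C (if (v.take b).Pairwise (· ≤ ·) then c * cc M (v.drop b) else 0) * valw X1 v) := by
  classical
  rw [ih]
  have e5 : C c * (hN X1 b * sw (n - b) (fun v : List (Fin N) => C (cc M v) * valw X1 v)) =
      sw (n - b) (fun w : List (Fin N) => sw b (fun x : List (Fin N) =>
        C (c * cc M w) * (if x.Pairwise (· ≤ ·) then valw X1 (x ++ w) else 0))) := by
    rw [← WNC.sw_mul, ← WNC.sw_mul]
    apply WNC.sw_congr
    intro w hlw
    rw [WNC.sw_mul, ← pieri w (by omega), C_mul]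
    ring
  rw [e5, ← WNC.sw_comm, WNC.sw_append (n - b) b n (by omega)]
  apply WNC.sw_congr
  intro x hx
  apply WNC.sw_congr
  intro w _
  rw [List.take_left' hx, List.drop_left' hx]
  by_cases hxx : x.Pairwise (· ≤ ·)
  · rw [if_pos hxx, if_pos hxx]
  · rw [if_neg hxx, if_neg hxx, mul_zero, C_0, zero_mul]

end LEVAux

open LEVAux in
theorem t_LEV : I_CCS → I_HMI → I_LEV := by
  classical
  intro hC hH N n M
  induction M generalizing n with
  | zero => exact fun _ => base N n
  | succ M ih =>
    intro hn
    rw [(hH n M).1]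
    have e1 : ∀ b ∈ range (n + 1), C (qq ^ (M * b)) * (hN X1 b * hM (n - b) M) =
        sw n (fun v : List (Fin N) =>
          C (if (v.take b).Pairwise (· ≤ ·) then qq ^ (M * b) * cc M (v.drop b) else 0) *
            valw X1 v) := by
      intro b hb
      rw [mem_range] at hb
      exact term (by omega) hn (ih (n - b) (by omega)) _
    rw [sum_congr rfl e1, ← WNC.sw_sum]
    apply WNC.sw_congr
    intro v hv
    rw [← sum_mul]
    congr 1
    rw [← map_sum C, (hC N M v).1, hv]

end Pool.Agent.NEI
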