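import Pool.Agent.NEI.Stmts

/-!
# LFN: partitions as lists and as functions
-/

set_option autoImplicit false

namespace Pool.Agent.NEI

open Finset MvPolynomial Pool.Agent.NEK

namespace LFNAux

theorem getD_of_le (l : List ℕ) {i : ℕ} (h : l.length ≤ i) : l.getD i 0 = 0 := by
  rw [List.getD_eq_getElem?_getD, List.getElem?_eq_none h]
  rfl

theorem getD_of_lt (l : List ℕ) {i : ℕ} (h : i < l.length) : l.getD i 0 = l[i] := by
  rw [List.getD_eq_getElem?_getD, List.getElem?_eq_getElem h]
  rfl

theorem getD_anti {l : List ℕ} (h : l.Pairwise (· ≥ ·)) {i j : ℕ} (hij : i ≤ j) :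
    l.getD j 0 ≤ l.getD i 0 := by
  rcases Nat.lt_or_ge j l.length with hj | hj
  · rcases hij.eq_or_lt with rfl | hlt
    · exact le_refl _
    · rw [getD_of_lt l hj, getD_of_lt l (hlt.trans hj)]
      exact (List.pairwise_iff_getElem.1 h) i j (hlt.trans hj) hj hlt
  · rw [getD_of_le l hj]
    exact Nat.zero_le _

theorem length_le {l : List ℕ} (h : ∀ a ∈ l, 0 < a) : l.length ≤ l.sum := by
  induction l with
  | nil => simp
  | cons a l ih =>
    have h1 := h a (by simp)
    have h2 := ih fun b hb => h b (by simp [hb])
    rw [List.length_cons, List.sum_cons]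
    omega

/-- sums over `Fin (n+1)` of the values of `g` at the entries -/
theorem sum_fn (l : List ℕ) (g : ℕ → ℕ) (hg : g 0 = 0) : ∀ n, l.length ≤ n →
    ∑ i ∈ range n, g (l.getD i 0) = (l.map g).sum := by
  induction l with
  | nil =>
    intro n _
    rw [List.map_nil, List.sum_nil]
    refine Finset.sum_eq_zero fun i _ => ?_
    rw [getD_of_le [] (Nat.zero_le _), hg]
  | cons a l ih =>
    intro n hn
    rw [List.length_cons] at hn
    obtain ⟨m, rfl⟩ : ∃ m, n = m + 1 := ⟨n - 1, by omega⟩
    rw [Finset.sum_range_succ', List.map_cons, List.sum_cons, ← ih m (by omega), add_comm]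
    rfl

theorem sum_take (l : List ℕ) : ∀ k, (l.take k).sum = ∑ i ∈ range k, l.getD i 0 := by
  induction l with
  | nil =>
    intro k
    rw [List.take_nil, List.sum_nil]
    symm
    exact Finset.sum_eq_zero fun i _ => getD_of_le [] (Nat.zero_le _)
  | cons a l ih =>
    intro k
    rcases k with _ | k
    · simp
    · rw [List.take_succ_cons, List.sum_cons, Finset.sum_range_succ', ih k, add_comm]
      rfl

theorem filter_getD : ∀ l : List ℕ, l.Pairwise (· ≥ ·) → ∀ i,
    (l.filter fun a => decide (0 < a)).getD i 0 = l.getD i 0 := by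
  intro l
  induction l with
  | nil =>
    intro _ i
    rfl
  | cons a l ih =>
    intro h i
    rw [List.pairwise_cons] at h
    rcases Nat.eq_zero_or_pos a with ha | ha
    · have h1 : ((a :: l).filter fun a => decide (0 < a)) = [] := by
        rw [List.filter_eq_nil_iff]
        intro b hb
        rcases List.mem_cons.1 hb with rfl | hb
        · simp [ha]
        · have := h.1 b hb
          have h2 : b = 0 := by omega
          simp [h2]
      rw [h1, getD_of_le [] (Nat.zero_le _)]
      have h2 : (a :: l).getD i 0 ≤ (a :: l).getD 0 0 :=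
        getD_anti (List.pairwise_cons.2 h) (Nat.zero_le i)
      have h3 : (a :: l).getD 0 0 = 0 := ha
      omega
    · rw [List.filter_cons_of_pos (by simpa using ha)]
      rcases i with _ | i
      · rfl
      · exact ih h.2 i

theorem ofFn_getD {N : ℕ} (lam : Fin N → ℕ) (i : Fin N) : (List.ofFn lam).getD (i : ℕ) 0 = lam i := by
  rw [getD_of_lt _ (by rw [List.length_ofFn]; exact i.2), List.getElem_ofFn]

theorem ofFn_pairwise {N : ℕ} (lam : Fin N → ℕ) (h : Antitone lam) :
    (List.ofFn lam).Pairwise (· ≥ ·) := by
  rw [List.pairwise_ofFn]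
  exact fun i j hij => h hij.le

theorem eq_of_getD {l l' : List ℕ} (h : ∀ a ∈ l, 0 < a) (h' : ∀ a ∈ l', 0 < a)
    (he : ∀ i, l.getD i 0 = l'.getD i 0) : l = l' := by
  induction l generalizing l' with
  | nil =>
    rcases l' with _ | ⟨b, l'⟩
    · rfl
    · have h1 := he 0
      have h2 := h' b (by simp)
      change 0 = b at h1
      omega
  | cons a l ih =>
    rcases l' with _ | ⟨b, l'⟩
    · have h1 := he 0
      have h2 := h a (by simp)
      change a = 0 at h1
      omega
    · have h1 : a = b := he 0
      have h2 : l = l' := ih (fun c hc => h c (by simp [hc])) (fun c hc => h' c (by simp [hc]))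
        fun i => he (i + 1)
      rw [h1, h2]

theorem cn_eq (l : List ℕ) (j : ℕ) :
    (l.map fun a => if j < a then 1 else 0).sum = (l.filter fun a => decide (j < a)).length := by
  induction l with
  | nil => rfl
  | cons a l ih =>
    rw [List.map_cons, List.sum_cons, ih]
    by_cases h : j < a
    · rw [List.filter_cons_of_pos (by simpa using h), if_pos h, List.length_cons, add_comm]
    · rw [List.filter_cons_of_neg (by simpa using h), if_neg h, zero_add]

theorem conj_getD {l : List ℕ} (h : l.Pairwise (· ≥ ·)) (j : ℕ) :
    (conj l).getD j 0 = (l.filter fun a => decide (j < a)).length := by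
  rcases Nat.lt_or_ge j (l.headD 0) with hj | hj
  · have h1 : j < (conj l).length := by
      rw [conj, List.length_map, List.length_range]
      exact hj
    rw [getD_of_lt _ h1]
    unfold conj
    rw [List.getElem_map, List.getElem_range]
  · rw [getD_of_le]
    · symm
      rw [List.length_eq_zero_iff, List.filter_eq_nil_iff]
      intro a ha
      have := DOM.le_head h a ha
      simp only [decide_eq_true_eq, not_lt]
      omega
    · rw [conj, List.length_map, List.length_range]
      exact hj

end LFNAux

open LFNAux in
theorem t_LFN : I_LFN := by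
  intro n
  constructor
  · intro l hl
    obtain ⟨hp, hpos, hsum⟩ := hl
    have hlen : l.length ≤ n + 1 := by
      have := length_le hpos
      omega
    have hanti : Antitone (fn n l) := fun i j hij => getD_anti hp hij
    refine ⟨hanti, ?_, ?_, ?_, ?_⟩
    · have h1 := sum_fn l id rfl (n + 1) hlen
      rw [List.map_id, hsum] at h1
      exact (Fin.sum_univ_eq_sum_range (fun i => id (l.getD i 0)) (n + 1)).trans h1
    · rw [o_PAD Lam1 X1 (n + 1) (fn n l) hanti]
      unfold sc
      congr 1
      refine eq_of_getD ?_ hpos ?_
      · intro a ha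
        have := (List.mem_filter.1 ha).2
        simpa using this
      · intro i
        rw [filter_getD _ (ofFn_pairwise _ hanti)]
        rcases Nat.lt_or_ge i (n + 1) with hi | hi
        · exact ofFn_getD (fn n l) ⟨i, hi⟩
        · rw [getD_of_le _ (by rw [List.length_ofFn]; exact hi), getD_of_le _ (hlen.trans hi)]
    · funext j
      change (conj l).getD (j : ℕ) 0 = _
      rw [conj_getD hp, ← cn_eq]
      unfold cj
      rw [Finset.card_filter]
      have h1 := sum_fn l (fun a => if (j : ℕ) < a then 1 else 0) (by simp) (n + 1) hlen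
      rw [← h1]
      exact (Fin.sum_univ_eq_sum_range (fun i => if (j : ℕ) < l.getD i 0 then 1 else 0) (n + 1)).symm
    · intro k
      rw [sum_take, Finset.sum_filter]
      have h1 : ∑ i : Fin (n + 1), (if (i : ℕ) < k then fn n l i else 0) =
          ∑ i ∈ range (n + 1), if i < k then l.getD i 0 else 0 :=
        Fin.sum_univ_eq_sum_range (fun i => if i < k then l.getD i 0 else 0) (n + 1)
      rw [h1, ← Finset.sum_filter]
      symm
      refine Finset.sum_subset ?_ ?_
      · intro i hi
        rw [Finset.mem_filter] at hi
        exact Finset.mem_range.2 hi.2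
      · intro i hi hn
        rw [Finset.mem_range] at hi
        rw [Finset.mem_filter, Finset.mem_range, not_and'] at hn
        exact getD_of_le _ (hlen.trans (not_lt.1 (hn hi)))
  · intro lam hlam hsum
    have hp := ofFn_pairwise lam hlam
    have hpf : ((List.ofFn lam).filter fun a => decide (0 < a)).Pairwise (· ≥ ·) := hp.filter _
    refine ⟨(List.ofFn lam).filter fun a => decide (0 < a), ⟨hpf, ?_, ?_⟩, ?_⟩
    · intro a ha
      have := (List.mem_filter.1 ha).2
      simpa using this
    · have h1 := sum_fn ((List.ofFn lam).filter fun a => decide (0 < a)) id rfl (n + 1)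
        ((List.length_filter_le _ _).trans (by rw [List.length_ofFn]))
      rw [List.map_id] at h1
      rw [← h1]
      have h2 : ∀ i, id (((List.ofFn lam).filter fun a => decide (0 < a)).getD i 0) =
          (List.ofFn lam).getD i 0 := fun i => filter_getD _ hp i
      simp only [h2]
      rw [← Fin.sum_univ_eq_sum_range (fun i => (List.ofFn lam).getD i 0) (n + 1)]
      simp only [ofFn_getD]
      exact hsum
    · funext i
      change ((List.ofFn lam).filter fun a => decide (0 < a)).getD (i : ℕ) 0 = lam i
      rw [filter_getD _ hp, ofFn_getD]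

end Pool.Agent.NEI
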