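import Pool.Agent.NEI.U

/-!
# Module LMA: division of a unimodal polynomial by `1 + X^g + … + X^{g(b-1)}`
-/

set_option autoImplicit false

namespace Pool.Agent.NEI

open Finset

namespace LMAAux

theorem mono {L : ℕ} {p : Polynomial ℚ} (h : IsSU L p) :
    ∀ k i, 2 * (i + k) ≤ L + 1 → p.coeff i ≤ p.coeff (i + k) := by
  intro k
  induction k with
  | zero => intro i _; exact le_refl _
  | succ k ih =>
    intro i hi
    have h1 := ih i (by omega)
    have h2 := h.2.2 (i + k) (by omega)
    exact le_trans h1 h2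

theorem nonneg {p : Polynomial ℚ} (h : NatC p) (i : ℕ) : 0 ≤ p.coeff i := by
  obtain ⟨c, hc⟩ := h i
  rw [hc]
  exact Nat.cast_nonneg c

theorem up {L g : ℕ} {p : Polynomial ℚ} (h : IsSU L p) (i : ℕ)
    (h1 : g ≤ i) (h2 : 2 * i ≤ L + g) : p.coeff (i - g) ≤ p.coeff i := by
  by_cases h3 : 2 * i ≤ L + 1
  · have h4 := mono h g (i - g) (by omega)
    have h5 : i - g + g = i := by omega
    rwa [h5] at h4
  · have h6 : i ≤ L := by omega
    rw [h.2.1 i h6]
    have h4 := mono h ((L - i) - (i - g)) (i - g) (by omega)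
    have h5 : i - g + ((L - i) - (i - g)) = L - i := by omega
    rwa [h5] at h4

theorem down {L g : ℕ} {p : Polynomial ℚ} (h : IsSU L p) (hn : NatC p) (i : ℕ)
    (h1 : g ≤ i) (h2 : L + g ≤ 2 * i) : p.coeff i ≤ p.coeff (i - g) := by
  by_cases h3 : L < i
  · rw [h.1 i h3]
    exact nonneg hn _
  · have h4 := up (g := g) h (L - i + g) (by omega) (by omega)
    have h5 : L - i + g - g = L - i := by omega
    have h6 : L - i + g = L - (i - g) := by omega
    rw [h5, h6, ← h.2.1 i (by omega), ← h.2.1 (i - g) (by omega)] at h4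
    exact h4

theorem rel {g b : ℕ} {p r : Polynomial ℚ}
    (h : p = (∑ i ∈ range b, Polynomial.X ^ (g * i)) * r) (i : ℕ) :
    r.coeff i - (if g * b ≤ i then r.coeff (i - g * b) else 0)
      = p.coeff i - (if g ≤ i then p.coeff (i - g) else 0) := by
  have h1 : (1 - (Polynomial.X : Polynomial ℚ) ^ g) * p
      = (1 - (Polynomial.X : Polynomial ℚ) ^ (g * b)) * r := by
    rw [h, ← mul_assoc]
    congr 1
    have h2 := mul_neg_geom_sum ((Polynomial.X : Polynomial ℚ) ^ g) b
    simp only [← pow_mul] at h2
    exact h2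
  have h3 := congrArg (fun q : Polynomial ℚ => q.coeff i) h1
  simp only [sub_mul, one_mul, Polynomial.coeff_sub, Polynomial.coeff_X_pow_mul'] at h3
  exact h3.symm

end LMAAux

open LMAAux in
theorem t_LMA : I_LMA := by
  intro L g b p r hp hn hg hb hpr
  have hgb : 1 ≤ g * b := Nat.mul_pos hg hb
  have hggb : g ≤ g * b := Nat.le_mul_of_pos_right g hb
  -- integrality
  have hint : ∀ i, ∃ z : ℤ, r.coeff i = (z : ℚ) := by
    intro i
    induction i using Nat.strong_induction_on with
    | _ i ih =>
      have h := rel hpr i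
      obtain ⟨c, hc⟩ := hn i
      have h1 : ∃ z : ℤ, (if g ≤ i then p.coeff (i - g) else 0) = (z : ℚ) := by
        split_ifs
        · obtain ⟨d, hd⟩ := hn (i - g)
          exact ⟨(d : ℤ), by rw [hd]; push_cast; rfl⟩
        · exact ⟨0, by simp⟩
      have h2 : ∃ z : ℤ, (if g * b ≤ i then r.coeff (i - g * b) else 0) = (z : ℚ) := by
        split_ifs with h3
        · exact ih (i - g * b) (by omega)
        · exact ⟨0, by simp⟩
      obtain ⟨z1, hz1⟩ := h1
      obtain ⟨z2, hz2⟩ := h2
      rw [hz1, hz2, hc] at h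
      refine ⟨(c : ℤ) - z1 + z2, ?_⟩
      push_cast
      linarith
  -- nonnegativity, lower half
  have hlo : ∀ i, 2 * i ≤ L + g → 0 ≤ r.coeff i := by
    intro i
    induction i using Nat.strong_induction_on with
    | _ i ih =>
      intro hi
      have h := rel hpr i
      have h1 : (if g ≤ i then p.coeff (i - g) else 0) ≤ p.coeff i := by
        split_ifs with h3
        · exact up hp i h3 hi
        · exact nonneg hn i
      have h2 : 0 ≤ (if g * b ≤ i then r.coeff (i - g * b) else 0) := by
        split_ifs with h3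
        · exact ih (i - g * b) (by omega) (by omega)
        · exact le_refl _
      linarith
  -- nonnegativity, upper half
  have hhi : ∀ k i, r.natDegree < i + k → L + g < 2 * i → 0 ≤ r.coeff i := by
    intro k
    induction k with
    | zero =>
      intro i h1 _
      rw [Polynomial.coeff_eq_zero_of_natDegree_lt (by omega)]
    | succ k ih =>
      intro i h1 h2
      have h := rel hpr (i + g * b)
      have h3 := ih (i + g * b) (by omega) (by omega)
      have h4 : g * b ≤ i + g * b := by omega
      have h5 : g ≤ i + g * b := by omega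
      rw [if_pos h4, if_pos h5] at h
      have h6 : i + g * b - g * b = i := by omega
      rw [h6] at h
      have h7 := down hp hn (i + g * b) h5 (by omega)
      linarith
  intro i
  have h0 : 0 ≤ r.coeff i := by
    by_cases h : 2 * i ≤ L + g
    · exact hlo i h
    · exact hhi (r.natDegree + 1) i (by omega) (by omega)
  obtain ⟨z, hz⟩ := hint i
  rw [hz] at h0
  have h1 : 0 ≤ z := by exact_mod_cast h0
  refine ⟨z.toNat, ?_⟩
  rw [hz]
  have h2 : ((z.toNat : ℕ) : ℤ) = z := Int.toNat_of_nonneg h1
  exact_mod_cast h2.symm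

end Pool.Agent.NEI
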