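import Pool.Agent.NEI.Stmts

/-!
# The involution on words
-/

set_option autoImplicit false

namespace Pool.Agent.NEI

open MvPolynomial Finset Pool.Agent.NEK

namespace OMGAux

theorem om_C (c : K1) : om (C c) = C c := by
  rw [om, ← MvPolynomial.algebraMap_eq, AlgHom.commutes]

theorem om_X (i : ℕ) : om (X i) = C ((-1 : K1) ^ i) * X i := by
  rw [om, plG, aeval_X]

theorem hN_eN (P : ℕ → Lam1) (n : ℕ) : hN (fun k => (-1) ^ k * P k) n = eN P n := by
  apply HNB.hu Lam1 (fun k => (-1) ^ k * P k) (eN P)
  · rw [eN]
  · intro n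
    exact HNB.er Lam1 P n

theorem om_hM (n M : ℕ) : om (hM n M) = eN (fun i => C (pM M i) * X1 i) n := by
  rw [hM, hb]
  have h1 := (HNB.hm Lam1 Lam1 (om : Lam1 →+* Lam1) (fun i => C (pM M i) * X i)).1 n
  have h2 : (fun k => (om : Lam1 →+* Lam1) (C (pM M k) * X k)) =
      fun k => (-1 : Lam1) ^ k * (C (pM M k) * X1 k) := by
    funext k
    change om (C (pM M k) * X k) = _
    rw [map_mul, om_C, om_X, X1, C_pow, C_neg, C_1]
    ring
  rw [h2, hN_eN] at h1
  exact h1

theorem anti {N : ℕ} {w : List (Fin N)} (hB : Bal w) : Antitone (cont w) := by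
  cases w with
  | nil => intro i j _; simp [cont]
  | cons r w => exact hB.2

theorem isPart {N n : ℕ} {w : List (Fin N)} (hw : w.length = n) (hB : Bal w) :
    IsPart n ((List.ofFn (cont w)).filter fun a => decide (0 < a)) := by
  refine ⟨?_, ?_, ?_⟩
  · apply List.Pairwise.filter
    rw [List.pairwise_ofFn]
    intro i j hij
    exact anti hB hij.le
  · intro a ha
    rw [List.mem_filter] at ha
    exact of_decide_eq_true ha.2
  · have h1 : ∀ l : List ℕ, (l.filter fun a => decide (0 < a)).sum = l.sum := by
      intro l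
      induction l with
      | nil => rfl
      | cons a l ih =>
        rw [List.filter_cons]
        split_ifs with h
        · rw [List.sum_cons, List.sum_cons, ih]
        · have h0 : a = 0 := by
            have : ¬ (0 < a) := fun h' => h (decide_eq_true h')
            omega
          rw [List.sum_cons, ih, h0, zero_add]
    rw [h1, List.sum_ofFn, ← hw]
    unfold cont
    have h2 := Multiset.sum_count_eq_card (s := (Finset.univ : Finset (Fin N)))
      (m := (w : Multiset (Fin N))) (fun a _ => Finset.mem_univ a)
    rw [Multiset.coe_card] at h2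
    rw [← h2]
    exact Finset.sum_congr rfl fun i _ => (Multiset.coe_count i w).symm

end OMGAux

theorem t_OMG : I_DJT → I_OMG := by
  intro hD
  refine ⟨OMGAux.om_hM, ?_⟩
  intro n v hv
  by_cases hB : Bal v
  · right
    have hp := OMGAux.isPart hv hB
    refine ⟨conj ((List.ofFn (cont v)).filter fun a => decide (0 < a)),
      (o_DOM n _ _ hp hp).1, ?_⟩
    rw [← hD n _ hp]
    have h1 : valw X1 v = sc ((List.ofFn (cont v)).filter fun a => decide (0 < a)) := by
      unfold valw
      rw [if_pos hB, o_PAD Lam1 X1 n (cont v) (OMGAux.anti hB)]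
      rfl
    rw [h1]
  · left
    have h1 : valw X1 v = 0 := by
      unfold valw
      rw [if_neg hB]
    rw [h1, map_zero]

end Pool.Agent.NEI
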