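import Pool.Agent.NEI.Stmts

/-!
# OPI: the operator `Δ_{s_λ} ∇` at `t = 1/q`
-/

set_option autoImplicit false

namespace Pool.Agent.NEI

open MvPolynomial Finset Pool.Agent.NEK

namespace OPIAux

theorem isPart_hk {n j : ℕ} (h1 : 1 ≤ j) (h2 : j ≤ n) : IsPart n (hk n j) := by
  refine ⟨?_, ?_, ?_⟩
  · rw [hk, List.pairwise_cons]
    refine ⟨fun b hb => ?_, ?_⟩
    · rw [List.eq_of_mem_replicate hb]
      exact h1
    · exact List.pairwise_replicate.2 (Or.inr le_rfl)
  · intro a ha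
    rw [hk, List.mem_cons] at ha
    rcases ha with rfl | ha
    · omega
    · rw [List.eq_of_mem_replicate ha]
      exact one_pos
  · rw [hk, List.sum_cons, List.sum_replicate, smul_eq_mul, mul_one]
    omega

theorem inv_left (F : Lam1) : plG (fun i => 1 - qq ^ (i + 1)) (plG bt F) = F := by
  rw [plG_plG]
  have h : (fun i => (1 - qq ^ (i + 1)) * bt i) = fun _ => (1 : K1) :=
    funext fun i => mul_inv_cancel₀ (one_sub_ne i)
  rw [h, plG_one]

theorem indep (hS : I_HSP) (n : ℕ) (d : List ℕ → K1)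
    (hd : ∑ l ∈ PS n, d l • plG bt (sc l) = 0) : ∀ l ∈ PS n, d l = 0 := by
  apply hS.2 n d
  have h1 := congrArg (plG (fun i => 1 - qq ^ (i + 1))) hd
  rw [map_zero, map_sum] at h1
  rw [← h1]
  refine sum_congr rfl fun l _ => ?_
  rw [map_smul, inv_left]

theorem exists_map (hS : I_HSP) (n : ℕ) (ev1 : List ℕ → K1) : ∃ Lm : Lam1 →ₗ[K1] Lam1,
    ∀ l ∈ PS n, Lm (plG bt (sc l)) = ev1 l • plG bt (sc l) := by
  classical
  have hli : LinearIndependent K1 (fun l : {l // l ∈ PS n} => plG bt (sc l.1)) := by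
    rw [Fintype.linearIndependent_iff]
    intro g hg l
    have h1 := indep hS n (fun l => if h : l ∈ PS n then g ⟨l, h⟩ else 0) (by
      rw [← Finset.sum_coe_sort, ← hg]
      refine sum_congr rfl fun l _ => ?_
      rw [dif_pos l.2]) l.1 l.2
    rw [dif_pos l.2] at h1
    exact h1
  let b := Module.Basis.span hli
  obtain ⟨g, hg⟩ := LinearMap.exists_extend
    (b.constr K1 (fun l : {l // l ∈ PS n} => ev1 l.1 • plG bt (sc l.1)))
  refine ⟨g, fun l hl => ?_⟩
  have h1 := congrArg (fun φ => φ (b ⟨l, hl⟩)) hg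
  simp only [LinearMap.comp_apply, Submodule.subtype_apply, Module.Basis.constr_basis] at h1
  have h2 : ((b ⟨l, hl⟩ : Submodule.span K1 (Set.range fun l : {l // l ∈ PS n} =>
      plG bt (sc l.1))) : Lam1) = plG bt (sc l) := by
    rw [show b ⟨l, hl⟩ = _ from Module.Basis.span_apply hli ⟨l, hl⟩]
  rw [h2] at h1
  exact h1

end OPIAux

open OPIAux in
theorem t_OPI : I_KEI → I_EGI → I_HSP → I_OPI := by
  intro hK hE hS n hn H hH lam m hlam nabla delta hnab hdel
  classical
  have hK' : ∀ μ : List ℕ, ∃ (r : ℤ) (c : K1), c ≠ 0 ∧ (IsPart n μ →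
      IsWeightedHomogeneous wt (H μ) n ∧
        LamAtInv (((1 - q * t) ^ r : K) • H μ) (c • plG bt (sc μ))) := by
    intro μ
    by_cases h : IsPart n μ
    · obtain ⟨h1, r, c, hc, h2⟩ := hK n H hn hH μ h
      exact ⟨r, c, hc, fun _ => ⟨h1, h2⟩⟩
    · exact ⟨0, 1, one_ne_zero, fun h' => absurd h' h⟩
  choose r c hc hKμ using hK'
  obtain ⟨ev1, hev1, hev2⟩ := hE n m lam hn hlam
  obtain ⟨Lm, hLm⟩ := exists_map hS n ev1
  refine ⟨Lm, fun j hj => ?_, fun F F1 hF hF1 => ?_⟩
  · rw [mem_Icc] at hj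
    rw [hLm _ (mem_PS.2 (isPart_hk hj.1 hj.2)), hev2 j (mem_Icc.2 hj)]
  · have hA1 : ∀ l ∈ PS n, IsWeightedHomogeneous wt
        (Inv.sL (((1 - q * t) ^ (r l) : K) • H l)) n ∧
        LamAtOne (Inv.sL (((1 - q * t) ^ (r l) : K) • H l)) (c l • plG bt (sc l)) := by
      intro l hl
      obtain ⟨h1, h2⟩ := hKμ l (mem_PS.1 hl)
      refine ⟨Inv.sL_hom ?_, Inv.lam_iff.1 h2⟩
      rw [MvPolynomial.smul_eq_C_mul]
      have h3 := (isWeightedHomogeneous_C wt ((1 - q * t) ^ (r l) : K)).mul h1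
      rwa [zero_add] at h3
    have hA2 : ∀ d : List ℕ → K1, ∑ l ∈ PS n, d l • (c l • plG bt (sc l)) = 0 →
        ∀ l ∈ PS n, d l = 0 := by
      intro d hd l hl
      simp only [smul_smul] at hd
      have h1 := indep hS n (fun l => d l * c l) hd l hl
      exact (mul_eq_zero.1 h1).resolve_right (hc l)
    obtain ⟨c', c1, h1, h2, h3⟩ := o_NAK n (fun l => Inv.sL (((1 - q * t) ^ (r l) : K) • H l))
      (fun l => c l • plG bt (sc l)) hA1 hA2 (Inv.sL F) F1 (Inv.sL_hom hF) (Inv.lam_iff.1 hF1)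
    have hFe : F = ∑ l ∈ PS n, psiK (c' l) • (((1 - q * t) ^ (r l) : K) • H l) := by
      apply MvPolynomial.map_injective sg sg_inj
      change Inv.sL F = Inv.sL _
      rw [h2, map_sum]
      refine sum_congr rfl fun l _ => ?_
      conv_rhs => rw [Inv.sL_smul, sg_psiK]
    have hd : delta (nabla F) = ∑ l ∈ PS n, (psiK (c' l) * (ev (Bp l) (sch lam) * Tm l)) •
        (((1 - q * t) ^ (r l) : K) • H l) := by
      rw [hFe, map_sum, map_sum]
      refine sum_congr rfl fun l hl => ?_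
      have hl' := mem_PS.1 hl
      rw [map_smul nabla, map_smul nabla, hnab l hl', map_smul delta, map_smul delta,
        map_smul delta, hdel l hl']
      simp only [smul_smul]
      congr 1
      ring
    have hL : Lm F1 = ∑ l ∈ PS n, (c1 l * ev1 l) • (c l • plG bt (sc l)) := by
      rw [h3, map_sum]
      refine sum_congr rfl fun l hl => ?_
      rw [map_smul, map_smul, hLm l hl]
      simp only [smul_smul]
      congr 1
      ring
    rw [hd, hL]
    refine Inv.lam_sum _ fun l hl => Inv.lam_smul (Inv.mul ?_ (hev1 l (mem_PS.1 hl)))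
      (hKμ l (mem_PS.1 hl)).2
    rw [Inv.iff, sg_psiK]
    exact h1 l hl

end Pool.Agent.NEI
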