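import Pool.Agent.NEI.U

/-!
# Module ORB: pairs of words up to simultaneous permutation of the positions
-/

set_option autoImplicit false

namespace Pool.Agent.NEI

open Finset

namespace ORBAux

theorem fx_inv {G : Type} (A : Type) [Group G] [MulAction G A] (g : G) : fx A g⁻¹ = fx A g := by
  unfold fx
  congr 1
  apply Nat.card_congr
  apply Equiv.subtypeEquivRight
  intro a
  rw [inv_smul_eq_iff]
  exact eq_comm

theorem fx_prod {G : Type} (A B : Type) [Group G] [MulAction G A] [MulAction G B] (g : G) :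
    fx A g * fx B g = (Nat.card (MulAction.fixedBy (A × B) g) : ℚ) := by
  unfold fx
  rw [← Nat.cast_mul, ← Nat.card_prod]
  congr 1
  apply Nat.card_congr
  refine ⟨fun x => ⟨(x.1.1, x.2.1), ?_⟩, fun x => (⟨x.1.1, ?_⟩, ⟨x.1.2, ?_⟩), ?_, ?_⟩
  · rw [MulAction.mem_fixedBy, Prod.smul_mk, x.1.2, x.2.2]
  · have h := x.2
    rw [MulAction.mem_fixedBy] at h
    exact congrArg Prod.fst h
  · have h := x.2
    rw [MulAction.mem_fixedBy] at h
    exact congrArg Prod.snd h
  · intro x
    rfl
  · intro x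
    rfl

theorem burnside {G : Type} (A : Type) [Group G] [Fintype G] [Finite A] [MulAction G A] :
    ∑ g : G, (Nat.card (MulAction.fixedBy A g) : ℚ) =
      (Fintype.card G : ℚ) * (Nat.card (Quotient (MulAction.orbitRel G A)) : ℚ) := by
  classical
  have : Fintype A := Fintype.ofFinite A
  have : ∀ a : G, Fintype (MulAction.fixedBy A a) := fun a => Fintype.ofFinite _
  have : Fintype (Quotient (MulAction.orbitRel G A)) := Fintype.ofFinite _
  have h := MulAction.sum_card_fixedBy_eq_card_orbits_mul_card_group G A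
  have h2 : ∀ g : G, (Nat.card (MulAction.fixedBy A g) : ℚ) =
      (Fintype.card (MulAction.fixedBy A g) : ℚ) := fun g => by rw [Nat.card_eq_fintype_card]
  simp only [h2]
  rw [Nat.card_eq_fintype_card, mul_comm]
  exact_mod_cast h

theorem exists_perm {m : ℕ} {Z : Type} [DecidableEq Z] (u v : Fin m → Z) (h : ct u = ct v) :
    ∃ g : Equiv.Perm (Fin m), ∀ i, v i = u (g⁻¹ i) := by
  have e : ∀ z, Nonempty ({i // u i = z} ≃ {i // v i = z}) := by
    intro z
    have h1 := congrFun h z
    unfold ct at h1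
    refine ⟨Fintype.equivOfCardEq ?_⟩
    rw [Fintype.card_subtype, Fintype.card_subtype]
    exact h1
  refine ⟨Equiv.ofFiberEquiv (fun z => (e z).some), ?_⟩
  intro i
  have h2 := Equiv.ofFiberEquiv_map (fun z => (e z).some)
    ((Equiv.ofFiberEquiv (fun z => (e z).some)).symm i)
  rw [Equiv.apply_symm_apply] at h2
  exact h2

theorem exists_word {m : ℕ} {Z : Type} [Fintype Z] [DecidableEq Z] (N : Z → ℕ)
    (h : ∑ z, N z = m) : ∃ u : Fin m → Z, ct u = N := by
  have h1 : Fintype.card (Fin m) = Fintype.card (Σ z : Z, Fin (N z)) := by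
    rw [Fintype.card_sigma, Fintype.card_fin]
    simp [h]
  let e : Fin m ≃ Σ z : Z, Fin (N z) := Fintype.equivOfCardEq h1
  refine ⟨fun i => (e i).1, ?_⟩
  funext z
  unfold ct
  have h2 : Fintype.card {i : Fin m // (e i).1 = z} = N z := by
    have h3 : {i : Fin m // (e i).1 = z} ≃ {s : (Σ z : Z, Fin (N z)) // s.1 = z} :=
      e.subtypeEquiv (fun _ => Iff.rfl)
    rw [Fintype.card_congr h3, Fintype.card_congr (Equiv.sigmaSubtype z), Fintype.card_fin]
  rw [← h2, Fintype.card_subtype]

theorem sum_ct {m : ℕ} {Z : Type} [Fintype Z] [DecidableEq Z] (u : Fin m → Z) :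
    ∑ z, ct u z = m := by
  unfold ct
  rw [← Finset.card_eq_sum_card_fiberwise (f := u) (s := univ) (t := univ)
    (fun i _ => mem_coe.mpr (mem_univ _))]
  simp

variable {m : ℕ} {X Y : Type} [Fintype X] [DecidableEq X] [Fintype Y] [DecidableEq Y]

/-- the word of pairs -/
def pr (w : Fin m → X) (w' : Fin m → Y) : Fin m → X × Y := fun i => (w i, w' i)

theorem ct_row (w : Fin m → X) (w' : Fin m → Y) (x : X) :
    ∑ y, ct (pr w w') (x, y) = ct w x := by
  unfold ct
  rw [Finset.card_eq_sum_card_fiberwise (f := w') (s := univ.filter fun i => w i = x) (t := univ)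
    (fun i _ => mem_coe.mpr (mem_univ _))]
  apply Finset.sum_congr rfl
  intro y _
  congr 1
  ext i
  simp [pr]

theorem ct_col (w : Fin m → X) (w' : Fin m → Y) (y : Y) :
    ∑ x, ct (pr w w') (x, y) = ct w' y := by
  unfold ct
  rw [Finset.card_eq_sum_card_fiberwise (f := w) (s := univ.filter fun i => w' i = y) (t := univ)
    (fun i _ => mem_coe.mpr (mem_univ _))]
  apply Finset.sum_congr rfl
  intro x _
  congr 1
  ext i
  simp [pr, and_comm]

/-- the set of matrices -/
abbrev MX (m : ℕ) (X Y : Type) [Fintype X] [Fintype Y] (p : (X → ℕ) → Prop)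
    (p' : (Y → ℕ) → Prop) : Type :=
  {N : X → Y → ℕ // (∑ x, ∑ y, N x y = m) ∧ p (fun x => ∑ y, N x y) ∧
    p' (fun y => ∑ x, N x y)}

/-- the matrix of a pair of words -/
def mat (p : (X → ℕ) → Prop) (p' : (Y → ℕ) → Prop) (q : WS m X p × WS m Y p') :
    MX m X Y p p' :=
  ⟨fun x y => ct (pr q.1.1 q.2.1) (x, y), by
    refine ⟨?_, ?_, ?_⟩
    · simp only [ct_row]
      exact sum_ct _
    · simp only [ct_row]
      exact q.1.2
    · simp only [ct_col]
      exact q.2.2⟩

theorem mat_smul (p : (X → ℕ) → Prop) (p' : (Y → ℕ) → Prop) (g : Equiv.Perm (Fin m))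
    (q : WS m X p × WS m Y p') : mat p p' (g • q) = mat p p' q := by
  apply Subtype.ext
  funext x y
  exact congrFun (ct_perm (pr q.1.1 q.2.1) g⁻¹) (x, y)

theorem mat_inj (p : (X → ℕ) → Prop) (p' : (Y → ℕ) → Prop) (q q' : WS m X p × WS m Y p')
    (h : mat p p' q = mat p p' q') : ∃ g : Equiv.Perm (Fin m), g • q = q' := by
  have h1 : ct (pr q.1.1 q.2.1) = ct (pr q'.1.1 q'.2.1) := by
    funext z
    obtain ⟨x, y⟩ := z
    exact congrFun (congrFun (congrArg Subtype.val h) x) y
  obtain ⟨g, hg⟩ := exists_perm _ _ h1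
  refine ⟨g, ?_⟩
  apply Prod.ext
  · apply Subtype.ext
    funext i
    exact (congrArg Prod.fst (hg i)).symm
  · apply Subtype.ext
    funext i
    exact (congrArg Prod.snd (hg i)).symm

theorem mat_surj (p : (X → ℕ) → Prop) (p' : (Y → ℕ) → Prop) (N : MX m X Y p p') :
    ∃ q : WS m X p × WS m Y p', mat p p' q = N := by
  obtain ⟨N, h1, h2, h3⟩ := N
  obtain ⟨u, hu⟩ := exists_word (m := m) (fun z : X × Y => N z.1 z.2) (by
    rw [Fintype.sum_prod_type]
    exact h1)
  have hpr : pr (fun i => (u i).1) (fun i => (u i).2) = u := rfl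
  have hw : ct (fun i => (u i).1) = fun x => ∑ y, N x y := by
    funext x
    rw [← ct_row (fun i => (u i).1) (fun i => (u i).2) x, hpr, hu]
  have hw' : ct (fun i => (u i).2) = fun y => ∑ x, N x y := by
    funext y
    rw [← ct_col (fun i => (u i).1) (fun i => (u i).2) y, hpr, hu]
  refine ⟨(⟨fun i => (u i).1, by rw [hw]; exact h2⟩, ⟨fun i => (u i).2, by rw [hw']; exact h3⟩), ?_⟩
  apply Subtype.ext
  funext x y
  exact congrFun hu (x, y)

theorem card_orbits (p : (X → ℕ) → Prop) (p' : (Y → ℕ) → Prop) :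
    Nat.card (Quotient (MulAction.orbitRel (Equiv.Perm (Fin m)) (WS m X p × WS m Y p'))) =
      NC m X Y p p' := by
  unfold NC
  have hwd : ∀ a b : WS m X p × WS m Y p',
      (MulAction.orbitRel (Equiv.Perm (Fin m)) (WS m X p × WS m Y p')) a b →
        mat p p' a = mat p p' b := by
    intro a b hab
    rw [MulAction.orbitRel_apply] at hab
    obtain ⟨g, rfl⟩ := hab
    exact mat_smul p p' g b
  apply Nat.card_congr
  refine Equiv.ofBijective (Quotient.lift (mat p p') hwd) ⟨?_, ?_⟩
  · intro a b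
    refine Quotient.inductionOn₂ a b ?_
    intro a b h
    obtain ⟨g, hg⟩ := mat_inj p p' b a h.symm
    apply Quotient.sound
    exact ⟨g, hg⟩
  · intro N
    obtain ⟨q, hq⟩ := mat_surj p p' N
    exact ⟨Quotient.mk _ q, hq⟩

end ORBAux

theorem t_ORB : I_ORB := by
  intro m X Y _ _ _ _ p p'
  have h1 : ∀ g : Equiv.Perm (Fin m), fx (WS m X p) g * fx (WS m Y p') g⁻¹ =
      (Nat.card (MulAction.fixedBy (WS m X p × WS m Y p') g) : ℚ) := by
    intro g
    rw [ORBAux.fx_inv, ORBAux.fx_prod]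
  simp only [h1]
  rw [ORBAux.burnside, ORBAux.card_orbits, Fintype.card_perm, Fintype.card_fin]

end Pool.Agent.NEI
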