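import Pool.Agent.NEI.Stmts

/-! # Module PQ -/

set_option autoImplicit false

namespace Pool.Agent.NEI

open Finset MvPolynomial Pool.Agent.NEK

namespace PQAux

/-- `[a] = 1 + X + … + X^{a-1}`. -/
noncomputable def br (a : ℕ) : Polynomial ℚ := ∑ i ∈ range a, (Polynomial.X : Polynomial ℚ) ^ i

theorem br_add (a b : ℕ) : br (a + b) = br a + Polynomial.X ^ a * br b := by
  unfold br
  rw [Finset.sum_range_add, Finset.mul_sum]
  congr 1
  refine Finset.sum_congr rfl fun i _ => ?_
  rw [pow_add]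

theorem br_mul (g b : ℕ) :
    br (g * b) = br g * ∑ i ∈ range b, (Polynomial.X : Polynomial ℚ) ^ (g * i) := by
  induction b with
  | zero => simp [br]
  | succ b ih =>
    rw [Nat.mul_succ, br_add, ih, Finset.sum_range_succ, mul_add]
    ring

theorem bezout (a b : ℕ) : ∃ u v : Polynomial ℚ, u * br a + v * br b = br (Nat.gcd a b) := by
  induction a, b using Nat.gcd.induction with
  | H0 n => exact ⟨0, 1, by simp⟩
  | H1 m n hm ih =>
    obtain ⟨u, v, h⟩ := ih
    rw [← Nat.gcd_rec] at h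
    have e : br n = br (n % m) + Polynomial.X ^ (n % m) *
        (br m * ∑ i ∈ range (n / m), (Polynomial.X : Polynomial ℚ) ^ (m * i)) := by
      rw [← br_mul, ← br_add, Nat.mod_add_div]
    refine ⟨v - u * Polynomial.X ^ (n % m) *
      ∑ i ∈ range (n / m), (Polynomial.X : Polynomial ℚ) ^ (m * i), u, ?_⟩
    rw [← h, e]
    ring

theorem br_ne {g : ℕ} (hg : 1 ≤ g) : br g ≠ 0 := by
  intro h
  have h1 := congrArg (Polynomial.eval 1) h
  unfold br at h1
  rw [Polynomial.eval_finsetSum] at h1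
  simp at h1
  omega

end PQAux

open PQAux in
theorem t_PQ : I_DVS → I_UNI → I_NAT → I_LMA → I_PQ := by
  intro hD hU hN hL n m lam hn hm hp
  obtain ⟨s', hs'⟩ := hD n m lam hn hp
  obtain ⟨u, v, huv⟩ := bezout n m
  have hg : 1 ≤ Nat.gcd n m := Nat.gcd_pos_of_pos_left m hn
  obtain ⟨b, hb⟩ := Nat.gcd_dvd_left n m
  have hb1 : 1 ≤ b := by
    rcases Nat.eq_zero_or_pos b with h | h
    · rw [h, mul_zero] at hb
      omega
    · exact h
  have e1 : br (Nat.gcd n m) * sN (PX n) lam = br n * (u * sN (PX n) lam + v * s') := by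
    have h2 : br m * sN (PX n) lam = br n * s' := hs'
    rw [← huv]
    linear_combination v * h2
  refine ⟨u * sN (PX n) lam + v * s', ?_, ?_⟩
  · refine hL (m * (n - 1)) (Nat.gcd n m) b (sN (PX n) lam) _ (hU n m lam hn hp) (hN n m lam hp) hg
      hb1 ?_
    have e2 : br n = br (Nat.gcd n m) *
        ∑ i ∈ range b, (Polynomial.X : Polynomial ℚ) ^ (Nat.gcd n m * i) := by
      rw [← br_mul, ← hb]
    rw [e2, mul_assoc] at e1
    exact mul_left_cancel₀ (br_ne hg) e1
  · have e3 : br n = ∑ i ∈ range n, (Polynomial.X : Polynomial ℚ) ^ i := rfl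
    have e4 : br (Nat.gcd n m) = ∑ i ∈ range (Nat.gcd n m), (Polynomial.X : Polynomial ℚ) ^ i := rfl
    rw [← e3, ← e4, mul_comm, ← e1, mul_comm]

end Pool.Agent.NEI
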