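import Pool.Agent.NEI.Stmts

/-!
# Inversion of the recursion of the functions `G l M`
-/

set_option autoImplicit false

namespace Pool.Agent.NEI

open Finset MvPolynomial Pool.Agent.NEK

namespace QIVAux

/-- `(q^{-J};q)_l / (q;q)_l` -/
noncomputable def A (J l : ℕ) : K1 := po ((qq ^ J)⁻¹) l / po qq l

theorem po_shift (z : K1) (l : ℕ) : po z (l + 1) = (1 - z) * po (z * qq) l := by
  rw [po, po, prod_range_succ', pow_zero, mul_one, mul_comm]
  congr 1
  apply prod_congr rfl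
  intro i _
  rw [pow_succ]
  ring

theorem A_zero (J : ℕ) : A J 0 = 1 := by
  rw [A, po_zero, po_zero, div_one]

theorem A_top (J : ℕ) : A J (J + 1) = 0 := by
  rw [A, po_inv_zero (Nat.lt_succ_self J), zero_div]

theorem inv_succ (J : ℕ) : ((qq : K1) ^ (J + 1))⁻¹ * qq = (qq ^ J)⁻¹ := by
  rw [pow_succ, mul_inv, mul_assoc, inv_mul_cancel₀ qq_ne, mul_one]

theorem po_succ_ne (l : ℕ) : (1 : K1) - qq * qq ^ l ≠ 0 := by
  rw [← pow_succ']
  exact one_sub_ne l

theorem A_rec (J l : ℕ) : A (J + 1) (l + 1) * qq ^ (l + 1) = A J (l + 1) - A J l := by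
  have h1 := po_qq_ne l
  have h2 := po_succ_ne l
  have h3 : (qq : K1) ^ J ≠ 0 := pow_ne_zero _ qq_ne
  have h4 : (qq : K1) ≠ 0 := qq_ne
  rw [A, A, A, po_shift, inv_succ, po_succ, po_succ]
  field_simp
  ring

theorem S {G : ℕ → ℕ → Lam1}
    (hG : ∀ l M, l + 2 ≤ M → G (l + 1) M = G l M - qq ^ l • G l (M - 1)) (J : ℕ) :
    ∀ M, J + 1 ≤ M → ∑ l ∈ range (J + 1), (A J l * qq ^ l) • G l M = G 0 (M - J) := by
  induction J with
  | zero =>
    intro M _
    rw [zero_add, sum_range_one, A_zero, pow_zero, mul_one, one_smul, Nat.sub_zero]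
  | succ J ih =>
    intro M hM
    have h1 := ih (M - 1) (by omega)
    have h2 : ∀ l ∈ range (J + 1), (A J l * qq ^ l) • G l (M - 1) =
        A J l • G l M - A J l • G (l + 1) M := by
      intro l hl
      rw [mem_range] at hl
      rw [hG l M (by omega), smul_sub, smul_smul]
      abel
    rw [sum_congr rfl h2, sum_sub_distrib] at h1
    have h3 : ∑ l ∈ range (J + 1), A J l • G l M = ∑ l ∈ range (J + 1), A J (l + 1) • G (l + 1) M +
        A J 0 • G 0 M := by
      rw [← sum_range_succ' (fun l => A J l • G l M) (J + 1),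
        sum_range_succ (fun l => A J l • G l M) (J + 1), A_top, zero_smul, add_zero]
    rw [sum_range_succ', A_zero, pow_zero, mul_one, one_smul]
    have h4 : ∀ l ∈ range (J + 1), (A (J + 1) (l + 1) * qq ^ (l + 1)) • G (l + 1) M =
        A J (l + 1) • G (l + 1) M - A J l • G (l + 1) M := by
      intro l _
      rw [A_rec, sub_smul]
    rw [sum_congr rfl h4, sum_sub_distrib]
    rw [h3, A_zero, one_smul] at h1
    have h5 : M - (J + 1) = M - 1 - J := by omega
    rw [h5, ← h1]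
    abel

theorem coef (J l : ℕ) : po ((qq ^ (J + 1))⁻¹) (l + 1) / po qq (l + 1) * (qi (l + 1) * qq ^ l) =
    -((qq ^ (J + 1))⁻¹ * qi (J + 1)) * (A J l * qq ^ l) := by
  have h1 := po_qq_ne l
  have h2 := po_succ_ne l
  have h3 : (qq : K1) ^ (J + 1) ≠ 0 := pow_ne_zero _ qq_ne
  have h4 := one_sub_qq_ne
  have h5 := qi_mul (l + 1)
  have h6 := qi_mul (J + 1)
  have e1 : qi (l + 1) = (1 - qq ^ (l + 1)) / (1 - qq) := by
    rw [← h5]
    field_simp
  have e2 : qi (J + 1) = (1 - qq ^ (J + 1)) / (1 - qq) := by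
    rw [← h6]
    field_simp
  rw [A, po_shift, inv_succ, po_succ, e1, e2, pow_succ' qq l]
  generalize po ((qq ^ J)⁻¹) l = P at *
  generalize (qq : K1) ^ (J + 1) = w at *
  field_simp
  ring

end QIVAux

open QIVAux in
theorem t_QIV : I_QIV := by
  intro G n N hG j hj hjN
  rw [mem_Icc] at hj
  obtain ⟨J, rfl⟩ : ∃ J, j = J + 1 := ⟨j - 1, by omega⟩
  have h1 : ∑ k ∈ Icc 1 n, (po ((qq ^ (J + 1))⁻¹) k / po qq k * (qi k * qq ^ (k - 1))) •
      G (k - 1) (N - 1) = ∑ k ∈ Icc 1 (J + 1),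
      (po ((qq ^ (J + 1))⁻¹) k / po qq k * (qi k * qq ^ (k - 1))) • G (k - 1) (N - 1) := by
    symm
    apply sum_subset (Icc_subset_Icc le_rfl hj.2)
    intro k hk hk'
    rw [mem_Icc] at hk hk'
    rw [po_inv_zero (by omega), zero_div, zero_mul, zero_smul]
  have h2 : ∑ k ∈ Icc 1 (J + 1), (po ((qq ^ (J + 1))⁻¹) k / po qq k * (qi k * qq ^ (k - 1))) •
      G (k - 1) (N - 1) = ∑ l ∈ range (J + 1),
      (-((qq ^ (J + 1))⁻¹ * qi (J + 1)) * (A J l * qq ^ l)) • G l (N - 1) := by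
    apply sum_nbij' (fun k => k - 1) (fun l => l + 1)
    · intro k hk
      rw [mem_Icc] at hk
      rw [mem_range]
      omega
    · intro l hl
      rw [mem_range] at hl
      rw [mem_Icc]
      omega
    · intro k hk
      rw [mem_Icc] at hk
      show k - 1 + 1 = k
      omega
    · intro l _
      rfl
    · intro k hk
      rw [mem_Icc] at hk
      obtain ⟨l, rfl⟩ : ∃ l, k = l + 1 := ⟨k - 1, by omega⟩
      rw [Nat.add_sub_cancel, coef]
  have h3 := S hG J (N - 1) (by omega)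
  have h4 : N - 1 - J = N - (J + 1) := by omega
  rw [h1, h2]
  have h5 : ∀ l ∈ range (J + 1), (-((qq ^ (J + 1))⁻¹ * qi (J + 1)) * (A J l * qq ^ l)) • G l (N - 1) =
      -(((qq ^ (J + 1))⁻¹ * qi (J + 1)) • ((A J l * qq ^ l) • G l (N - 1))) := by
    intro l _
    rw [neg_mul, neg_smul, smul_smul]
  rw [sum_congr rfl h5, sum_neg_distrib, ← smul_sum, h3, h4]

end Pool.Agent.NEI
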