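import Pool.Agent.NEI.U

/-!
# The raising operator is injective below the middle (module SL2)
-/

set_option autoImplicit false

namespace Pool.Agent.NEI

open Finset

namespace SL2Aux

/-- functions on all words of natural numbers -/
abbrev V (m : ℕ) : Type := (Fin m → ℕ) → ℚ

/-- raising at one position -/
def Uk {m : ℕ} (k : Fin m) : V m →ₗ[ℚ] V m where
  toFun x := fun w => if 1 ≤ w k then x (Function.update w k (w k - 1)) else 0
  map_add' x y := by
    funext w
    simp only [Pi.add_apply]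
    split_ifs <;> simp
  map_smul' c x := by
    funext w
    simp only [Pi.smul_apply, smul_eq_mul, RingHom.id_apply]
    split_ifs <;> simp

/-- lowering at one position -/
def Dk {m : ℕ} (n : ℕ) (k : Fin m) : V m →ₗ[ℚ] V m where
  toFun x := fun w => ((w k : ℚ) + 1) * ((n : ℚ) - 1 - w k) * x (Function.update w k (w k + 1))
  map_add' x y := by
    funext w
    simp only [Pi.add_apply]
    ring
  map_smul' c x := by
    funext w
    simp only [Pi.smul_apply, smul_eq_mul, RingHom.id_apply]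
    ring

theorem Uk_apply {m : ℕ} (k : Fin m) (x : V m) (w : Fin m → ℕ) :
    Uk k x w = if 1 ≤ w k then x (Function.update w k (w k - 1)) else 0 := rfl

theorem Dk_apply {m : ℕ} (n : ℕ) (k : Fin m) (x : V m) (w : Fin m → ℕ) :
    Dk n k x w = ((w k : ℚ) + 1) * ((n : ℚ) - 1 - w k) * x (Function.update w k (w k + 1)) := rfl

/-- the raising operator -/
def U (m : ℕ) : V m →ₗ[ℚ] V m := ∑ k : Fin m, Uk k

/-- the lowering operator -/
def D (m n : ℕ) : V m →ₗ[ℚ] V m := ∑ k : Fin m, Dk n k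

theorem U_apply {m : ℕ} (x : V m) (w : Fin m → ℕ) : U m x w = ∑ k : Fin m, Uk k x w := by
  rw [U, LinearMap.sum_apply, Finset.sum_apply]

theorem D_apply {m : ℕ} (n : ℕ) (x : V m) (w : Fin m → ℕ) :
    D m n x w = ∑ k : Fin m, Dk n k x w := by
  rw [D, LinearMap.sum_apply, Finset.sum_apply]

theorem comm_ne {m : ℕ} (n : ℕ) {k l : Fin m} (h : k ≠ l) (x : V m) (w : Fin m → ℕ) :
    Dk n k (Uk l x) w = Uk l (Dk n k x) w := by
  have h1 : Function.update w k (w k + 1) l = w l := Function.update_of_ne h.symm _ _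
  have h2 : Function.update w l (w l - 1) k = w k := Function.update_of_ne h _ _
  rw [Dk_apply, Uk_apply, Uk_apply, h1]
  by_cases h3 : 1 ≤ w l
  · rw [if_pos h3, if_pos h3, Dk_apply, h2, Function.update_comm h]
  · rw [if_neg h3, if_neg h3, mul_zero]

theorem comm_eq {m : ℕ} (n : ℕ) (k : Fin m) (x : V m) (w : Fin m → ℕ) :
    Dk n k (Uk k x) w - Uk k (Dk n k x) w = ((n : ℚ) - 1 - 2 * w k) * x w := by
  rw [Dk_apply, Uk_apply, Uk_apply]
  have h1 : Function.update w k (w k + 1) k = w k + 1 := Function.update_self _ _ _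
  rw [h1, if_pos (by omega), Nat.add_sub_cancel, Function.update_idem, Function.update_eq_self]
  by_cases h3 : 1 ≤ w k
  · rw [if_pos h3, Dk_apply]
    have h2 : Function.update w k (w k - 1) k = w k - 1 := Function.update_self _ _ _
    rw [h2, Function.update_idem, Nat.sub_add_cancel h3, Function.update_eq_self]
    push_cast [h3]
    ring
  · have h4 : w k = 0 := by omega
    rw [if_neg h3, h4]
    push_cast
    ring

theorem comm {m : ℕ} (n : ℕ) (x : V m) (w : Fin m → ℕ) :
    D m n (U m x) w - U m (D m n x) w =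
      ((m : ℚ) * ((n : ℚ) - 1) - 2 * ((∑ k, w k : ℕ) : ℚ)) * x w := by
  have e1 : D m n (U m x) w = ∑ k : Fin m, ∑ l : Fin m, Dk n k (Uk l x) w := by
    rw [D_apply]
    apply Finset.sum_congr rfl
    intro k _
    rw [U, LinearMap.sum_apply, map_sum, Finset.sum_apply]
  have e2 : U m (D m n x) w = ∑ k : Fin m, ∑ l : Fin m, Uk l (Dk n k x) w := by
    rw [U_apply, Finset.sum_comm]
    apply Finset.sum_congr rfl
    intro l _
    rw [D, LinearMap.sum_apply, map_sum, Finset.sum_apply]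
  rw [e1, e2, ← Finset.sum_sub_distrib]
  have e3 : ∀ k : Fin m, ∑ l : Fin m, Dk n k (Uk l x) w - ∑ l : Fin m, Uk l (Dk n k x) w =
      ((n : ℚ) - 1 - 2 * w k) * x w := by
    intro k
    rw [← Finset.sum_sub_distrib, Finset.sum_eq_single k]
    · exact comm_eq n k x w
    · intro l _ hl
      rw [comm_ne n hl.symm, sub_self]
    · intro h
      exact absurd (Finset.mem_univ k) h
  rw [Finset.sum_congr rfl fun k _ => e3 k, ← Finset.sum_mul, Finset.sum_sub_distrib,
    Finset.sum_const, Finset.card_univ, Fintype.card_fin, nsmul_eq_mul, ← Finset.mul_sum]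
  push_cast
  ring

/-! ### supports -/

theorem sum_update {m : ℕ} (w : Fin m → ℕ) (k : Fin m) (a : ℕ) :
    ∑ l, Function.update w k a l + w k = ∑ l, w l + a := by
  rw [Finset.sum_update_of_mem (Finset.mem_univ k), Finset.sdiff_singleton_eq_erase,
    ← Finset.add_sum_erase (Finset.univ) w (Finset.mem_univ k)]
  omega

theorem D_supp {m n : ℕ} {x : V m} {i j : ℕ} (h : ∀ w, ∑ k, w k + j ≠ i → x w = 0) :
    ∀ w, ∑ k, w k + (j + 1) ≠ i → D m n x w = 0 := by
  intro w hw
  rw [D_apply]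
  apply Finset.sum_eq_zero
  intro k _
  rw [Dk_apply, h, mul_zero]
  have := sum_update w k (w k + 1)
  omega

theorem U_supp {m : ℕ} {x : V m} {i : ℕ} (h : ∀ w, ∑ k, w k ≠ i → x w = 0) :
    ∀ w, ∑ k, w k ≠ i + 1 → U m x w = 0 := by
  intro w hw
  rw [U_apply]
  apply Finset.sum_eq_zero
  intro k _
  rw [Uk_apply]
  by_cases h3 : 1 ≤ w k
  · rw [if_pos h3, h]
    have := sum_update w k (w k - 1)
    omega
  · rw [if_neg h3]

theorem Dpow_supp {m n : ℕ} {x : V m} {i : ℕ} (h : ∀ w, ∑ k, w k ≠ i → x w = 0) (j : ℕ) :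
    ∀ w, ∑ k, w k + j ≠ i → ((D m n) ^ j) x w = 0 := by
  induction j with
  | zero =>
    intro w hw
    rw [pow_zero]
    exact h w (by omega)
  | succ j ih =>
    intro w hw
    rw [pow_succ', Module.End.mul_apply]
    exact D_supp ih w hw

/-! ### equality on the words with letters below `n` -/

/-- equality on the words with letters below `n` -/
def Eqv {m : ℕ} (n : ℕ) (x y : V m) : Prop := ∀ w, (∀ k, w k < n) → x w = y w

theorem U_congr {m n : ℕ} {x y : V m} (h : Eqv n x y) : Eqv n (U m x) (U m y) := by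
  intro w hw
  rw [U_apply, U_apply]
  apply Finset.sum_congr rfl
  intro k _
  rw [Uk_apply, Uk_apply]
  by_cases h3 : 1 ≤ w k
  · rw [if_pos h3, if_pos h3]
    apply h
    intro l
    by_cases hl : l = k
    · rw [hl, Function.update_self]
      have := hw k
      omega
    · rw [Function.update_of_ne hl]
      exact hw l
  · rw [if_neg h3, if_neg h3]

theorem D_congr {m n : ℕ} {x y : V m} (h : Eqv n x y) : Eqv n (D m n x) (D m n y) := by
  intro w hw
  rw [D_apply, D_apply]
  apply Finset.sum_congr rfl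
  intro k _
  rw [Dk_apply, Dk_apply]
  by_cases h3 : w k + 1 < n
  · congr 1
    apply h
    intro l
    by_cases hl : l = k
    · rw [hl, Function.update_self]
      exact h3
    · rw [Function.update_of_ne hl]
      exact hw l
  · have h4 : w k + 1 = n := by
      have := hw k
      omega
    have h5 : (n : ℚ) - 1 - w k = 0 := by
      rw [← h4]
      push_cast
      ring
    rw [h5]
    ring

theorem UD {m n i : ℕ} {x : V m} (hx : ∀ w, ∑ k, w k ≠ i → x w = 0) (hU : Eqv n (U m x) 0)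
    (j : ℕ) : Eqv n (U m (((D m n) ^ (j + 1)) x))
      ((-(((j : ℚ) + 1) * (((m : ℚ) * ((n : ℚ) - 1) - 2 * i) + j))) • ((D m n) ^ j) x) := by
  have hcom : ∀ (j : ℕ) (w : Fin m → ℕ), U m (((D m n) ^ (j + 1)) x) w =
      D m n (U m (((D m n) ^ j) x)) w -
        ((m : ℚ) * ((n : ℚ) - 1) - 2 * i + 2 * j) * ((D m n) ^ j) x w := by
    intro j w
    have h1 := comm n (((D m n) ^ j) x) w
    have h2 : ((m : ℚ) * ((n : ℚ) - 1) - 2 * ((∑ k, w k : ℕ) : ℚ)) * ((D m n) ^ j) x w =
        ((m : ℚ) * ((n : ℚ) - 1) - 2 * i + 2 * j) * ((D m n) ^ j) x w := by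
      by_cases h3 : ∑ k, w k + j = i
      · have h4 : (i : ℚ) = ((∑ k, w k : ℕ) : ℚ) + j := by exact_mod_cast h3.symm
        rw [h4]
        ring
      · rw [Dpow_supp hx j w h3, mul_zero, mul_zero]
    rw [h2] at h1
    rw [pow_succ', Module.End.mul_apply]
    linarith
  induction j with
  | zero =>
    intro w hw
    have h1 := hcom 0 w
    have h2 : D m n (U m (((D m n) ^ 0) x)) w = 0 := by
      have h3 := D_congr (n := n) hU w hw
      rw [map_zero] at h3
      rw [pow_zero]
      exact h3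
    rw [h1, h2, pow_zero]
    simp only [Pi.smul_apply, smul_eq_mul, Module.End.one_apply]
    push_cast
    ring
  | succ j ih =>
    intro w hw
    have h1 := hcom (j + 1) w
    have h3 := D_congr (n := n) ih w hw
    rw [h1, h3, map_smul]
    have h4 : D m n (((D m n) ^ j) x) = ((D m n) ^ (j + 1)) x := by
      rw [pow_succ', Module.End.mul_apply]
    rw [h4]
    simp only [Pi.smul_apply, smul_eq_mul]
    push_cast
    ring

theorem main {m n i : ℕ} (hi : 2 * i < m * (n - 1)) {x : V m}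
    (hx : ∀ w, ∑ k, w k ≠ i → x w = 0) (hU : Eqv n (U m x) 0) : Eqv n x 0 := by
  have hn : 1 ≤ n := by
    by_contra h
    have : n - 1 = 0 := by omega
    rw [this] at hi
    omega
  have hpos : (0 : ℚ) < (m : ℚ) * ((n : ℚ) - 1) - 2 * i := by
    have h1 : ((2 * i : ℕ) : ℚ) < ((m * (n - 1) : ℕ) : ℚ) := by exact_mod_cast hi
    push_cast [hn] at h1
    linarith
  have h1 : ∀ j : ℕ, j ≤ i + 1 → Eqv n (((D m n) ^ (i + 1 - j)) x) 0 := by
    intro j
    induction j with
    | zero =>
      intro _ w _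
      exact Dpow_supp hx (i + 1) w (by omega)
    | succ j ih =>
      intro hj
      obtain ⟨s, hs⟩ : ∃ s, s + 1 = i + 1 - j := ⟨i - j, by omega⟩
      have hs2 : i + 1 - (j + 1) = s := by omega
      have h2 := ih (by omega)
      rw [← hs] at h2
      rw [hs2]
      intro w hw
      have h3 := UD hx hU s w hw
      have h4 := U_congr h2 w hw
      rw [map_zero] at h4
      rw [h4] at h3
      simp only [Pi.smul_apply, smul_eq_mul, Pi.zero_apply] at h3
      have h5 : (-(((s : ℚ) + 1) * (((m : ℚ) * ((n : ℚ) - 1) - 2 * i) + s))) ≠ 0 := by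
        have h6 : (0 : ℚ) < ((s : ℚ) + 1) * (((m : ℚ) * ((n : ℚ) - 1) - 2 * i) + s) := by
          have : (0 : ℚ) ≤ s := Nat.cast_nonneg _
          positivity
        linarith
      rcases mul_eq_zero.1 h3.symm with h6 | h6
      · exact absurd h6 h5
      · exact h6
  have h2 := h1 (i + 1) le_rfl
  rw [Nat.sub_self, pow_zero] at h2
  exact h2

/-! ### words -/

/-- a word as a word of natural numbers -/
def emb {m n : ℕ} {p : (Fin n → ℕ) → Prop} (ω : WS m (Fin n) p) : Fin m → ℕ :=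
  fun k => (ω.1 k : ℕ)

theorem emb_inj {m n : ℕ} {p : (Fin n → ℕ) → Prop} :
    Function.Injective (emb : WS m (Fin n) p → Fin m → ℕ) := by
  intro a b h
  apply Subtype.ext
  funext k
  apply Fin.ext
  exact congrFun h k

theorem emb_smul {m n : ℕ} {p : (Fin n → ℕ) → Prop} (g : Equiv.Perm (Fin m))
    (ω : WS m (Fin n) p) : emb (g • ω) = fun k => emb ω (g⁻¹ k) := by
  funext k
  rw [emb, WS_smul]
  rfl

theorem sum_ct {m n : ℕ} (w : Fin m → Fin n) :
    ∑ b : Fin n, (b : ℕ) * ct w b = ∑ k, (w k : ℕ) := by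
  have h1 : ∀ b : Fin n, (b : ℕ) * ct w b = ∑ k, if w k = b then (w k : ℕ) else 0 := by
    intro b
    rw [ct, Finset.card_filter, Finset.mul_sum]
    apply Finset.sum_congr rfl
    intro k _
    by_cases h : w k = b
    · rw [if_pos h, if_pos h, h, mul_one]
    · rw [if_neg h, if_neg h, mul_zero]
  rw [Finset.sum_congr rfl fun b _ => h1 b, Finset.sum_comm]
  apply Finset.sum_congr rfl
  intro k _
  rw [Finset.sum_ite_eq, if_pos (Finset.mem_univ _)]

theorem exists_emb {m n i : ℕ} (w : Fin m → ℕ) (hw : ∀ k, w k < n) (hi : ∑ k, w k = i) :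
    ∃ ω : WS m (Fin n) (wp n i), emb ω = w := by
  refine ⟨⟨fun k => ⟨w k, hw k⟩, ?_⟩, rfl⟩
  change ∑ b : Fin n, (b : ℕ) * ct _ b = i
  rw [sum_ct]
  exact hi

theorem sum_emb {m n i : ℕ} (ω : WS m (Fin n) (wp n i)) : ∑ k, emb ω k = i := by
  have h : ∑ b : Fin n, (b : ℕ) * ct ω.1 b = i := ω.2
  rw [sum_ct] at h
  exact h

/-- extension by zero -/
noncomputable def ex (m n i : ℕ) : (WS m (Fin n) (wp n i) → ℚ) →ₗ[ℚ] V m :=
  Function.ExtendByZero.linearMap ℚ emb

theorem ex_emb {m n i : ℕ} (x : WS m (Fin n) (wp n i) → ℚ) (ω : WS m (Fin n) (wp n i)) :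
    ex m n i x (emb ω) = x ω := emb_inj.extend_apply _ _ _

theorem ex_zero {m n i : ℕ} (x : WS m (Fin n) (wp n i) → ℚ) (w : Fin m → ℕ)
    (h : ¬ ∃ ω : WS m (Fin n) (wp n i), emb ω = w) : ex m n i x w = 0 :=
  Function.extend_apply' _ _ _ h

theorem ex_smul {m n i : ℕ} (x : WS m (Fin n) (wp n i) → ℚ) (g : Equiv.Perm (Fin m))
    (w : Fin m → ℕ) : ex m n i (fun ω => x (g • ω)) w = ex m n i x (fun k => w (g⁻¹ k)) := by
  by_cases h : ∃ ω : WS m (Fin n) (wp n i), emb ω = w
  · obtain ⟨ω, rfl⟩ := h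
    rw [ex_emb, ← emb_smul, ex_emb]
  · rw [ex_zero _ _ h, ex_zero]
    rintro ⟨ω, hω⟩
    apply h
    refine ⟨g⁻¹ • ω, ?_⟩
    rw [emb_smul]
    funext k
    rw [hω]
    simp

theorem U_perm {m : ℕ} (g : Equiv.Perm (Fin m)) (x y : V m)
    (h : ∀ w, y w = x (fun k => w (g⁻¹ k))) (w : Fin m → ℕ) :
    U m y w = U m x (fun k => w (g⁻¹ k)) := by
  have hg : ∀ k, g⁻¹ (g k) = k := fun k => by simp
  have hg2 : ∀ k, g (g⁻¹ k) = k := fun k => by simp
  rw [U_apply, U_apply, ← Equiv.sum_comp g (fun l => Uk l x (fun k => w (g⁻¹ k)))]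
  apply Finset.sum_congr rfl
  intro k _
  rw [Uk_apply, Uk_apply, hg]
  by_cases h3 : 1 ≤ w k
  · rw [if_pos h3, if_pos h3, h]
    congr 1
    funext l
    by_cases hl : l = g k
    · rw [hl, Function.update_self, hg, Function.update_self]
    · rw [Function.update_of_ne hl, Function.update_of_ne]
      intro h4
      apply hl
      rw [← h4, hg2]
  · rw [if_neg h3, if_neg h3]

end SL2Aux

open SL2Aux in
theorem t_SL2 : I_SL2 := by
  intro m n i hi
  refine ⟨(LinearMap.funLeft ℚ ℚ (emb : WS m (Fin n) (wp n (i + 1)) → Fin m → ℕ)) ∘ₗ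
    (SL2Aux.U m) ∘ₗ (ex m n i), ?_, ?_⟩
  · rw [← LinearMap.ker_eq_bot, LinearMap.ker_eq_bot']
    intro x hx
    have hs : ∀ w, ∑ k, w k ≠ i → ex m n i x w = 0 := by
      intro w hw
      apply ex_zero
      rintro ⟨ω, rfl⟩
      exact hw (sum_emb ω)
    have h1 : Eqv n (SL2Aux.U m (ex m n i x)) 0 := by
      intro w hw
      by_cases h : ∑ k, w k = i + 1
      · obtain ⟨ω, rfl⟩ := exists_emb w hw h
        exact congrFun hx ω
      · exact U_supp hs w h
    have h2 := main hi hs h1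
    funext ω
    have h3 := h2 (emb ω) (fun k => (ω.1 k).2)
    rw [ex_emb] at h3
    exact h3
  · intro g x
    funext ω'
    change SL2Aux.U m (ex m n i (fun ω => x (g • ω))) (emb ω') =
      SL2Aux.U m (ex m n i x) (emb (g • ω'))
    rw [emb_smul]
    exact U_perm g _ _ (fun w => ex_smul x g w) (emb ω')

end Pool.Agent.NEI
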