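import Pool.Agent.NEI.U

/-!
# Decomposition of a disjoint union of word sets
-/

set_option autoImplicit false

namespace Pool.Agent.NEI

open Finset

namespace SPLAux

theorem fx_union {m : ℕ} {X ι : Type} [DecidableEq X] [Finite X] [Fintype ι] (Q : ι → Prop)
    [DecidablePred Q] (p : ι → (X → ℕ) → Prop) (hp : ∀ i j α, p i α → p j α → i = j)
    (g : Equiv.Perm (Fin m)) :
    fx (WS m X (fun α => ∃ i, Q i ∧ p i α)) g = ∑ i ∈ univ.filter Q, fx (WS m X (p i)) g := by
  classical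
  let F : (Σ i : {i // Q i}, {a : WS m X (p i.1) // g • a = a}) →
      {a : WS m X (fun α => ∃ i, Q i ∧ p i α) // g • a = a} := fun b =>
    ⟨⟨b.2.1.1, ⟨b.1.1, b.1.2, b.2.1.2⟩⟩, Subtype.ext (congrArg (fun w => w.1) b.2.2)⟩
  have hF : Function.Bijective F := by
    constructor
    · rintro ⟨⟨i, hi⟩, ⟨⟨w, hw⟩, h⟩⟩ ⟨⟨i', hi'⟩, ⟨⟨w', hw'⟩, h'⟩⟩ hh
      have hww : w = w' := congrArg (fun a => a.1.1) hh
      subst hww
      have hii : i = i' := hp i i' _ hw hw'
      subst hii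
      rfl
    · rintro ⟨⟨w, ⟨i, hi, hw⟩⟩, h⟩
      exact ⟨⟨⟨i, hi⟩, ⟨⟨w, hw⟩, Subtype.ext (congrArg (fun w => w.1) h)⟩⟩, rfl⟩
  unfold fx
  rw [← Nat.card_congr (Equiv.ofBijective F hF), Nat.card_sigma, Nat.cast_sum,
    Finset.sum_subtype (univ.filter Q) (p := Q) (by simp)
      (fun i => (Nat.card {a : WS m X (p i) // g • a = a} : ℚ))]

end SPLAux

open SPLAux in
theorem t_SPL : I_SPL := by
  classical
  intro m r lam g
  have hp : ∀ (w w' : Equiv.Perm (Fin r)) (α : Fin r → ℕ), pw lam w α → pw lam w' α → w = w' := by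
    intro w w' α h h'
    ext a
    have h1 := h a
    have h2 := h' a
    omega
  rw [fx_union (fun w : Equiv.Perm (Fin r) => Equiv.Perm.sign w = 1) (fun w => pw lam w) hp g,
    fx_union (fun w : Equiv.Perm (Fin r) => Equiv.Perm.sign w = -1) (fun w => pw lam w) hp g,
    Finset.sum_filter, Finset.sum_filter, ← Finset.sum_sub_distrib]
  refine Finset.sum_congr rfl fun w _ => ?_
  rcases Int.units_eq_one_or (Equiv.Perm.sign w) with h | h
  · rw [h, if_pos rfl, if_neg (by decide)]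
    simp
  · rw [h, if_pos rfl, if_neg (by decide)]
    simp

end Pool.Agent.NEI
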