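import Pool.Agent.NEI.Stmts

/-!
# Triangularity is preserved by specialisation
-/

set_option autoImplicit false

namespace Pool.Agent.NEI

open MvPolynomial Finset Pool.Agent.NEK

theorem t_TRI : I_TRI := by
  intro n μ av a1 hav F F1 hF hspan
  classical
  have hF' : LamAtOne (plX av F) (plG a1 F1) := by
    refine A1.lam_aeval (A := fun i => C (av i) * X i)
      (B := fun i => C (a1 i) * X i) (fun i => ?_) hF
    exact A1.lam_mul (A1.lam_C (hav i)) (A1.lam_X i)
  set F' := plX av F with hF'def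
  have hspan2 : F' ∈ Submodule.span K
      {f | ∃ m, IsPart n m ∧ Dom m μ ∧ f = hbp (fun _ => (1 : K)) m} := by
    have hle : Submodule.span K {f | ∃ l, IsPart n l ∧ Dom l μ ∧ f = sch l} ≤
        Submodule.span K
      {f | ∃ m, IsPart n m ∧ Dom m μ ∧ f = hbp (fun _ => (1 : K)) m} := by
      rw [Submodule.span_le]
      rintro f ⟨l, hl, hd, rfl⟩
      have h1 := o_JTH K n l hl
      refine Submodule.span_mono ?_ h1
      rintro g ⟨m, hm, hdm, rfl⟩
      exact ⟨m, hm, fun k => (hd k).trans (hdm k), rfl⟩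
    exact hle hspan
  have hhom : IsWeightedHomogeneous wt F' n := by
    have hle : Submodule.span K
        {f | ∃ m, IsPart n m ∧ Dom m μ ∧ f = hbp (fun _ => (1 : K)) m} ≤
        weightedHomogeneousSubmodule K wt n := by
      rw [Submodule.span_le]
      rintro f ⟨m, hm, -, rfl⟩
      have h1 := (o_PHO K (fun _ => (1 : K))).2.2.1 m
      rw [hm.2.2] at h1
      exact (mem_weightedHomogeneousSubmodule K wt n _).2 h1
    exact (mem_weightedHomogeneousSubmodule K wt n _).1 (hle hspan2)
  obtain ⟨c, c1, hc, hFc, hF1c⟩ := o_NAK n (hbp (fun _ => (1 : K))) (hbp (fun _ => (1 : K1)))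
    (by
      intro l hl
      refine ⟨?_, ?_⟩
      · have h1 := (o_PHO K (fun _ => (1 : K))).2.2.1 l
        rw [(mem_PS.1 hl).2.2] at h1
        exact h1
      · refine A1.lam_listProd l fun a _ => ?_
        exact A1.lam_hN (fun k => A1.lam_mul (A1.lam_C A1.one) (A1.lam_X k)) a)
    (o_LIN K1 (fun _ => 1) (fun _ => one_ne_zero) n) F' _ hhom hF'
  have hex : ∃ a : List ℕ → K, (∀ l ∈ PS n, ¬ Dom l μ → a l = 0) ∧
      F' = ∑ l ∈ PS n, a l • hbp (fun _ => (1 : K)) l := by
    refine Submodule.span_induction (p := fun x _ => ∃ a : List ℕ → K,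
      (∀ l ∈ PS n, ¬ Dom l μ → a l = 0) ∧
      x = ∑ l ∈ PS n, a l • hbp (fun _ => (1 : K)) l) ?_ ?_ ?_ ?_ hspan2
    · rintro x ⟨m, hm, hd, rfl⟩
      refine ⟨fun l => if l = m then 1 else 0, ?_, ?_⟩
      · intro l _ hnd
        have hlm : l ≠ m := by
          rintro rfl
          exact hnd hd
        exact if_neg hlm
      · simp only [ite_smul, one_smul, zero_smul]
        rw [Finset.sum_ite_eq' (PS n) m, if_pos (mem_PS.2 hm)]
    · exact ⟨fun _ => 0, fun _ _ _ => rfl, by simp⟩
    · rintro x y - - ⟨a, ha, hx⟩ ⟨b, hb', hy⟩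
      refine ⟨fun l => a l + b l, fun l hl hnd => by
        change a l + b l = 0
        rw [ha l hl hnd, hb' l hl hnd, add_zero], ?_⟩
      rw [hx, hy, ← Finset.sum_add_distrib]
      exact Finset.sum_congr rfl fun l _ => (add_smul _ _ _).symm
    · rintro r x - ⟨a, ha, hx⟩
      refine ⟨fun l => r * a l, fun l hl hnd => by
        change r * a l = 0
        rw [ha l hl hnd, mul_zero], ?_⟩
      rw [hx, Finset.smul_sum]
      exact Finset.sum_congr rfl fun l _ => smul_smul _ _ _
  obtain ⟨a, ha, hFa⟩ := hex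
  have hca : ∀ l ∈ PS n, c l = a l := by
    have h1 : ∑ l ∈ PS n, (c l - a l) • hbp (fun _ => (1 : K)) l = 0 := by
      simp only [sub_smul]
      rw [Finset.sum_sub_distrib, ← hFc, ← hFa, sub_self]
    intro l hl
    exact sub_eq_zero.1
      (o_LIN K (fun _ => 1) (fun _ => one_ne_zero) n (fun l => c l - a l) h1 l hl)
  have hc1 : ∀ l ∈ PS n, ¬ Dom l μ → c1 l = 0 := by
    intro l hl hnd
    have h1 := hc l hl
    rw [hca l hl, ha l hl hnd] at h1
    exact A1.unique h1 A1.zero
  rw [hF1c]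
  refine Submodule.sum_mem _ fun l hl => ?_
  by_cases hd : Dom l μ
  · exact Submodule.smul_mem _ _ (Submodule.subset_span ⟨l, mem_PS.1 hl, hd, rfl⟩)
  · rw [hc1 l hl hd, zero_smul]
    exact Submodule.zero_mem _

end Pool.Agent.NEI
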