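import Pool.Agent.NEI.Stmts

set_option autoImplicit false

/-!
# `s_λ(1, X, …, X^{n-1})` is symmetric and unimodal
-/

namespace Pool.Agent.NEI

open Finset MvPolynomial Pool.Agent.NEK

namespace UNIAux

/-- positive part -/
abbrev AA (m r : ℕ) (lam : Fin r → ℕ) : Type :=
  WS m (Fin r) (fun α => ∃ w, Equiv.Perm.sign w = 1 ∧ pw lam w α)

/-- negative part -/
abbrev BB (m r : ℕ) (lam : Fin r → ℕ) : Type :=
  WS m (Fin r) (fun α => ∃ w, Equiv.Perm.sign w = -1 ∧ pw lam w α)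

lemma key (orb : I_ORB) (spl : I_SPL) (m r : ℕ) (lam : Fin r → ℕ) (Y : Type) [Fintype Y]
    [DecidableEq Y] (p' : (Y → ℕ) → Prop) :
    ∑ g : Equiv.Perm (Fin m), (fx (AA m r lam) g - fx (BB m r lam) g) * fx (WS m Y p') g⁻¹ =
      (m.factorial : ℚ) * ∑ w : Equiv.Perm (Fin r), (((Equiv.Perm.sign w : ℤˣ) : ℤ) : ℚ) *
        (NC m (Fin r) Y (pw lam w) p' : ℚ) := by
  have h1 : ∀ g : Equiv.Perm (Fin m),
      (fx (AA m r lam) g - fx (BB m r lam) g) * fx (WS m Y p') g⁻¹ =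
      ∑ w : Equiv.Perm (Fin r), (((Equiv.Perm.sign w : ℤˣ) : ℤ) : ℚ) *
        (fx (WS m (Fin r) (pw lam w)) g * fx (WS m Y p') g⁻¹) := by
    intro g
    rw [spl m r lam g, sum_mul]
    apply sum_congr rfl
    intro w _
    ring
  rw [sum_congr rfl fun g _ => h1 g, sum_comm, mul_sum]
  apply sum_congr rfl
  intro w _
  rw [← mul_sum, orb m (Fin r) Y (pw lam w) p']
  ring

lemma norm_one (orb : I_ORB) (spl : I_SPL) (kos : I_KOS) (m r : ℕ) (lam : Fin r → ℕ)
    (ha : Antitone lam) (hs : ∑ a, lam a = m) :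
    ∑ g : Equiv.Perm (Fin m), (fx (AA m r lam) g - fx (BB m r lam) g) *
      (fx (AA m r lam) g⁻¹ - fx (BB m r lam) g⁻¹) =
      (Fintype.card (Equiv.Perm (Fin m)) : ℚ) := by
  have h1 : ∀ g : Equiv.Perm (Fin m),
      (fx (AA m r lam) g - fx (BB m r lam) g) *
        (fx (AA m r lam) g⁻¹ - fx (BB m r lam) g⁻¹) =
      ∑ w' : Equiv.Perm (Fin r), (((Equiv.Perm.sign w' : ℤˣ) : ℤ) : ℚ) *
        ((fx (AA m r lam) g - fx (BB m r lam) g) * fx (WS m (Fin r) (pw lam w')) g⁻¹) := by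
    intro g
    rw [spl m r lam g⁻¹, mul_sum]
    apply sum_congr rfl
    intro w _
    ring
  rw [sum_congr rfl fun g _ => h1 g, sum_comm]
  have h2 : ∀ w' : Equiv.Perm (Fin r), ∑ g : Equiv.Perm (Fin m),
      (((Equiv.Perm.sign w' : ℤˣ) : ℤ) : ℚ) *
        ((fx (AA m r lam) g - fx (BB m r lam) g) * fx (WS m (Fin r) (pw lam w')) g⁻¹) =
      (m.factorial : ℚ) * ∑ w : Equiv.Perm (Fin r), (((Equiv.Perm.sign w : ℤˣ) : ℤ) : ℚ) *
        (((Equiv.Perm.sign w' : ℤˣ) : ℤ) : ℚ) *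
          (NC m (Fin r) (Fin r) (pw lam w) (pw lam w') : ℚ) := by
    intro w'
    rw [← mul_sum, key orb spl m r lam (Fin r) (pw lam w'), mul_left_comm, mul_sum]
    congr 1
    apply sum_congr rfl
    intro w _
    ring
  rw [sum_congr rfl fun w' _ => h2 w', ← mul_sum, sum_comm]
  have h3 := (kos r m lam ha hs).1
  have h4 := congrArg (fun z : ℤ => (z : ℚ)) h3
  push_cast at h4
  rw [Fintype.card_perm, Fintype.card_fin]
  have h5 : ∑ w : Equiv.Perm (Fin r), ∑ w' : Equiv.Perm (Fin r),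
      (((Equiv.Perm.sign w : ℤˣ) : ℤ) : ℚ) * (((Equiv.Perm.sign w' : ℤˣ) : ℤ) : ℚ) *
          (NC m (Fin r) (Fin r) (pw lam w) (pw lam w') : ℚ) = 1 := h4
  rw [h5, mul_one]

lemma pos (orb : I_ORB) (spl : I_SPL) (kos : I_KOS) (m r : ℕ) (lam : Fin r → ℕ)
    (ha : Antitone lam) (hs : ∑ a, lam a = m) :
    0 < ∑ g : Equiv.Perm (Fin m), (fx (AA m r lam) g - fx (BB m r lam) g) *
      fx (WS m (Fin r) (fun β => β = lam)) g⁻¹ := by
  rw [key orb spl m r lam (Fin r) (fun β => β = lam)]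
  have h3 := (kos r m lam ha hs).2
  have h4 := congrArg (fun z : ℤ => (z : ℚ)) h3
  push_cast at h4
  have h5 : ∑ w : Equiv.Perm (Fin r),
      (((Equiv.Perm.sign w : ℤˣ) : ℤ) : ℚ) *
          (NC m (Fin r) (Fin r) (pw lam w) (fun β => β = lam) : ℚ) = 1 := h4
  rw [h5, mul_one]
  exact_mod_cast Nat.factorial_pos m

/-- total weight -/
lemma weight_le {n : ℕ} (hn : 1 ≤ n) (c : Fin n → ℕ) :
    ∑ b : Fin n, (b : ℕ) * c b ≤ (n - 1) * ∑ b : Fin n, c b := by
  rw [mul_sum]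
  apply sum_le_sum
  intro b _
  apply Nat.mul_le_mul_right
  have := b.2
  omega

lemma total {r n : ℕ} (N : Fin r → Fin n → ℕ) :
    ∑ b : Fin n, ∑ x : Fin r, N x b = ∑ x : Fin r, ∑ b : Fin n, N x b := sum_comm

lemma van {r n m i : ℕ} (hn : 1 ≤ n) (p : (Fin r → ℕ) → Prop) (hi : m * (n - 1) < i) :
    NC m (Fin r) (Fin n) p (wp n i) = 0 := by
  unfold NC
  have : IsEmpty {N : Fin r → Fin n → ℕ // (∑ x, ∑ y, N x y = m) ∧ p (fun x => ∑ y, N x y) ∧
      wp n i (fun y => ∑ x, N x y)} := by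
    constructor
    rintro ⟨N, h1, -, h3⟩
    unfold wp at h3
    have h4 := weight_le hn (fun y => ∑ x, N x y)
    rw [total, h1, h3, mul_comm] at h4
    omega
  exact Nat.card_of_isEmpty

lemma rev_weight {n : ℕ} (c : Fin n → ℕ) :
    ∑ b : Fin n, (b : ℕ) * c b.rev + ∑ b : Fin n, (b : ℕ) * c b = (n - 1) * ∑ b : Fin n, c b := by
  have h1 : ∑ b : Fin n, (b : ℕ) * c b.rev = ∑ b : Fin n, ((b.rev : Fin n) : ℕ) * c b := by
    rw [← Equiv.sum_comp Fin.revPerm (fun b : Fin n => ((b.rev : Fin n) : ℕ) * c b)]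
    apply sum_congr rfl
    intro b _
    simp [Fin.revPerm_apply, Fin.rev_rev]
  rw [h1, ← sum_add_distrib, mul_sum]
  apply sum_congr rfl
  intro b _
  rw [← add_mul]
  congr 1
  rw [Fin.val_rev]
  have := b.2
  omega

lemma sym_imp {r n m i : ℕ} (p : (Fin r → ℕ) → Prop) (hi : i ≤ m * (n - 1))
    (N : Fin r → Fin n → ℕ) (h : (∑ x, ∑ y, N x y = m) ∧ p (fun x => ∑ y, N x y) ∧
      wp n i (fun y => ∑ x, N x y)) :
    (∑ x, ∑ y : Fin n, N x y.rev = m) ∧ p (fun x => ∑ y : Fin n, N x y.rev) ∧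
      wp n (m * (n - 1) - i) (fun y => ∑ x, N x y.rev) := by
  have hr : ∀ x, ∑ y : Fin n, N x y.rev = ∑ y : Fin n, N x y := by
    intro x
    exact Equiv.sum_comp Fin.revPerm (fun y : Fin n => N x y)
  refine ⟨?_, ?_, ?_⟩
  · rw [← h.1]
    exact sum_congr rfl fun x _ => hr x
  · have : (fun x => ∑ y : Fin n, N x y.rev) = fun x => ∑ y : Fin n, N x y := funext hr
    rw [this]
    exact h.2.1
  · have h3 : ∑ b : Fin n, (b : ℕ) * ∑ x, N x b = i := h.2.2
    have h4 : ∑ b : Fin n, (b : ℕ) * (∑ x, N x b.rev) + ∑ b : Fin n, (b : ℕ) * ∑ x, N x b =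
      (n - 1) * ∑ b : Fin n, ∑ x, N x b := rev_weight (fun y : Fin n => ∑ x, N x y)
    rw [total, h.1, h3, mul_comm (n - 1) m] at h4
    change ∑ b : Fin n, (b : ℕ) * (∑ x, N x b.rev) = m * (n - 1) - i
    omega

lemma sym {r n m i : ℕ} (p : (Fin r → ℕ) → Prop) (hi : i ≤ m * (n - 1)) :
    NC m (Fin r) (Fin n) p (wp n i) = NC m (Fin r) (Fin n) p (wp n (m * (n - 1) - i)) := by
  unfold NC
  apply Nat.card_congr
  refine
    { toFun := fun N => ⟨fun x y => N.1 x y.rev, sym_imp p hi N.1 N.2⟩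
      invFun := fun N => ⟨fun x y => N.1 x y.rev, ?_⟩
      left_inv := ?_
      right_inv := ?_ }
  · have h := sym_imp p (Nat.sub_le _ _) N.1 N.2
    rw [Nat.sub_sub_self hi] at h
    exact h
  · intro N
    apply Subtype.ext
    funext x y
    simp
  · intro N
    apply Subtype.ext
    funext x y
    simp

end UNIAux

open UNIAux in
/-- unimodality -/
theorem t_UNI : I_CFM → I_VIR → I_ORB → I_SPL → I_KOS → I_SL2 → I_UNI := by
  intro cfm vir orb spl kos sl2 n m lam hn hlam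
  have hanti : Antitone lam.get := by
    intro a b hab
    rcases eq_or_lt_of_le hab with h | h
    · rw [h]
    · exact List.pairwise_iff_get.1 hlam.1 a b h
  have hsum : ∑ a, lam.get a = m := by
    rw [← List.sum_ofFn, List.ofFn_get]
    exact hlam.2.2
  refine ⟨?_, ?_, ?_⟩
  · intro i hi
    rw [cfm n m lam hlam i]
    apply sum_eq_zero
    intro w _
    rw [van hn _ hi, Nat.cast_zero, mul_zero]
  · intro i hi
    rw [cfm n m lam hlam i, cfm n m lam hlam (m * (n - 1) - i)]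
    apply sum_congr rfl
    intro w _
    rw [sym _ hi]
  · intro i hi
    obtain ⟨f, hf, hg⟩ := sl2 m n i hi
    have h := vir (Equiv.Perm (Fin m)) (AA m lam.length lam.get) (BB m lam.length lam.get)
      (WS m (Fin lam.length) (fun β => β = lam.get)) (WS m (Fin n) (wp n i))
      (WS m (Fin n) (wp n (i + 1)))
      (norm_one orb spl kos m lam.length lam.get hanti hsum)
      (pos orb spl kos m lam.length lam.get hanti hsum) f hf hg
    rw [key orb spl, key orb spl] at h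
    rw [← cfm n m lam hlam i, ← cfm n m lam hlam (i + 1)] at h
    have hm : (0 : ℚ) < (m.factorial : ℚ) := by exact_mod_cast Nat.factorial_pos m
    exact le_of_mul_le_mul_left h hm

end Pool.Agent.NEI
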