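import Pool.Agent.NEI.Stmts

/-!
# A triangular system has only one solution
-/

set_option autoImplicit false

namespace Pool.Agent.NEI

open Finset MvPolynomial Pool.Agent.NEK

theorem t_UNQ : I_UNQ := by
  intro n G G' h k
  induction k using Nat.strong_induction_on with
  | _ k ih =>
    intro hk
    have h1 : ∑ i ∈ Icc 1 n, (po ((qq ^ k)⁻¹) i / po qq i) • (G i - G' i) = 0 := by
      rw [← sub_eq_zero.2 (h k hk), ← Finset.sum_sub_distrib]
      exact Finset.sum_congr rfl fun i _ => smul_sub _ _ _
    rw [Finset.sum_eq_single_of_mem k hk] at h1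
    · have hc : po ((qq ^ k)⁻¹) k / po qq k ≠ 0 :=
        div_ne_zero (po_inv_ne le_rfl) (po_qq_ne k)
      rcases smul_eq_zero.1 h1 with h2 | h2
      · exact absurd h2 hc
      · exact sub_eq_zero.1 h2
    · intro i hi hik
      rcases lt_or_gt_of_ne hik with h2 | h2
      · rw [ih i h2 hi, sub_self, smul_zero]
      · rw [po_inv_zero h2, zero_div, zero_smul]

end Pool.Agent.NEI
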