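import Pool.Agent.NEI.U

/-!
# Module VIR: monotonicity of a virtual permutation character
-/

set_option autoImplicit false

open Finset

namespace Pool.Agent.NEI

namespace VIRAux

/-- functions on a finite set as elements of the permutation module -/
noncomputable def eL (Ω : Type) [Finite Ω] : MonoidAlgebra ℚ Ω ≃ₗ[ℚ] (Ω → ℚ) :=
  (MonoidAlgebra.coeffLinearEquiv ℚ).trans (Finsupp.linearEquivFunOnFinite ℚ ℚ Ω)

theorem eL_apply (Ω : Type) [Finite Ω] (x : MonoidAlgebra ℚ Ω) (ω : Ω) : eL Ω x ω = x.coeff ω := rfl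

/-- the linear map on permutation modules given by a map on functions -/
noncomputable def Lf {Ω Ω' : Type} [Finite Ω] [Finite Ω'] (f : (Ω → ℚ) →ₗ[ℚ] (Ω' → ℚ)) :
    MonoidAlgebra ℚ Ω →ₗ[ℚ] MonoidAlgebra ℚ Ω' :=
  (eL Ω').symm.toLinearMap ∘ₗ f ∘ₗ (eL Ω).toLinearMap

theorem Lf_apply {Ω Ω' : Type} [Finite Ω] [Finite Ω'] (f : (Ω → ℚ) →ₗ[ℚ] (Ω' → ℚ))
    (x : MonoidAlgebra ℚ Ω) : Lf f x = (eL Ω').symm (f (eL Ω x)) := rfl

theorem Lf_inj {Ω Ω' : Type} [Finite Ω] [Finite Ω'] (f : (Ω → ℚ) →ₗ[ℚ] (Ω' → ℚ))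
    (hf : Function.Injective f) : Function.Injective (Lf f) := by
  intro x y h
  rw [Lf_apply, Lf_apply] at h
  exact (eL Ω).injective (hf ((eL Ω').symm.injective h))

theorem Lf_comm {G Ω Ω' : Type} [Group G] [Finite Ω] [Finite Ω'] [MulAction G Ω] [MulAction G Ω']
    (f : (Ω → ℚ) →ₗ[ℚ] (Ω' → ℚ))
    (hf : ∀ (g : G) (x : Ω → ℚ), f (fun ω => x (g • ω)) = fun ω' => f x (g • ω'))
    (g : G) (x : MonoidAlgebra ℚ Ω) :
    Lf f (Representation.ofMulAction ℚ G Ω g x) =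
      Representation.ofMulAction ℚ G Ω' g (Lf f x) := by
  apply (eL Ω').injective
  rw [Lf_apply, LinearEquiv.apply_symm_apply]
  have h1 : eL Ω (Representation.ofMulAction ℚ G Ω g x) = fun ω => (eL Ω x) (g⁻¹ • ω) := by
    funext ω
    rw [eL_apply, eL_apply, Representation.coeff_ofMulAction]
  have h2 : eL Ω' (Representation.ofMulAction ℚ G Ω' g (Lf f x)) =
      fun ω => (eL Ω' (Lf f x)) (g⁻¹ • ω) := by
    funext ω
    rw [eL_apply, eL_apply, Representation.coeff_ofMulAction]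
  rw [h1, h2, hf, Lf_apply, LinearEquiv.apply_symm_apply]

/-- the same map as a map of modules over the group algebra -/
noncomputable def LR {G Ω Ω' : Type} [Group G] [Finite Ω] [Finite Ω'] [MulAction G Ω]
    [MulAction G Ω'] (f : (Ω → ℚ) →ₗ[ℚ] (Ω' → ℚ))
    (hf : ∀ (g : G) (x : Ω → ℚ), f (fun ω => x (g • ω)) = fun ω' => f x (g • ω')) :
    PM G Ω →ₗ[MonoidAlgebra ℚ G] PM G Ω' :=
  MonoidAlgebra.equivariantOfLinearOfComm
    ((Representation.ofMulAction ℚ G Ω').asModuleEquiv.symm.toLinearMap ∘ₗ Lf f ∘ₗ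
      (Representation.ofMulAction ℚ G Ω).asModuleEquiv.toLinearMap) (by
    intro g v
    rw [Representation.single_smul, Representation.single_smul, one_smul, one_smul]
    exact Lf_comm f hf g _)

theorem LR_inj {G Ω Ω' : Type} [Group G] [Finite Ω] [Finite Ω'] [MulAction G Ω]
    [MulAction G Ω'] (f : (Ω → ℚ) →ₗ[ℚ] (Ω' → ℚ))
    (hf : ∀ (g : G) (x : Ω → ℚ), f (fun ω => x (g • ω)) = fun ω' => f x (g • ω'))
    (hi : Function.Injective f) : Function.Injective (LR f hf) := by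
  intro x y h
  exact Lf_inj f hi h

instance finPM (G A : Type) [Group G] [MulAction G A] [Finite A] : FiniteDimensional ℚ (PM G A) :=
  Module.Finite.equiv ((Representation.ofMulAction ℚ G A).asModuleEquiv.trans (eL A)).symm

/-- the dimension of the space of homomorphisms of permutation modules -/
noncomputable def hh (G A Ω : Type) [Group G] [MulAction G A] [MulAction G Ω] : ℤ :=
  (Module.finrank ℚ (PM G A →ₗ[MonoidAlgebra ℚ G] PM G Ω) : ℤ)

end VIRAux

open VIRAux in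
theorem t_VIR : I_PHM → I_VIS → I_VIR := by
  intro hPHM hVIS G A B C Ω Ω' _ _ _ _ _ _ _ _ _ _ _ _ h1 h2 f hi hf
  have hG : (0 : ℚ) < (Fintype.card G : ℚ) := by
    exact_mod_cast Fintype.card_pos
  have : NeZero (Nat.card G : ℚ) := ⟨by
    rw [Nat.card_eq_fintype_card]
    exact hG.ne'⟩
  have : IsSemisimpleRing (MonoidAlgebra ℚ G) := inferInstance
  have e : ∀ (X Y : Type) [Finite X] [Finite Y] [MulAction G X] [MulAction G Y],
      ∑ g : G, fx X g * fx Y g⁻¹ = (Fintype.card G : ℚ) * (hh G X Y : ℚ) := by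
    intro X Y _ _ _ _
    rw [hPHM G X Y]
    simp [hh]
  have eN : (hh G A A) - (hh G A B) - (hh G B A) + (hh G B B) = 1 := by
    have h3 : ∑ g : G, (fx A g - fx B g) * (fx A g⁻¹ - fx B g⁻¹) =
        (Fintype.card G : ℚ) * ((hh G A A : ℚ) - (hh G A B : ℚ) - (hh G B A : ℚ)
          + (hh G B B : ℚ)) := by
      have h4 : ∑ g : G, (fx A g - fx B g) * (fx A g⁻¹ - fx B g⁻¹) =
          ∑ g : G, fx A g * fx A g⁻¹ - ∑ g : G, fx A g * fx B g⁻¹
            - ∑ g : G, fx B g * fx A g⁻¹ + ∑ g : G, fx B g * fx B g⁻¹ := by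
        rw [← Finset.sum_sub_distrib, ← Finset.sum_sub_distrib, ← Finset.sum_add_distrib]
        exact Finset.sum_congr rfl fun g _ => by ring
      rw [h4, e, e, e, e]
      ring
    rw [h3] at h1
    have h5 : (hh G A A : ℚ) - (hh G A B : ℚ) - (hh G B A : ℚ) + (hh G B B : ℚ) = 1 :=
      mul_left_cancel₀ hG.ne' (by rw [h1, mul_one])
    exact_mod_cast h5
  have eM : ∀ (X : Type) [Finite X] [MulAction G X],
      ∑ g : G, (fx A g - fx B g) * fx X g⁻¹ =
        (Fintype.card G : ℚ) * (((hh G A X - hh G B X : ℤ)) : ℚ) := by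
    intro X _ _
    have h4 : ∑ g : G, (fx A g - fx B g) * fx X g⁻¹ =
        ∑ g : G, fx A g * fx X g⁻¹ - ∑ g : G, fx B g * fx X g⁻¹ := by
      rw [← Finset.sum_sub_distrib]
      exact Finset.sum_congr rfl fun g _ => by ring
    rw [h4, e, e]
    push_cast
    ring
  have eC : 0 < hh G A C - hh G B C := by
    rw [eM C] at h2
    have h5 := (mul_pos_iff_of_pos_left hG).mp h2
    exact_mod_cast h5
  have key : hh G A Ω - hh G B Ω ≤ hh G A Ω' - hh G B Ω' :=
    hVIS (MonoidAlgebra ℚ G) (PM G A) (PM G B) (PM G C) (PM G Ω) (PM G Ω') eN eC (LR f hf)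
      (LR_inj f hf hi)
  rw [eM Ω, eM Ω']
  apply mul_le_mul_of_nonneg_left _ hG.le
  exact_mod_cast key

end Pool.Agent.NEI
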