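import Pool.Agent.NEI.U

/-!
# A virtual module of norm `1` over a semisimple ring (module VIS)
-/

set_option autoImplicit false

namespace Pool.Agent.NEI

open Finset

namespace VISAux

variable {R : Type} [Ring R] [Algebra ℚ R]

section
variable {M N P : Type}
  [AddCommGroup M] [Module R M] [Module ℚ M] [IsScalarTower ℚ R M]
  [AddCommGroup N] [Module R N] [Module ℚ N] [IsScalarTower ℚ R N]
  [AddCommGroup P] [Module R P] [Module ℚ P] [IsScalarTower ℚ R P]

theorem fin_hom [FiniteDimensional ℚ M] [FiniteDimensional ℚ N] :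
    Module.Finite ℚ (M →ₗ[R] N) :=
  Module.Finite.of_injective (LinearMap.restrictScalarsₗ ℚ R M N ℚ)
    (LinearMap.restrictScalars_injective ℚ)

theorem fin_sub [FiniteDimensional ℚ M] (p : Submodule R M) : Module.Finite ℚ p :=
  Module.Finite.of_injective (p.subtype.restrictScalars ℚ) p.subtype_injective

theorem fr_left (e : M ≃ₗ[R] P) :
    Module.finrank ℚ (M →ₗ[R] N) = Module.finrank ℚ (P →ₗ[R] N) :=
  (LinearEquiv.congrLeft N ℚ e).finrank_eq

/-- post-composition -/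
def post (f : N →ₗ[R] P) : (M →ₗ[R] N) →ₗ[ℚ] (M →ₗ[R] P) where
  toFun φ := f.comp φ
  map_add' φ ψ := by ext x; simp
  map_smul' q φ := by
    ext x
    simp only [LinearMap.comp_apply, LinearMap.smul_apply, RingHom.id_apply]
    exact f.map_smul_of_tower q (φ x)

theorem post_apply (f : N →ₗ[R] P) (φ : M →ₗ[R] N) (x : M) : post f φ x = f (φ x) := rfl

theorem post_inj (f : N →ₗ[R] P) (hf : Function.Injective f) :
    Function.Injective (post (M := M) f) := by
  intro φ ψ h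
  ext x
  apply hf
  have := LinearMap.congr_fun h x
  exact this

theorem fr_right (e : N ≃ₗ[R] P) :
    Module.finrank ℚ (M →ₗ[R] N) = Module.finrank ℚ (M →ₗ[R] P) := by
  let E : (M →ₗ[R] N) ≃ₗ[ℚ] (M →ₗ[R] P) :=
    LinearEquiv.ofLinearMap (post e.toLinearMap) (post e.symm.toLinearMap)
      (by ext φ x; simp [post]) (by ext φ x; simp [post])
  exact E.finrank_eq

theorem fr_subL [FiniteDimensional ℚ M] [FiniteDimensional ℚ N] (p q : Submodule R M)
    (h : IsCompl p q) :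
    Module.finrank ℚ (M →ₗ[R] N) = Module.finrank ℚ (p →ₗ[R] N) + Module.finrank ℚ (q →ₗ[R] N) := by
  have := fin_sub p
  have := fin_sub q
  have := fin_hom (R := R) (M := p) (N := N)
  have := fin_hom (R := R) (M := q) (N := N)
  rw [← fr_left (p.prodEquivOfIsCompl q h), ← (LinearMap.coprodEquiv ℚ).finrank_eq,
    Module.finrank_prod]

theorem fr_subR [FiniteDimensional ℚ M] [FiniteDimensional ℚ N] (p q : Submodule R N)
    (h : IsCompl p q) :
    Module.finrank ℚ (M →ₗ[R] N) = Module.finrank ℚ (M →ₗ[R] p) + Module.finrank ℚ (M →ₗ[R] q) := by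
  have := fin_sub p
  have := fin_sub q
  have := fin_hom (R := R) (M := M) (N := p)
  have := fin_hom (R := R) (M := M) (N := q)
  rw [← fr_right (p.prodEquivOfIsCompl q h), ← (LinearMap.prodEquiv ℚ).finrank_eq,
    Module.finrank_prod]

theorem hom_symm [IsSemisimpleRing R] (h : ∀ φ : M →ₗ[R] N, φ = 0) (ψ : N →ₗ[R] M) : ψ = 0 := by
  obtain ⟨s, hs⟩ := IsSemisimpleModule.lifting_property ψ.rangeRestrict
    ψ.surjective_rangeRestrict (LinearMap.id : LinearMap.range ψ →ₗ[R] LinearMap.range ψ)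
  obtain ⟨φ, hφ⟩ := IsSemisimpleModule.extension_property (LinearMap.range ψ).subtype
    (LinearMap.range ψ).subtype_injective s
  have h1 : s = 0 := by
    rw [← hφ, h φ]
    ext x
    simp
  rw [h1] at hs
  ext x
  have h2 := LinearMap.congr_fun hs ⟨ψ x, LinearMap.mem_range_self ψ x⟩
  simp at h2
  simpa using h2.symm

end

section
variable (A B : Type)
  [AddCommGroup A] [Module R A] [Module ℚ A] [IsScalarTower ℚ R A] [FiniteDimensional ℚ A]
  [AddCommGroup B] [Module R B] [Module ℚ B] [IsScalarTower ℚ R B] [FiniteDimensional ℚ B]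

/-- the rank of a map -/
noncomputable def rk (g : A →ₗ[R] B) : ℕ :=
  Module.finrank ℚ ((LinearMap.range g).restrictScalars ℚ)

theorem exists_max : ∃ g : A →ₗ[R] B, ∀ g' : A →ₗ[R] B, rk A B g' ≤ rk A B g := by
  have hb : BddAbove (Set.range (rk (R := R) A B)) := by
    refine ⟨Module.finrank ℚ B, ?_⟩
    rintro _ ⟨g, rfl⟩
    exact Submodule.finrank_le _
  obtain ⟨g, hg⟩ := Nat.sSup_mem (Set.range_nonempty (rk (R := R) A B)) hb
  refine ⟨g, fun g' => ?_⟩
  rw [hg]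
  exact le_csSup hb ⟨g', rfl⟩

theorem decomp [IsSemisimpleRing R] : ∃ (A1 A2 : Submodule R A) (B1 B2 : Submodule R B),
    IsCompl A1 A2 ∧ IsCompl B1 B2 ∧ Nonempty (A2 ≃ₗ[R] B2) ∧ ∀ φ : A1 →ₗ[R] B1, φ = 0 := by
  obtain ⟨g, hg⟩ := exists_max (R := R) A B
  obtain ⟨A2, hA⟩ := exists_isCompl (LinearMap.ker g)
  obtain ⟨B1, hB⟩ := exists_isCompl (LinearMap.range g)
  refine ⟨LinearMap.ker g, A2, B1, LinearMap.range g, hA, hB.symm,
    ⟨((LinearMap.ker g).quotientEquivOfIsCompl A2 hA).symm ≪≫ₗ g.quotKerEquivRange⟩, ?_⟩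
  intro φ
  by_contra hφ
  obtain ⟨x, hx⟩ : ∃ x, φ x ≠ 0 := by
    by_contra hn
    push Not at hn
    exact hφ (LinearMap.ext hn)
  set g' : A →ₗ[R] B := g + B1.subtype ∘ₗ φ ∘ₗ (LinearMap.ker g).projectionOnto A2 hA with hg'
  have h1 : LinearMap.range g ≤ LinearMap.range g' := by
    rintro _ ⟨a, rfl⟩
    obtain ⟨a1, ha1, a2, ha2, rfl⟩ := Submodule.mem_sup.1
      (show a ∈ LinearMap.ker g ⊔ A2 by rw [hA.sup_eq_top]; exact Submodule.mem_top)
    refine ⟨a2, ?_⟩
    have h2 : (LinearMap.ker g).projectionOnto A2 hA a2 = 0 :=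
      (Submodule.projectionOnto_apply_eq_zero_iff hA).2 ha2
    rw [hg', LinearMap.add_apply, LinearMap.comp_apply, LinearMap.comp_apply, h2, map_zero,
      map_zero, add_zero, map_add, LinearMap.mem_ker.1 ha1, zero_add]
  have h3 : ((φ x : B1) : B) ∈ LinearMap.range g' := by
    refine ⟨(x : A), ?_⟩
    rw [hg', LinearMap.add_apply, LinearMap.comp_apply, LinearMap.comp_apply,
      Submodule.projectionOnto_apply_left, LinearMap.mem_ker.1 x.2, zero_add]
    rfl
  have h4 : ((φ x : B1) : B) ∉ LinearMap.range g := by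
    intro h5
    have h6 := (Submodule.disjoint_def.1 hB.disjoint) _ h5 (φ x).2
    exact hx (by exact_mod_cast h6)
  have h7 : (LinearMap.range g).restrictScalars ℚ < (LinearMap.range g').restrictScalars ℚ := by
    refine lt_of_le_of_ne h1 fun h8 => h4 ?_
    have h9 : ((φ x : B1) : B) ∈ (LinearMap.range g').restrictScalars ℚ := h3
    rw [← h8] at h9
    exact h9
  have h10 := Submodule.finrank_lt_finrank_of_lt h7
  have h11 := hg g'
  unfold rk at h11
  omega

end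

theorem main (R A B C Ω Ω' : Type) [Ring R] [Algebra ℚ R] [IsSemisimpleRing R]
  [AddCommGroup A] [Module R A] [Module ℚ A] [IsScalarTower ℚ R A] [FiniteDimensional ℚ A]
  [AddCommGroup B] [Module R B] [Module ℚ B] [IsScalarTower ℚ R B] [FiniteDimensional ℚ B]
  [AddCommGroup C] [Module R C] [Module ℚ C] [IsScalarTower ℚ R C] [FiniteDimensional ℚ C]
  [AddCommGroup Ω] [Module R Ω] [Module ℚ Ω] [IsScalarTower ℚ R Ω] [FiniteDimensional ℚ Ω]
  [AddCommGroup Ω'] [Module R Ω'] [Module ℚ Ω'] [IsScalarTower ℚ R Ω'] [FiniteDimensional ℚ Ω']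
  (h1 : (Module.finrank ℚ (A →ₗ[R] A) : ℤ) - (Module.finrank ℚ (A →ₗ[R] B) : ℤ)
    - (Module.finrank ℚ (B →ₗ[R] A) : ℤ) + (Module.finrank ℚ (B →ₗ[R] B) : ℤ) = 1)
  (h2 : 0 < (Module.finrank ℚ (A →ₗ[R] C) : ℤ) - (Module.finrank ℚ (B →ₗ[R] C) : ℤ))
  (f : Ω →ₗ[R] Ω') (hf : Function.Injective f) :
    (Module.finrank ℚ (A →ₗ[R] Ω) : ℤ) - (Module.finrank ℚ (B →ₗ[R] Ω) : ℤ) ≤
      (Module.finrank ℚ (A →ₗ[R] Ω') : ℤ) - (Module.finrank ℚ (B →ₗ[R] Ω') : ℤ) := by
  obtain ⟨A1, A2, B1, B2, hA, hB, ⟨e⟩, h0⟩ := decomp (R := R) A B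
  have hfA1 : FiniteDimensional ℚ A1 := fin_sub A1
  have hfA2 : FiniteDimensional ℚ A2 := fin_sub A2
  have hfB1 : FiniteDimensional ℚ B1 := fin_sub B1
  have hfB2 : FiniteDimensional ℚ B2 := fin_sub B2
  -- zero homs
  have z1 : Module.finrank ℚ (A1 →ₗ[R] B1) = 0 := by
    have : Subsingleton (A1 →ₗ[R] B1) := ⟨fun φ ψ => by rw [h0 φ, h0 ψ]⟩
    exact Module.finrank_zero_of_subsingleton
  have z2 : Module.finrank ℚ (B1 →ₗ[R] A1) = 0 := by
    have : Subsingleton (B1 →ₗ[R] A1) :=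
      ⟨fun φ ψ => by rw [hom_symm h0 φ, hom_symm h0 ψ]⟩
    exact Module.finrank_zero_of_subsingleton
  -- decompositions
  have a1 := fr_subL (N := A) A1 A2 hA
  have a2 := fr_subL (N := B) A1 A2 hA
  have b1 := fr_subL (N := A) B1 B2 hB
  have b2 := fr_subL (N := B) B1 B2 hB
  have c1 := fr_left (N := A) e
  have c2 := fr_left (N := B) e
  have d1 := fr_subR (M := A1) A1 A2 hA
  have d2 := fr_subR (M := A1) B1 B2 hB
  have d3 := fr_subR (M := B1) A1 A2 hA
  have d4 := fr_subR (M := B1) B1 B2 hB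
  have e1 := fr_right (M := A1) e
  have e2 := fr_right (M := B1) e
  have k1 : Module.finrank ℚ (A1 →ₗ[R] A1) + Module.finrank ℚ (B1 →ₗ[R] B1) = 1 := by omega
  have p1 := fr_subL (N := C) A1 A2 hA
  have p2 := fr_subL (N := C) B1 B2 hB
  have p3 := fr_left (N := C) e
  have q1 := fr_subL (N := Ω) A1 A2 hA
  have q2 := fr_subL (N := Ω) B1 B2 hB
  have q3 := fr_left (N := Ω) e
  have r1 := fr_subL (N := Ω') A1 A2 hA
  have r2 := fr_subL (N := Ω') B1 B2 hB
  have r3 := fr_left (N := Ω') e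
  have sub : ∀ (X Y : Type) [AddCommGroup X] [Module R X] [Module ℚ X] [IsScalarTower ℚ R X]
      [FiniteDimensional ℚ X] [AddCommGroup Y] [Module R Y] [Module ℚ Y] [IsScalarTower ℚ R Y],
      Module.finrank ℚ (X →ₗ[R] X) = 0 → Module.finrank ℚ (X →ₗ[R] Y) = 0 := by
    intro X Y _ _ _ _ _ _ _ _ _ hX
    have hfin : Module.Finite ℚ (X →ₗ[R] X) := fin_hom
    have hs : Subsingleton (X →ₗ[R] X) := Module.finrank_zero_iff.1 hX
    have hid : ∀ x : X, x = 0 := by
      intro x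
      have := LinearMap.congr_fun (hs.elim (LinearMap.id : X →ₗ[R] X) 0) x
      simpa using this
    have : Subsingleton (X →ₗ[R] Y) := ⟨fun φ ψ => by
      ext x
      rw [hid x, map_zero, map_zero]⟩
    exact Module.finrank_zero_of_subsingleton
  have hAA : Module.finrank ℚ (A1 →ₗ[R] A1) ≠ 0 := by
    intro hz
    have := sub A1 C hz
    omega
  have hBB : Module.finrank ℚ (B1 →ₗ[R] B1) = 0 := by omega
  have u1 := sub B1 Ω hBB
  have u2 := sub B1 Ω' hBB
  have hfin : Module.Finite ℚ (A1 →ₗ[R] Ω') := fin_hom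
  have u3 : Module.finrank ℚ (A1 →ₗ[R] Ω) ≤ Module.finrank ℚ (A1 →ₗ[R] Ω') :=
    LinearMap.finrank_le_finrank_of_injective (post_inj (M := A1) f hf)
  omega

end VISAux

theorem t_VIS : I_VIS := by
  intro R A B C Ω Ω' _ _ _ _ _ _ _ _ _ _ _ _ _ _ _ _ _ _ _ _ _ _ _ _ _ _ _ _ h1 h2 f hf
  exact VISAux.main R A B C Ω Ω' h1 h2 f hf

end Pool.Agent.NEI
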