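import Pool.Agent.NEI.Stmts

/-!
# The functions `Wd n N k` solve the triangular system (module WSY)
-/

set_option autoImplicit false

namespace Pool.Agent.NEI

open Finset MvPolynomial Pool.Agent.NEK

namespace WSYAux

/-- the sums over the words -/
noncomputable def G (n l M : ℕ) : Lam1 :=
  sw n (fun v : List (Fin n) => C (kap l M v) * valw X1 v)

theorem G_rec (hK : I_KAP) (n l M : ℕ) (h : l + 2 ≤ M) :
    G n (l + 1) M = G n l M - qq ^ l • G n l (M - 1) := by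
  rw [G, G, G, MvPolynomial.smul_eq_C_mul, ← ABP.sw_mul, ← ABP.sw_sub]
  apply ABP.sw_congr
  intro v _
  rw [(hK n l M v).2 h, C_sub, C_mul]
  ring

theorem Wd_eq (n N k : ℕ) : Wd n N k = qq ^ (k - 1) • G n (k - 1) (N - 1) := by
  rw [Wd, G, MvPolynomial.smul_eq_C_mul, ← ABP.sw_mul]
  apply ABP.sw_congr
  intro v _
  rw [C_mul]
  ring

theorem scal {n j M : ℕ} (hn : 1 ≤ n) (hM : 1 ≤ M) :
    -((qi n)⁻¹ * ((qq ^ j)⁻¹ * qi j) * (qi n / qi M)) = (1 - (qq ^ j)⁻¹) / (1 - qq ^ M) := by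
  have h1 : (qq ^ j : K1) ≠ 0 := pow_ne_zero _ qq_ne
  have h2 := qi_ne hn
  have h3 := qi_ne hM
  have h4 : (1 : K1) - qq ^ M ≠ 0 := by
    rw [← qi_mul]
    exact mul_ne_zero one_sub_qq_ne h3
  rw [eq_div_iff h4, ← qi_mul M]
  have h5 := qi_mul j
  have e1 : -((qi n)⁻¹ * ((qq ^ j)⁻¹ * qi j) * (qi n / qi M)) * ((1 - qq) * qi M) =
      -((qq ^ j)⁻¹ * ((1 - qq) * qi j)) * ((qi n)⁻¹ * qi n) * (qi M / qi M) := by
    rw [div_eq_mul_inv, div_eq_mul_inv]
    ring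
  rw [e1, h5, inv_mul_cancel₀ h2, div_self h3, mul_sub, inv_mul_cancel₀ h1]
  ring

end WSYAux

open WSYAux in
theorem t_WSY : I_QIV → I_KAP → I_GMF → I_WSY := by
  intro hQ hK hG n N hn hN j hj
  have hj' := mem_Icc.1 hj
  have h1 := hQ (G n) n N (fun l M h => G_rec hK n l M h) j hj (by omega)
  have h2 : ∑ k ∈ Icc 1 n, (po ((qq ^ j)⁻¹) k / po qq k * (qi k / qi n)) • Wd n N k =
      (qi n)⁻¹ • ∑ k ∈ Icc 1 n, (po ((qq ^ j)⁻¹) k / po qq k * (qi k * qq ^ (k - 1))) •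
        G n (k - 1) (N - 1) := by
    rw [smul_sum]
    refine sum_congr rfl fun k _ => ?_
    rw [Wd_eq, smul_smul, smul_smul]
    congr 1
    rw [div_eq_mul_inv, div_eq_mul_inv]
    ring
  have h3 : G n 0 (N - j) = (qi n / qi (N - j)) • hM n (N - j) := by
    have h4 := hG n n (N - j) hn le_rfl (by omega)
    have h5 : qi (N - j) ≠ 0 := qi_ne (by omega)
    have h6 : qi (N - j) • G n 0 (N - j) = qi n • hM n (N - j) := by
      rw [MvPolynomial.smul_eq_C_mul, MvPolynomial.smul_eq_C_mul]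
      exact h4
    rw [div_eq_inv_mul, mul_smul, ← h6, smul_smul, inv_mul_cancel₀ h5, one_smul]
  rw [h2, h1, h3, ← scal (n := n) (j := j) hn (show 1 ≤ N - j by omega)]
  rw [smul_smul, smul_neg, smul_smul, neg_smul]
  congr 2
  ring

end Pool.Agent.NEI
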