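import Pool.Agent.NEI.PHM
import Pool.Agent.NEI.VIS
import Pool.Agent.NEI.VIR
import Pool.Agent.NEI.ORB
import Pool.Agent.NEI.SPL
import Pool.Agent.NEI.KOC
import Pool.Agent.NEI.KOA
import Pool.Agent.NEI.KOB
import Pool.Agent.NEI.KOS
import Pool.Agent.NEI.SL2
import Pool.Agent.NEI.LMA
import Pool.Agent.NEI.TRI
import Pool.Agent.NEI.LFN
import Pool.Agent.NEI.HSF
import Pool.Agent.NEI.HSP
import Pool.Agent.NEI.DJ1
import Pool.Agent.NEI.DJ2
import Pool.Agent.NEI.DJT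
import Pool.Agent.NEI.HOO
import Pool.Agent.NEI.KEI
import Pool.Agent.NEI.EGI
import Pool.Agent.NEI.OPI
import Pool.Agent.NEI.EKI
import Pool.Agent.NEI.UNQ
import Pool.Agent.NEI.CCS
import Pool.Agent.NEI.HMI
import Pool.Agent.NEI.LEV
import Pool.Agent.NEI.GMF
import Pool.Agent.NEI.KAP
import Pool.Agent.NEI.QIV
import Pool.Agent.NEI.WSY
import Pool.Agent.NEI.OMG
import Pool.Agent.NEI.FML
import Pool.Agent.NEI.CFM
import Pool.Agent.NEI.UNI
import Pool.Agent.NEI.NAT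
import Pool.Agent.NEI.DVS
import Pool.Agent.NEI.PQ
import Pool.Agent.NEI.FIN

/-!
# Assembly of `Stmt_final3`
-/

set_option autoImplicit false

namespace Pool.Agent.NEI

theorem final3 : Stmt_final3 := by
  have hVIR := t_VIR t_PHM t_VIS
  have hKOS := t_KOS t_KOC (t_KOB t_KOA)
  have hHSP := t_HSP t_LFN t_HSF
  have hDJT := t_DJT (t_DJ2 t_DJ1) t_LFN
  have hKEI := t_KEI t_TRI hHSP hDJT
  have hOPI := t_OPI hKEI t_EGI hHSP
  have hLEV := t_LEV t_CCS t_HMI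
  have hGMF := t_GMF t_CCS t_HMI hLEV
  have hWSY := t_WSY t_QIV t_KAP hGMF
  have hOMG := t_OMG hDJT
  have hFML := t_FML t_HOO t_UNQ hWSY hOMG
  have hUNI := t_UNI t_CFM hVIR t_ORB t_SPL hKOS t_SL2
  have hPQ := t_PQ t_DVS hUNI t_NAT t_LMA
  exact t_FIN hOPI t_EKI hFML hPQ t_KAP hOMG

end Pool.Agent.NEI
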