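import Pool.Agent.NEI.Stmts

set_option autoImplicit false

/-!
# The coefficients of `s_λ(1, X, …, X^{n-1})` are natural numbers
-/

namespace Pool.Agent.NEI

open Finset MvPolynomial Pool.Agent.NEK

namespace NATAux

/-- the polynomials with natural coefficients -/
noncomputable def natS : Subsemiring (Polynomial ℚ) :=
  (Polynomial.mapRingHom (Nat.castRingHom ℚ)).rangeS

/-- the list `1, X, …, X^{n-1}` -/
noncomputable def natL (n : ℕ) : List (Polynomial ℚ) :=
  (List.range n).map fun a => (Polynomial.X : Polynomial ℚ) ^ a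

theorem nat_mem (n : ℕ) : ∀ x ∈ natL n, x ∈ natS := by
  intro x hx
  unfold natL at hx
  rw [List.mem_map] at hx
  obtain ⟨a, _, rfl⟩ := hx
  exact ⟨Polynomial.X ^ a, by simp⟩

theorem nat_sum (n : ℕ) : PX n = fun k => ((natL n).map fun x => x ^ (k + 1)).sum := by
  funext k
  unfold PX natL
  rw [List.map_map]
  rfl

end NATAux

open NATAux in
/-- NAT -/
theorem t_NAT : I_NAT := by
  intro n m lam hlam
  have h := o_JTP (Polynomial ℚ) natS (natL n) (nat_mem n) lam hlam.1
  rw [← nat_sum] at h
  obtain ⟨r, hr⟩ := h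
  intro i
  refine ⟨r.coeff i, ?_⟩
  rw [← hr, Polynomial.coe_mapRingHom, Polynomial.coeff_map]
  rfl

end Pool.Agent.NEI
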