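import Pool.Agent.NEI.Basic
import Pool.Agent.NEK.Final
import Pool.Agent.NEK.Final2

/-!
# Facts of the first two theorems on MP_44957e_co, without hypotheses (everything here is proved)

`Stmt_HR`, …, `Stmt_HS` are the theorems `HNB.hr`, `HNB.hu`, `HNB.er`, `HNB.eu`, `HNB.hm`, `HNB.ha`,
`HNB.hs`.  The statements `Stmt_…` are explained in `Pool/Agent/NEK/Stmts.lean`, the statements `M_…` in
`Pool/Agent/NEK/Stmts2.lean`.
-/

set_option autoImplicit false

namespace Pool.Agent.NEI

open MvPolynomial Finset Pool.Agent.NEK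

/-- Schur functions of nonnegative elements are nonnegative -/
theorem o_JTP : Stmt_JTP := t_JTP t_HNB.2.2.2.2.2.1 t_HNB.2.2.2.2.2.2 t_HNB.1

/-- Pieri's rule for `h_m` -/
theorem o_PIE : Stmt_PIE := t_PIE

/-- zero parts can be dropped -/
theorem o_PAD : Stmt_PAD := t_PAD

/-- Pieri's rule for `h_m` in word form -/
theorem o_PIW : Stmt_PIW := t_PIW t_PIE

/-- evaluations of Schur functions -/
theorem o_EVS : Stmt_EVS := t_EVS t_HNB.2.2.2.2.1 t_HNB.2.2.2.2.2.2 t_HNB.2.1

/-- every nonzero function can be scaled by a power of `1 - q` to a regular one with nonzero value -/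
theorem o_VAL : M_VAL := t_VAL

/-- monomials and partitions -/
theorem o_MON : M_MON := t_MON

/-- homogeneity -/
theorem o_PHO : M_PHO := t_PHO

/-- lowest terms of `∏ h_a[X b]` -/
theorem o_TRC : M_TRC := t_TRC

/-- linear independence of the `∏ h_a[X b]` -/
theorem o_LIN : M_LIN := t_LIN t_MON t_TRC

/-- expansion over the local ring -/
theorem o_NAK : M_NAK := t_NAK t_MON

/-- dominance and conjugation -/
theorem o_DOM : M_DOM := t_DOM

/-- `s_λ` is a combination of `h_ν`, `ν ≥ λ` -/
theorem o_JTH : M_JTH := t_JTH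

/-- summation over the cells by rows and columns -/
theorem o_CNJ : M_CNJ := t_CNJ

/-- `1 - t1^{i+1} ≠ 0`, value of `η_a` at `p_k = 1` -/
theorem o_EVT : M_EVT := t_EVT

/-- coefficients and generating function of `h_m(z)` -/
theorem o_HZC : M_HZC := t_HZC

/-- Cramer's rule for shifted determinants -/
theorem o_VCR : M_VCR := t_VCR

/-- Pieri's rule for `e_m` -/
theorem o_VPI : M_VPI := t_VPI t_VCR t_PHO

/-- products of elementary functions are Schur positive -/
theorem o_ESP : M_ESP := t_ESP o_VPI t_PAD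

/-- the Macdonald polynomials are homogeneous (and regular at `q = 1`) -/
theorem o_KEY : M_KEY := t_KEY t_VAL t_MON t_PHO t_TRC t_DOM (t_KQ t_FUN t_CNT t_GRK t_MON)
  (t_KT t_JTH o_NAK o_LIN t_PHO) t_EVT o_EVS

end Pool.Agent.NEI
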