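import Mathlib
import Pool.Agent.NEI.U

set_option autoImplicit false

namespace Pool.Agent.NEI

open Finset

namespace PHMAux

variable (G A : Type) [Group G] [Finite A] [MulAction G A]

theorem char_eq (g : G) : (Representation.ofMulAction ℚ G A).character g = fx A g := by
  classical
  have := Fintype.ofFinite A
  unfold Representation.character
  rw [LinearMap.trace_eq_matrix_trace ℚ (MonoidAlgebra.basis A ℚ)]
  unfold Matrix.trace fx
  have h1 : ∀ a : A, (LinearMap.toMatrix (MonoidAlgebra.basis A ℚ) (MonoidAlgebra.basis A ℚ)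
      (Representation.ofMulAction ℚ G A g)).diag a = if g • a = a then 1 else 0 := by
    intro a
    rw [Matrix.diag_apply, LinearMap.toMatrix_apply, MonoidAlgebra.basis_apply,
      Representation.ofMulAction_single]
    change (Finsupp.single (g • a) (1 : ℚ)) a = _
    rw [Finsupp.single_apply]
  rw [Finset.sum_congr rfl fun a _ => h1 a, Finset.sum_boole, Nat.card_eq_fintype_card,
    Fintype.card_subtype]

end PHMAux

open PHMAux in
theorem t_PHM : I_PHM := by
  intro G A Ω _ _ _ _ _ _
  have h0 : ((Nat.card G : ℕ) : ℚ) ≠ 0 := by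
    rw [Nat.cast_ne_zero]
    exact Nat.card_pos.ne'
  let _ : Invertible (Nat.card G : ℚ) := invertibleOfNonzero h0
  have : FiniteDimensional ℚ (MonoidAlgebra ℚ A) := Module.Finite.of_basis (MonoidAlgebra.basis A ℚ)
  have : FiniteDimensional ℚ (MonoidAlgebra ℚ Ω) := Module.Finite.of_basis (MonoidAlgebra.basis Ω ℚ)
  have h := Representation.card_inv_mul_sum_char_mul_char_eq_finrank
    (Representation.ofMulAction ℚ G A) (Representation.ofMulAction ℚ G Ω)
  have h2 := (Representation.IntertwiningMap.equivLinearMapAsModule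
    (Representation.ofMulAction ℚ G A) (Representation.ofMulAction ℚ G Ω)).finrank_eq
  rw [h2] at h
  have h3 : ∑ g : G, fx A g * fx Ω g⁻¹ = ∑ g : G,
      (Representation.ofMulAction ℚ G Ω).character g *
        (Representation.ofMulAction ℚ G A).character g⁻¹ := by
    refine Fintype.sum_equiv (Equiv.inv G) _ _ fun g => ?_
    rw [char_eq, char_eq]
    simp [mul_comm]
  rw [h3]
  rw [inv_mul_eq_iff_eq_mul₀ h0] at h
  rw [h, Nat.card_eq_fintype_card]

end Pool.Agent.NEI
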