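import Pool.Agent.NEI.Defs2

/-!
# Statements for `Stmt_final3` (specialisation of `Δ_{s_λ} ∇ E_{n,k}` at `t = 1/q`)

All proofs are complete in the doc-strings.  The statements `I_PHM`, …, `I_LMA` of the part which
needs only Mathlib are in `U.lean`.  Proved and free to use:
* `Basic.lean` (automorphism `sg` of `ℚ(q,t)` with `q ↦ t`, `t ↦ q/t`, which maps `t = 1/q` to `q = 1`;
  `Inv.iff`, `Inv.lam_iff`, transfer lemmas `Inv.add`, …, `Inv.lam_hN`, …),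
* `Old.lean` (`o_JTP`, `o_PIE`, `o_PIW`, `o_PAD`, `o_MON`, `o_PHO`, `o_TRC`, `o_LIN`, `o_NAK`, `o_JTH`, `o_DOM`, `o_VAL`,
  `o_CNJ`, `o_EVT`, `o_EVS`, `o_HZC`, `o_VCR`, `o_VPI`, `o_ESP`, `o_KEY`),
* `Defs2.lean` (small lemmas on `gB`, `qi`, `po`), everything in `Pool/Agent/NEK/` (`HNB.hr`, `HNB.hu`,
  `HNB.er`, `HNB.eu`, `HNB.hm`, `HNB.ha`, `HNB.hs`; `A1.…`; `coeff_plG`, `plG_plG`, `plG_one`; `WNC.sw_congr`, `WNC.sw_sum`,
  `WNC.sw_mul`, `WNC.sw_append`, `WNC.sw_comm`, `WNC.bal_of_append`, `WNC.SD_zero`; `KT.plG_hbp`; the lemmas of `DOM.lean`, …).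
We write `h_n`, `e_n` for `hN X1 n`, `eN X1 n`, `s_l = sc l`, and `q = qq` (the variable of `K1`).
-/

set_option autoImplicit false

namespace Pool.Agent.NEI

open MvPolynomial Finset Pool.Agent.NEK

/-! ## Block S: symmetric functions and Macdonald polynomials at `t = 1/q` -/

/-- (module TRI) triangularity is preserved by specialisation.
Proof: copy the proof of `t_KT` (`Pool/Agent/NEK/KT.lean`), with `a`, `a1` instead of `1 - t^{i+1}`, `1 - t1^{i+1}` and `μ` instead of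
`conj μ`, up to the last step (the application of `plG bt`), which is not needed: `plG a1 F1 = ∑_{l ∈ PS n} c1 l • hbp 1 l` with
`c1 l = 0` unless `Dom l μ`. -/
def I_TRI : Prop := ∀ (n : ℕ) (μ : List ℕ) (a : ℕ → K) (a1 : ℕ → K1), (∀ i, AtOne (a i) (a1 i)) →
  ∀ (F : Lam) (F1 : Lam1), LamAtOne F F1 →
  plX a F ∈ Submodule.span K {f | ∃ l, IsPart n l ∧ Dom l μ ∧ f = sch l} →
  plG a1 F1 ∈ Submodule.span K1 {f | ∃ m, IsPart n m ∧ Dom m μ ∧ f = hbp (fun _ => (1 : K1)) m}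

/-- (module LFN) partitions as lists and as functions on `Fin (n+1)`.
Proof.  `fn n l i = l.getD i 0`; `l.length ≤ n` (positive parts with sum `n`), `l` weakly decreasing: `fn n l` is antitone, its
sums are those of `l`.  `SD X1 (fn n l) = sc l`: `o_PAD`, and `(List.ofFn (fn n l)).filter (0 < ·) = l` (`List.ofFn (fn n l)` is `l`
followed by zeros).  `fn n (conj l) j = #{i | l_i > j} = cj (fn n l) j`: for `j < l.headD 0` by definition of `conj`, for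
`j ≥ l.headD 0` both are `0`.  Conversely for antitone `lam` with sum `n` take `l = (List.ofFn lam).filter (0 < ·)`
(or `(List.ofFn lam).takeWhile (0 < ·)`). -/
def I_LFN : Prop := ∀ n : ℕ,
  (∀ l, IsPart n l → Antitone (fn n l) ∧ ∑ i, fn n l i = n ∧ SD X1 (fn n l) = sc l ∧
    fn n (conj l) = cj (fn n l) ∧
    ∀ k, (l.take k).sum = ∑ i ∈ univ.filter (fun i : Fin (n + 1) => (i : ℕ) < k), fn n l i) ∧
  (∀ lam : Fin (n + 1) → ℕ, Antitone lam → ∑ i, lam i = n → ∃ l, IsPart n l ∧ fn n l = lam)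

/-- (module HSF) `h_m` is a combination of `s_l`, `l ≥ m` (for functions on `Fin (n+1)`).
Proof: induction on the list `m` (`hbp 1 (a :: m) = h_a * hbp 1 m`).  `m = []`: `SD X1 0 = 1` (`WNC.SD_zero` or directly).
`a :: m`: it is enough to multiply `SD X1 lam`, `lam` antitone, `∑ lam = m.sum ≤ n - a`, with the dominance
property for `m`, by `h_a`.  `lam (Fin.last n) = 0` (antitone, `n+1` entries, sum `≤ n`), so `o_PIE` (`N = n`) gives
`h_a * SD X1 lam = ∑_r SD X1 (lam + r)`, `κ = lam + r`, `∑ r = a`, `κ_{i+1} ≤ lam_i`.  `κ` is antitone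
(`κ_{i+1} ≤ lam_i ≤ κ_i`), its sum is `a + m.sum`; and for `k ≥ 1`: `∑_{i ≥ k} κ_i ≤ ∑_{i ≥ k-1} lam_i`, so
`∑_{i<k} κ_i ≥ a + ∑_{i<k-1} lam_i ≥ a + (m.take (k-1)).sum`. -/
def I_HSF : Prop := ∀ (n : ℕ) (m : List ℕ), m.sum ≤ n →
  hbp (fun _ => (1 : K1)) m ∈ Submodule.span K1 {f | ∃ lam : Fin (n + 1) → ℕ, Antitone lam ∧
    ∑ i, lam i = m.sum ∧
    (∀ k, (m.take k).sum ≤ ∑ i ∈ univ.filter (fun i : Fin (n + 1) => (i : ℕ) < k), lam i) ∧
    f = SD X1 lam}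

/-- (module HSP) `h_m` is a combination of `s_l`, `l ≥ m`, and the `s_l` are linearly independent.
Proof (uses `I_LFN`, `I_HSF`).  First part: `I_HSF` for `m`, `m.sum = n`, and `I_LFN` (every `lam` there is `fn n l`).
Second part: by the first part the span of the family `(sc l)_{l ∈ PS n}` contains the family
`(hbp 1 m)_{m ∈ PS n}`, which is linearly independent (`o_LIN` with `b = 1`), so its dimension is at least the number of elements of
`PS n`; a family of `N` vectors whose span has dimension `≥ N` is linearly independent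
(`linearIndependent_iff_card_le_finrank_span` for the family indexed by `{l // l ∈ PS n}`). -/
def I_HSP : Prop :=
  (∀ (n : ℕ) (m : List ℕ), IsPart n m → hbp (fun _ => (1 : K1)) m ∈
    Submodule.span K1 {f | ∃ l, IsPart n l ∧ Dom l m ∧ f = sc l}) ∧
  (∀ (n : ℕ) (c : List ℕ → K1), ∑ l ∈ PS n, c l • sc l = 0 → ∀ l ∈ PS n, c l = 0)

/-- (module DJ1) conjugation of functions and strips.
Proof.  `cj lam` is antitone (the sets get smaller).  `∑_j cj lam j = ∑_i #{j : Fin N | j < lam i} = ∑_i lam i` because `lam i ≤ N`.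
`cj (cj lam) i = #{j | i < cj lam j} = #{j | lam i > j} = lam i`: since `lam` is antitone, `{i' | lam i' > j}` is an initial
segment, so `i < cj lam j ↔ j < lam i` (**).  Strips: by (**) `j < cj κ i ↔ i < κ j`.
(→) if `lam ≤ κ`, then `cj lam ≤ cj κ`; if `κ i ≤ lam i + 1` for all `i`, then `κ i > j + 1` implies `lam i > j`, so `cj κ (j+1) ≤ cj lam j`.
(←) `cj lam ≤ cj κ` implies `lam = cj (cj lam) ≤ cj (cj κ) = κ`; if `κ i ≥ lam i + 2` for some `i`, put `j = lam i` (`j + 1 < κ i ≤ N`, so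
`j`, `j+1` are in `Fin N`); `i < cj κ (j+1)` by (**), and `¬ i < cj lam j`, so `cj κ (j+1) > i ≥ cj lam j`, a contradiction. -/
def I_DJ1 : Prop := ∀ (N : ℕ) (lam κ : Fin N → ℕ), Antitone lam → Antitone κ →
  ∑ i, lam i ≤ N → ∑ i, κ i ≤ N →
  Antitone (cj lam) ∧ ∑ i, cj lam i = ∑ i, lam i ∧ cj (cj lam) = lam ∧
  ((∀ i, lam i ≤ κ i ∧ κ i ≤ lam i + 1) ↔
    ((∀ i, cj lam i ≤ cj κ i) ∧ ∀ i j : Fin N, (j : ℕ) = i + 1 → cj κ j ≤ cj lam i))

/-- (module DJ2) the involution `ω` on Schur functions of functions.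
Proof (uses `I_DJ1`).  `N = n + 1`.  Let `P` be the set of the antitone `lam : Fin N → ℕ` with `∑ lam ≤ n`; `cj` is an involution of
`P`.  Put `S lam = SD X1 lam`, `T lam = om (SD X1 (cj lam))`; claim: `T = S` on `P` (then apply it to `cj lam` and use that `om` is an
involution, or to `cj lam` directly: `om (SD X1 lam) = T (cj lam) = S (cj lam)`).
(1) `om e_m = h_m` (`HNB.hm`, `HNB.eu`: `om` maps the recursion of `eN X1` to that of `hN X1`).
(2) for `lam ∈ P`, `∑ lam + m ≤ n`: `h_m S(lam) = ∑ S(κ)` over `κ` in `HS(lam, m)`: antitone `κ ≥ lam`, `∑ κ = ∑ lam + m`, `κ_{i+1} ≤ lam_i`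
(`o_PIE`; `lam (last) = 0`; `κ = lam + r`).
(3) `h_m T(lam) = ∑ T(κ)` over the same set: apply `om` to `o_VPI` for `cj lam`: `h_m T(lam) = ∑ om (S(κ'))` over the antitone `κ'` with
`cj lam ≤ κ' ≤ cj lam + 1`, `∑ κ' = ∑ lam + m`; put `κ' = cj κ`, `κ = cj κ'` and use `I_DJ1` (the last claim for `cj lam`, `κ'`).
(4) `T = S` on `P` by induction on `s = ∑ lam`, and for fixed `s` by downward induction on `lam 0` (`≤ s`).  `s = 0`: `lam = 0`, both are
`1`.  `s ≥ 1`: `a = lam 0 ≥ 1`, `lam' = (lam 1, …, lam n, 0)`, `∑ lam' = s - a < s`.  `HS(lam', a)` contains `lam`, and every other element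
`κ` has `κ 0 > a`: `∑_{i ≥ 1} κ_i ≤ ∑_{i} lam'_i = s - a`, with equality only if `κ_{i+1} = lam'_i = lam_{i+1}` for all `i`.  Subtract (2) and
(3) for `lam'`, `m = a`. -/
def I_DJ2 : Prop := ∀ (n : ℕ) (lam : Fin (n + 1) → ℕ), Antitone lam → ∑ i, lam i ≤ n →
  om (SD X1 lam) = SD X1 (cj lam)

/-- (module DJT) the involution `ω` on Schur functions.
Proof (uses `I_DJ2`, `I_LFN`): `om (sc l) = om (SD X1 (fn n l)) = SD X1 (cj (fn n l)) = SD X1 (fn n (conj l)) = sc (conj l)` (`o_DOM`: `conj l` is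
a partition). -/
def I_DJT : Prop := ∀ (n : ℕ) (l : List ℕ), IsPart n l → om (sc l) = sc (conj l)

/-- (module HOO) the hook expansion.
Proof.  (1) `e_n[X(1-z)] = ∑_{b=0}^n (-z)^b h_b e_{n-b}`: the power sums are `X1 i - z^{i+1} X1 i`; `eN P n = (-1)^n hN (-P) n`
(`HNB.eu`/`HNB.hu`), so with `HNB.ha`: `e_n(P + P') = ∑ e_i(P) e_j(P')`, and `e_b(-z^{i+1} X1 i) = (-1)^b h_b(z^{i+1} X1 i) = (-z)^b h_b`
(`HNB.hs`).
(2) For `1 ≤ b ≤ n-1`: `h_b e_{n-b} = sc (hk n b) + sc (hk n (b+1))`: `o_VPI` with `N = n`, `lam = (b, 0, …, 0)` (`SD X1 lam = h_b`, by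
`o_PAD`), `m = n-b`: the antitone `lam + r`, `r ∈ {0,1}^n`, `∑ r = m` are `(b, 1^{n-b}, 0, …)` and `(b+1, 1^{n-b-1}, 0, …)`; `o_PAD` turns them
into lists.  `h_n = sc (hk n n)` (`hk n n = [n]`), and `e_n = sc (hk n 1)` (`o_VPI` with `lam = 0`).
(3) `∑_{b=0}^n (-z)^b h_b e_{n-b} = ∑_{j=1}^n ((-z)^j + (-z)^{j-1}) sc (hk n j)`, and `(-z)^j + (-z)^{j-1} = (1-z)(-z)^{j-1}`. -/
def I_HOO : Prop := ∀ (n : ℕ) (z : K1), 1 ≤ n →
  eN (fun i => C (1 - z ^ (i + 1)) * X1 i) n =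
    ∑ j ∈ Icc 1 n, ((1 - z) * (-z) ^ (j - 1)) • sc (hk n j)

/-- (module KEI) the Macdonald polynomials at `t = 1/q`: up to a power of `1 - qt`, the value of `H_μ` is a multiple of
`s_μ[X/(1-q)]`.

Proof (uses `I_TRI`, `I_HSP`, `I_DJT`).  Homogeneity: `o_KEY`.  `H μ ≠ 0`: otherwise `norm` says that `sch [n]` is in the span of the
`sch l`, `l ≠ [n]`, but `ev (fun _ => 1)` kills these and maps `sch [n]` to `1` (`o_EVS`).
(1) `F = Inv.sL (H μ) ≠ 0` (`Inv.sL_ne`) is homogeneous (`Inv.sL_hom`).  By `Inv.sL_plX`, `Inv.sL_span` and `sg q = t`, `sg t = q/t`: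
`plX (1 - t^{i+1}) F` is in the span of the `sch l`, `Dom l μ`, and `plX (1 - (q/t)^{i+1}) F` in that of the `sch l`, `Dom l (conj μ)`.
(2) `o_VAL`: `LamAtOne ((1-q)^r • F) F1`, `F1 ≠ 0`; the two properties in (1) hold for `(1-q)^r • F` too.
(3) `I_TRI` with `a i = 1 - t^{i+1}`, `a1 i = 1 - qq^{i+1}` (`A1.t_t1`): `G := plG a1 F1` is in the span of the `hbp 1 m`, `Dom m μ`.
`I_TRI` with `a i = 1 - (q/t)^{i+1}`, `a1' i = 1 - (qq⁻¹)^{i+1}`: `plG a1' F1` is in the span of the `hbp 1 m`, `Dom m (conj μ)`.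
(4) `G` is homogeneous of weight `n` (`o_PHO`).  For homogeneous `G` and `y : K1`: `plG (fun i => y^{i+1}) G = y^n • G` (`coeff_plG`).  Since
`1 - q^{-(i+1)} = -q^{-(i+1)} (1 - q^{i+1}) = (-1)^i (-q^{-1})^{i+1} (1 - q^{i+1})`, `plG a1' F1 = om ((-qq⁻¹)^n • G)` (`plG_plG`), so `om G` is in the span of
the `hbp 1 m`, `Dom m (conj μ)`.
(5) By the first part of `I_HSP` and transitivity of `Dom`: `G = ∑_{l ∈ PS n} g_l • sc l` with `g_l = 0` unless `Dom l μ`, and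
`om G = ∑_{l ∈ PS n} g'_l • sc l` with `g'_l = 0` unless `Dom l (conj μ)`.  By `I_DJT` `om G = ∑ g_l • sc (conj l)`, and `conj` is an involution of
`PS n` (`o_DOM`), so by the second part of `I_HSP` `g'_{conj l} = g_l`.  If `g_l ≠ 0`: `Dom l μ` and `Dom (conj l) (conj μ)`.  Put `ρ = conj l`; for all
`k`: `(μ.take k).sum ≤ (l.take k).sum = (ρ.map (min k ·)).sum` (`DOM.map_min_conj` or `DOM.take_conj` for `ρ`), so the third claim of `o_DOM`
gives `ρ = conj μ`, `l = μ`.  So `G = c • sc μ`, `F1 = plG bt G = c • plG bt (sc μ)` (`plG_plG`, `plG_one`, `one_sub_ne`), `c ≠ 0`.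
(6) `sL (((1 - q t)^r) • H μ) = (1-q)^r • F` (`Inv.sL_smul`, `sg (q t) = t (q/t) = q`, `map_zpow₀`), and `Inv.lam_iff`. -/
def I_KEI : Prop := ∀ (n : ℕ) (H : List ℕ → Lam), 1 ≤ n → IsMac n H → ∀ μ, IsPart n μ →
  IsWeightedHomogeneous wt (H μ) n ∧ ∃ (r : ℤ) (c : K1), c ≠ 0 ∧
    LamAtInv (((1 - q * t) ^ r : K) • H μ) (c • plG bt (sc μ))

/-- (module EGI) the eigenvalues at `t = 1/q`.
Proof.  `ev (Bp μ) (sch lam) = sN (Bp μ) lam` (`HNB.hm`), `Bp μ k` has the value `∑_i ∑_{j < μ_i} ((qq⁻¹)^i qq^j)^{k+1}` (`Inv.t_inv`,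
`Inv.q_qq`), `Tm μ` the value `(qq⁻¹)^{nn μ} qq^{nn (conj μ)}`; `Inv.sN_atInv`.  So `ev1 μ` exists for all `μ`.
For `μ = hk n j`, `1 ≤ j ≤ n`: the contents (column minus row) of the cells are `0, …, j-1` in the first row and `-1, …, -(n-j)` below, so
the value of `Bp μ k` is `∑_{a<n} (q^{a-(n-j)})^{k+1} = (y)^{k+1} pM n k` with `y = q^{-(n-j)}`.  `sN (fun k => y^{k+1} P k) lam = y^m sN P lam` for
`y ≠ 0`: entry `(i, i')` of the matrix is multiplied by `y^{λ_i - i + i'}` (`HNB.hs`; zero for negative index), take the factors out of the rows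
and columns; `∑ λ_i = m`.  `nn (hk n j) = 1 + … + (n-j) = C(n-j+1, 2)`; `conj (hk n j) = hk n (n-j+1)`, so `nn (conj (hk n j)) = C(j,2)`.  Finally
`C(j,2) - C(n-j+1,2) - m(n-j) = C(n,2) - (n-j)(n+m)`. -/
def I_EGI : Prop := ∀ (n m : ℕ) (lam : List ℕ), 1 ≤ n → IsPart m lam →
  ∃ ev1 : List ℕ → K1, (∀ μ, IsPart n μ → AtInv (ev (Bp μ) (sch lam) * Tm μ) (ev1 μ)) ∧
    ∀ j ∈ Icc 1 n, ev1 (hk n j) = eps n m lam j

/-- (module OPI) the operator `Δ_{s_λ} ∇` at `t = 1/q`.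
Proof (uses `I_KEI`, `I_EGI`, `I_HSP`).  For `μ ∈ PS n` let `r_μ`, `c_μ ≠ 0` be as in `I_KEI`, `HH μ = (1-qt)^{r_μ} • H μ`,
`H1 μ = c_μ • plG bt (sc μ)`, and `ev1` as in `I_EGI`.  The `plG bt (sc μ)`, `μ ∈ PS n`, are linearly independent (second part of `I_HSP`;
`plG bt` is injective, since `plG (1 - qq^{i+1})` is a left inverse), so there is a linear map `Lm : Lam1 → Lam1` with
`Lm (plG bt (sc μ)) = ev1 μ • plG bt (sc μ)` for all `μ ∈ PS n` (extend the family to a basis, `Module.Basis.constr`).  `hk n j` is a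
partition of `n`.
Let `F` be homogeneous with value `F1`.  `o_NAK` with `HA μ = sL (HH μ)`, `H1`, `sL F` and `F1` (`Inv.lam_iff`, `Inv.sL_hom`; independence of `H1`):
`sL F = ∑ c_μ' • sL (HH μ)`, `F1 = ∑ c1_μ • H1 μ`, `AtOne c_μ' c1_μ`.  With `c_μ'' = psiK c_μ'` (`sg_psiK`) and injectivity of `sL`:
`F = ∑ c_μ'' • HH μ`, `AtInv c_μ'' c1_μ`.  So `delta (nabla F) = ∑ (c_μ'' (ev (Bp μ) (sch lam) * Tm μ)) • HH μ`, which is regular with value
`∑ (c1_μ ev1 μ) • H1 μ = Lm F1`. -/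
def I_OPI : Prop := ∀ (n : ℕ), 1 ≤ n → ∀ (H : List ℕ → Lam), IsMac n H →
  ∀ (lam : List ℕ) (m : ℕ), IsPart m lam →
  ∀ (nabla delta : Lam →ₗ[K] Lam),
    (∀ μ, IsPart n μ → nabla (H μ) = Tm μ • H μ) →
    (∀ μ, IsPart n μ → delta (H μ) = ev (Bp μ) (sch lam) • H μ) →
  ∃ Lm : Lam1 →ₗ[K1] Lam1,
    (∀ j ∈ Icc 1 n, Lm (plG bt (sc (hk n j))) = eps n m lam j • plG bt (sc (hk n j))) ∧
    ∀ (F : Lam) (F1 : Lam1), IsWeightedHomogeneous wt F n → LamAtInv F F1 →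
      LamAtInv (delta (nabla F)) (Lm F1)

/-- (module EKI) `E_{n,k}` at `t = 1/q`.
Proof.  Put `z_j = (q^j)⁻¹`, `1 ≤ j ≤ n`, in `IsE`: the left side is (`HNB.hm`) `L_j = eN (fun i => C ((1 - z_j^{i+1})/(1 - q^{i+1})) * X i) n`,
homogeneous (`o_PHO`) and regular with value the left side of the claim (`Inv.lam_eN`, `Inv.div`, `one_sub_ne`, `Inv.q_qq`).  The coefficients
`u_{j,k} = poch z_j k / poch q k` are regular with value `po ((qq^j)⁻¹) k / po qq k` (`Inv.prod`, `po_qq_ne`), they are `0` for `k > j`, and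
`u_{j,j}` and its value are not `0` (`po_inv_ne`).  By strong induction on `j`:
`E j = u_{j,j}⁻¹ • (L_j - ∑_{1 ≤ k < j} u_{j,k} • E k)` is homogeneous and regular.  Let `E1 j` be the value; the equation follows from
`Inv.lam_unique` applied to the two sides of `IsE` (both sides are regular). -/
def I_EKI : Prop := ∀ (n : ℕ) (E : ℕ → Lam), 1 ≤ n → IsE n E →
  ∃ E1 : ℕ → Lam1, (∀ k ∈ Icc 1 n, IsWeightedHomogeneous wt (E k) n ∧ LamAtInv (E k) (E1 k)) ∧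
    ∀ j ∈ Icc 1 n, eN (fun i => C ((1 - ((qq ^ j)⁻¹) ^ (i + 1)) / (1 - qq ^ (i + 1))) * X1 i) n =
      ∑ k ∈ Icc 1 n, (po ((qq ^ j)⁻¹) k / po qq k) • E1 k

/-- (module UNQ) a triangular system has only one solution.
Proof: strong induction on `k`, the equation for `j = k`: the terms with index `> k` vanish (`po_inv_zero`), the coefficient of the index
`k` is not `0` (`po_inv_ne`, `po_qq_ne`). -/
def I_UNQ : Prop := ∀ (n : ℕ) (G G' : ℕ → Lam1),
  (∀ j ∈ Icc 1 n, ∑ k ∈ Icc 1 n, (po ((qq ^ j)⁻¹) k / po qq k) • G k =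
    ∑ k ∈ Icc 1 n, (po ((qq ^ j)⁻¹) k / po qq k) • G' k) →
  ∀ k ∈ Icc 1 n, G k = G' k

/-! ## Block W: words -/

open Classical in
/-- (module CCS) two identities for words.

Proof.  Abbreviate `d(v) = des v`, `I(b) = [v.take b weakly increasing]`.
(0) for `v = r :: w`: `cc (M+1) v = cc M v + q^M c'`, where `c' = cc M w` if `w = r' :: w'` with `r' < r` (a descent at the head), and
`c' = cc (M+1) w` otherwise (also for `w = []`).  Let `D = des v`, `mjh v = mjh w + D`.  If `D < M`, put `a = M - 1 - D`: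
`cc (M+1) v = q^{mjh v} gB (a+1) (|w|+1)`, `cc M v = q^{mjh v} gB a (|w|+1)`, and `c' = q^{mjh w} gB (a+1) |w|` in both cases (`des w = D - 1`
resp. `D`; for `w = []` it is `1`), and `gB_ss`, `q^M q^{mjh w} = q^{mjh v} q^{a+1}`.  If `D = M`: `cc M v = 0`,
`cc (M+1) v = q^{mjh v}`, `c' = q^{mjh w}`.  If `D > M` all are `0`.
(1) first claim by induction on `v`: the term `b = 0` is `cc M v`; for `b = b' + 1`, `v = r :: w`, the condition is that `w.take b'` is weakly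
increasing and (if `b' ≥ 1`) `r ≤ r'` for the head `r'` of `w`; so these terms sum to `q^M ∑_{b'} q^{M b'} I cc M (w.drop b') = q^M cc (M+1) w`
if there is no descent at the head, and to `q^M cc M w` (only `b' = 0`) if there is one.  Use (0).
(2) second claim by induction on `v = r :: w`, with `M' = M + 1`; let `A(v)` be the left side.  `b = b' + 1`:
`1 - q^{M' b} = (1 - q^{M' b'}) + q^{M' b'} (1 - q^{M'})`, `|v| - b = |w| - b'`.  If `w = []`: both sides are `1 - q^{M'}`.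
If there is a descent at the head (`w ≠ []`), only `b = 1` counts: `A(v) = (1 - q^{M'}) q^{|w|} cc M w`, and
`kap 0 M' v = tm 0 M' v = q^{|w|} cc M w` (`des w = des v - 1`).  Otherwise (`r ≤ r'`)
`A(v) = A(w) + (1 - q^{M'}) ∑_{b'=0}^{|w|} I(w.take b') q^{M' b'} q^{|w| - b'} cc M (w.drop b')`; as `q^{M' b'} q^{|w|-b'} = q^{|w|} q^{M b'}`, the last sum is
`q^{|w|} cc M' w` by the first claim, and this is `tm 0 M' v` (`des w = des v`), while `A(w) = (1 - q^{M'}) kap 0 M' w` by induction. -/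
def I_CCS : Prop := ∀ (N M : ℕ) (v : List (Fin N)),
  cc (M + 1) v = ∑ b ∈ range (v.length + 1),
    (if (v.take b).Pairwise (· ≤ ·) then qq ^ (M * b) * cc M (v.drop b) else 0) ∧
  (v ≠ [] → ∑ b ∈ Icc 1 v.length, (if (v.take b).Pairwise (· ≤ ·) then
      (1 - qq ^ ((M + 1) * b)) * qq ^ (v.length - b) * cc M (v.drop b) else 0) =
    (1 - qq ^ (M + 1)) * kap 0 (M + 1) v)

/-- (module HMI) two recursions for `h_n[X (1 + … + q^{M-1})]`.
Proof.  `pM (M+1) i = pM M i + (q^M)^{i+1}`, so (`HNB.ha`, `HNB.hs`: `h_b(y^{i+1} X1 i) = y^b h_b`) the first claim.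
`pM (M+1) i = 1 + q^{i+1} pM M i`, so `hM n (M+1) = ∑_{b+c=n} h_b q^c hM c M`; and
`q^{i+1} pM (M+1) i = q^{i+1} pM M i + (q^{M+1})^{i+1}`, so `q^n hM n (M+1) = ∑_{b+c=n} q^{(M+1) b} h_b q^c hM c M`.  Subtract; the term
`b = 0` cancels. -/
def I_HMI : Prop := ∀ (n M : ℕ),
  hM n (M + 1) = ∑ b ∈ range (n + 1), C (qq ^ (M * b)) * (hN X1 b * hM (n - b) M) ∧
  C (1 - qq ^ n) * hM n (M + 1) = ∑ b ∈ Icc 1 n,
    C ((1 - qq ^ ((M + 1) * b)) * qq ^ (n - b)) * (hN X1 b * hM (n - b) M)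

/-- (module LEV) expansion of `h_n[X (1 + … + q^{M-1})]` in words.
Proof (uses `I_CCS`, `I_HMI`).  Induction on `M`.  `M = 0`: `hM n 0 = h_n(0) = [n = 0]` (`HNB.hs`), and `cc 0 v = [v = []]`, `valw X1 [] = 1`
(`WNC.SD_zero`).  `M + 1`: the first part of `I_HMI`, the formula for `M`, and for every word `w` of length `n - b`:
`h_b * valw X1 w = sw b (fun x => if x weakly increasing then valw X1 (x ++ w) else 0)` (`o_PIW` for ballot `w`; otherwise both sides are `0`,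
`WNC.bal_of_append`; compare `WNC.pieri`).  Rewrite the double sum over `x`, `w` as a sum over `v = x ++ w`, `x = v.take b`, `w = v.drop b`
(`WNC.sw_append`), exchange the sums over `b` and `v` (`WNC.sw_sum`) and use the first part of `I_CCS` for each `v`. -/
def I_LEV : Prop := ∀ (N n M : ℕ), n ≤ N →
  hM n M = sw n (fun v : List (Fin N) => C (cc M v) * valw X1 v)

/-- (module GMF) the words for `k = 1`.
Proof (uses `I_CCS`, `I_HMI`, `I_LEV`).  `M = M' + 1`.  By the second part of `I_HMI`, `I_LEV` for `M'` and Pieri's rule (as in `I_LEV`)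
`C (1 - q^n) * hM n M` is the sum over words `v` of length `n` of `valw X1 v` times the left side of the second part of `I_CCS`, i.e. times
`(1 - q^M) kap 0 M v`.  Divide by `1 - q` (`qi_mul`, `one_sub_qq_ne`). -/
def I_GMF : Prop := ∀ (N n M : ℕ), 1 ≤ n → n ≤ N → 1 ≤ M →
  C (qi M) * sw n (fun v : List (Fin N) => C (kap 0 M v) * valw X1 v) = C (qi n) * hM n M

/-- (module KAP) the coefficients `kap` are in `ℕ[q]`, and their recursion.
Proof.  First part: `gB a b ∈ N1`.  Second part: by the recursion of `kap` it is enough to show it for `tm` (same condition `r ≤ r'` on all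
terms).  `v = r :: w`, `D = des v`, `e = |w| + mjh w`.  Note `D ≤ |w|` (induction).
If `D + 2 ≤ M`: put `a = M - 1 - D ≥ 1`.  If `l + 1 ≤ |w|`, with `b = |w| - l ≥ 1`:
`tm l M v - q^l tm l (M-1) v = q^{e+la} (gB a b - gB (a-1) b) = q^{e+la} q^a gB a (b-1) = tm (l+1) M v` (`gB_ss`).  If `l = |w|`: `tm (l+1) M v = 0`,
`tm l M v = q^{e+la} = q^l tm l (M-1) v` (`gB_r0`).  If `l > |w|` all are `0`.
If `D + 1 = M`: `tm l (M-1) v = 0`, `tm l M v = q^e` and `tm (l+1) M v = q^e` (`gB_0r`), because `l + 1 ≤ M - 1 = D ≤ |w|`.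
If `D ≥ M` all are `0`. -/
def I_KAP : Prop := ∀ (N l M : ℕ) (v : List (Fin N)), kap l M v ∈ N1 ∧
  (l + 2 ≤ M → kap (l + 1) M v = kap l M v - qq ^ l * kap l (M - 1) v)

/-- (module QIV) inversion.
Proof.  For `J : ℕ` and `l ≤ J` let `a_{J,l} = (-1)^l q^{C(l,2) - (J-1) l} [J choose l]` (integer exponents, `a_{J,l} = 0` for `l > J`), with
`[J choose l] = gB (J-l) l`.  Then
`a_{J+1,l} = q^{-l} a_{J,l} - q^{-(l-1)} a_{J,l-1}` (q-Pascal `[J+1 choose l] = [J choose l] + q^{J-l+1} [J choose l-1]`, i.e. `gB_ss`).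
(S) For `J + 1 ≤ M`: `∑_{l ≤ J} a_{J,l} • G l M = G 0 (M - J)`.  Induction on `J`; `J = 0`: `a_{0,0} = 1`.  Step, `J + 2 ≤ M`:
`∑_l a_{J+1,l} G l M = ∑_{l ≤ J} a_{J,l} q^{-l} (G l M - G (l+1) M) = ∑_{l ≤ J} a_{J,l} G l (M-1) = G 0 (M-1-J)`.
Now let `j = J + 1`, `M = N - 1`.  For `k = l + 1 ≤ j`: `(q^{-j};q)_k / (q;q)_k = (-1)^k q^{C(k,2) - jk} [j choose k]`, `[j choose k] [k] = [j] [j-1 choose k-1]`, so
`po (q^{-j}) k / po q k * (qi k * q^{k-1}) = -q^{-j} [j] a_{J,l}` (exponents: `C(l+1,2) - j(l+1) + l = -j + C(l,2) - (J-1) l`); for `k > j` it is `0`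
(`po_inv_zero`).  (Proof of this identity: by induction on `l`, for fixed `J`; or induction on `k` with `po_succ`: the quotient of
consecutive left sides is `(1 - q^{k-j}) (1 - q^{k+1}) q / ((1 - q^{k+1}) (1 - q^k))`, that of the right sides is
`-q^{l - (J-1)} (1 - q^{J-l})/(1 - q^{l+1})`, `k = l+1`; for this one may use the recursion for `a` in the form
`a_{J,l+1} (1 - q^{l+1}) = - q^{l-J+1} (1 - q^{J-l}) a_{J,l}` as the definition of `a`: then prove the Pascal-type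
recursion from the explicit product.) -/
def I_QIV : Prop := ∀ (G : ℕ → ℕ → Lam1) (n N : ℕ),
  (∀ l M, l + 2 ≤ M → G (l + 1) M = G l M - qq ^ l • G l (M - 1)) →
  ∀ j ∈ Icc 1 n, j + 1 ≤ N →
  ∑ k ∈ Icc 1 n, (po ((qq ^ j)⁻¹) k / po qq k * (qi k * qq ^ (k - 1))) • G (k - 1) (N - 1) =
    -(((qq ^ j)⁻¹ * qi j) • G 0 (N - j))

/-- (module WSY) the functions `Wd n N k` solve the triangular system.
Proof (uses `I_QIV`, `I_KAP`, `I_GMF`).  `G l M = sw n (fun v : List (Fin n) => C (kap l M v) * valw X1 v)` satisfies the hypothesis of `I_QIV` by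
`I_KAP` (`WNC.sw_mul`, `ABP`'s `sw_sub`), and `Wd n N k = C (q^{k-1}) * G (k-1) (N-1)`.  So the left side is
`(qi n)⁻¹ • ∑_k (po … / po … * (qi k q^{k-1})) • G (k-1) (N-1) = - (q^{-j} [j] / [n]) • G 0 (N-j)`, and by `I_GMF` (`N - j ≥ 1`)
`G 0 (N-j) = ([n]/[N-j]) • hM n (N-j)`.  Finally `-q^{-j} [j]/[N-j] = (1 - q^{-j})/(1 - q^{N-j})` (`qi_mul`). -/
def I_WSY : Prop := ∀ (n N : ℕ), 1 ≤ n → n + 1 ≤ N → ∀ j ∈ Icc 1 n,
  ∑ k ∈ Icc 1 n, (po ((qq ^ j)⁻¹) k / po qq k * (qi k / qi n)) • Wd n N k =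
    ((1 - (qq ^ j)⁻¹) / (1 - qq ^ (N - j))) • hM n (N - j)

/-- (module OMG) the involution `ω` on `h_n[X (1 + … + q^{M-1})]` and on the values of words.
Proof (uses `I_DJT`).  First part: `hM n M = hN (fun i => C (pM M i) * X i) n`; `om` maps it to
`hN (fun i => (-1)^i C (pM M i) X i) n` (`HNB.hm`), and `hN (fun i => (-1)^i P i) n = eN P n` (`HNB.eu`/`HNB.hu`: same recursion).
Second part: `valw X1 v` is `0` or `SD X1 (cont v) = sN X1 ((List.ofFn (cont v)).filter (0 < ·)) = sc l` (`o_PAD`) with a partition `l` of `n`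
(`cont v` is antitone with sum `v.length = n`; compare `val_mem` in `Pool/Agent/NEK/ABP.lean`); `I_DJT`, and `conj l` is a partition of `n`
(`o_DOM`). -/
def I_OMG : Prop :=
  (∀ n M : ℕ, om (hM n M) = eN (fun i => C (pM M i) * X1 i) n) ∧
  (∀ (n : ℕ) (v : List (Fin n)), v.length = n →
    om (valw X1 v) = 0 ∨ ∃ l, IsPart n l ∧ om (valw X1 v) = sc l)

/-- (module FML) the value at `t = 1/q`.
Proof (uses `I_HOO`, `I_UNQ`, `I_WSY`, `I_OMG`).  `N = n + m ≥ n + 1`, `c0 = eps n m lam 1`, `eps n m lam i = c0 (q^N)^{i-1}`.  Let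
`1 ≤ j ≤ n`, `z = (q^j)⁻¹`, `M = N - j ≥ 1`, so `z q^N = q^M`.
(1) `eN (fun i => C ((1 - z^{i+1})/(1 - q^{i+1})) * X1 i) n = plG bt (eN (fun i => C (1 - z^{i+1}) * X1 i) n)` (`HNB.hm`)
`= ∑_i ((1-z) (-z)^{i-1}) • plG bt (sc (hk n i))` (`I_HOO`).
(2) `Lm` of it is `∑_i ((1-z) (-z)^{i-1} c0 (q^N)^{i-1}) • plG bt (sc (hk n i)) = (c0 (1-z)/(1-q^M)) • ∑_i ((1-q^M) (-q^M)^{i-1}) • plG bt (sc (hk n i))
= (c0 (1-z)/(1-q^M)) • plG bt (eN (fun i => C (1 - (q^M)^{i+1}) * X1 i) n)` (`I_HOO` for `z := q^M`, `one_sub_ne`), and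
`(1 - (q^M)^{i+1})/(1 - q^{i+1}) = pM M i` (geometric sum), so this is `(c0 (1-z)/(1-q^M)) • om (hM n M)` (`I_OMG`).
(3) So `∑_k (po z k / po q k) • Lm (E1 k) = c0 • om (((1-z)/(1-q^{N-j})) • hM n (N-j)) = ∑_k (po z k / po q k) • ((c0 qi k / qi n) • om (Wd n N k))`
(`I_WSY`).  `I_UNQ`. -/
def I_FML : Prop := ∀ (n m : ℕ) (lam : List ℕ), 1 ≤ n → 1 ≤ m → IsPart m lam →
  ∀ (Lm : Lam1 →ₗ[K1] Lam1),
  (∀ j ∈ Icc 1 n, Lm (plG bt (sc (hk n j))) = eps n m lam j • plG bt (sc (hk n j))) →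
  ∀ E1 : ℕ → Lam1,
  (∀ j ∈ Icc 1 n, eN (fun i => C ((1 - ((qq ^ j)⁻¹) ^ (i + 1)) / (1 - qq ^ (i + 1))) * X1 i) n =
      ∑ k ∈ Icc 1 n, (po ((qq ^ j)⁻¹) k / po qq k) • E1 k) →
  ∀ k ∈ Icc 1 n, Lm (E1 k) =
    (qq ^ ((n.choose 2 : ℤ) - (((n - 1) * (n + m) : ℕ) : ℤ)) * sN (pM n) lam * (qi k / qi n)) •
      om (Wd n (n + m) k)

/-! ## Block U: the polynomial `s_λ(1, q, …, q^{n-1})` -/

/-- (module CFM) the coefficients of `s_λ(1, X, …, X^{n-1})`.
Proof.  `sN P lam = ∑_w sgn(w) ∏_a hZ P (λ_a - a + w(a))` (`Matrix.det_apply`, `Matrix.det_transpose`).  `h_k(1, X, …, X^{n-1})` is the sum of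
`X^{∑_b b c_b}` over the `c : Fin n → ℕ` with `∑ c = k` (`o_HZC` evaluated at `Y_b ↦ X^b` (`HNB.hm`), or induction on `n` with `HNB.ha`,
`HNB.hs`).  So the coefficient of `X^i` in `∏_a hZ P (α_a)` is `0` if some `α_a < 0`, and otherwise the number of the matrices
`N : Fin r → Fin n → ℕ` with row sums `α_a` and `∑_a ∑_b b N a b = i` (`Finset.prod_univ_sum`).  The row sums `λ_a - a + w(a)` have
sum `m`, so the condition on the total in `NC` is automatic; `wp n i` of the column sums is `∑_b b ∑_a N a b = i`. -/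
def I_CFM : Prop := ∀ (n m : ℕ) (lam : List ℕ), IsPart m lam → ∀ i : ℕ,
  (sN (PX n) lam).coeff i = ∑ w : Equiv.Perm (Fin lam.length), (((Equiv.Perm.sign w : ℤˣ) : ℤ) : ℚ) *
    (NC m (Fin lam.length) (Fin n) (pw lam.get w) (wp n i) : ℚ)

/-- (module UNI) `s_λ(1, X, …, X^{n-1})` is symmetric and unimodal.
Proof (uses `I_CFM`, `I_VIR`, `I_ORB`, `I_SPL`, `I_KOS`, `I_SL2`).  `r = lam.length`, `λ = lam.get` (antitone, sum `m`).
Vanishing: `∑_b b col_b ≤ (n-1) ∑ col_b = (n-1) m`.  Symmetry: reverse the order of the columns (`Fin.rev`):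
`∑_b (n-1-b) col_b = m(n-1) - ∑_b b col_b`.  Monotonicity for `2i < m(n-1)`: `G = Equiv.Perm (Fin m)`, `A = WS m (Fin r) (∃ w, sgn w = 1 ∧ pw λ w ·)`,
`B` the same with `sgn w = -1`, `C = WS m (Fin r) (· = λ)`, `Ω = WS m (Fin n) (wp n i)`, `Ω' = WS m (Fin n) (wp n (i+1))`, `f` from `I_SL2`.
By `I_SPL` and `I_ORB`: `∑_g (fx A g - fx B g) (fx A g⁻¹ - fx B g⁻¹) = m! ∑_{w,w'} sgn(w) sgn(w') NC … (pw λ w) (pw λ w') = m! = |G|`
(`I_KOS`), `∑_g (fx A g - fx B g) fx C g⁻¹ = m! ∑_w sgn(w) NC … (pw λ w) (· = λ) = m! > 0`, and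
`∑_g (fx A g - fx B g) fx Ω g⁻¹ = m! * coeff i`, the same for `Ω'` and `i+1`.  `I_VIR`, divide by `m!`. -/
def I_UNI : Prop := ∀ (n m : ℕ) (lam : List ℕ), 1 ≤ n → IsPart m lam →
  IsSU (m * (n - 1)) (sN (PX n) lam)

/-- (module NAT) the coefficients of `s_λ(1, X, …, X^{n-1})` are natural numbers.
Proof: `o_JTP` for the subsemiring of the polynomials satisfying `NatC` and `xs = [1, X, …, X^{n-1}]`. -/
def I_NAT : Prop := ∀ (n m : ℕ) (lam : List ℕ), IsPart m lam → NatC (sN (PX n) lam)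

/-- (module DVS) `[n]` divides `[m] s_λ([n])`.
Proof.  Write `H_k = hN (PX n) k`.  (1) `(1 - X^k) H_k = (1 - X^n) hN (PX (n+1)) (k-1)` for `k ≥ 1`: let `H'_k = hN (PX (n+1)) k`.  From
`PX (n+1) i = PX n i + (X^n)^{i+1}`: `H'_k = ∑_{c+d=k} X^{nc} H_d`, so `H'_k = H_k + X^n H'_{k-1}`; from
`PX (n+1) i = 1 + X^{i+1} PX n i`: `H'_k = ∑_{c+d=k} X^d H_d`, so `H'_k = X^k H_k + H'_{k-1}` (`HNB.ha`, `HNB.hs`).  Subtract.
(2) For natural numbers `μ_1, …, μ_r` with sum `m`: `1 - X^m = ∑_i X^{μ_1+…+μ_{i-1}} (1 - X^{μ_i})`, so `(1 - X^m) ∏ H_{μ_i}` is a multiple of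
`1 - X^n` (terms with `μ_i = 0` are `0`).
(3) `sN (PX n) lam` is a sum over permutations of `± ∏_i hZ (PX n) (λ_i - i + w(i))`, each product is `0` (negative index) or as in (2).
So `(1 - X^m) s_λ = (1 - X^n) s`; divide by `1 - X` (`mul_geom_sum`/`geom_sum_mul`). -/
def I_DVS : Prop := ∀ (n m : ℕ) (lam : List ℕ), 1 ≤ n → IsPart m lam →
  ∃ s : Polynomial ℚ, (∑ i ∈ range m, (Polynomial.X : Polynomial ℚ) ^ i) * sN (PX n) lam =
    (∑ i ∈ range n, (Polynomial.X : Polynomial ℚ) ^ i) * s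

/-- (module PQ) `[gcd(n,m)] s_λ([n]) / [n]` is a polynomial with natural coefficients.
Proof (uses `I_DVS`, `I_UNI`, `I_NAT`, `I_LMA`).  Write `[a] = ∑_{i<a} X^i`, `g = gcd n m ≥ 1`, `n = g b`.
(1) There are polynomials `u, v` with `u [n] + v [m] = [g]`: Euclid's algorithm, `[a+b] = [a] + X^a [b]` (the ideal generated by `[n]`, `[m]`
contains `[gcd]`; `Nat.gcd.induction` or strong induction, `[n] = [n mod m] + X^{n mod m} [m (n / m)]` and `[m] ∣ [m k]`).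
(2) `[g] s_λ = u [n] s_λ + v [m] s_λ = [n] (u s_λ + v s)` (`I_DVS`); `P = u s_λ + v s`.
(3) `[n] = [g] ∑_{i<b} X^{g i}` and `[g] ≠ 0`, so `s_λ = (∑_{i<b} X^{g i}) P`, and `I_LMA` gives `NatC P`. -/
def I_PQ : Prop := ∀ (n m : ℕ) (lam : List ℕ), 1 ≤ n → 1 ≤ m → IsPart m lam →
  ∃ P : Polynomial ℚ, NatC P ∧ P * (∑ i ∈ range n, (Polynomial.X : Polynomial ℚ) ^ i) =
    sN (PX n) lam * (∑ i ∈ range (Nat.gcd n m), (Polynomial.X : Polynomial ℚ) ^ i)

/-! ## Final step -/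

/-- (module FIN) assembly.
Proof (uses `I_OPI`, `I_EKI`, `I_FML`, `I_PQ`, `I_KAP`, `I_OMG`).  `F1 = Lm (E1 k)`; `LamAtInv (delta (nabla (E k))) F1`.  Put
`a = (n-1)(n+m) - C(n,2)` (`C(n,2) ≤ n(n-1) ≤ (n-1)(n+m)`); then `qq^a • F1 = (s_λ([n]) [k]/[n]) • om (Wd n (n+m) k)`.  The ring homomorphism
`Polynomial.aeval qq : ℚ[X] → K1` maps `sN (PX n) lam` to `sN (pM n) lam` (`HNB.hm`), `∑_{i<n} X^i` to `qi n`; so by `I_PQ`
`s_λ([n]) [g] = P(q) [n]`, `g = gcd n m`, `k = g k'`, `[k] = [g] ∑_{i<k'} q^{g i}`, and `s_λ([n]) [k]/[n] = P(q) ∑_{i<k'} q^{g i} ∈ N1`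
(`qi_ne`; `P(q) ∈ N1` because `P` has natural coefficients).  `om (Wd n (n+m) k)` is the sum over the words `v` of length `n` of
`(q^{k-1} kap (k-1) (n+m-1) v) • om (valw X1 v)`, with coefficient in `N1` (`I_KAP`) and `om (valw X1 v)` zero or `sc l`, `l` a
partition of `n` (`I_OMG`); so it is in `SPos1 n` (a lemma like `sw_mem` in `Pool/Agent/NEK/ABP.lean`), and `SPos1 n` is stable under
multiplication by elements of `N1` (`AddSubmonoid.closure_induction`). -/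
def I_FIN : Prop := I_OPI → I_EKI → I_FML → I_PQ → I_KAP → I_OMG → Stmt_final3

end Pool.Agent.NEI
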